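import Pool.Agent.Lib.MP_c603ed_co.Spec4

/-!
# MP_c603ed_co: the final theorem from the statements of Spec 1 - 4
-/

set_option autoImplicit false

namespace Pool.Agent.MPc603ed

/-- the final theorem from `S_big`, `S_small1`, `S_small2`, `S_transl` -/
theorem assemble (h1 : S_big) (h2 : S_small1) (h3 : S_small2) (h4 : S_transl) (a : ℕ)
    (ha : 2 ≤ a) (inst : DecidableEq (StV a)) (u v : StV a) (huv : u ≠ v) :
    ∃ p : (starGraph a).Walk u v, p.IsHamiltonian := by
  refine h4 a (by omega) ?_ inst u v huv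
  intro ι _ _ hc u' v' hu hv huv'
  rcases Nat.lt_or_ge a 4 with h | h
  · obtain rfl | rfl : a = 2 ∨ a = 3 := by omega
    · exact h2 ι hc u' v' hu hv huv'
    · exact h3 ι hc u' v' hu hv huv'
  · exact h1 (a - 1) ι (by omega) (by omega) u' v' hu hv huv'

end Pool.Agent.MPc603ed
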