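import Pool.Agent.Lib.MP_c603ed_co.Defs

/-!
# MP_c603ed_co: proved toolkit
-/

set_option autoImplicit false

namespace Pool.Agent.MPc603ed

open Lt

/-! ## Path covers -/

section HPs

variable {V W : Type} {R : V → V → Prop} {S S' : Set V}

theorem HPs.congr {ps : List (V × V)} (h : HPs R S ps) (hS : S = S') : HPs R S' ps := hS ▸ h

theorem HPs.nil : HPs R (∅ : Set V) [] :=
  ⟨[], List.Forall₂.nil, by simp, by simp⟩

theorem HPs.single (x : V) : HPs R ({x} : Set V) [(x, x)] :=
  ⟨[[x]], List.Forall₂.cons ⟨rfl, rfl, by simp⟩ List.Forall₂.nil, by simp, by simp⟩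

/-- the order of the list of pairs is irrelevant -/
theorem HPs.perm {ps qs : List (V × V)} (h : HPs R S ps) (hp : ps.Perm qs) : HPs R S qs := by
  obtain ⟨ls, h1, h2, h3⟩ := h
  obtain ⟨ls', h4, h5⟩ :
      ∃ ls', List.Forall₂ (fun (l : List V) (p : V × V) =>
        l.head? = some p.1 ∧ l.getLast? = some p.2 ∧ l.IsChain R) ls' qs ∧ ls.Perm ls' := by
    clear h2 h3
    induction hp generalizing ls with
    | nil => exact ⟨[], by simp, by cases h1; exact List.Perm.nil⟩
    | cons x _ ih =>
      cases h1 with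
      | cons ha hb =>
        obtain ⟨ls', h4, h5⟩ := ih _ hb
        exact ⟨_ :: ls', List.Forall₂.cons ha h4, h5.cons _⟩
    | swap x y l =>
      cases h1 with
      | cons ha hb =>
        cases hb with
        | cons hc hd =>
          exact ⟨_, List.Forall₂.cons hc (List.Forall₂.cons ha hd), List.Perm.swap _ _ _⟩
    | trans _ _ ih1 ih2 =>
      obtain ⟨l1, h4, h5⟩ := ih1 _ h1
      obtain ⟨l2, h6, h7⟩ := ih2 _ h4
      exact ⟨l2, h6, h5.trans h7⟩
  refine ⟨ls', h4, (h5.flatten.nodup_iff).1 h2, fun v => ?_⟩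
  rw [← h3 v]
  exact (h5.flatten.mem_iff).symm

/-- a path may be reversed -/
theorem HPs.rev {x y : V} {ps : List (V × V)} (hR : ∀ a b, R a b → R b a)
    (h : HPs R S ((x, y) :: ps)) : HPs R S ((y, x) :: ps) := by
  obtain ⟨ls, h1, h2, h3⟩ := h
  cases h1 with
  | cons ha hb =>
    rename_i l ls
    refine ⟨l.reverse :: ls, List.Forall₂.cons ⟨?_, ?_, ?_⟩ hb, ?_, ?_⟩
    · simpa using ha.2.1
    · simpa using ha.1
    · rw [List.isChain_reverse]
      exact ha.2.2.imp (fun a b hab => hR a b hab)
    · have hp : (l.reverse :: ls).flatten.Perm (l :: ls).flatten := by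
        simp only [List.flatten_cons]
        exact List.Perm.append_right _ (List.reverse_perm l)
      exact hp.nodup_iff.2 h2
    · intro v
      rw [← h3 v]
      simp

/-- the paths of `(x, y)` and `(z, w)` may be concatenated if `y` and `z` are adjacent -/
theorem HPs.merge {x y z w : V} {ps : List (V × V)} (hyz : R y z)
    (h : HPs R S ((x, y) :: (z, w) :: ps)) : HPs R S ((x, w) :: ps) := by
  obtain ⟨ls, h1, h2, h3⟩ := h
  cases h1 with
  | cons ha hb =>
    cases hb with
    | cons hc hd =>
      rename_i l1 l2 ls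
      refine ⟨(l1 ++ l2) :: ls, List.Forall₂.cons ⟨?_, ?_, ?_⟩ hd, ?_, ?_⟩
      · simp only
        rw [List.head?_append, ha.1]
        rfl
      · simp only
        rw [List.getLast?_append, hc.2.1]
        rfl
      · rw [List.isChain_append]
        refine ⟨ha.2.2, hc.2.2, ?_⟩
        intro a ha' b hb'
        rw [ha.2.1] at ha'
        rw [hc.1] at hb'
        simp only [Option.mem_def, Option.some.injEq] at ha' hb'
        rw [← ha', ← hb']
        exact hyz
      · simpa [List.flatten_cons, List.append_assoc] using h2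
      · intro v
        rw [← h3 v]
        simp [List.flatten_cons]

/-- disjoint sets may be united -/
theorem HPs.union {ps qs : List (V × V)} (h : HPs R S ps) (h' : HPs R S' qs)
    (hd : Disjoint S S') : HPs R (S ∪ S') (ps ++ qs) := by
  obtain ⟨ls, h1, h2, h3⟩ := h
  obtain ⟨ls', h1', h2', h3'⟩ := h'
  refine ⟨ls ++ ls', List.rel_append h1 h1', ?_, ?_⟩
  · rw [List.flatten_append, List.nodup_append]
    refine ⟨h2, h2', ?_⟩
    intro a ha b hb hab
    subst hab
    exact Set.disjoint_left.1 hd ((h3 a).1 ha) ((h3' a).1 hb)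
  · intro v
    rw [List.flatten_append, List.mem_append, h3, h3']
    rfl

/-- path covers are transported by maps which are injective on `S` and preserve the relation -/
theorem HPs.map {R' : W → W → Prop} {f : V → W} {ps : List (V × V)} (h : HPs R S ps)
    (hf : Set.InjOn f S) (hR : ∀ a ∈ S, ∀ b ∈ S, R a b → R' (f a) (f b)) :
    HPs R' (f '' S) (ps.map (Prod.map f f)) := by
  obtain ⟨ls, h1, h2, h3⟩ := h
  refine ⟨ls.map (List.map f), ?_, ?_, ?_⟩
  · have h4 : ∀ l ∈ ls, ∀ v ∈ l, v ∈ S := fun l hl v hv =>
      (h3 v).1 (List.mem_flatten.2 ⟨l, hl, hv⟩)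
    clear h2 h3
    induction h1 with
    | nil => exact List.Forall₂.nil
    | cons ha hb ih =>
      rename_i l p ls ps
      refine List.Forall₂.cons ⟨?_, ?_, ?_⟩ (ih fun l hl => h4 l (List.mem_cons_of_mem _ hl))
      · rw [List.head?_map, ha.1]
        rfl
      · rw [List.getLast?_map, ha.2.1]
        rfl
      · rw [List.isChain_map]
        have h5 : ∀ v ∈ l, v ∈ S := h4 l List.mem_cons_self
        exact ha.2.2.imp_of_mem_imp (fun a b ha' hb' hab => hR a (h5 a ha') b (h5 b hb') hab)
  · rw [← List.map_flatten]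
    exact List.Nodup.map_on (fun a ha b hb hab => hf ((h3 a).1 ha) ((h3 b).1 hb) hab) h2
  · intro w
    rw [← List.map_flatten, List.mem_map]
    constructor
    · rintro ⟨v, hv, rfl⟩
      exact ⟨v, (h3 v).1 hv, rfl⟩
    · rintro ⟨v, hv, rfl⟩
      exact ⟨v, (h3 v).2 hv, rfl⟩

end HPs

/-! ## Symmetry -/

theorem sadj_symm {L ι : Type} [DecidableEq ι] {v w : L × (ι → L)} (h : sadj v w) : sadj w v := by
  obtain ⟨i, h1, h2⟩ := h
  refine ⟨i, ?_, ?_⟩
  · subst h2
    simpa using h1.symm
  · subst h2
    ext x
    · simp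
    · by_cases hx : x = i
      · subst hx
        simp
      · simp [Function.update_of_ne hx]

theorem swp_apply_left {ι : Type} [DecidableEq ι] (s : ι → Bool) (p i : ι) : swp s p i p = s i := by
  simp [swp]

theorem swp_apply_right {ι : Type} [DecidableEq ι] (s : ι → Bool) (p i : ι) : swp s p i i = s p := by
  simp [swp]

theorem swp_apply_of_ne {ι : Type} [DecidableEq ι] (s : ι → Bool) {p i x : ι} (h1 : x ≠ p)
    (h2 : x ≠ i) : swp s p i x = s x := by
  simp [swp, Equiv.swap_apply_of_ne_of_ne h1 h2]

theorem swp_apply {ι : Type} [DecidableEq ι] (s : ι → Bool) (p i x : ι) :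
    swp s p i x = if x = p then s i else if x = i then s p else s x := by
  unfold swp
  simp only [Function.comp_apply, Equiv.swap_apply_def]
  split_ifs <;> rfl

theorem swp_swp {ι : Type} [DecidableEq ι] (s : ι → Bool) (p i : ι) : swp (swp s p i) p i = s := by
  funext x
  simp [swp]

theorem swp_comm {ι : Type} [DecidableEq ι] (s : ι → Bool) (p i : ι) : swp s p i = swp s i p := by
  unfold swp
  rw [Equiv.swap_comm]

theorem gadj_symm {ι : Type} [DecidableEq ι] {v w : GV ι} (h : gadj v w) : gadj w v := by
  cases h with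
  | out s p => exact gadj.inn s p
  | inn s p => exact gadj.out s p
  | sw s p i hpi =>
    have h1 := gadj.sw (swp s p i) p i (by
      rw [swp_apply_left, swp_apply_right]
      exact hpi.symm)
    rwa [swp_swp] at h1

/-! ## Balanced words -/

theorem Bal.swp {ι : Type} [Fintype ι] [DecidableEq ι] {s : ι → Bool} (h : Bal s) (p i : ι) :
    Bal (swp s p i) := by
  unfold Bal at *
  have key : ∀ b : Bool, (Finset.univ.filter (fun x => MPc603ed.swp s p i x = b)).card
      = (Finset.univ.filter (fun x => s x = b)).card := by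
    intro b
    apply Finset.card_bij (fun x _ => Equiv.swap p i x)
    · intro a ha
      rw [Finset.mem_filter] at ha ⊢
      exact ⟨Finset.mem_univ _, ha.2⟩
    · intro a _ b _ hab
      exact (Equiv.swap p i).injective hab
    · intro b hb
      refine ⟨Equiv.swap p i b, ?_, by simp⟩
      rw [Finset.mem_filter] at hb ⊢
      refine ⟨Finset.mem_univ _, ?_⟩
      simpa [MPc603ed.swp] using hb.2
  rw [key, key, h]

/-- the number of positions with labels `(x, y)` in the words `s`, `t` -/
def cnt {ι : Type} [Fintype ι] (s t : ι → Bool) (x y : Bool) : ℕ :=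
  (Finset.univ.filter (fun i => s i = x ∧ t i = y)).card

theorem Bal.card {ι : Type} [Fintype ι] [DecidableEq ι] {n : ℕ} (hc : Fintype.card ι = 2 * n + 2) {s : ι → Bool}
    (h : Bal s) (b : Bool) : (Finset.univ.filter (fun x => s x = b)).card = n + 1 := by
  have h1 : (Finset.univ.filter (fun x => s x = true)).card
      + (Finset.univ.filter (fun x => s x = false)).card = 2 * n + 2 := by
    rw [← hc, ← Finset.card_univ, ← Finset.card_union_of_disjoint]
    · congr 1
      ext x
      simp
    · rw [Finset.disjoint_filter]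
      intro x _ h1 h2
      rw [h1] at h2
      exact absurd h2 (by simp)
  unfold Bal at h
  cases b <;> omega

theorem cnt_row {ι : Type} [Fintype ι] [DecidableEq ι] (s t : ι → Bool) (x : Bool) :
    cnt s t x true + cnt s t x false = (Finset.univ.filter (fun i => s i = x)).card := by
  unfold cnt
  rw [← Finset.card_union_of_disjoint]
  · congr 1
    ext i
    simp only [Finset.mem_union, Finset.mem_filter, Finset.mem_univ, true_and]
    cases t i <;> simp
  · rw [Finset.disjoint_filter]
    rintro i _ ⟨_, h1⟩ ⟨_, h2⟩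
    rw [h1] at h2
    exact absurd h2 (by simp)

theorem cnt_swap {ι : Type} [Fintype ι] (s t : ι → Bool) (x y : Bool) :
    cnt s t x y = cnt t s y x := by
  unfold cnt
  congr 1
  ext i
  simp [and_comm]

/-- all label counts of two balanced words are determined by one of them -/
theorem cnt_bal {ι : Type} [Fintype ι] [DecidableEq ι] {n : ℕ} (hc : Fintype.card ι = 2 * n + 2)
    {s t : ι → Bool} (hs : Bal s) (ht : Bal t) (l : Bool) :
    cnt s t (!l) l = cnt s t l (!l) ∧ cnt s t l l + cnt s t l (!l) = n + 1 ∧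
      cnt s t (!l) (!l) + cnt s t l (!l) = n + 1 := by
  have h1 := cnt_row s t true
  have h2 := cnt_row s t false
  have h3 := cnt_row t s true
  have h4 := cnt_row t s false
  rw [hs.card hc] at h1 h2
  rw [ht.card hc] at h3 h4
  rw [cnt_swap t s, cnt_swap t s] at h3 h4
  cases l
  · simp only [Bool.not_false]
    omega
  · simp only [Bool.not_true]
    omega

/-! ## Words -/

theorem length_UZ (k : ℕ) : (UZ k).length = 2 * k := by
  induction k with
  | zero => rfl
  | succ k ih => simp only [UZ, List.length_cons, ih]; ring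

theorem length_ZU (k : ℕ) : (ZU k).length = 2 * k := by
  induction k with
  | zero => rfl
  | succ k ih => simp only [ZU, List.length_cons, ih]; ring

theorem UZ_add (k l : ℕ) : UZ (k + l) = UZ k ++ UZ l := by
  induction k with
  | zero => simp [UZ]
  | succ k ih =>
    rw [Nat.succ_add]
    simp only [UZ, List.cons_append, ih]

theorem ZU_add (k l : ℕ) : ZU (k + l) = ZU k ++ ZU l := by
  induction k with
  | zero => simp [ZU]
  | succ k ih =>
    rw [Nat.succ_add]
    simp only [ZU, List.cons_append, ih]

theorem UZ_U (k : ℕ) : UZ k ++ [U] = U :: ZU k := by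
  induction k with
  | zero => rfl
  | succ k ih => simp only [UZ, ZU, List.cons_append, ih]

theorem ZU_Z (k : ℕ) : ZU k ++ [Z] = Z :: UZ k := by
  induction k with
  | zero => rfl
  | succ k ih => simp only [UZ, ZU, List.cons_append, ih]

theorem UZ_U_app (k : ℕ) (l : List Lt) : UZ k ++ U :: l = U :: (ZU k ++ l) := by
  have := congrArg (· ++ l) (UZ_U k)
  simpa using this

theorem ZU_Z_app (k : ℕ) (l : List Lt) : ZU k ++ Z :: l = Z :: (UZ k ++ l) := by
  have := congrArg (· ++ l) (ZU_Z k)
  simpa using this

theorem Dy.app {a b : List Lt} (ha : Dy a) (hb : Dy b) : Dy (a ++ b) := by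
  induction ha with
  | nil => simpa using hb
  | cons a1 b1 d h1 hd _ _ ih2 =>
    have h := Dy.cons a1 (b1 ++ b) d h1 hd ih2
    simpa [List.append_assoc] using h

theorem Dy.uz (k : ℕ) : Dy (UZ k) := by
  induction k with
  | zero => exact Dy.nil
  | succ k ih => simpa [UZ] using Dy.cons [] (UZ k) Z Dy.nil (by decide) ih

theorem Bl.dy {y : List Lt} {k : ℕ} (h : Bl y k) : Dy y := by
  induction h with
  | nil => exact Dy.nil
  | cons a b d k ha hd _ ih => exact Dy.cons a b d ha hd ih

theorem Bl.uz (k : ℕ) : Bl (UZ k) k := by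
  induction k with
  | zero => exact Bl.nil
  | succ k ih => simpa [UZ] using Bl.cons [] (UZ k) Z k Dy.nil (by decide) ih

theorem Bl.app {a b : List Lt} {k l : ℕ} (ha : Bl a k) (hb : Bl b l) : Bl (a ++ b) (k + l) := by
  induction ha with
  | nil => simpa using hb
  | cons a1 b1 d k h1 hd _ ih =>
    have h := Bl.cons a1 (b1 ++ b) d _ h1 hd ih
    have e : k + l + 1 = k + 1 + l := by ring
    rw [← e]
    simpa [List.append_assoc] using h

theorem Bl.prime {a : List Lt} {d : Lt} (ha : Dy a) (hd : d ≠ U) : Bl (U :: (a ++ [d])) 1 := by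
  simpa using Bl.cons a [] d 0 ha hd Bl.nil

theorem Bl.yl {n i : ℕ} (hi : i + 1 ≤ n) : Bl (yl n i) (n - i) := by
  have h := Bl.cons (UZ i) (UZ (n - 1 - i)) Z _ (Dy.uz i) (by decide) (Bl.uz (n - 1 - i))
  have e : n - 1 - i + 1 = n - i := by omega
  rw [e] at h
  exact h

theorem length_yl {n i : ℕ} (hi : i + 1 ≤ n) : (yl n i).length = 2 * n := by
  simp only [MPc603ed.yl, List.length_cons, List.length_append, length_UZ]
  omega

theorem yl_zero {n : ℕ} (hn : 1 ≤ n) : yl n 0 = UZ n := by
  obtain ⟨k, rfl⟩ : ∃ k, n = k + 1 := ⟨n - 1, by omega⟩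
  simp [MPc603ed.yl, UZ]

/-! ## Writing lists on the circle -/

theorem put_apply {n : ℕ} (e : ZMod (2 * n + 1)) (l : List Lt) (x : ZMod (2 * n + 1)) :
    put e l x = l.getD (x - e).val U := rfl

theorem put_add {n : ℕ} (e : ZMod (2 * n + 1)) (l : List Lt) {k : ℕ} (hk : k < 2 * n + 1) :
    put e l (e + (k : ℕ)) = l.getD k U := by
  rw [put_apply]
  congr 1
  rw [add_sub_cancel_left, ZMod.val_natCast, Nat.mod_eq_of_lt hk]

/-- rotation -/
theorem put_rotate {n : ℕ} (e : ZMod (2 * n + 1)) (c : Lt) (l : List Lt) (hl : l.length = 2 * n) :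
    put (e + 1) (l ++ [c]) = put e (c :: l) := by
  funext x
  obtain ⟨k, hk, rfl⟩ : ∃ k : ℕ, k < 2 * n + 1 ∧ x = e + (k : ℕ) := by
    refine ⟨(x - e).val, ZMod.val_lt _, ?_⟩
    rw [ZMod.natCast_val, ZMod.cast_id', id]
    ring
  rw [put_add e _ hk]
  rcases Nat.eq_zero_or_pos k with rfl | hpos
  · have h1 : e + ((0 : ℕ) : ZMod (2 * n + 1)) = e + 1 + ((2 * n : ℕ) : ZMod (2 * n + 1)) := by
      have h2 : ((2 * n + 1 : ℕ) : ZMod (2 * n + 1)) = 0 := ZMod.natCast_self _
      push_cast at h2 ⊢
      linear_combination -h2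
    rw [h1, put_add _ _ (by omega)]
    rw [List.getD_append_right _ _ _ _ (by omega), hl]
    simp
  · obtain ⟨k, rfl⟩ : ∃ j, k = j + 1 := ⟨k - 1, by omega⟩
    have h1 : e + ((k + 1 : ℕ) : ZMod (2 * n + 1)) = e + 1 + (k : ℕ) := by
      push_cast
      ring
    rw [h1, put_add _ _ (by omega)]
    rw [List.getD_append _ _ _ _ (by omega)]
    simp

/-- rotation by several places -/
theorem put_rotate_list {n : ℕ} (e : ZMod (2 * n + 1)) (l m : List Lt)
    (hl : l.length + m.length = 2 * n + 1) :
    put (e + ((m.length : ℕ) : ZMod (2 * n + 1))) (l ++ m) = put e (m ++ l) := by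
  induction m generalizing e l with
  | nil => simp
  | cons c m ih =>
    simp only [List.length_cons] at hl
    have h1 := ih (e + 1) (l ++ [c]) (by simp; omega)
    have h2 : (l ++ [c]) ++ m = l ++ c :: m := by simp
    rw [h2] at h1
    have h3 : e + (((c :: m).length : ℕ) : ZMod (2 * n + 1))
        = e + 1 + ((m.length : ℕ) : ZMod (2 * n + 1)) := by
      simp only [List.length_cons]
      push_cast
      ring
    rw [h3, h1, ← List.append_assoc, put_rotate e c (m ++ l) (by simp; omega)]
    rfl

/-- replacing a letter is a swap with the front letter -/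
theorem sadj_put {n : ℕ} (e : ZMod (2 * n + 1)) (l m : List Lt) (x y : Lt) (hxy : x ≠ y)
    (hl : l.length + 1 + m.length = 2 * n + 1) :
    sadj ((y, put e (l ++ x :: m)) : Str n) (x, put e (l ++ y :: m)) := by
  have h1 : put e (l ++ x :: m) (e + (l.length : ℕ)) = x := by
    rw [put_add _ _ (by omega), List.getD_append_right _ _ _ _ le_rfl]
    simp
  refine ⟨e + (l.length : ℕ), ?_, ?_⟩
  · simpa [h1] using hxy
  · refine Prod.ext ?_ ?_
    · exact h1.symm
    · funext z
      obtain ⟨k, hk, rfl⟩ : ∃ k : ℕ, k < 2 * n + 1 ∧ z = e + (k : ℕ) := by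
        refine ⟨(z - e).val, ZMod.val_lt _, ?_⟩
        rw [ZMod.natCast_val, ZMod.cast_id', id]
        ring
      by_cases hkl : k = l.length
      · subst hkl
        simp only [Function.update_self]
        rw [put_add _ _ hk, List.getD_append_right _ _ _ _ le_rfl]
        simp
      · have hne : e + ((k : ℕ) : ZMod (2 * n + 1)) ≠ e + ((l.length : ℕ) : ZMod (2 * n + 1)) := by
          intro h
          have h2 := add_left_cancel h
          have h3 := congrArg ZMod.val h2
          rw [ZMod.val_natCast, ZMod.val_natCast, Nat.mod_eq_of_lt hk,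
            Nat.mod_eq_of_lt (by omega)] at h3
          exact hkl h3
        simp only [Function.update_of_ne hne]
        rw [put_add _ _ hk, put_add _ _ hk]
        rcases lt_or_gt_of_ne hkl with h | h
        · rw [List.getD_append _ _ _ _ h, List.getD_append _ _ _ _ h]
        · rw [List.getD_append_right _ _ _ _ (by omega), List.getD_append_right _ _ _ _ (by omega)]
          obtain ⟨j, hj⟩ : ∃ j, k - l.length = j + 1 := ⟨k - l.length - 1, by omega⟩
          rw [hj]
          simp

/-! ## More on path covers -/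

section HPs2

variable {V : Type} {R : V → V → Prop} {S : Set V}

/-- any of the paths may be reversed -/
theorem HPs.flips {ps qs : List (V × V)} (hR : ∀ a b, R a b → R b a) (h : HPs R S ps)
    (hq : List.Forall₂ (fun p q => q = p ∨ q = p.swap) ps qs) : HPs R S qs := by
  have key : ∀ (done : List (V × V)), HPs R S (ps ++ done) → HPs R S (qs ++ done) := by
    clear h
    induction hq with
    | nil => intro done h; exact h
    | @cons p q ps qs hpq _ ih =>
      intro done h
      have h1 : HPs R S (ps ++ (p :: done)) := by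
        refine h.perm ?_
        simp [(List.perm_middle (a := p) (l₁ := ps) (l₂ := done)).symm]
      have h2 := ih (p :: done) h1
      have h3 : HPs R S (p :: (qs ++ done)) := by
        refine h2.perm ?_
        simp
      rcases hpq with rfl | rfl
      · exact h3
      · obtain ⟨x, y⟩ := p
        exact h3.rev hR
  have := key [] (by simpa using h)
  simpa using this

/-- a chain of paths may be concatenated -/
theorem HPs.chain {p : V × V} {ps rest : List (V × V)} (h : HPs R S (p :: (ps ++ rest)))
    (hc : List.IsChain (fun a b => R a.2 b.1) (p :: ps)) :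
    HPs R S ((p.1, ((p :: ps).getLast (by simp)).2) :: rest) := by
  induction ps generalizing p with
  | nil => simpa using h
  | cons q ps ih =>
    rw [List.isChain_cons_cons] at hc
    obtain ⟨x, y⟩ := p
    obtain ⟨z, w⟩ := q
    have h1 : HPs R S ((x, w) :: (ps ++ rest)) := h.merge hc.1
    have h2 : List.IsChain (fun a b : V × V => R a.2 b.1) ((x, w) :: ps) := by
      cases ps with
      | nil => simp
      | cons r ps =>
        rw [List.isChain_cons_cons]
        have h3 := hc.2
        rw [List.isChain_cons_cons] at h3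
        exact ⟨h3.1, h3.2⟩
    have h4 := ih h1 h2
    cases ps with
    | nil => simpa using h4
    | cons r ps => simpa using h4

end HPs2

/-! ## Finiteness of the set of states -/

instance finite_St (n m : ℕ) : Finite (St n m) := by
  have hf : Function.Injective (fun s : St n m =>
      ((s.1.1, ⟨s.1.2, s.2.2.2.1⟩) : Lt × List.Vector Lt (2 * n))) := by
    intro s t h
    have h1 := congrArg Prod.fst h
    have h2 := congrArg Prod.snd h
    apply Subtype.ext
    refine Prod.ext h1 ?_
    exact congrArg Subtype.val h2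
  exact Finite.of_injective _ hf

/-- a state with root letter `T` -/
def mkT (n : ℕ) (y : List Lt) (hy : Dy y) (hl : y.length = 2 * n) (hT : y.count T = 0) : St n 1 :=
  ⟨(T, y), by simp, hy, hl, by simp [hT]⟩

/-- a state with root letter `Z` and a letter `T` in the word -/
def mkZ (n : ℕ) (y : List Lt) (hy : Dy y) (hl : y.length = 2 * n) (hT : y.count T = 1) : St n 1 :=
  ⟨(Z, y), by simp, hy, hl, by simp [hT]⟩

/-- a state without letter `T` -/
def mk0 (n : ℕ) (y : List Lt) (hy : Dy y) (hl : y.length = 2 * n) (hT : y.count T = 0) : St n 0 :=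
  ⟨(Z, y), by simp, hy, hl, by simp [hT]⟩

theorem count_T_UZ (k : ℕ) : (UZ k).count T = 0 := by
  induction k with
  | zero => rfl
  | succ k ih => simp [UZ, ih]

theorem count_T_ZU (k : ℕ) : (ZU k).count T = 0 := by
  induction k with
  | zero => rfl
  | succ k ih => simp [ZU, ih]

/-! ## Small facts on `sig`, `dec`, `SameCycle` -/

theorem sig_P {n m : ℕ} (ρ : Equiv.Perm (St n m)) (e : ZMod (2 * n + 1)) (s : St n m) :
    sig ρ (false, e, s) = (true, e + 1, ρ s) := rfl

theorem sig_Q {n m : ℕ} (ρ : Equiv.Perm (St n m)) (e : ZMod (2 * n + 1)) (s : St n m) :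
    sig ρ (true, e, s) = (false, e, s) := rfl

theorem dec_P {n m : ℕ} (e : ZMod (2 * n + 1)) (s : St n m) :
    dec ((false, e, s) : AV n m) = (U, put e (s.1.1 :: s.1.2)) := rfl

theorem dec_Q {n m : ℕ} (e : ZMod (2 * n + 1)) (s : St n m) :
    dec ((true, e, s) : AV n m) = (s.1.1, put e (U :: s.1.2)) := rfl

/-- a function which is constant along `ρ` is constant on cycles -/
theorem sameCycle_const {α β : Type} {ρ : Equiv.Perm α} {g : α → β} (hg : ∀ s, g (ρ s) = g s)
    {s t : α} (h : ρ.SameCycle s t) : g s = g t := by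
  obtain ⟨i, rfl⟩ := h
  have h1 : ∀ (k : ℕ) (s : α), g ((ρ ^ k) s) = g s := by
    intro k
    induction k with
    | zero => intro s; rfl
    | succ k ih =>
      intro s
      rw [pow_succ, Equiv.Perm.mul_apply, ih, hg]
  have h2 : ∀ (k : ℕ) (s : α), g ((ρ ^ (-(k : ℤ))) s) = g s := by
    intro k s
    have h3 := h1 k ((ρ ^ (-(k : ℤ))) s)
    rw [zpow_neg, zpow_natCast] at h3 ⊢
    rw [← Equiv.Perm.mul_apply, mul_inv_cancel, Equiv.Perm.one_apply] at h3
    exact h3.symm
  rcases Int.eq_nat_or_neg i with ⟨k, rfl | rfl⟩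
  · rw [zpow_natCast, h1]
  · rw [h2]

/-- writing a list from position `e = |m|` on -/
theorem put_eq_put_zero {n : ℕ} (l m : List Lt) (hl : l.length + m.length = 2 * n + 1) :
    put ((m.length : ℕ) : ZMod (2 * n + 1)) (l ++ m) = put 0 (m ++ l) := by
  have h := put_rotate_list (0 : ZMod (2 * n + 1)) l m hl
  rwa [zero_add] at h

end Pool.Agent.MPc603ed
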