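import Pool.Agent.Lib.MP_c603ed_co.Basic

/-!
# MP_c603ed_co: proved toolkit, part 2
-/

set_option autoImplicit false

namespace Pool.Agent.MPc603ed

open Lt

/-- `(a b)^k` -/
def rp {α : Type} (a b : α) : ℕ → List α
  | 0 => []
  | k + 1 => a :: b :: rp a b k

theorem length_rp {α : Type} (a b : α) (k : ℕ) : (rp a b k).length = 2 * k := by
  induction k with
  | zero => rfl
  | succ k ih => simp only [rp, List.length_cons, ih]; ring

theorem count_rp {α : Type} [DecidableEq α] (a b c : α) (k : ℕ) :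
    (rp a b k).count c = (if a = c then k else 0) + (if b = c then k else 0) := by
  induction k with
  | zero => simp [rp]
  | succ k ih =>
    simp only [rp, List.count_cons, ih, beq_iff_eq]
    split_ifs <;> omega

theorem UZ_eq_rp (k : ℕ) : UZ k = rp U Z k := by
  induction k with
  | zero => rfl
  | succ k ih => simp only [UZ, rp, ih]

theorem ZU_eq_rp (k : ℕ) : ZU k = rp Z U k := by
  induction k with
  | zero => rfl
  | succ k ih => simp only [ZU, rp, ih]

theorem forall2_rp {α β : Type} {r : α → β → Prop} {a b : α} {c d : β} (h1 : r a c) (h2 : r b d)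
    (k : ℕ) : List.Forall₂ r (rp a b k) (rp c d k) := by
  induction k with
  | zero => exact List.Forall₂.nil
  | succ k ih => exact List.Forall₂.cons h1 (List.Forall₂.cons h2 ih)

theorem forall2_UZ {α : Type} {r : α → Lt → Prop} {a b : α} (h1 : r a U) (h2 : r b Z) (k : ℕ) :
    List.Forall₂ r (rp a b k) (UZ k) := by
  rw [UZ_eq_rp]
  exact forall2_rp h1 h2 k

theorem forall2_ZU {α : Type} {r : α → Lt → Prop} {a b : α} (h1 : r a Z) (h2 : r b U) (k : ℕ) :
    List.Forall₂ r (rp a b k) (ZU k) := by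
  rw [ZU_eq_rp]
  exact forall2_rp h1 h2 k

section

variable {ι : Type} [Fintype ι] [DecidableEq ι]

/-- the three parts -/
theorem HPs.parts {j : ι} {l : Bool} {ps qs rs : List (GV ι × GV ι)} (h1 : HPs gadj (PA j) ps)
    (h2 : HPs gadj (PB j l) qs) (h3 : HPs gadj (PB j (!l)) rs) :
    HPs gadj {w : GV ι | Bal w.1} (ps ++ qs ++ rs) := by
  have h12 := h1.union h2 (by
    rw [Set.disjoint_left]
    rintro v ⟨_, hv⟩ ⟨_, _, hv'⟩
    exact hv' hv)
  have h123 := h12.union h3 (by
    rw [Set.disjoint_left]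
    rintro v (⟨_, hv⟩ | ⟨_, hv, _⟩) ⟨_, hv1, hv2⟩
    · exact hv2 hv
    · rw [hv] at hv1
      cases l <;> simp at hv1)
  refine h123.congr ?_
  ext v
  simp only [PA, PB, Set.mem_union, Set.mem_ofPred_eq]
  constructor
  · rintro ((⟨h, _⟩ | ⟨h, _⟩) | ⟨h, _⟩) <;> exact h
  · intro h
    by_cases hv : v.2 = some j
    · exact Or.inl (Or.inl ⟨h, hv⟩)
    · by_cases hl : v.1 j = l
      · exact Or.inl (Or.inr ⟨h, hl, hv⟩)
      · refine Or.inr ⟨h, ?_, hv⟩
        cases l <;> cases hj : v.1 j <;> simp_all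

/-- adding a single vertex -/
theorem HPs.addv {V : Type} {R : V → V → Prop} {S : Set V} {v : V} {ps : List (V × V)}
    (h : HPs R (S \ {v}) ps) (hv : v ∈ S) : HPs R S (ps ++ [(v, v)]) := by
  have h1 := h.union (HPs.single v) (by
    rw [Set.disjoint_left]
    rintro w ⟨_, hw⟩ hw'
    exact hw hw')
  refine h1.congr ?_
  ext w
  simp only [Set.mem_union, Set.mem_sdiff, Set.mem_singleton_iff]
  constructor
  · rintro (h | rfl)
    · exact h.1
    · exact hv
  · intro h
    by_cases hw : w = v
    · exact Or.inr hw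
    · exact Or.inl ⟨h, hw⟩

theorem HP.symm {u v : GV ι} (h : HP u v) : HP v u := HPs.rev (fun _ _ => gadj_symm) h

/-- the special vertices and the labels: an entry `Sum.inr i` of the pattern `W` stands for the
position `i`, an entry `Sum.inl (a, b)` for a position `i ≠ j` outside the list `sp` with `s i = a`,
`t i = b`.  `LetterOK s t j sp l v x c`: in the string of the vertex `v` (part `B_l`) the letter at every
such position is `c`. -/
def LetterOK (s t : ι → Bool) (j : ι) (sp : List ι) (l : Bool) (v : GV ι) :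
    ((Bool × Bool) ⊕ ι) → Lt → Prop
  | Sum.inr i, c => (if v.2 = some i then T else tl l (v.1 i)) = c
  | Sum.inl (a, b), c => ∀ i, i ≠ j → i ∉ sp → s i = a → t i = b →
      (if v.2 = some i then T else tl l (v.1 i)) = c

/-- the same for the part `A` -/
def LetterOKA (s t : ι → Bool) (j : ι) (sp : List ι) (l : Bool) (v : GV ι) :
    ((Bool × Bool) ⊕ ι) → Lt → Prop
  | Sum.inr i, c => tl l (v.1 i) = c
  | Sum.inl (a, b), c => ∀ i, i ≠ j → i ∉ sp → s i = a → t i = b → tl l (v.1 i) = c

/-- the arrangement `e` fits the pattern `W` -/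
def Fits {n : ℕ} (e : Option (ZMod (2 * n + 1)) ≃ ι) (s t : ι → Bool) (sp : List ι)
    (W : List ((Bool × Bool) ⊕ ι)) : Prop :=
  ∀ x : ZMod (2 * n + 1), (∀ i, W[x.val]? = some (Sum.inr i) → e (some x) = i) ∧
    (∀ a b, W[x.val]? = some (Sum.inl (a, b)) →
      s (e (some x)) = a ∧ t (e (some x)) = b ∧ e (some x) ∉ sp)

theorem tl_self (l : Bool) : tl l l = Z := by simp [tl]

theorem tl_not (l : Bool) : tl l (!l) = U := by cases l <;> simp [tl]

end

end Pool.Agent.MPc603ed
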