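import Pool.Agent.Lib.MP_c603ed_co.Basic2

/-!
# MP_c603ed_co: counting in the patterns `W : List ((Bool × Bool) ⊕ ι)`

`List.count` on sums uses the instance `Sum.instBEq`, which is not known to be lawful.
-/

set_option autoImplicit false

namespace Pool.Agent.MPc603ed

instance instLawfulBEqSum {α β : Type} [BEq α] [BEq β] [LawfulBEq α] [LawfulBEq β] :
    LawfulBEq (α ⊕ β) where
  eq_of_beq := by
    intro a b h
    cases a <;> cases b
    · exact congrArg Sum.inl (eq_of_beq h)
    · exact absurd h (by simp [BEq.beq, Sum.instBEq.beq])
    · exact absurd h (by simp [BEq.beq, Sum.instBEq.beq])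
    · exact congrArg Sum.inr (eq_of_beq h)
  rfl := by
    intro a
    cases a
    · change Sum.instBEq.beq _ _ = true
      simp [Sum.instBEq.beq]
    · change Sum.instBEq.beq _ _ = true
      simp [Sum.instBEq.beq]

theorem count_beq {α : Type} (i1 i2 : BEq α) [h1 : @LawfulBEq α i1] [h2 : @LawfulBEq α i2]
    (l : List α) (a : α) : @List.count α i1 a l = @List.count α i2 a l := by
  have h : i1 = i2 := lawful_beq_subsingleton i1 i2
  subst h
  rfl

/-- `count_rp` for the patterns -/
theorem count_rp_sum {ι : Type} [DecidableEq ι] (a b c : (Bool × Bool) ⊕ ι) (k : ℕ) :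
    (rp a b k).count c = (if a = c then k else 0) + (if b = c then k else 0) := by
  induction k with
  | zero => simp [rp]
  | succ k ih =>
    simp only [rp, List.count_cons, ih, beq_iff_eq]
    split_ifs <;> omega

/-- `List.count_cons` for the patterns, with propositional conditions -/
theorem count_cons_sum {ι : Type} [DecidableEq ι] (a c : (Bool × Bool) ⊕ ι)
    (W : List ((Bool × Bool) ⊕ ι)) :
    (a :: W).count c = W.count c + (if a = c then 1 else 0) := by
  rw [List.count_cons]
  simp only [beq_iff_eq]

end Pool.Agent.MPc603ed
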