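import Pool.Agent.Lib.MP_c603ed_co.Basic2

/-!
# MP_c603ed_co: tools for the classes of pairs
-/

set_option autoImplicit false

namespace Pool.Agent.MPc603ed

section HPsAux

variable {V : Type} {R : V → V → Prop} {S : Set V}

/-- pull the member with index `k` to the front -/
theorem HPs.pull {ps : List (V × V)} (h : HPs R S ps) (k : ℕ) (hk : k < ps.length) :
    HPs R S (ps[k] :: ps.eraseIdx k) :=
  h.perm (List.getElem_cons_eraseIdx_perm hk).symm

/-- extend the first path by the path with index `k` -/
theorem HPs.ext {x y : V} {ps : List (V × V)} (h : HPs R S ((x, y) :: ps)) (k : ℕ)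
    (hk : k < ps.length) (hR : R y (ps[k]).1) : HPs R S ((x, (ps[k]).2) :: ps.eraseIdx k) := by
  have h1 : HPs R S ((x, y) :: ((ps[k]).1, (ps[k]).2) :: ps.eraseIdx k) :=
    h.perm (List.Perm.cons _ (List.getElem_cons_eraseIdx_perm hk).symm)
  exact h1.merge hR

/-- extend the first path by the reversed path with index `k` -/
theorem HPs.ext' (hs : ∀ a b, R a b → R b a) {x y : V} {ps : List (V × V)}
    (h : HPs R S ((x, y) :: ps)) (k : ℕ)
    (hk : k < ps.length) (hR : R y (ps[k]).2) : HPs R S ((x, (ps[k]).1) :: ps.eraseIdx k) := by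
  have h1 : HPs R S (((ps[k]).1, (ps[k]).2) :: (x, y) :: ps.eraseIdx k) :=
    h.perm ((List.Perm.cons _ (List.getElem_cons_eraseIdx_perm hk).symm).trans
      (List.Perm.swap _ _ _))
  have h2 := h1.rev hs
  have h3 : HPs R S ((x, y) :: ((ps[k]).2, (ps[k]).1) :: ps.eraseIdx k) :=
    h2.perm (List.Perm.swap _ _ _)
  exact h3.merge hR

end HPsAux

section

variable {ι : Type} [Fintype ι] [DecidableEq ι]

theorem exists_cnt {s t : ι → Bool} {x y : Bool} (E : Finset ι) (h : E.card < cnt s t x y) :
    ∃ i, s i = x ∧ t i = y ∧ i ∉ E := by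
  by_contra hcon
  push Not at hcon
  have : (Finset.univ.filter (fun i => s i = x ∧ t i = y)) ⊆ E := by
    intro i hi
    simp only [Finset.mem_filter, Finset.mem_univ, true_and] at hi
    exact hcon i hi.1 hi.2
  have := Finset.card_le_card this
  unfold cnt at h
  omega

theorem exists_one {n : ℕ} (hc : Fintype.card ι = 2 * n + 2) {s : ι → Bool} (hs : Bal s) (x : Bool)
    (E : Finset ι) (h : E.card < n + 1) : ∃ i, s i = x ∧ i ∉ E := by
  by_contra hcon
  push Not at hcon
  have : (Finset.univ.filter (fun i => s i = x)) ⊆ E := by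
    intro i hi
    simp only [Finset.mem_filter, Finset.mem_univ, true_and] at hi
    exact hcon i hi
  have := Finset.card_le_card this
  rw [hs.card hc x] at this
  omega

/-- comparison of counts -/
theorem cnt_le_of {s t w a : ι → Bool} {x y x' y' : Bool} (E : Finset ι)
    (hE : ∀ i ∈ E, s i = x ∧ t i = y)
    (hsub : ∀ i, w i = x' → a i = y' → (s i = x ∧ t i = y) ∧ i ∉ E) :
    cnt w a x' y' + E.card ≤ cnt s t x y := by
  unfold cnt
  rw [← Finset.card_union_of_disjoint]
  · apply Finset.card_le_card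
    intro i hi
    rw [Finset.mem_union] at hi
    simp only [Finset.mem_filter, Finset.mem_univ, true_and] at hi ⊢
    rcases hi with hi | hi
    · exact (hsub i hi.1 hi.2).1
    · exact hE i hi
  · rw [Finset.disjoint_left]
    intro i hi
    simp only [Finset.mem_filter, Finset.mem_univ, true_and] at hi
    exact (hsub i hi.1 hi.2).2

theorem cnt_eq_of {s t w a : ι → Bool} {x y x' y' : Bool} (E : Finset ι)
    (hE : ∀ i ∈ E, s i = x ∧ t i = y)
    (hsub : ∀ i, (w i = x' ∧ a i = y') ↔ ((s i = x ∧ t i = y) ∧ i ∉ E)) :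
    cnt w a x' y' + E.card = cnt s t x y := by
  unfold cnt
  rw [← Finset.card_union_of_disjoint]
  · congr 1
    ext i
    rw [Finset.mem_union]
    simp only [Finset.mem_filter, Finset.mem_univ, true_and]
    constructor
    · rintro (hi | hi)
      · exact ((hsub i).1 hi).1
      · exact hE i hi
    · intro hi
      by_cases h : i ∈ E
      · exact Or.inr h
      · exact Or.inl ((hsub i).2 ⟨hi, h⟩)
  · rw [Finset.disjoint_left]
    intro i hi
    simp only [Finset.mem_filter, Finset.mem_univ, true_and] at hi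
    exact ((hsub i).1 hi).2

theorem cnt_self (s : ι → Bool) (x : Bool) : cnt s s (!x) x = 0 ∧ cnt s s x (!x) = 0 := by
  constructor
  · unfold cnt
    rw [Finset.card_eq_zero, Finset.filter_eq_empty_iff]
    rintro i _ ⟨h1, h2⟩
    rw [h1] at h2
    cases x <;> simp at h2
  · unfold cnt
    rw [Finset.card_eq_zero, Finset.filter_eq_empty_iff]
    rintro i _ ⟨h1, h2⟩
    rw [h1] at h2
    cases x <;> simp at h2

/-- `s ≠ t` implies that the count is positive -/
theorem cnt_pos {n : ℕ} (hc : Fintype.card ι = 2 * n + 2) {s t : ι → Bool} (hs : Bal s) (ht : Bal t)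
    (hst : s ≠ t) (l : Bool) : 1 ≤ cnt s t l (!l) := by
  by_contra h
  have h0 : cnt s t l (!l) = 0 := by omega
  obtain ⟨h1, _, _⟩ := cnt_bal hc hs ht l
  rw [h0] at h1
  apply hst
  funext i
  unfold cnt at h0 h1
  rw [Finset.card_eq_zero, Finset.filter_eq_empty_iff] at h0 h1
  have h2 := @h0 i (Finset.mem_univ _)
  have h3 := @h1 i (Finset.mem_univ _)
  revert h2 h3
  cases l <;> cases s i <;> cases t i <;> decide

/-- a position shows that a count is positive -/
theorem cnt_pos_of {s t : ι → Bool} {x y : Bool} {i : ι} (h1 : s i = x) (h2 : t i = y) :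
    1 ≤ cnt s t x y := by
  unfold cnt
  rw [Nat.one_le_iff_ne_zero, Finset.card_ne_zero]
  exact ⟨i, by simp [h1, h2]⟩

end

end Pool.Agent.MPc603ed
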