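import Mathlib

/-!
# MP_c603ed_co: definitions

Three layers.
* `HPs R S ps`: the set `S` is partitioned into `R`-paths with prescribed ends.
* words over the letters `U` (up), `Z`, `T` (down); Dyck words; states; the rotation `ρ`;
  the abstract vertices `AV`; strings on `ZMod (2 * n + 1)`.
* the graph `gadj` on `GV ι = (ι → Bool) × Option ι`: the pair `(s, some p)` is the string in which
  the symbol 3 is at position `p`, the front symbol is `s p` and the symbol at `i ≠ p` is `s i`;
  `(s, none)` is the string with the symbol 3 in front and `s i` at position `i`.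
-/

set_option autoImplicit false

namespace Pool.Agent.MPc603ed

/-! ## Path covers -/

/-- `HPs R S ps`: the set `S` is partitioned into (the vertex sets of) `R`-paths, one for every pair
`(x, y)` in the list `ps`, the path of `(x, y)` starting in `x` and ending in `y`. -/
def HPs {V : Type} (R : V → V → Prop) (S : Set V) (ps : List (V × V)) : Prop :=
  ∃ ls : List (List V),
    List.Forall₂ (fun l p => l.head? = some p.1 ∧ l.getLast? = some p.2 ∧ l.IsChain R) ls ps ∧
    ls.flatten.Nodup ∧ ∀ v, v ∈ ls.flatten ↔ v ∈ S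

/-- the swap relation on strings `(front, string)`: the front letter is exchanged with a different
letter of the string -/
def sadj {L ι : Type} [DecidableEq ι] (v w : L × (ι → L)) : Prop :=
  ∃ i, v.2 i ≠ v.1 ∧ w = (v.2 i, Function.update v.2 i v.1)

/-! ## Words -/

/-- letters: `U` is the up letter, `Z` and `T` are down letters -/
inductive Lt
  | U
  | Z
  | T
  deriving DecidableEq

open Lt

instance : Fintype Lt := ⟨{U, Z, T}, fun x => by cases x <;> simp⟩

/-- Dyck words with up letter `U` and down letters `Z`, `T` -/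
inductive Dy : List Lt → Prop
  | nil : Dy []
  | cons (a b : List Lt) (d : Lt) : Dy a → d ≠ U → Dy b → Dy (U :: (a ++ d :: b))

/-- `Bl y k`: the Dyck word `y` is the concatenation of `k` prime Dyck words -/
inductive Bl : List Lt → ℕ → Prop
  | nil : Bl [] 0
  | cons (a b : List Lt) (d : Lt) (k : ℕ) : Dy a → d ≠ U → Bl b k → Bl (U :: (a ++ d :: b)) (k + 1)

/-- `(UZ)^k` -/
def UZ : ℕ → List Lt
  | 0 => []
  | k + 1 => U :: Z :: UZ k

/-- `(ZU)^k` -/
def ZU : ℕ → List Lt
  | 0 => []
  | k + 1 => Z :: U :: ZU k

/-- the words of the ladder, `U (UZ)^i Z (UZ)^(n-1-i)` -/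
def yl (n i : ℕ) : List Lt := U :: (UZ i ++ Z :: UZ (n - 1 - i))

/-- the number of pairs (up letter, later down letter) -/
def inv : List Lt → ℕ
  | [] => 0
  | x :: l => (if x = U then (l.filter (fun z => z ≠ U)).length else 0) + inv l

/-- the states: a root letter (a down letter) and a Dyck word of length `2n`, together with exactly
`m` letters `T` -/
def St (n m : ℕ) : Type :=
  {p : Lt × List Lt // p.1 ≠ U ∧ Dy p.2 ∧ p.2.length = 2 * n ∧ (p.1 :: p.2).count T = m}

/-- the defining property of the rotation `(c; U a d b) ↦ (d; a U b c)` -/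
def RhoSpec {n m : ℕ} (ρ : St n m → St n m) : Prop :=
  ∀ (s : St n m) (a b : List Lt) (d : Lt), Dy a → d ≠ U → Dy b →
    s.1.2 = U :: (a ++ d :: b) → (ρ s).1 = (d, a ++ U :: (b ++ [s.1.1]))

/-- the distinguished root letter: `Z` if there is no letter `T`, and `T` otherwise -/
def rl (m : ℕ) : Lt := if m = 0 then Z else T

/-- the star state `(rl; (UZ)^n)` -/
def IsStar {n m : ℕ} (s : St n m) : Prop := s.1 = (rl m, UZ n)

/-- the states of the orbit of the star state -/
def StarOrb {n m : ℕ} (ρ : St n m → St n m) (s : St n m) : Prop := ∃ k, IsStar (ρ^[k] s)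

/-- the pairs of states of a gluing hexagon: `(c; U U Z u Z v)` and `(c; U Z U u Z v)` -/
def HexB {n m : ℕ} (X Y : St n m) : Prop :=
  ∃ (c : Lt) (u v : List Lt), Dy u ∧ Dy v ∧
    X.1 = (c, U :: U :: Z :: (u ++ Z :: v)) ∧ Y.1 = (c, U :: Z :: U :: (u ++ Z :: v))

/-- an occurrence of `U U Z` (the third letter closing the second one) whose first letter is closed
by a letter `Z` is replaced by `U Z U` -/
inductive Hx : List Lt → List Lt → Prop
  | base (u v : List Lt) : Dy u → Dy v →
      Hx (U :: U :: Z :: (u ++ Z :: v)) (U :: Z :: U :: (u ++ Z :: v))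
  | left (a a' b : List Lt) (d : Lt) : Hx a a' → d ≠ U → Dy b →
      Hx (U :: (a ++ d :: b)) (U :: (a' ++ d :: b))
  | right (a b b' : List Lt) (d : Lt) : Dy a → d ≠ U → Hx b b' →
      Hx (U :: (a ++ d :: b)) (U :: (a ++ d :: b'))

/-! ## Abstract vertices and strings -/

/-- abstract vertices: `(false, e, s)` is the vertex `P(e; s)`, `(true, e, s)` is `Q(e; s)` -/
abbrev AV (n m : ℕ) : Type := Bool × ZMod (2 * n + 1) × St n m

/-- the 2-factor: `P(e; s) ↦ Q(e + 1; ρ s) ↦ P(e + 1; ρ s)` -/
def sig {n m : ℕ} (ρ : Equiv.Perm (St n m)) : Equiv.Perm (AV n m) where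
  toFun z := if z.1 then (false, z.2.1, z.2.2) else (true, z.2.1 + 1, ρ z.2.2)
  invFun z := if z.1 then (false, z.2.1 - 1, ρ.symm z.2.2) else (true, z.2.1, z.2.2)
  left_inv := by
    rintro ⟨b, e, s⟩
    cases b <;> simp
  right_inv := by
    rintro ⟨b, e, s⟩
    cases b <;> simp

/-- strings: front letter and letters at the positions `ZMod (2 * n + 1)` -/
abbrev Str (n : ℕ) : Type := Lt × (ZMod (2 * n + 1) → Lt)

/-- the list `l` (of length `2 * n + 1`) written cyclically from position `e` -/
def put {n : ℕ} (e : ZMod (2 * n + 1)) (l : List Lt) : ZMod (2 * n + 1) → Lt :=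
  fun x => l.getD (x - e).val U

/-- the string of an abstract vertex: `P(e; c; y)` has front letter `U` and the letters `c y` from
position `e` on; `Q(e; c; y)` has front letter `c` and the letters `U y` from position `e` on -/
def dec {n m : ℕ} (z : AV n m) : Str n :=
  if z.1 then (z.2.2.1.1, put z.2.1 (U :: z.2.2.1.2)) else (U, put z.2.1 (z.2.2.1.1 :: z.2.2.1.2))

/-- the strings with exactly `n + 1` letters `U` and exactly `m` letters `T` -/
def Cls (n m : ℕ) : Set (Str n) :=
  {v | (Finset.univ.filter (fun x => v.2 x = U)).card + (if v.1 = U then 1 else 0) = n + 1 ∧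
    (Finset.univ.filter (fun x => v.2 x = T)).card + (if v.1 = T then 1 else 0) = m}

/-! ## The graph -/

/-- vertices: `(s, some p)` and `(s, none)`, see the module docstring -/
abbrev GV (ι : Type) : Type := (ι → Bool) × Option ι

/-- the word `s` with the letters at `p` and `i` exchanged -/
def swp {ι : Type} [DecidableEq ι] (s : ι → Bool) (p i : ι) : ι → Bool := s ∘ Equiv.swap p i

/-- adjacency (star transpositions) -/
inductive gadj {ι : Type} [DecidableEq ι] : GV ι → GV ι → Prop
  | out (s : ι → Bool) (p : ι) : gadj (s, none) (s, some p)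
  | inn (s : ι → Bool) (p : ι) : gadj (s, some p) (s, none)
  | sw (s : ι → Bool) (p i : ι) : s p ≠ s i → gadj (s, some p) (swp s p i, some p)

/-- balanced words -/
def Bal {ι : Type} [Fintype ι] (s : ι → Bool) : Prop :=
  (Finset.univ.filter (fun i => s i = true)).card = (Finset.univ.filter (fun i => s i = false)).card

/-- the part `A`: the symbol 3 is at position `j` -/
def PA {ι : Type} [Fintype ι] (j : ι) : Set (GV ι) := {v | Bal v.1 ∧ v.2 = some j}

/-- the part `B_ℓ`: the symbol at position `j` is `ℓ` -/
def PB {ι : Type} [Fintype ι] (j : ι) (l : Bool) : Set (GV ι) :=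
  {v | Bal v.1 ∧ v.1 j = l ∧ v.2 ≠ some j}

/-- there is a Hamilton path from `u` to `v` -/
def HP {ι : Type} [Fintype ι] [DecidableEq ι] (u v : GV ι) : Prop :=
  HPs gadj {w : GV ι | Bal w.1} [(u, v)]

/-- the letter of a symbol in the part `B_ℓ` (and in `A` with up symbol `!ℓ`) -/
def tl (l b : Bool) : Lt := if b = l then Z else U

/-- the string of a vertex of the part `B_ℓ` for the arrangement `e` (`e none = j`) -/
def strB {n : ℕ} {ι : Type} [DecidableEq ι] (e : Option (ZMod (2 * n + 1)) ≃ ι) (l : Bool)
    (v : GV ι) : Str n :=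
  ((match v.2 with
    | none => T
    | some p => tl l (v.1 p)),
   fun x => if v.2 = some (e (some x)) then T else tl l (v.1 (e (some x))))

/-- the string of a vertex of the part `A` for the arrangement `e` (`e none = j`), with up symbol
`!ℓ` -/
def strA {n : ℕ} {ι : Type} (e : Option (ZMod (2 * n + 1)) ≃ ι) (l : Bool) (v : GV ι) : Str n :=
  (tl l (v.1 (e none)), fun x => tl l (v.1 (e (some x))))

end Pool.Agent.MPc603ed
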