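import Pool.Agent.Lib.MP_c603ed_co.Spec2

/-!
# MP_c603ed_co: one edge in the middle levels
-/

set_option autoImplicit false

namespace Pool.Agent.MPc603ed

open Lt

theorem p_A1c (h1 : S_rho) (h2 : S_T1) : S_A1c := by
  intro n hn
  obtain ⟨ρ, hρ⟩ := h1 n 0
  obtain ⟨s₁, hs₁⟩ : ∃ s : St n 0, s.1 = (Z, UZ n) :=
    ⟨mk0 n (UZ n) (Dy.uz n) (length_UZ n) (count_T_UZ n), rfl⟩
  have hstar : IsStar s₁ := by rw [IsStar, hs₁]; rfl
  have h5 := h2 n 0 hn (by omega) ρ hρ [(true, 0, s₁)]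
    (List.pairwise_singleton _ _)
    ⟨(true, 0, s₁), by simp, 0, hstar⟩
    (by
      intro z hz
      left
      rw [List.mem_singleton] at hz
      subst hz
      rfl)
  have e1 : dec (sig ρ (true, 0, s₁)) = (U, put 0 (Z :: UZ n)) := by
    rw [sig_Q, dec_P, hs₁]
  have e2 : dec ((true, 0, s₁) : AV n 0) = (Z, put 0 (U :: UZ n)) := by
    rw [dec_Q, hs₁]
  rw [List.map_cons, List.map_nil, e1, e2] at h5
  exact h5

end Pool.Agent.MPc603ed
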