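import Pool.Agent.Lib.MP_c603ed_co.PartAux

/-!
# MP_c603ed_co: part A, two edges
-/

set_option autoImplicit false
set_option linter.unusedSimpArgs false

namespace Pool.Agent.MPc603ed

open Lt PartAux

theorem p_A2 (h1 : S_arr) (h2 : S_putA) (h3 : S_trA) (h4 : S_A2c) (h5 : S_A2cc) : S_A2 := by
  intro n ι _ _ hn hcard s t j i q f hs ht hsj htj hsi hti hsq htq hiq
  obtain ⟨l, rfl⟩ : ∃ l : Bool, f = !l := ⟨!f, by simp⟩
  rw [Bool.not_not] at htj hsi hsq
  have hll : l ≠ !l := by cases l <;> simp
  have hji : j ≠ i := by rintro rfl; exact hll (hsi.symm.trans hsj)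
  have hjq : j ≠ q := by rintro rfl; exact hll (hsq.symm.trans hsj)
  have hij := hji.symm
  have hqj := hjq.symm
  have hqi := hiq.symm
  have hz : tl l l = Z := tl_self l
  have hu : tl l (!l) = U := tl_not l
  obtain ⟨hb1, hb2, hb3⟩ := cnt_bal hcard hs ht l
  obtain ⟨c, hc⟩ : ∃ c, cnt s t l (!l) = c := ⟨_, rfl⟩
  have hc2 : 2 ≤ c := by
    rw [← hc]
    unfold cnt
    refine le_trans (le_of_eq (Finset.card_pair hiq).symm) (Finset.card_le_card ?_)
    intro x hx
    rw [Finset.mem_insert, Finset.mem_singleton] at hx
    rcases hx with rfl | rfl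
    · simp [hsi, hti]
    · simp [hsq, htq]
  rw [hc] at hb1 hb2 hb3
  have hai : swp s j i i = !l := by rw [swp_apply_right, hsj]
  have haj : swp s j i j = l := by rw [swp_apply_left, hsi]
  have hax : ∀ x, x ≠ j → x ≠ i → swp s j i x = s x := fun x h h' => swp_apply_of_ne _ h h'
  have haq : swp s j i q = l := by rw [hax q hqj hqi, hsq]
  have hbq : swp t j q q = l := by rw [swp_apply_right, htj]
  have hbj : swp t j q j = !l := by rw [swp_apply_left, htq]
  have hbx : ∀ x, x ≠ j → x ≠ q → swp t j q x = t x := fun x h h' => swp_apply_of_ne _ h h'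
  have hbi : swp t j q i = !l := by rw [hbx i hij hiq, hti]
  have fin : ∀ (sp : List ι) (W : List ((Bool × Bool) ⊕ ι))
      (e : Option (ZMod (2 * n + 1)) ≃ ι)
      (L1 L2 L3 L4 : List Lt), W.length = 2 * n + 1 → e none = j → Fits e s t sp W →
      List.Forall₂ (LetterOKA s t (e none) sp l (s, some j)) W L1 →
      List.Forall₂ (LetterOKA s t (e none) sp l (swp s j i, some j)) W L2 →
      List.Forall₂ (LetterOKA s t (e none) sp l (swp t j q, some j)) W L3 →
      List.Forall₂ (LetterOKA s t (e none) sp l (t, some j)) W L4 →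
      HPs sadj (Cls n 0) [((U, put 0 L1), (Z, put 0 L2)), ((U, put 0 L3), (Z, put 0 L4))] →
      HPs gadj (PA j) [((s, some j), (swp s j i, some j)), ((swp t j q, some j), (t, some j))] := by
    intro sp W e L1 L2 L3 L4 hWl he hfit f1 f2 f3 f4 hH
    have e1 : strA e l ((s, some j) : GV ι) = (U, put 0 L1) :=
      Prod.ext (by change tl l (s (e none)) = U; rw [he, hsj, hu])
        (h2 n ι s t _ W e l _ _ hWl hfit f1)
    have e2 : strA e l ((swp s j i, some j) : GV ι) = (Z, put 0 L2) :=
      Prod.ext (by change tl l (swp s j i (e none)) = Z; rw [he, haj, hz])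
        (h2 n ι s t _ W e l _ _ hWl hfit f2)
    have e3 : strA e l ((swp t j q, some j) : GV ι) = (U, put 0 L3) :=
      Prod.ext (by change tl l (swp t j q (e none)) = U; rw [he, hbj, hu])
        (h2 n ι s t _ W e l _ _ hWl hfit f3)
    have e4 : strA e l ((t, some j) : GV ι) = (Z, put 0 L4) :=
      Prod.ext (by change tl l (t (e none)) = Z; rw [he, htj, hz])
        (h2 n ι s t _ W e l _ _ hWl hfit f4)
    have key := h3 n ι e l [((s, some j), (swp s j i, some j)), ((swp t j q, some j), (t, some j))]
      (by
        rw [he]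
        intro p hp
        simp only [List.mem_cons, List.not_mem_nil, or_false] at hp
        rcases hp with rfl | rfl
        · exact ⟨⟨hs, rfl⟩, ⟨hs.swp j i, rfl⟩⟩
        · exact ⟨⟨ht.swp j q, rfl⟩, ⟨ht, rfl⟩⟩)
      (by
        simp only [List.map_cons, List.map_nil, Prod.map_apply, e1, e2, e3, e4]
        exact hH)
    rw [he] at key
    exact key
  by_cases hcn : c ≤ n
  · obtain ⟨W, hW⟩ : ∃ W : List ((Bool × Bool) ⊕ ι), W =
      Sum.inr q :: (rp (Sum.inl (!l, !l)) (Sum.inl (l, l)) (n - c) ++ Sum.inr i ::
        (rp (Sum.inl (!l, l)) (Sum.inl (l, !l)) (c - 2) ++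
          [Sum.inl (!l, !l), Sum.inl (l, l), Sum.inl (!l, l)])) := ⟨_, rfl⟩
    have hWl : W.length = 2 * n + 1 := by
      rw [hW]
      simp only [List.length_cons, List.length_append, length_rp, List.length_nil]
      omega
    obtain ⟨e, he, hfit⟩ := h1 n ι s t j [q, i] W hcard hWl
      (by simp [hqi]) (by simp [hjq, hji])
      (by
        intro x
        rw [hW]
        simp only [List.count_cons, List.count_append, count_rp', beq1, beq4, beq_iff_eq, if_false,
          List.count_nil, Bool.false_eq_true]
        omega)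
      (by
        intro x y
        rw [hW]
        simp only [List.count_cons, List.count_append, count_rp', beq2, beq3, beq_iff_eq, if_false,
          Bool.false_eq_true, Prod.mk.injEq, List.filter_cons, List.filter_nil, hsj, htj, hsi, hti,
          hsq, htq, List.count_nil]
        cases l <;> cases x <;> cases y <;> simp at hc hb1 hb2 hb3 ⊢ <;> omega)
    have hH := h4 n c hn hc2 hcn
    have g1 : UZ (c - 1) ++ [U] = UZ (c - 2) ++ [U, Z, U] := by
      rw [show c - 1 = c - 2 + 1 by omega, UZ_add]
      simp [UZ]
    rw [g1] at hH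
    refine fin _ W e _ _ _ _ hWl he hfit ?_ ?_ ?_ ?_ hH
    all_goals
      rw [hW]
      repeat' (first
        | exact List.Forall₂.nil
        | refine List.Forall₂.cons ?_ ?_
        | refine List.rel_append ?_ ?_
        | refine forall2_UZ ?_ ?_ _
        | refine forall2_ZU ?_ ?_ _)
    all_goals
      first
        | (simp [LetterOKA, hsi, hsq, hti, htq, hai, haq, hbi, hbq, hu, hz]; done)
        | (intro x hxj hx hsx htx
           rw [he] at hxj
           simp only [List.mem_cons, List.not_mem_nil, or_false, not_or] at hx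
           first
             | (simp [hax x hxj hx.2, hbx x hxj hx.1, hsx, htx, hu, hz]; done))
  · have hcn' : c = n + 1 := by omega
    obtain ⟨W, hW⟩ : ∃ W : List ((Bool × Bool) ⊕ ι), W =
      Sum.inr i :: Sum.inl (!l, l) :: (rp (Sum.inl (!l, l)) (Sum.inl (l, !l)) (n - 2) ++
          [Sum.inl (!l, l), Sum.inr q, Sum.inl (l, !l)]) := ⟨_, rfl⟩
    have hWl : W.length = 2 * n + 1 := by
      rw [hW]
      simp only [List.length_cons, List.length_append, length_rp, List.length_nil]
      omega
    obtain ⟨e, he, hfit⟩ := h1 n ι s t j [q, i] W hcard hWl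
      (by simp [hqi]) (by simp [hjq, hji])
      (by
        intro x
        rw [hW]
        simp only [List.count_cons, List.count_append, count_rp', beq1, beq4, beq_iff_eq, if_false,
          List.count_nil, Bool.false_eq_true]
        omega)
      (by
        intro x y
        rw [hW]
        simp only [List.count_cons, List.count_append, count_rp', beq2, beq3, beq_iff_eq, if_false,
          Bool.false_eq_true, Prod.mk.injEq, List.filter_cons, List.filter_nil, hsj, htj, hsi, hti,
          hsq, htq, List.count_nil]
        cases l <;> cases x <;> cases y <;> simp at hc hb1 hb2 hb3 ⊢ <;> omega)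
    have hH := h5 n hn
    have g1 : UZ (n - 1) ++ [Z] = UZ (n - 2) ++ [U, Z, Z] := by
      rw [show n - 1 = n - 2 + 1 by omega, UZ_add]
      simp [UZ]
    rw [g1] at hH
    refine fin _ W e _ _ _ _ hWl he hfit ?_ ?_ ?_ ?_ hH
    all_goals
      rw [hW]
      repeat' (first
        | exact List.Forall₂.nil
        | refine List.Forall₂.cons ?_ ?_
        | refine List.rel_append ?_ ?_
        | refine forall2_UZ ?_ ?_ _
        | refine forall2_ZU ?_ ?_ _)
    all_goals
      first
        | (simp [LetterOKA, hsi, hsq, hti, htq, hai, haq, hbi, hbq, hu, hz]; done)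
        | (intro x hxj hx hsx htx
           rw [he] at hxj
           simp only [List.mem_cons, List.not_mem_nil, or_false, not_or] at hx
           simp [hax x hxj hx.2, hbx x hxj hx.1, hsx, htx, hu, hz])

end Pool.Agent.MPc603ed
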