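import Pool.Agent.Lib.MP_c603ed_co.Spec2

/-!
# MP_c603ed_co: two edges in the middle levels
-/

set_option autoImplicit false

namespace Pool.Agent.MPc603ed

open Lt

namespace p_A2cAux

theorem starOrb {n : ℕ} {ρ : Equiv.Perm (St n 0)} {s t : St n 0} (hs : StarOrb ρ s)
    (h : ρ.SameCycle s t) : StarOrb ρ t := by
  obtain ⟨k, hk⟩ := hs
  obtain ⟨i, hi⟩ := h.symm.exists_nat_pow_eq
  refine ⟨k + i, ?_⟩
  rw [Function.iterate_add_apply, Equiv.Perm.iterate_eq_pow ρ i, hi]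
  exact hk

end p_A2cAux

open p_A2cAux in
theorem p_A2c (h1 : S_rho) (h2 : S_star0) (h3 : S_T1) : S_A2c := by
  intro n c hn hc2 hcn
  obtain ⟨ρ, hρ⟩ := h1 n 0
  obtain ⟨s₁, hs₁⟩ : ∃ s : St n 0, s.1 = (Z, UZ n) :=
    ⟨mk0 n (UZ n) (Dy.uz n) (length_UZ n) (count_T_UZ n), rfl⟩
  have hd : Dy (UZ (n - 2) ++ [U, U, Z, Z]) := by
    have h4 : Dy [U, Z] := Dy.cons [] [] Z Dy.nil (by decide) Dy.nil
    have h5 : Dy [U, U, Z, Z] := Dy.cons [U, Z] [] Z h4 (by decide) Dy.nil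
    exact (Dy.uz _).app h5
  obtain ⟨s₂, hs₂⟩ : ∃ s : St n 0, s.1 = (Z, UZ (n - 2) ++ [U, U, Z, Z]) :=
    ⟨mk0 n _ hd (by simp [length_UZ]; omega) (by simp [count_T_UZ]), rfl⟩
  have hstar : IsStar s₁ := by rw [IsStar, hs₁]; rfl
  have hdiff : ¬ ρ.SameCycle s₁ s₂ := by
    intro h
    have h4 := h2 n ρ (by omega) hρ s₂ (starOrb ⟨0, hstar⟩ h)
    rw [hs₂] at h4
    obtain ⟨k, rfl⟩ : ∃ k, n = k + 3 := ⟨n - 3, by omega⟩
    rcases h4 with h4 | h4
    · have e : UZ (k + 3) = UZ (k + 3 - 2) ++ [U, Z, U, Z] := by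
        rw [show UZ (k + 3) = UZ ((k + 3 - 2) + 2) by rfl, UZ_add]
        rfl
      simp only [e, List.append_cancel_left_eq] at h4
      simp at h4
    · rw [show k + 3 - 2 = k + 1 by omega, show k + 3 - 1 = k + 2 by omega] at h4
      simp [UZ] at h4
  have hlen : (Z :: UZ (n - c)).length + (U :: (UZ (c - 1) ++ [U])).length = 2 * n + 1 := by
    simp [length_UZ]; omega
  have hUZ : UZ n = (UZ (c - 1) ++ [U]) ++ Z :: UZ (n - c) := by
    have e : n = (c - 1) + (n - c + 1) := by omega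
    calc UZ n = UZ ((c - 1) + (n - c + 1)) := by rw [← e]
      _ = UZ (c - 1) ++ UZ (n - c + 1) := UZ_add _ _
      _ = _ := by simp [UZ]
  have h5 := h3 n 0 hn (by omega) ρ hρ
    [(true, (((Z :: UZ (n - c)).length : ℕ) : ZMod (2 * n + 1)), s₁), (true, 0, s₂)]
    (by
      rw [List.pairwise_cons]
      refine ⟨fun z hz => ?_, by simp⟩
      rw [List.mem_singleton] at hz
      subst hz
      exact hdiff)
    ⟨_, List.mem_cons_self, 0, hstar⟩
    (by
      intro z hz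
      left
      simp only [List.mem_cons, List.not_mem_nil, or_false] at hz
      rcases hz with rfl | rfl <;> rfl)
  have hput : ∀ x : Lt, put (((Z :: UZ (n - c)).length : ℕ) : ZMod (2 * n + 1)) (x :: UZ n) =
      put 0 (Z :: (UZ (n - c) ++ x :: (UZ (c - 1) ++ [U]))) := by
    intro x
    rw [hUZ]
    exact put_eq_put_zero (n := n) (x :: (UZ (c - 1) ++ [U])) (Z :: UZ (n - c)) (by
      simp [length_UZ]; omega)
  have hw : UZ (n - 2) ++ [U, U, Z, Z] = UZ (n - c) ++ U :: (ZU (c - 2) ++ [U, Z, Z]) := by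
    have e : UZ (n - 2) = UZ (n - c) ++ UZ (c - 2) := by
      rw [← UZ_add]
      congr 1
      omega
    rw [e, List.append_assoc, UZ_U_app]
  have e1 : dec (sig ρ (true, (((Z :: UZ (n - c)).length : ℕ) : ZMod (2 * n + 1)), s₁)) =
      (U, put 0 (Z :: (UZ (n - c) ++ Z :: (UZ (c - 1) ++ [U])))) := by
    rw [sig_Q, dec_P, hs₁, ← hput]
  have e2 : dec ((true, (((Z :: UZ (n - c)).length : ℕ) : ZMod (2 * n + 1)), s₁) : AV n 0) =
      (Z, put 0 (Z :: (UZ (n - c) ++ U :: (UZ (c - 1) ++ [U])))) := by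
    rw [dec_Q, hs₁, ← hput]
  have e3 : dec (sig ρ (true, 0, s₂)) =
      (U, put 0 (Z :: (UZ (n - c) ++ U :: (ZU (c - 2) ++ [U, Z, Z])))) := by
    rw [sig_Q, dec_P, hs₂, ← hw]
  have e4 : dec ((true, 0, s₂) : AV n 0) =
      (Z, put 0 (U :: (UZ (n - c) ++ U :: (ZU (c - 2) ++ [U, Z, Z])))) := by
    rw [dec_Q, hs₂, ← hw]
  rw [List.map_cons, List.map_cons, List.map_nil, e1, e2, e3, e4] at h5
  exact h5

end Pool.Agent.MPc603ed
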