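import Pool.Agent.Lib.MP_c603ed_co.P_A2c

/-!
# MP_c603ed_co: two edges in the middle levels, complementary words
-/

set_option autoImplicit false

namespace Pool.Agent.MPc603ed

open Lt

open p_A2cAux in
theorem p_A2cc (h1 : S_rho) (h2 : S_star0) (h3 : S_T1) : S_A2cc := by
  intro n hn
  obtain ⟨ρ, hρ⟩ := h1 n 0
  have hd1 : Dy (U :: (UZ (n - 1) ++ Z :: [])) := Dy.cons (UZ (n - 1)) [] Z (Dy.uz _) (by decide) Dy.nil
  obtain ⟨s₁, hs₁⟩ : ∃ s : St n 0, s.1 = (Z, U :: (UZ (n - 1) ++ [Z])) :=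
    ⟨mk0 n _ hd1 (by simp [length_UZ]; omega) (by simp [count_T_UZ]), rfl⟩
  have hd : Dy (U :: U :: Z :: Z :: UZ (n - 2)) := by
    have h4 : Dy [U, Z] := Dy.cons [] [] Z Dy.nil (by decide) Dy.nil
    exact Dy.cons [U, Z] (UZ (n - 2)) Z h4 (by decide) (Dy.uz _)
  obtain ⟨s₂, hs₂⟩ : ∃ s : St n 0, s.1 = (Z, U :: U :: Z :: Z :: UZ (n - 2)) :=
    ⟨mk0 n _ hd (by simp [length_UZ]; omega) (by simp [count_T_UZ]), rfl⟩
  have hstar : StarOrb ρ s₁ := by
    refine ⟨1, ?_⟩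
    have h4 := hρ s₁ (UZ (n - 1)) [] Z (Dy.uz _) (by decide) Dy.nil (by rw [hs₁])
    rw [Function.iterate_one, IsStar, h4, hs₁]
    have e : UZ n = UZ (n - 1) ++ [U, Z] := by
      calc UZ n = UZ ((n - 1) + 1) := by rw [show (n - 1) + 1 = n by omega]
        _ = _ := UZ_add _ _
    rw [e]
    rfl
  have hdiff : ¬ ρ.SameCycle s₁ s₂ := by
    intro h
    have h4 := h2 n ρ (by omega) hρ s₂ (starOrb hstar h)
    rw [hs₂] at h4
    obtain ⟨k, rfl⟩ : ∃ k, n = k + 3 := ⟨n - 3, by omega⟩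
    rcases h4 with h4 | h4
    · simp [UZ] at h4
    · rw [show k + 3 - 2 = k + 1 by omega, show k + 3 - 1 = k + 2 by omega] at h4
      simp [UZ] at h4
  have h5 := h3 n 0 hn (by omega) ρ hρ
    [(true, 0, s₁), (true, (((U :: Z :: Z :: UZ (n - 2)).length : ℕ) : ZMod (2 * n + 1)), s₂)]
    (by
      rw [List.pairwise_cons]
      refine ⟨fun z hz => ?_, by simp⟩
      rw [List.mem_singleton] at hz
      subst hz
      exact hdiff)
    ⟨_, List.mem_cons_self, hstar⟩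
    (by
      intro z hz
      left
      simp only [List.mem_cons, List.not_mem_nil, or_false] at hz
      rcases hz with rfl | rfl <;> rfl)
  have hput : ∀ x : Lt, put (((U :: Z :: Z :: UZ (n - 2)).length : ℕ) : ZMod (2 * n + 1))
      (x :: U :: U :: Z :: Z :: UZ (n - 2)) = put 0 (U :: Z :: (ZU (n - 2) ++ [Z, x, U])) := by
    intro x
    have h6 := put_eq_put_zero (n := n) [x, U] (U :: Z :: Z :: UZ (n - 2)) (by
      simp [length_UZ]; omega)
    have e : U :: Z :: Z :: UZ (n - 2) ++ [x, U] = U :: Z :: (ZU (n - 2) ++ [Z, x, U]) := by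
      rw [ZU_Z_app]
      rfl
    rw [e] at h6
    exact h6
  have e1 : dec (sig ρ (true, 0, s₁)) = (U, put 0 (Z :: U :: (UZ (n - 1) ++ [Z]))) := by
    rw [sig_Q, dec_P, hs₁]
  have e2 : dec ((true, 0, s₁) : AV n 0) = (Z, put 0 (U :: U :: (UZ (n - 1) ++ [Z]))) := by
    rw [dec_Q, hs₁]
  have e3 : dec (sig ρ (true, (((U :: Z :: Z :: UZ (n - 2)).length : ℕ) : ZMod (2 * n + 1)), s₂)) =
      (U, put 0 (U :: Z :: (ZU (n - 2) ++ [Z, Z, U]))) := by
    rw [sig_Q, dec_P, hs₂, ← hput]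
  have e4 : dec ((true, (((U :: Z :: Z :: UZ (n - 2)).length : ℕ) : ZMod (2 * n + 1)), s₂) : AV n 0) =
      (Z, put 0 (U :: Z :: (ZU (n - 2) ++ [Z, U, U]))) := by
    rw [dec_Q, hs₂, ← hput]
  rw [List.map_cons, List.map_cons, List.map_nil, e1, e2, e3, e4] at h5
  exact h5

end Pool.Agent.MPc603ed
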