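import Pool.Agent.Lib.MP_c603ed_co.PartAux

/-!
# MP_c603ed_co: part A, two edges, neighbouring words
-/

set_option autoImplicit false
set_option linter.unusedSimpArgs false

namespace Pool.Agent.MPc603ed

open Lt PartAux

theorem p_A2p (h1 : S_arr) (h2 : S_putA) (h3 : S_trA) (h4 : S_A2pc) : S_A2p := by
  intro n ι _ _ hn hcard s j i q i1 f hs hsj hsi hsq hiq hsi1 hi1j
  obtain ⟨l, rfl⟩ : ∃ l : Bool, f = !l := ⟨!f, by simp⟩
  rw [Bool.not_not] at hsi hsq
  have hll : l ≠ !l := by cases l <;> simp
  have hji : j ≠ i := by rintro rfl; exact hll (hsi.symm.trans hsj)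
  have hjq : j ≠ q := by rintro rfl; exact hll (hsq.symm.trans hsj)
  have hii1 : i ≠ i1 := by rintro rfl; exact hll (hsi.symm.trans hsi1)
  have hi1q : i1 ≠ q := by rintro rfl; exact hll (hsq.symm.trans hsi1)
  have hij := hji.symm
  have hqj := hjq.symm
  have hqi := hiq.symm
  have hji1 := hi1j.symm
  have hi1i := hii1.symm
  have hqi1 := hi1q.symm
  have hz : tl l l = Z := tl_self l
  have hu : tl l (!l) = U := tl_not l
  obtain ⟨hb1, hb2, hb3⟩ := cnt_bal hcard hs hs l
  have hk : cnt s s l (!l) = 0 := by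
    unfold cnt
    rw [Finset.card_eq_zero, Finset.filter_eq_empty_iff]
    rintro i _ ⟨e1, e2⟩
    exact hll (e1.symm.trans e2)
  rw [hk] at hb1 hb2 hb3
  obtain ⟨W, hW⟩ : ∃ W : List ((Bool × Bool) ⊕ ι), W =
    Sum.inr i :: Sum.inl (!l, !l) :: Sum.inl (l, l) :: Sum.inr i1 :: Sum.inr q ::
      rp (Sum.inl (!l, !l)) (Sum.inl (l, l)) (n - 2) := ⟨_, rfl⟩
  have hWl : W.length = 2 * n + 1 := by
    rw [hW]
    simp only [List.length_cons, length_rp]
    omega
  obtain ⟨e, he, hfit⟩ := h1 n ι s s j [i, i1, q] W hcard hWl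
    (by simp [hii1, hiq, hi1q]) (by simp [hji, hji1, hjq])
    (by
      intro x
      rw [hW]
      simp only [List.count_cons, List.count_append, count_rp', beq1, beq4, beq_iff_eq, if_false,
        List.count_nil, Bool.false_eq_true]
      omega)
    (by
      intro x y
      rw [hW]
      simp only [List.count_cons, List.count_append, count_rp', beq2, beq3, beq_iff_eq, if_false,
        Bool.false_eq_true, Prod.mk.injEq, List.filter_cons, List.filter_nil, hsj, hsi, hsq, hsi1,
        List.count_nil]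
      cases l <;> cases x <;> cases y <;> simp at hk hb1 hb2 hb3 ⊢ <;> omega)
  have hH := h4 n hn
  have g1 : ∀ x : Lt, x :: UZ n = x :: U :: Z :: U :: Z :: UZ (n - 2) := by
    intro x
    obtain ⟨k, rfl⟩ : ∃ k, n = k + 2 := ⟨n - 2, by omega⟩
    rfl
  rw [g1, g1] at hH
  obtain ⟨a, had⟩ : ∃ a, a = swp s j i := ⟨_, rfl⟩
  obtain ⟨b, hbd⟩ : ∃ b, b = swp s j q := ⟨_, rfl⟩
  obtain ⟨d, hdd⟩ : ∃ d, d = swp b j i1 := ⟨_, rfl⟩
  have haB : Bal a := had ▸ hs.swp j i
  have hbB : Bal b := hbd ▸ hs.swp j q
  have hdB : Bal d := hdd ▸ hbB.swp j i1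
  have hax : ∀ y, y ≠ j → y ≠ i → a y = s y := fun y h h' => by
    rw [had]; exact swp_apply_of_ne _ h h'
  have hbx : ∀ y, y ≠ j → y ≠ q → b y = s y := fun y h h' => by
    rw [hbd]; exact swp_apply_of_ne _ h h'
  have hdx : ∀ y, y ≠ j → y ≠ i1 → d y = b y := fun y h h' => by
    rw [hdd]; exact swp_apply_of_ne _ h h'
  have haj : a j = l := by rw [had, swp_apply_left, hsi]
  have hai : a i = !l := by rw [had, swp_apply_right, hsj]
  have hai1 : a i1 = !l := by rw [hax i1 hi1j hi1i, hsi1]
  have haq : a q = l := by rw [hax q hqj hqi, hsq]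
  have hbj : b j = l := by rw [hbd, swp_apply_left, hsq]
  have hbq : b q = !l := by rw [hbd, swp_apply_right, hsj]
  have hbi : b i = l := by rw [hbx i hij hiq, hsi]
  have hbi1 : b i1 = !l := by rw [hbx i1 hi1j hi1q, hsi1]
  have hdj : d j = !l := by rw [hdd, swp_apply_left, hbi1]
  have hdi1 : d i1 = l := by rw [hdd, swp_apply_right, hbj]
  have hdi : d i = l := by rw [hdx i hij hii1, hbi]
  have hdq : d q = !l := by rw [hdx q hqj hqi1, hbq]
  rw [← hbd, ← hdd, ← had]
  have e1 : strA e l ((s, some j) : GV ι) = (U, put 0 (Z :: U :: Z :: U :: Z :: UZ (n - 2))) := by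
    refine Prod.ext (by change tl l (s (e none)) = U; rw [he, hsj, hu])
      (h2 n ι s s _ W e l _ _ hWl hfit ?_)
    rw [hW]
    repeat' (first
      | exact List.Forall₂.nil
      | refine List.Forall₂.cons ?_ ?_
      | refine List.rel_append ?_ ?_
      | refine forall2_UZ ?_ ?_ _
      | refine forall2_ZU ?_ ?_ _)
    all_goals
      first
        | (simp [LetterOKA, hsi, hsi1, hsq, hu, hz]; done)
        | (intro x hxj hx hsx htx
           simp [hsx, hu, hz])
  have e2 : strA e l ((a, some j) : GV ι) = (Z, put 0 (U :: U :: Z :: U :: Z :: UZ (n - 2))) := by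
    refine Prod.ext (by change tl l (a (e none)) = Z; rw [he, haj, hz])
      (h2 n ι s s _ W e l _ _ hWl hfit ?_)
    rw [hW]
    repeat' (first
      | exact List.Forall₂.nil
      | refine List.Forall₂.cons ?_ ?_
      | refine List.rel_append ?_ ?_
      | refine forall2_UZ ?_ ?_ _
      | refine forall2_ZU ?_ ?_ _)
    all_goals
      first
        | (simp [LetterOKA, hai, hai1, haq, hu, hz]; done)
        | (intro x hxj hx hsx htx
           rw [he] at hxj
           simp only [List.mem_cons, List.not_mem_nil, or_false, not_or] at hx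
           simp [hax x hxj hx.1, hsx, hu, hz])
  have e3 : strA e l ((d, some j) : GV ι) = (U, put 0 (Z :: U :: Z :: Z :: U :: UZ (n - 2))) := by
    refine Prod.ext (by change tl l (d (e none)) = U; rw [he, hdj, hu])
      (h2 n ι s s _ W e l _ _ hWl hfit ?_)
    rw [hW]
    repeat' (first
      | exact List.Forall₂.nil
      | refine List.Forall₂.cons ?_ ?_
      | refine List.rel_append ?_ ?_
      | refine forall2_UZ ?_ ?_ _
      | refine forall2_ZU ?_ ?_ _)
    all_goals
      first
        | (simp [LetterOKA, hdi, hdi1, hdq, hu, hz]; done)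
        | (intro x hxj hx hsx htx
           rw [he] at hxj
           simp only [List.mem_cons, List.not_mem_nil, or_false, not_or] at hx
           simp [hdx x hxj hx.2.1, hbx x hxj hx.2.2, hsx, hu, hz])
  have e4 : strA e l ((b, some j) : GV ι) = (Z, put 0 (Z :: U :: Z :: U :: U :: UZ (n - 2))) := by
    refine Prod.ext (by change tl l (b (e none)) = Z; rw [he, hbj, hz])
      (h2 n ι s s _ W e l _ _ hWl hfit ?_)
    rw [hW]
    repeat' (first
      | exact List.Forall₂.nil
      | refine List.Forall₂.cons ?_ ?_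
      | refine List.rel_append ?_ ?_
      | refine forall2_UZ ?_ ?_ _
      | refine forall2_ZU ?_ ?_ _)
    all_goals
      first
        | (simp [LetterOKA, hbi, hbi1, hbq, hu, hz]; done)
        | (intro x hxj hx hsx htx
           rw [he] at hxj
           simp only [List.mem_cons, List.not_mem_nil, or_false, not_or] at hx
           simp [hbx x hxj hx.2.2, hsx, hu, hz])
  have key := h3 n ι e l [((s, some j), (a, some j)), ((d, some j), (b, some j))]
    (by
      rw [he]
      intro p hp
      simp only [List.mem_cons, List.not_mem_nil, or_false] at hp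
      rcases hp with rfl | rfl
      · exact ⟨⟨hs, rfl⟩, ⟨haB, rfl⟩⟩
      · exact ⟨⟨hdB, rfl⟩, ⟨hbB, rfl⟩⟩)
    (by
      simp only [List.map_cons, List.map_nil, Prod.map_apply, e1, e2, e3, e4]
      exact hH)
  rw [he] at key
  exact key

end Pool.Agent.MPc603ed
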