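import Pool.Agent.Lib.MP_c603ed_co.Spec2

/-!
# MP_c603ed_co: two edges in the middle levels, neighbouring words
-/

set_option autoImplicit false

namespace Pool.Agent.MPc603ed

open Lt

namespace p_A2pcAux

theorem starOrb {n : ℕ} {ρ : Equiv.Perm (St n 0)} {s t : St n 0} (hs : IsStar s)
    (h : ρ.SameCycle s t) : StarOrb ρ t := by
  obtain ⟨i, hi⟩ := h.symm.exists_nat_pow_eq
  refine ⟨i, ?_⟩
  rw [Equiv.Perm.iterate_eq_pow, hi]
  exact hs

theorem dyw (k : ℕ) : Dy (U :: (UZ k ++ [Z, U, Z])) := by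
  have h1 : Dy [U, Z] := Dy.cons [] [] Z Dy.nil (by simp) Dy.nil
  exact Dy.cons (UZ k) [U, Z] Z (Dy.uz k) (by simp) h1

end p_A2pcAux

open p_A2pcAux in
theorem p_A2pc (h1 : S_rho) (h2 : S_star0) (h3 : S_T1) : S_A2pc := by
  intro n hn
  obtain ⟨ρ, hρ⟩ := h1 n 0
  obtain ⟨s₁, hs₁⟩ : ∃ s : St n 0, s.1 = (Z, UZ n) :=
    ⟨mk0 n (UZ n) (Dy.uz n) (length_UZ n) (count_T_UZ n), rfl⟩
  obtain ⟨s₂, hs₂⟩ : ∃ s : St n 0, s.1 = (Z, U :: (UZ (n - 2) ++ [Z, U, Z])) :=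
    ⟨mk0 n (U :: (UZ (n - 2) ++ [Z, U, Z])) (dyw _) (by
      simp [length_UZ]; omega) (by simp [count_T_UZ]), rfl⟩
  have hstar : IsStar s₁ := by rw [IsStar, hs₁]; rfl
  have hdiff : ¬ ρ.SameCycle s₁ s₂ := by
    intro h
    have h4 := h2 n ρ (by omega) hρ s₂ (starOrb hstar h)
    rw [hs₂] at h4
    obtain ⟨k, rfl⟩ : ∃ k, n = k + 3 := ⟨n - 3, by omega⟩
    rcases h4 with h4 | h4
    · simp [UZ] at h4
    · have e : UZ (k + 3 - 1) = UZ (k + 3 - 2) ++ [U, Z] := by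
        rw [show k + 3 - 1 = (k + 3 - 2) + 1 by omega, UZ_add]
        rfl
      simp only [e, List.cons.injEq, true_and, List.append_assoc] at h4
      rw [List.append_cancel_left_eq] at h4
      simp at h4
  have h5 := h3 n 0 hn (by omega) ρ hρ [(true, 0, s₁), (true, 3, s₂)]
    (by
      rw [List.pairwise_cons]
      refine ⟨fun z hz => ?_, by simp⟩
      rw [List.mem_singleton] at hz
      subst hz
      exact hdiff)
    ⟨(true, 0, s₁), by simp, 0, hstar⟩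
    (by
      intro z hz
      left
      simp only [List.mem_cons, List.not_mem_nil, or_false] at hz
      rcases hz with rfl | rfl <;> rfl)
  have e1 : dec (sig ρ (true, 0, s₁)) = (U, put 0 (Z :: UZ n)) := by
    rw [sig_Q, dec_P, hs₁]
  have e2 : dec ((true, 0, s₁) : AV n 0) = (Z, put 0 (U :: UZ n)) := by
    rw [dec_Q, hs₁]
  have hput : ∀ x : Lt, put (3 : ZMod (2 * n + 1)) (x :: U :: (UZ (n - 2) ++ [Z, U, Z])) =
      put 0 (Z :: U :: Z :: x :: U :: UZ (n - 2)) := by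
    intro x
    have h6 := put_eq_put_zero (n := n) (x :: U :: UZ (n - 2)) [Z, U, Z] (by
      simp [length_UZ]; omega)
    have e : (([Z, U, Z] : List Lt).length : ℕ) = 3 := rfl
    rw [e, Nat.cast_ofNat] at h6
    exact h6
  have e3 : dec (sig ρ (true, 3, s₂)) = (U, put 0 (Z :: U :: Z :: Z :: U :: UZ (n - 2))) := by
    rw [sig_Q, dec_P, hs₂, ← hput]
  have e4 : dec ((true, 3, s₂) : AV n 0) = (Z, put 0 (Z :: U :: Z :: U :: U :: UZ (n - 2))) := by
    rw [dec_Q, hs₂, ← hput]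
  rw [List.map_cons, List.map_cons, List.map_nil, e1, e2, e3, e4] at h5
  exact h5

end Pool.Agent.MPc603ed
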