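import Pool.Agent.Lib.MP_c603ed_co.PartAux

/-!
# MP_c603ed_co: part B, long ladder and marked edge
-/

set_option autoImplicit false
set_option linter.unusedSimpArgs false

namespace Pool.Agent.MPc603ed

open Lt PartAux

theorem p_B10 (h1 : S_arr) (h2 : S_putB) (h3 : S_trB) (h4 : S_B10c) : S_B10 := by
  intro n ι _ _ hn hc w a j r i x i1 q l hw ha hwj haj hwr har hwi hai hwx hax hwi1 hai1 hwq haq
    hri hrx hix hi1q hi1j hqj hk
  have hll : l ≠ !l := by cases l <;> simp
  have hri1 : r ≠ i1 := by rintro rfl; exact hll (hwi1.symm.trans hwr)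
  have hrq : r ≠ q := by rintro rfl; exact hll (hwq.symm.trans hwr)
  have hii1 : i ≠ i1 := by rintro rfl; exact hll (hwi1.symm.trans hwi)
  have hiq : i ≠ q := by rintro rfl; exact hll (hwq.symm.trans hwi)
  have hi1x : i1 ≠ x := by rintro rfl; exact hll (hwi1.symm.trans hwx)
  have hxq : x ≠ q := by rintro rfl; exact hll (hwq.symm.trans hwx)
  have hjr : j ≠ r := by rintro rfl; exact hll (hwj.symm.trans hwr)
  have hji : j ≠ i := by rintro rfl; exact hll (hwj.symm.trans hwi)
  have hjx : j ≠ x := by rintro rfl; exact hll (hwj.symm.trans hwx)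
  have hrj := hjr.symm
  have hjq := hqj.symm
  have hji1 := hi1j.symm
  have hz : tl l l = Z := tl_self l
  have hu : tl l (!l) = U := tl_not l
  obtain ⟨hb1, hb2, hb3⟩ := cnt_bal hc hw ha l
  obtain ⟨W, hW⟩ : ∃ W : List ((Bool × Bool) ⊕ ι), W =
    Sum.inr r :: Sum.inr i :: (rp (Sum.inl (l, !l)) (Sum.inl (!l, l)) (n - 2) ++
      [Sum.inr i1, Sum.inr x, Sum.inr q]) := ⟨_, rfl⟩
  have hWl : W.length = 2 * n + 1 := by
    rw [hW]
    simp only [List.length_cons, List.length_append, length_rp, List.length_nil]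
    omega
  obtain ⟨e, he, hfit⟩ := h1 n ι w a j [r, i, i1, x, q] W hc hWl
    (by simp [hri, hri1, hrx, hrq, hii1, hix, hiq, hi1x, hi1q, hxq])
    (by simp [hjr, hji, hji1, hjx, hjq])
    (by
      intro x
      rw [hW]
      simp only [List.count_cons, List.count_append, count_rp', beq1, beq4, beq_iff_eq, if_false,
        List.count_nil, Bool.false_eq_true]
      omega)
    (by
      intro x' y'
      rw [hW]
      simp only [List.count_cons, List.count_append, count_rp', beq2, beq3, beq_iff_eq, if_false,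
        Bool.false_eq_true, Prod.mk.injEq, List.filter_cons, List.filter_nil, hwj, haj, hwr, har,
        hwi, hai, hwx, hax, hwi1, hai1, hwq, haq, List.count_nil]
      cases l <;> cases x' <;> cases y' <;> simp at hk hb1 hb2 hb3 ⊢ <;> omega)
  have hH := h4 n hn
  have g1 : T :: yl n 0 = T :: U :: (ZU (n - 2) ++ [Z, U, Z]) := by
    rw [yl_zero (by omega), show ([Z, U, Z] : List Lt) = Z :: UZ 1 from rfl, ZU_Z_app, ← UZ_add]
    conv_lhs => rw [show n = n - 2 + 1 + 1 by omega]
    rfl
  have g2 : U :: yl n (n - 2) = U :: U :: (UZ (n - 2) ++ [Z, U, Z]) := by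
    unfold yl
    rw [show n - 1 - (n - 2) = 1 by omega]
    rfl
  have g3 : ∀ L : List Lt, UZ (n - 1) ++ L = U :: Z :: (UZ (n - 2) ++ L) := by
    intro L
    rw [show n - 1 = n - 2 + 1 by omega]
    rfl
  rw [g1, g2, g3, g3] at hH
  obtain ⟨b, hbd⟩ : ∃ b, b = swp a i i1 := ⟨_, rfl⟩
  obtain ⟨d, hdd⟩ : ∃ d, d = swp b q i1 := ⟨_, rfl⟩
  have hbb : Bal b := hbd ▸ ha.swp i i1
  have hdB : Bal d := hdd ▸ hbb.swp q i1
  have hbx : ∀ y, y ≠ i → y ≠ i1 → b y = a y := fun y h h' => by
    rw [hbd]; exact swp_apply_of_ne _ h h'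
  have hbi : b i = l := by rw [hbd, swp_apply_left, hai1]
  have hbi1 : b i1 = !l := by rw [hbd, swp_apply_right, hai]
  have hdx : ∀ y, y ≠ q → y ≠ i1 → d y = b y := fun y h h' => by
    rw [hdd]; exact swp_apply_of_ne _ h h'
  have hbr : b r = !l := by rw [hbx r hri hri1, har]
  have hbj : b j = l := by rw [hbx j hji hji1, haj]
  have hbxx : b x = !l := by rw [hbx x hix.symm hi1x.symm, hax]
  have hbq : b q = l := by rw [hbx q hiq.symm hi1q.symm, haq]
  have hdq : d q = !l := by rw [hdd, swp_apply_left, hbi1]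
  have hdi1 : d i1 = l := by rw [hdd, swp_apply_right, hbq]
  have hdr : d r = !l := by rw [hdx r hrq hri1, hbr]
  have hdi : d i = l := by rw [hdx i hiq hii1, hbi]
  have hdxx : d x = !l := by rw [hdx x hxq hi1x.symm, hbxx]
  have hdj : d j = l := by rw [hdx j hjq hji1, hbj]
  rw [← hbd, ← hdd]
  have e1 : strB e l ((w, some r) : GV ι) = (U, put 0 (T :: U :: (ZU (n - 2) ++ [Z, U, Z]))) := by
    refine Prod.ext (by change tl l (w r) = U; rw [hwr, hu]) (h2 n ι w a _ W e l _ _ hWl hfit ?_)
    rw [hW]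
    repeat' (first
      | exact List.Forall₂.nil
      | refine List.Forall₂.cons ?_ ?_
      | refine List.rel_append ?_ ?_
      | refine forall2_UZ ?_ ?_ _
      | refine forall2_ZU ?_ ?_ _)
    all_goals
      first
        | (simp [LetterOK, hwi, hwi1, hwx, hwq, hri, hri1, hrx, hrq, hu, hz]; done)
        | (intro y hyj hy hsy hty
           simp only [List.mem_cons, List.not_mem_nil, or_false, not_or] at hy
           simp [hsy, Ne.symm hy.1, hu, hz])
  have e2 : strB e l ((a, none) : GV ι) = (T, put 0 (U :: U :: (UZ (n - 2) ++ [Z, U, Z]))) := by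
    refine Prod.ext rfl (h2 n ι w a _ W e l _ _ hWl hfit ?_)
    rw [hW]
    repeat' (first
      | exact List.Forall₂.nil
      | refine List.Forall₂.cons ?_ ?_
      | refine List.rel_append ?_ ?_
      | refine forall2_UZ ?_ ?_ _
      | refine forall2_ZU ?_ ?_ _)
    all_goals
      first
        | (simp [LetterOK, har, hai, hai1, hax, haq, hu, hz]; done)
        | (intro y hyj hy hsy hty
           simp [hty, hu, hz])
  have e3 : strB e l ((d, some q) : GV ι) =
      (U, put 0 (U :: Z :: (UZ (n - 2) ++ [Z, U, T]))) := by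
    refine Prod.ext (by change tl l (d q) = U; rw [hdq, hu]) (h2 n ι w a _ W e l _ _ hWl hfit ?_)
    rw [hW]
    repeat' (first
      | exact List.Forall₂.nil
      | refine List.Forall₂.cons ?_ ?_
      | refine List.rel_append ?_ ?_
      | refine forall2_UZ ?_ ?_ _
      | refine forall2_ZU ?_ ?_ _)
    all_goals
      first
        | (simp [LetterOK, hdr, hdi, hdi1, hdxx, hrq.symm, hiq.symm, hi1q.symm, hxq.symm, hu, hz]
           done)
        | (intro y hyj hy hsy hty
           simp only [List.mem_cons, List.not_mem_nil, or_false, not_or] at hy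
           simp [hdx y hy.2.2.2.2 hy.2.2.1, hbx y hy.2.1 hy.2.2.1, hty, Ne.symm hy.2.2.2.2, hu, hz])
  have e4 : strB e l ((b, some q) : GV ι) =
      (Z, put 0 (U :: Z :: (UZ (n - 2) ++ [U, U, T]))) := by
    refine Prod.ext (by change tl l (b q) = Z; rw [hbq, hz]) (h2 n ι w a _ W e l _ _ hWl hfit ?_)
    rw [hW]
    repeat' (first
      | exact List.Forall₂.nil
      | refine List.Forall₂.cons ?_ ?_
      | refine List.rel_append ?_ ?_
      | refine forall2_UZ ?_ ?_ _
      | refine forall2_ZU ?_ ?_ _)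
    all_goals
      first
        | (simp [LetterOK, hbr, hbi, hbi1, hbxx, hrq.symm, hiq.symm, hi1q.symm, hxq.symm, hu, hz]
           done)
        | (intro y hyj hy hsy hty
           simp only [List.mem_cons, List.not_mem_nil, or_false, not_or] at hy
           simp [hbx y hy.2.1 hy.2.2.1, hty, Ne.symm hy.2.2.2.2, hu, hz])
  have key := h3 n ι e l ∅ [((w, some r), (a, none)), ((d, some q), (b, some q))]
    (Set.empty_subset _)
    (by
      rw [he]
      intro v hv
      simp only [List.mem_cons, List.not_mem_nil, or_false] at hv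
      rcases hv with rfl | rfl
      · exact ⟨⟨hw, hwj, fun h => hrj (Option.some.inj h)⟩, ⟨ha, haj, by simp⟩⟩
      · exact ⟨⟨hdB, hdj, fun h => hqj (Option.some.inj h)⟩,
          ⟨hbb, hbj, fun h => hqj (Option.some.inj h)⟩⟩)
    (by
      rw [Set.image_empty, Set.sdiff_empty]
      simp only [List.map_cons, List.map_nil, Prod.map_apply, e1, e2, e3, e4]
      exact hH)
  rw [Set.sdiff_empty, he] at key
  exact key

end Pool.Agent.MPc603ed
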