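import Pool.Agent.Lib.MP_c603ed_co.Spec2

/-!
# MP_c603ed_co: ladders (helper file of `P_L1c`, `P_L1pc`, `P_L1mc`, `P_B5c`, ...)
-/

set_option autoImplicit false

namespace Pool.Agent.MPc603ed

open Lt

namespace LadAux

section

variable {V : Type} {R : V → V → Prop} {S : Set V}

theorem chain_range (u v : ℕ → V) (k : ℕ) : ∀ (w : V) (rest : List (V × V)),
    HPs R S ((List.range k).map (fun i => (u i, v i)) ++ (u k, w) :: rest) →
    (∀ i, i < k → R (v i) (u (i + 1))) → HPs R S ((u 0, w) :: rest) := by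
  induction k with
  | zero =>
    intro w rest h _
    simpa using h
  | succ k ih =>
    intro w rest h hk
    rw [List.range_succ, List.map_append, List.append_assoc] at h
    have h1 := ih (v k) ((u (k + 1), w) :: rest) h (fun i hi => hk i (by omega))
    exact h1.merge (hk k (by omega))

theorem flip_range (hR : ∀ a b, R a b → R b a) (u v : ℕ → V) (k : ℕ) :
    ∀ (rest : List (V × V)),
    HPs R S ((List.range k).map (fun i => (v i, u i)) ++ rest) →
    HPs R S ((List.range k).map (fun i => (u i, v i)) ++ rest) := by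
  induction k with
  | zero =>
    intro rest h
    simpa using h
  | succ k ih =>
    intro rest h
    rw [List.range_succ, List.map_append, List.append_assoc] at h ⊢
    have h1 := ih ((v k, u k) :: rest) h
    have h2 : HPs R S ((v k, u k) :: ((List.range k).map (fun i => (u i, v i)) ++ rest)) :=
      h1.perm List.perm_middle
    exact (h2.rev hR).perm List.perm_middle.symm

end

theorem pw {n : ℕ} {ρ : Equiv.Perm (St n 1)} {deg : St n 1 → ℕ} (hdeg : ∀ s, deg (ρ s) = deg s)
    (zs : List (AV n 1)) (h : (zs.map (fun z => deg z.2.2)).Nodup) :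
    zs.Pairwise (fun z w => ¬ ρ.SameCycle z.2.2 w.2.2) := by
  rw [List.Nodup, List.pairwise_map] at h
  exact h.imp fun hne hsc => hne (sameCycle_const hdeg hsc)

theorem nat_ne {n : ℕ} {a b : ℕ} (hab : a ≠ b) (ha : a < 2 * n + 1) (hb : b < 2 * n + 1) :
    (a : ZMod (2 * n + 1)) ≠ (b : ZMod (2 * n + 1)) := by
  intro h
  have h3 := congrArg ZMod.val h
  rw [ZMod.val_natCast, ZMod.val_natCast, Nat.mod_eq_of_lt ha, Nat.mod_eq_of_lt hb] at h3
  exact hab h3

theorem zero_ne {n : ℕ} (hn : 3 ≤ n) : (0 : ZMod (2 * n + 1)) ≠ 1 ∧ (0 : ZMod (2 * n + 1)) ≠ 4 := by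
  constructor
  · have := nat_ne (n := n) (a := 0) (b := 1) (by omega) (by omega) (by omega)
    simpa using this
  · have := nat_ne (n := n) (a := 0) (b := 4) (by omega) (by omega) (by omega)
    simpa using this

theorem neg_one_ne {n : ℕ} (hn : 3 ≤ n) :
    (-1 : ZMod (2 * n + 1)) ≠ 1 ∧ (-1 : ZMod (2 * n + 1)) ≠ 4 := by
  constructor
  · intro h
    have h1 := nat_ne (n := n) (a := 0) (b := 2) (by omega) (by omega) (by omega)
    apply h1
    push_cast
    linear_combination h
  · intro h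
    have h1 := nat_ne (n := n) (a := 0) (b := 5) (by omega) (by omega) (by omega)
    apply h1
    push_cast
    linear_combination h

theorem count_yl (n i : ℕ) : (yl n i).count T = 0 := by
  simp [yl, count_T_UZ]

theorem exS {n : ℕ} (hn : 1 ≤ n) :
    ∃ S : ℕ → St n 1, ∀ i, i + 1 ≤ n → (S i).1 = (T, yl n i) := by
  refine ⟨fun i => if h : i + 1 ≤ n then
      mkT n (yl n i) (Bl.yl h).dy (length_yl h) (count_yl n i)
    else mkT n (yl n 0) (Bl.yl hn).dy (length_yl hn) (count_yl n 0), ?_⟩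
  intro i hi
  simp only [hi, dif_pos]
  rfl

theorem UZ_succ' (i : ℕ) : UZ (i + 1) = UZ i ++ [U, Z] := by
  rw [UZ_add]; rfl

section

variable {n : ℕ} {ρ : Equiv.Perm (St n 1)} (hρ : RhoSpec ρ) {S : ℕ → St n 1}
  (hS : ∀ i, i + 1 ≤ n → (S i).1 = (T, yl n i))

include hS

theorem dec_u {i : ℕ} (hi : i + 1 ≤ n) :
    dec ((false, 0, S i) : AV n 1) = (U, put 0 (T :: yl n i)) := by
  rw [dec_P, hS i hi]

theorem dec_w {i : ℕ} (hi : i + 1 ≤ n) :
    dec ((true, 0, S i) : AV n 1) = (T, put 0 (U :: yl n i)) := by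
  rw [dec_Q, hS i hi]

include hρ in
theorem dec_v {i : ℕ} (hi : i + 1 ≤ n) :
    dec (sig ρ ((false, 0, S i) : AV n 1)) =
      (Z, put 0 (T :: U :: (UZ i ++ U :: UZ (n - 1 - i)))) := by
  have h1 := hρ (S i) (UZ i) (UZ (n - 1 - i)) Z (Dy.uz _) (by decide) (Dy.uz _) (by
    rw [hS i hi]; rfl)
  rw [hS i hi] at h1
  rw [sig_P, dec_Q, h1]
  simp only
  rw [← put_rotate (0 : ZMod (2 * n + 1)) T (U :: (UZ i ++ U :: UZ (n - 1 - i))) (by
    simp only [List.length_cons, List.length_append, length_UZ]; omega)]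
  simp

theorem star0 (hn : 1 ≤ n) : StarOrb ρ (S 0) := by
  refine ⟨0, ?_⟩
  rw [Function.iterate_zero, id, IsStar, hS 0 hn, yl_zero hn]
  rfl

omit hS in
theorem adj_lad {n i : ℕ} (hi : i + 2 ≤ n) :
    sadj ((Z, put 0 (T :: U :: (UZ i ++ U :: UZ (n - 1 - i)))) : Str n)
      (U, put 0 (T :: yl n (i + 1))) := by
  have h := sadj_put (0 : ZMod (2 * n + 1)) (T :: U :: (UZ i ++ [U])) (Z :: UZ (n - 2 - i)) U Z
    (by decide) (by simp only [List.length_cons, List.length_append, length_UZ,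
      List.length_nil]; omega)
  have e1 : UZ (n - 1 - i) = U :: Z :: UZ (n - 2 - i) := by
    rw [show n - 1 - i = (n - 2 - i) + 1 by omega]; rfl
  have e2 : yl n (i + 1) = U :: (UZ i ++ [U] ++ Z :: Z :: UZ (n - 2 - i)) := by
    rw [yl, UZ_succ', show n - 1 - (i + 1) = n - 2 - i by omega]
    simp
  rw [e1, e2]
  simpa using h

include hρ in
theorem adj' {i : ℕ} (hi : i + 2 ≤ n) :
    sadj (dec (sig ρ ((false, 0, S i) : AV n 1))) (dec ((false, 0, S (i + 1)) : AV n 1)) := by
  rw [dec_v hρ hS (by omega), dec_u hS (by omega)]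
  exact adj_lad hi

theorem nodup_lad {deg : St n 1 → ℕ}
    (hdeg : ∀ (s : St n 1) (k : ℕ), s.1.1 = T → Bl s.1.2 k → deg s = k) {k : ℕ} (hk : k + 1 ≤ n) :
    ((List.range (k + 1)).map (fun i => deg (S i))).Nodup := by
  have h1 : ∀ i, i + 1 ≤ n → deg (S i) = n - i := by
    intro i hi
    apply hdeg
    · rw [hS i hi]
    · rw [hS i hi]; exact Bl.yl hi
  refine List.Nodup.map_on ?_ List.nodup_range
  intro i hi j hj hij
  rw [List.mem_range] at hi hj
  rw [h1 i (by omega), h1 j (by omega)] at hij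
  omega

end

end LadAux

end Pool.Agent.MPc603ed
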