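import Pool.Agent.Lib.MP_c603ed_co.Spec2
import Pool.Agent.Lib.MP_c603ed_co.LadAux

/-!
# MP_c603ed_co: a ladder and one more edge (helper file of `P_B5c`, `P_B10c`, `P_B11c`, `P_B7c`)
-/

set_option autoImplicit false

namespace Pool.Agent.MPc603ed

open Lt

namespace LadAux

theorem lad_rest (h3 : S_T1) {n : ℕ} (hn : 3 ≤ n) {ρ : Equiv.Perm (St n 1)} (hρ : RhoSpec ρ)
    {deg : St n 1 → ℕ} (hd1 : ∀ s, deg (ρ s) = deg s)
    (hd2 : ∀ (s : St n 1) (k : ℕ), s.1.1 = T → Bl s.1.2 k → deg s = k) {S : ℕ → St n 1}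
    (hS : ∀ i, i + 1 ≤ n → (S i).1 = (T, yl n i)) {k : ℕ} (hk : k + 1 ≤ n)
    (x : AV n 1) (hx : x.1 = true) (hdx : deg x.2.2 < n - k) :
    HPs sadj (Cls n 1)
      [((U, put 0 (T :: yl n 0)), (T, put 0 (U :: yl n k))), (dec (sig ρ x), dec x)] := by
  have hdS : ∀ i, i + 1 ≤ n → deg (S i) = n - i := by
    intro i hi
    apply hd2
    · rw [hS i hi]
    · rw [hS i hi]; exact Bl.yl hi
  have h4 := h3 n 1 hn le_rfl ρ hρ
    ((List.range k).map (fun i => ((false, 0, S i) : AV n 1)) ++ [(true, 0, S k), x]) (by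
      apply LadAux.pw hd1
      have h5 := LadAux.nodup_lad hS hd2 hk
      rw [List.map_append, List.map_map]
      rw [List.range_succ, List.map_append] at h5
      change (List.map _ _ ++ [deg (S k), deg x.2.2]).Nodup
      have e : List.map ((fun z : AV n 1 => deg z.2.2) ∘ fun i => (false, 0, S i)) (List.range k) ++
          [deg (S k), deg x.2.2] =
          (List.map (fun i => deg (S i)) (List.range k) ++ List.map (fun i => deg (S i)) [k]) ++
            [deg x.2.2] := by
        rw [List.append_assoc]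
        rfl
      rw [e, List.nodup_append]
      refine ⟨h5, by simp, ?_⟩
      intro a ha b hb
      rw [List.mem_singleton] at hb
      subst hb
      rw [← List.map_append, ← List.range_succ] at ha
      obtain ⟨i, hi, rfl⟩ := List.mem_map.1 ha
      rw [List.mem_range] at hi
      rw [hdS i (by omega)]
      omega) (by
      rcases Nat.eq_zero_or_pos k with rfl | hk0
      · exact ⟨(true, 0, S 0), by simp, LadAux.star0 hS (by omega)⟩
      · exact ⟨(false, 0, S 0), List.mem_append_left _ (List.mem_map.2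
          ⟨0, List.mem_range.2 hk0, rfl⟩), LadAux.star0 hS (by omega)⟩) (by
      intro z hz
      rw [List.mem_append] at hz
      rcases hz with hz | hz
      · obtain ⟨i, _, rfl⟩ := List.mem_map.1 hz
        exact Or.inr (LadAux.zero_ne hn)
      · simp only [List.mem_cons, List.not_mem_nil, or_false] at hz
        rcases hz with rfl | rfl
        · exact Or.inl rfl
        · exact Or.inl hx)
  rw [List.map_append, List.map_map] at h4
  have h5 := LadAux.flip_range (fun _ _ => sadj_symm)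
    (fun i => dec ((false, 0, S i) : AV n 1)) (fun i => dec (sig ρ ((false, 0, S i) : AV n 1))) k _ h4
  have h6 := LadAux.chain_range (fun i => dec ((false, 0, S i) : AV n 1))
    (fun i => dec (sig ρ ((false, 0, S i) : AV n 1))) k _ [(dec (sig ρ x), dec x)] h5
    (fun i hi => LadAux.adj' hρ hS (by omega))
  rw [LadAux.dec_u hS (by omega), LadAux.dec_w hS (by omega)] at h6
  exact h6

theorem UZ_succ_ZU (k : ℕ) : UZ (k + 1) = U :: (ZU k ++ [Z]) := by
  rw [UZ_succ', show [U, Z] = [U] ++ [Z] from rfl, ← List.append_assoc, UZ_U]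
  rfl

/-- the state `(Z; U T (UZ)^(n-1))` -/
theorem exs0 {n : ℕ} (hn : 1 ≤ n) {ρ : Equiv.Perm (St n 1)} (hρ : RhoSpec ρ)
    {deg : St n 1 → ℕ} (hd1 : ∀ s, deg (ρ s) = deg s)
    (hd2 : ∀ (s : St n 1) (k : ℕ), s.1.1 = T → Bl s.1.2 k → deg s = k) :
    ∃ s : St n 1, s.1 = (Z, U :: T :: UZ (n - 1)) ∧ deg s = 1 := by
  have hdy : Dy (U :: ([] ++ T :: UZ (n - 1))) := Dy.cons [] _ T Dy.nil (by decide) (Dy.uz _)
  refine ⟨mkZ n (U :: ([] ++ T :: UZ (n - 1))) hdy (by simp [length_UZ]; omega)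
    (by simp [count_T_UZ]), rfl, ?_⟩
  rw [← hd1]
  have h := hρ (mkZ n (U :: ([] ++ T :: UZ (n - 1))) hdy (by simp [length_UZ]; omega)
    (by simp [count_T_UZ])) [] (UZ (n - 1)) T Dy.nil (by decide) (Dy.uz _) rfl
  apply hd2
  · rw [h]
  · rw [h]
    exact Bl.prime (Dy.uz _) (show (Z : Lt) ≠ U by decide)

end LadAux

end Pool.Agent.MPc603ed
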