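import Pool.Agent.Lib.MP_c603ed_co.Spec2
import Pool.Agent.Lib.MP_c603ed_co.LadAux2

/-!
# MP_c603ed_co: ladder of length one and a hub edge (2)
-/

set_option autoImplicit false

namespace Pool.Agent.MPc603ed

open Lt

theorem p_B11c (h1 : S_rho) (h2 : S_deg) (h3 : S_T1) : S_B11c := by
  intro n hn
  obtain ⟨ρ, hρ⟩ := h1 n 1
  obtain ⟨deg, hd1, hd2⟩ := h2 n ρ hρ
  obtain ⟨S, hS⟩ := LadAux.exS (n := n) (by omega)
  have hd : Dy (U :: (UZ (n - 2) ++ [Z])) := Dy.cons _ [] Z (Dy.uz _) (by decide) Dy.nil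
  have hy : U :: ((U :: (UZ (n - 2) ++ [Z])) ++ [Z]) =
      U :: U :: U :: (ZU (n - 3) ++ [Z, Z, Z]) := by
    rw [show n - 2 = (n - 3) + 1 by omega, LadAux.UZ_succ_ZU]
    simp
  have hbl : Bl (U :: U :: U :: (ZU (n - 3) ++ [Z, Z, Z])) 1 := by
    rw [← hy]
    exact Bl.prime hd (by decide)
  obtain ⟨s, hs⟩ : ∃ s : St n 1, s.1 = (T, U :: U :: U :: (ZU (n - 3) ++ [Z, Z, Z])) :=
    ⟨mkT n _ hbl.dy (by simp [length_ZU]; omega) (by simp [count_T_ZU]), rfl⟩
  have hdeg : deg s = 1 := hd2 s 1 (by rw [hs]) (by rw [hs]; exact hbl)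
  have h4 := LadAux.lad_rest h3 hn hρ hd1 hd2 hS (k := 1) (by omega)
    (true, (([Z, Z, Z] : List Lt).length : ℕ), s) rfl (by
      change deg s < _
      rw [hdeg]; omega)
  have e1 : dec (sig ρ ((true, (([Z, Z, Z] : List Lt).length : ℕ), s) : AV n 1)) =
      (U, put 0 (Z :: Z :: Z :: T :: U :: U :: U :: ZU (n - 3))) := by
    rw [sig_Q, dec_P, hs]
    have h := put_eq_put_zero (n := n) (T :: U :: U :: U :: ZU (n - 3)) [Z, Z, Z] (by
      simp only [List.length_cons, length_ZU, List.length_nil]; omega)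
    have h' : T :: U :: U :: U :: (ZU (n - 3) ++ [Z, Z, Z]) =
      (T :: U :: U :: U :: ZU (n - 3)) ++ [Z, Z, Z] := rfl
    simp only
    rw [h', h]
    rfl
  have e2 : dec ((true, (([Z, Z, Z] : List Lt).length : ℕ), s) : AV n 1) =
      (T, put 0 (Z :: Z :: Z :: U :: U :: U :: U :: ZU (n - 3))) := by
    rw [dec_Q, hs]
    have h := put_eq_put_zero (n := n) (U :: U :: U :: U :: ZU (n - 3)) [Z, Z, Z] (by
      simp only [List.length_cons, length_ZU, List.length_nil]; omega)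
    have h' : U :: U :: U :: U :: (ZU (n - 3) ++ [Z, Z, Z]) =
      (U :: U :: U :: U :: ZU (n - 3)) ++ [Z, Z, Z] := rfl
    simp only
    rw [h', h]
    rfl
  rw [e1, e2] at h4
  exact h4

end Pool.Agent.MPc603ed
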