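import Pool.Agent.Lib.MP_c603ed_co.Spec3

/-!
# MP_c603ed_co: part B, ladder and hub edge (1)
-/

set_option autoImplicit false

namespace Pool.Agent.MPc603ed

open Lt

namespace p_B5Aux

theorem beq1 {α β : Type} [BEq α] [BEq β] (a : α) (b : β) :
    ((Sum.inl a : α ⊕ β) == Sum.inr b) = false := rfl

theorem beq2 {α β : Type} [BEq α] [BEq β] (a : α) (b : β) :
    ((Sum.inr b : α ⊕ β) == Sum.inl a) = false := rfl

theorem beq3 {α β : Type} [BEq α] [BEq β] (a b : α) :
    ((Sum.inl a : α ⊕ β) == Sum.inl b) = (a == b) := rfl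

theorem beq4 {α β : Type} [BEq α] [BEq β] (a b : β) :
    ((Sum.inr a : α ⊕ β) == Sum.inr b) = (a == b) := rfl

theorem count_rp' {α : Type} [BEq α] (a b c : α) (k : ℕ) :
    (rp a b k).count c = (if (a == c) = true then k else 0) + (if (b == c) = true then k else 0) := by
  induction k with
  | zero => simp [rp]
  | succ k ih =>
    simp only [rp, List.count_cons, ih]
    split_ifs <;> omega

end p_B5Aux

open p_B5Aux in
theorem p_B5 (h1 : S_arr) (h2 : S_putB) (h3 : S_trB) (h4 : S_B5c) : S_B5 := by
  intro n ι _ _ hn hc s t j r x y l hs ht hsj htj hsr htr hsx htx hsy hty hcnt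
  have hll : l ≠ !l := by cases l <;> simp
  have hrx : r ≠ x := by rintro rfl; exact hll (htr.symm.trans htx)
  have hry : r ≠ y := by rintro rfl; exact hll (hsy.symm.trans hsr)
  have hxy : x ≠ y := by rintro rfl; exact hll (hsy.symm.trans hsx)
  have hjr : j ≠ r := by rintro rfl; exact hll (hsj.symm.trans hsr)
  have hjx : j ≠ x := by rintro rfl; exact hll (hsj.symm.trans hsx)
  have hjy : j ≠ y := by rintro rfl; exact hll (htj.symm.trans hty)
  obtain ⟨hb1, hb2, hb3⟩ := cnt_bal hc hs ht l
  obtain ⟨W, hW⟩ : ∃ W : List ((Bool × Bool) ⊕ ι), W =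
    Sum.inr r :: Sum.inl (!l, l) :: Sum.inr x :: Sum.inr y :: Sum.inl (l, !l) ::
      rp (Sum.inl (!l, l)) (Sum.inl (l, !l)) (n - 2) := ⟨_, rfl⟩
  have hWl : W.length = 2 * n + 1 := by
    rw [hW]
    simp only [List.length_cons, length_rp]
    omega
  obtain ⟨e, he, hfit⟩ := h1 n ι s t j [r, x, y] W hc hWl
    (by simp [hrx, hry, hxy]) (by simp [hjr, hjx, hjy])
    (by
      intro i
      rw [hW]
      simp only [List.count_cons, count_rp', beq1, beq4, beq_iff_eq, if_false,
        List.count_nil, Bool.false_eq_true]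
      omega)
    (by
      intro a b
      rw [hW]
      simp only [List.count_cons, count_rp', beq2, beq3, beq_iff_eq, if_false,
        Bool.false_eq_true, Prod.mk.injEq, List.filter_cons, List.filter_nil, hsj, htj, hsr, htr, hsx, htx, hsy, hty]
      cases l <;> cases a <;> cases b <;> simp at hb1 hb2 hb3 hcnt ⊢ <;> omega)
  -- letters of the vertices
  have hz : tl l l = Z := tl_self l
  have hu : tl l (!l) = U := tl_not l
  have e1 : strB e l ((swp s x y, some r) : GV ι) = (U, put 0 (T :: yl n 0)) := by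
    refine Prod.ext ?_ ?_
    · change tl l (swp s x y r) = U
      rw [swp_apply_of_ne _ hrx hry, hsr, hu]
    · have hL : T :: yl n 0 = T :: U :: Z :: U :: Z :: UZ (n - 2) := by
        rw [yl_zero (by omega)]
        obtain ⟨k, rfl⟩ : ∃ k, n = k + 2 := ⟨n - 2, by omega⟩
        rfl
      rw [hL]
      refine h2 n ι s t [r, x, y] W e l _ _ hWl hfit ?_
      rw [hW]
      have hgen : ∀ a b : Bool, ∀ c : Lt, tl l a = c →
          LetterOK s t (e none) [r, x, y] l ((swp s x y, some r) : GV ι) (Sum.inl (a, b)) c := by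
        intro a b c hac i hij hi hsi hti
        simp only [List.mem_cons, List.not_mem_nil, or_false, not_or] at hi
        have h5 : (some r : Option ι) ≠ some i := fun h => hi.1 (Option.some.inj h).symm
        simp only [if_neg h5]
        rw [swp_apply_of_ne _ hi.2.1 hi.2.2, hsi, hac]
      refine List.Forall₂.cons ?_ (List.Forall₂.cons (hgen _ _ _ hu) (List.Forall₂.cons ?_
        (List.Forall₂.cons ?_ (List.Forall₂.cons (hgen _ _ _ hz)
          (forall2_UZ (hgen _ _ _ hu) (hgen _ _ _ hz) _)))))
      · simp [LetterOK]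
      · simp only [LetterOK]
        rw [if_neg (fun h => hrx (Option.some.inj h)), swp_apply_left, hsy, hz]
      · simp only [LetterOK]
        rw [if_neg (fun h => hry (Option.some.inj h)), swp_apply_right, hsx, hu]
  have e2 : strB e l ((s, none) : GV ι) = (T, put 0 (U :: yl n 1)) := by
    refine Prod.ext rfl ?_
    have hL : U :: yl n 1 = U :: U :: U :: Z :: Z :: UZ (n - 2) := by
      obtain ⟨k, rfl⟩ : ∃ k, n = k + 2 := ⟨n - 2, by omega⟩
      rfl
    rw [hL]
    refine h2 n ι s t [r, x, y] W e l _ _ hWl hfit ?_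
    rw [hW]
    have hgen : ∀ a b : Bool, ∀ c : Lt, tl l a = c →
        LetterOK s t (e none) [r, x, y] l ((s, none) : GV ι) (Sum.inl (a, b)) c := by
      intro a b c hac i hij hi hsi hti
      simp only [reduceCtorEq, if_false]
      rw [hsi, hac]
    refine List.Forall₂.cons ?_ (List.Forall₂.cons (hgen _ _ _ hu) (List.Forall₂.cons ?_
      (List.Forall₂.cons ?_ (List.Forall₂.cons (hgen _ _ _ hz)
        (forall2_UZ (hgen _ _ _ hu) (hgen _ _ _ hz) _)))))
    · simp [LetterOK, hsr, hu]
    · simp [LetterOK, hsx, hu]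
    · simp [LetterOK, hsy, hz]
  have e3 : strB e l ((t, some x) : GV ι) = (U, put 0 (Z :: Z :: T :: U :: U :: ZU (n - 2))) := by
    refine Prod.ext ?_ ?_
    · change tl l (t x) = U
      rw [htx, hu]
    · refine h2 n ι s t [r, x, y] W e l _ _ hWl hfit ?_
      rw [hW]
      have hgen : ∀ a b : Bool, ∀ c : Lt, tl l b = c →
          LetterOK s t (e none) [r, x, y] l ((t, some x) : GV ι) (Sum.inl (a, b)) c := by
        intro a b c hac i hij hi hsi hti
        simp only [List.mem_cons, List.not_mem_nil, or_false, not_or] at hi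
        have h5 : (some x : Option ι) ≠ some i := fun h => hi.2.1 (Option.some.inj h).symm
        simp only [if_neg h5]
        rw [hti, hac]
      refine List.Forall₂.cons ?_ (List.Forall₂.cons (hgen _ _ _ hz) (List.Forall₂.cons ?_
        (List.Forall₂.cons ?_ (List.Forall₂.cons (hgen _ _ _ hu)
          (forall2_ZU (hgen _ _ _ hz) (hgen _ _ _ hu) _)))))
      · simp only [LetterOK]
        rw [if_neg (fun h => hrx (Option.some.inj h).symm), htr, hz]
      · simp [LetterOK]
      · simp only [LetterOK]
        rw [if_neg (fun h => hxy (Option.some.inj h)), hty, hu]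
  have e4 : strB e l ((t, none) : GV ι) = (T, put 0 (Z :: Z :: U :: U :: U :: ZU (n - 2))) := by
    refine Prod.ext rfl ?_
    refine h2 n ι s t [r, x, y] W e l _ _ hWl hfit ?_
    rw [hW]
    have hgen : ∀ a b : Bool, ∀ c : Lt, tl l b = c →
        LetterOK s t (e none) [r, x, y] l ((t, none) : GV ι) (Sum.inl (a, b)) c := by
      intro a b c hac i hij hi hsi hti
      simp only [reduceCtorEq, if_false]
      rw [hti, hac]
    refine List.Forall₂.cons ?_ (List.Forall₂.cons (hgen _ _ _ hz) (List.Forall₂.cons ?_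
      (List.Forall₂.cons ?_ (List.Forall₂.cons (hgen _ _ _ hu)
        (forall2_ZU (hgen _ _ _ hz) (hgen _ _ _ hu) _)))))
    · simp [LetterOK, htr, hz]
    · simp [LetterOK, htx, hu]
    · simp [LetterOK, hty, hu]
  have key := h3 n ι e l ∅ [((swp s x y, some r), (s, none)), ((t, some x), (t, none))]
    (Set.empty_subset _)
    (by
      rw [he]
      intro p hp
      simp only [List.mem_cons, List.not_mem_nil, or_false] at hp
      have hsw : swp s x y j = l := by rw [swp_apply_of_ne _ hjx hjy, hsj]
      rcases hp with rfl | rfl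
      · exact ⟨⟨hs.swp x y, hsw, fun h => hjr (Option.some.inj h).symm⟩, ⟨hs, hsj, by simp⟩⟩
      · exact ⟨⟨ht, htj, fun h => hjx (Option.some.inj h).symm⟩, ⟨ht, htj, by simp⟩⟩)
    (by
      rw [Set.image_empty, Set.sdiff_empty]
      simp only [List.map_cons, List.map_nil, Prod.map_apply, e1, e2, e3, e4]
      exact h4 n hn)
  rw [Set.sdiff_empty, he] at key
  exact key

end Pool.Agent.MPc603ed
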