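import Pool.Agent.Lib.MP_c603ed_co.Spec2
import Pool.Agent.Lib.MP_c603ed_co.LadAux2

/-!
# MP_c603ed_co: ladder of length one and a hub edge (1)
-/

set_option autoImplicit false

namespace Pool.Agent.MPc603ed

open Lt

theorem p_B5c (h1 : S_rho) (h2 : S_deg) (h3 : S_T1) : S_B5c := by
  intro n hn
  obtain ⟨ρ, hρ⟩ := h1 n 1
  obtain ⟨deg, hd1, hd2⟩ := h2 n ρ hρ
  obtain ⟨S, hS⟩ := LadAux.exS (n := n) (by omega)
  have hSn := hS (n - 1) (by omega)
  have hy : yl n (n - 1) = U :: U :: (ZU (n - 2) ++ [Z, Z]) := by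
    rw [yl, show n - 1 - (n - 1) = 0 by omega, show n - 1 = (n - 2) + 1 by omega,
      LadAux.UZ_succ_ZU]
    simp [UZ]
  have hdeg : deg (S (n - 1)) = 1 := by
    rw [hd2 (S (n - 1)) (n - (n - 1)) (by rw [hSn]) (by rw [hSn]; exact Bl.yl (by omega))]
    omega
  have h4 := LadAux.lad_rest h3 hn hρ hd1 hd2 hS (k := 1) (by omega)
    (true, (([Z, Z] : List Lt).length : ℕ), S (n - 1)) rfl (by
      change deg (S (n - 1)) < _
      rw [hdeg]; omega)
  have e1 : dec (sig ρ ((true, (([Z, Z] : List Lt).length : ℕ), S (n - 1)) : AV n 1)) =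
      (U, put 0 (Z :: Z :: T :: U :: U :: ZU (n - 2))) := by
    rw [sig_Q, dec_P, hSn, hy]
    have h := put_eq_put_zero (n := n) (T :: U :: U :: ZU (n - 2)) [Z, Z] (by
      simp only [List.length_cons, length_ZU, List.length_nil]; omega)
    have h' : T :: U :: U :: (ZU (n - 2) ++ [Z, Z]) = (T :: U :: U :: ZU (n - 2)) ++ [Z, Z] := rfl
    simp only
    rw [h', h]
    rfl
  have e2 : dec ((true, (([Z, Z] : List Lt).length : ℕ), S (n - 1)) : AV n 1) =
      (T, put 0 (Z :: Z :: U :: U :: U :: ZU (n - 2))) := by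
    rw [dec_Q, hSn, hy]
    have h := put_eq_put_zero (n := n) (U :: U :: U :: ZU (n - 2)) [Z, Z] (by
      simp only [List.length_cons, length_ZU, List.length_nil]; omega)
    have h' : U :: U :: U :: (ZU (n - 2) ++ [Z, Z]) = (U :: U :: U :: ZU (n - 2)) ++ [Z, Z] := rfl
    simp only
    rw [h', h]
    rfl
  rw [e1, e2] at h4
  exact h4

end Pool.Agent.MPc603ed
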