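import Pool.Agent.Lib.MP_c603ed_co.PartAux

/-!
# MP_c603ed_co: part B, hub edge and marked edge
-/

set_option autoImplicit false
set_option linter.unusedSimpArgs false

namespace Pool.Agent.MPc603ed

open Lt PartAux

theorem p_B6 (h1 : S_arr) (h2 : S_putB) (h3 : S_trB) (h4 : S_B6c) : S_B6 := by
  intro n ι _ _ hn hc s j q p l hs hsj hsq hsp hpj
  have hll : l ≠ !l := by cases l <;> simp
  have hqp : q ≠ p := by rintro rfl; exact hll (hsp.symm.trans hsq)
  have hjq : j ≠ q := by rintro rfl; exact hll (hsj.symm.trans hsq)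
  have hpq := hqp.symm
  have hqj := hjq.symm
  have hjp := hpj.symm
  have hz : tl l l = Z := tl_self l
  have hu : tl l (!l) = U := tl_not l
  obtain ⟨hb1, hb2, hb3⟩ := cnt_bal hc hs hs l
  have hk : cnt s s l (!l) = 0 := by
    unfold cnt
    rw [Finset.card_eq_zero, Finset.filter_eq_empty_iff]
    rintro i _ ⟨e1, e2⟩
    exact hll (e1.symm.trans e2)
  rw [hk] at hb1 hb2 hb3
  obtain ⟨W, hW⟩ : ∃ W : List ((Bool × Bool) ⊕ ι), W =
    Sum.inr q :: Sum.inl (!l, !l) :: Sum.inr p ::
      rp (Sum.inl (!l, !l)) (Sum.inl (l, l)) (n - 1) := ⟨_, rfl⟩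
  have hWl : W.length = 2 * n + 1 := by
    rw [hW]
    simp only [List.length_cons, length_rp]
    omega
  obtain ⟨e, he, hfit⟩ := h1 n ι s s j [q, p] W hc hWl
    (by simp [hqp]) (by simp [hjq, hjp])
    (by
      intro x
      rw [hW]
      simp only [List.count_cons, List.count_append, count_rp', beq1, beq4, beq_iff_eq, if_false,
        List.count_nil, Bool.false_eq_true]
      try omega)
    (by
      intro x y
      rw [hW]
      simp only [List.count_cons, List.count_append, count_rp', beq2, beq3, beq_iff_eq, if_false,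
        Bool.false_eq_true, Prod.mk.injEq, List.filter_cons, List.filter_nil, hsj, hsq, hsp]
      cases l <;> cases x <;> cases y <;> simp at hk hb1 hb2 hb3 ⊢ <;> omega)
  have hH := h4 n hn
  have g1 : U :: UZ n = U :: U :: Z :: UZ (n - 1) := by
    obtain ⟨k, rfl⟩ : ∃ k, n = k + 1 := ⟨n - 1, by omega⟩
    rfl
  have g2 : T :: UZ n = T :: U :: Z :: UZ (n - 1) := by
    obtain ⟨k, rfl⟩ : ∃ k, n = k + 1 := ⟨n - 1, by omega⟩
    rfl
  rw [g1, g2] at hH
  have haq : swp s p q q = l := by rw [swp_apply_right, hsp]
  have hap : swp s p q p = !l := by rw [swp_apply_left, hsq]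
  have haj : swp s p q j = l := by rw [swp_apply_of_ne _ hjp hjq, hsj]
  have hax : ∀ x, x ≠ q → x ≠ p → swp s p q x = s x := fun x h h' => swp_apply_of_ne _ h' h
  have e1 : strB e l ((s, none) : GV ι) = (T, put 0 (U :: U :: Z :: UZ (n - 1))) := by
    refine Prod.ext rfl (h2 n ι s s _ W e l _ _ hWl hfit ?_)
    rw [hW]
    repeat' (first
      | exact List.Forall₂.nil
      | refine List.Forall₂.cons ?_ ?_
      | refine List.rel_append ?_ ?_
      | refine forall2_UZ ?_ ?_ _
      | refine forall2_ZU ?_ ?_ _)
    all_goals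
      first
        | (simp [LetterOK, hsq, hsp, hu, hz]; done)
        | (intro x hxj hx hsx htx
           simp [hsx, hu, hz])
  have e2 : strB e l ((s, some q) : GV ι) = (U, put 0 (T :: U :: Z :: UZ (n - 1))) := by
    refine Prod.ext (by change tl l (s q) = U; rw [hsq, hu]) (h2 n ι s s _ W e l _ _ hWl hfit ?_)
    rw [hW]
    repeat' (first
      | exact List.Forall₂.nil
      | refine List.Forall₂.cons ?_ ?_
      | refine List.rel_append ?_ ?_
      | refine forall2_UZ ?_ ?_ _
      | refine forall2_ZU ?_ ?_ _)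
    all_goals
      first
        | (simp [LetterOK, hsp, hqp, hz]; done)
        | (intro x hxj hx hsx htx
           simp only [List.mem_cons, List.not_mem_nil, or_false, not_or] at hx
           simp [hsx, Ne.symm hx.1, hu, hz])
  have e3 : strB e l ((swp s p q, some p) : GV ι) = (U, put 0 (Z :: U :: T :: UZ (n - 1))) := by
    refine Prod.ext (by change tl l (swp s p q p) = U; rw [hap, hu])
      (h2 n ι s s _ W e l _ _ hWl hfit ?_)
    rw [hW]
    repeat' (first
      | exact List.Forall₂.nil
      | refine List.Forall₂.cons ?_ ?_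
      | refine List.rel_append ?_ ?_
      | refine forall2_UZ ?_ ?_ _
      | refine forall2_ZU ?_ ?_ _)
    all_goals
      first
        | (simp [LetterOK, haq, hpq, hz]; done)
        | (intro x hxj hx hsx htx
           simp only [List.mem_cons, List.not_mem_nil, or_false, not_or] at hx
           simp [hax x hx.1 hx.2, hsx, Ne.symm hx.2, hu, hz])
  have e4 : strB e l ((s, some p) : GV ι) = (Z, put 0 (U :: U :: T :: UZ (n - 1))) := by
    refine Prod.ext (by change tl l (s p) = Z; rw [hsp, hz]) (h2 n ι s s _ W e l _ _ hWl hfit ?_)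
    rw [hW]
    repeat' (first
      | exact List.Forall₂.nil
      | refine List.Forall₂.cons ?_ ?_
      | refine List.rel_append ?_ ?_
      | refine forall2_UZ ?_ ?_ _
      | refine forall2_ZU ?_ ?_ _)
    all_goals
      first
        | (simp [LetterOK, hsq, hpq, hu]; done)
        | (intro x hxj hx hsx htx
           simp only [List.mem_cons, List.not_mem_nil, or_false, not_or] at hx
           simp [hsx, Ne.symm hx.2, hu, hz])
  have key := h3 n ι e l ∅ [((s, none), (s, some q)), ((swp s p q, some p), (s, some p))]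
    (Set.empty_subset _)
    (by
      rw [he]
      intro v hv
      simp only [List.mem_cons, List.not_mem_nil, or_false] at hv
      rcases hv with rfl | rfl
      · exact ⟨⟨hs, hsj, by simp⟩, ⟨hs, hsj, fun h => hqj (Option.some.inj h)⟩⟩
      · exact ⟨⟨hs.swp p q, haj, fun h => hpj (Option.some.inj h)⟩,
          ⟨hs, hsj, fun h => hpj (Option.some.inj h)⟩⟩)
    (by
      rw [Set.image_empty, Set.sdiff_empty]
      simp only [List.map_cons, List.map_nil, Prod.map_apply, e1, e2, e3, e4]
      exact hH)
  rw [Set.sdiff_empty, he] at key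
  exact key

end Pool.Agent.MPc603ed
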