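import Pool.Agent.Lib.MP_c603ed_co.P_S2c1

/-!
# MP_c603ed_co: a hub edge and a marked edge at the same star
-/

set_option autoImplicit false

namespace Pool.Agent.MPc603ed

open Lt

open p_S2c1Aux in
theorem p_B6c (h1 : S_rho) (h2 : S_deg) (h3 : S_T1) : S_B6c := by
  intro n hn
  obtain ⟨ρ, hρ⟩ := h1 n 1
  obtain ⟨deg, hd1, hd2⟩ := h2 n ρ hρ
  obtain ⟨s0, hs0⟩ : ∃ s : St n 1, s.1 = (T, UZ n) :=
    ⟨mkT n (UZ n) (Dy.uz n) (length_UZ n) (count_T_UZ n), rfl⟩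
  obtain ⟨s, hs⟩ := exZ hn
  have g0 : deg s0 = n := hd2 s0 n (by rw [hs0]) (by rw [hs0]; exact Bl.uz n)
  have g1 : deg s = 1 := deg_exZ hρ hd1 hd2 hs
  have h4 := h3 n 1 hn le_rfl ρ hρ [(true, 0, s0), (true, 0, s)] (by
    apply LadAux.pw hd1
    simp only [List.map_cons, List.map_nil, g0, g1]
    simp
    omega) ⟨(true, 0, s0), by simp, 0, by rw [IsStar]; exact hs0⟩ (by
    intro z hz
    left
    simp only [List.mem_cons, List.not_mem_nil, or_false] at hz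
    rcases hz with rfl | rfl <;> rfl)
  have e1 : dec (sig ρ (true, 0, s0)) = (U, put 0 (T :: UZ n)) := by
    rw [sig_Q, dec_P, hs0]
  have e2 : dec ((true, 0, s0) : AV n 1) = (T, put 0 (U :: UZ n)) := by
    rw [dec_Q, hs0]
  have e3 : dec (sig ρ (true, 0, s)) = (U, put 0 (Z :: U :: T :: UZ (n - 1))) := by
    rw [sig_Q, dec_P, hs]
  have e4 : dec ((true, 0, s) : AV n 1) = (Z, put 0 (U :: U :: T :: UZ (n - 1))) := by
    rw [dec_Q, hs]
  rw [List.map_cons, List.map_cons, List.map_nil, e1, e2, e3, e4] at h4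
  exact h4.rev (fun _ _ => sadj_symm)

end Pool.Agent.MPc603ed
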