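import Pool.Agent.Lib.MP_c603ed_co.PartAux

/-!
# MP_c603ed_co: part B, three edges (1)
-/

set_option autoImplicit false
set_option linter.unusedSimpArgs false

namespace Pool.Agent.MPc603ed

open Lt PartAux

theorem p_B7 (h1 : S_arr) (h2 : S_putB) (h3 : S_trB) (h4 : S_B7c) : S_B7 := by
  intro n ι _ _ hn hc s t j p i l hs ht hsj htj hsp htp hsi hti hcnt
  have hll : l ≠ !l := by cases l <;> simp
  have hpi : p ≠ i := by rintro rfl; exact hll (hti.symm.trans htp)
  have hip := hpi.symm
  have hjp : j ≠ p := by rintro rfl; exact hll (hsj.symm.trans hsp)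
  have hji : j ≠ i := by rintro rfl; exact hll (hsj.symm.trans hsi)
  have hpj := hjp.symm
  have hij := hji.symm
  have hz : tl l l = Z := tl_self l
  have hu : tl l (!l) = U := tl_not l
  obtain ⟨hb1, hb2, hb3⟩ := cnt_bal hc hs ht l
  obtain ⟨b, hb⟩ : ∃ b, cnt s t l (!l) = b := ⟨_, rfl⟩
  have hb0 : 1 ≤ b := by
    rw [← hb, ← hb1]
    unfold cnt
    exact Finset.card_pos.2 ⟨i, by simp [hsi, hti]⟩
  rw [hb] at hb1 hb2 hb3 hcnt
  obtain ⟨W, hW⟩ : ∃ W : List ((Bool × Bool) ⊕ ι), W =
    Sum.inr p :: (rp (Sum.inl (!l, !l)) (Sum.inl (l, l)) (n - b - 1) ++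
      Sum.inr i :: (rp (Sum.inl (l, !l)) (Sum.inl (!l, l)) (b - 1) ++
        [Sum.inl (!l, !l), Sum.inl (l, l), Sum.inl (l, !l)])) := ⟨_, rfl⟩
  have hWl : W.length = 2 * n + 1 := by
    rw [hW]
    simp only [List.length_cons, List.length_append, length_rp, List.length_nil]
    omega
  obtain ⟨e, he, hfit⟩ := h1 n ι s t j [p, i] W hc hWl
    (by simp [hpi]) (by simp [hjp, hji])
    (by
      intro x
      rw [hW]
      simp only [List.count_cons, List.count_append, count_rp', beq1, beq4, beq_iff_eq, if_false,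
        List.count_nil, Bool.false_eq_true]
      omega)
    (by
      intro x y
      rw [hW]
      simp only [List.count_cons, List.count_append, count_rp', beq2, beq3, beq_iff_eq, if_false,
        Bool.false_eq_true, Prod.mk.injEq, List.filter_cons, List.filter_nil, hsj, htj, hsp, htp,
        hsi, hti]
      cases l <;> cases x <;> cases y <;> simp at hb hb1 hb2 hb3 ⊢ <;> omega)
  have hH := h4 n b hn hb0 hcnt
  have g1 : UZ (n - 2) ++ [U, U, Z, Z] = UZ (n - b - 1) ++ U :: (ZU (b - 1) ++ [U, Z, Z]) := by
    rw [← UZ_U_app, ← List.append_assoc, ← UZ_add]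
    rw [show n - b - 1 + (b - 1) = n - 2 by omega]
  have g2 : UZ b ++ [U] = UZ (b - 1) ++ [U, Z, U] := by
    obtain ⟨c, rfl⟩ : ∃ c, b = c + 1 := ⟨b - 1, by omega⟩
    rw [UZ_add, Nat.add_sub_cancel]
    simp [UZ]
  rw [g1, g2] at hH
  have hap : swp t p i p = l := by rw [swp_apply_left, hti]
  have hai : swp t p i i = !l := by rw [swp_apply_right, htp]
  have haj : swp t p i j = l := by rw [swp_apply_of_ne _ hjp hji, htj]
  have hax : ∀ x, x ≠ p → x ≠ i → swp t p i x = t x := fun x h h' => swp_apply_of_ne _ h h'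
  have e1 : strB e l ((s, some p) : GV ι) =
      (U, put 0 (T :: (UZ (n - b - 1) ++ U :: (ZU (b - 1) ++ [U, Z, Z])))) := by
    refine Prod.ext (by change tl l (s p) = U; rw [hsp, hu]) (h2 n ι s t _ W e l _ _ hWl hfit ?_)
    rw [hW]
    repeat' (first
      | exact List.Forall₂.nil
      | refine List.Forall₂.cons ?_ ?_
      | refine List.rel_append ?_ ?_
      | refine forall2_UZ ?_ ?_ _
      | refine forall2_ZU ?_ ?_ _)
    all_goals
      first
        | (simp [LetterOK, hsp, hsi, hip, hpi, hu, hz]; done)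
        | (intro x hxj hx hsx htx
           simp only [List.mem_cons, List.not_mem_nil, or_false, not_or] at hx
           simp [hsx, Ne.symm hx.1, hu, hz])
  have e2 : strB e l ((s, none) : GV ι) =
      (T, put 0 (U :: (UZ (n - b - 1) ++ U :: (ZU (b - 1) ++ [U, Z, Z])))) := by
    refine Prod.ext rfl (h2 n ι s t _ W e l _ _ hWl hfit ?_)
    rw [hW]
    repeat' (first
      | exact List.Forall₂.nil
      | refine List.Forall₂.cons ?_ ?_
      | refine List.rel_append ?_ ?_
      | refine forall2_UZ ?_ ?_ _
      | refine forall2_ZU ?_ ?_ _)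
    all_goals
      first
        | (simp [LetterOK, hsp, hsi, hu]; done)
        | (intro x hxj hx hsx htx
           simp [hsx, hu, hz])
  have e3 : strB e l ((swp t p i, some i) : GV ι) =
      (U, put 0 (Z :: (UZ (n - b - 1) ++ T :: (UZ (b - 1) ++ [U, Z, U])))) := by
    refine Prod.ext (by change tl l (swp t p i i) = U; rw [hai, hu])
      (h2 n ι s t _ W e l _ _ hWl hfit ?_)
    rw [hW]
    repeat' (first
      | exact List.Forall₂.nil
      | refine List.Forall₂.cons ?_ ?_
      | refine List.rel_append ?_ ?_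
      | refine forall2_UZ ?_ ?_ _
      | refine forall2_ZU ?_ ?_ _)
    all_goals
      first
        | (simp [LetterOK, hap, hip, hz]; done)
        | (intro x hxj hx hsx htx
           simp only [List.mem_cons, List.not_mem_nil, or_false, not_or] at hx
           simp [hax x hx.1 hx.2, htx, Ne.symm hx.2, hu, hz])
  have e4 : strB e l ((swp t p i, none) : GV ι) =
      (T, put 0 (Z :: (UZ (n - b - 1) ++ U :: (UZ (b - 1) ++ [U, Z, U])))) := by
    refine Prod.ext rfl (h2 n ι s t _ W e l _ _ hWl hfit ?_)
    rw [hW]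
    repeat' (first
      | exact List.Forall₂.nil
      | refine List.Forall₂.cons ?_ ?_
      | refine List.rel_append ?_ ?_
      | refine forall2_UZ ?_ ?_ _
      | refine forall2_ZU ?_ ?_ _)
    all_goals
      first
        | (simp [LetterOK, hap, hai, hu, hz]; done)
        | (intro x hxj hx hsx htx
           simp only [List.mem_cons, List.not_mem_nil, or_false, not_or] at hx
           simp [hax x hx.1 hx.2, htx, hu, hz])
  have e5 : strB e l ((swp t p i, some p) : GV ι) =
      (Z, put 0 (T :: (UZ (n - b - 1) ++ U :: (UZ (b - 1) ++ [U, Z, U])))) := by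
    refine Prod.ext (by change tl l (swp t p i p) = Z; rw [hap, hz])
      (h2 n ι s t _ W e l _ _ hWl hfit ?_)
    rw [hW]
    repeat' (first
      | exact List.Forall₂.nil
      | refine List.Forall₂.cons ?_ ?_
      | refine List.rel_append ?_ ?_
      | refine forall2_UZ ?_ ?_ _
      | refine forall2_ZU ?_ ?_ _)
    all_goals
      first
        | (simp [LetterOK, hai, hpi, hu]; done)
        | (intro x hxj hx hsx htx
           simp only [List.mem_cons, List.not_mem_nil, or_false, not_or] at hx
           simp [hax x hx.1 hx.2, htx, Ne.symm hx.1, hu, hz])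
  have e6 : strB e l ((t, some p) : GV ι) =
      (U, put 0 (T :: (UZ (n - b - 1) ++ Z :: (UZ (b - 1) ++ [U, Z, U])))) := by
    refine Prod.ext (by change tl l (t p) = U; rw [htp, hu]) (h2 n ι s t _ W e l _ _ hWl hfit ?_)
    rw [hW]
    repeat' (first
      | exact List.Forall₂.nil
      | refine List.Forall₂.cons ?_ ?_
      | refine List.rel_append ?_ ?_
      | refine forall2_UZ ?_ ?_ _
      | refine forall2_ZU ?_ ?_ _)
    all_goals
      first
        | (simp [LetterOK, hti, hpi, hz]; done)
        | (intro x hxj hx hsx htx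
           simp only [List.mem_cons, List.not_mem_nil, or_false, not_or] at hx
           simp [htx, Ne.symm hx.1, hu, hz])
  have key := h3 n ι e l ∅ [((s, some p), (s, none)),
      ((swp t p i, some i), (swp t p i, none)), ((swp t p i, some p), (t, some p))]
    (Set.empty_subset _)
    (by
      rw [he]
      intro q hq
      simp only [List.mem_cons, List.not_mem_nil, or_false] at hq
      rcases hq with rfl | rfl | rfl
      · exact ⟨⟨hs, hsj, fun h => hpj (Option.some.inj h)⟩, ⟨hs, hsj, by simp⟩⟩
      · exact ⟨⟨ht.swp p i, haj, fun h => hij (Option.some.inj h)⟩, ⟨ht.swp p i, haj, by simp⟩⟩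
      · exact ⟨⟨ht.swp p i, haj, fun h => hpj (Option.some.inj h)⟩,
          ⟨ht, htj, fun h => hpj (Option.some.inj h)⟩⟩)
    (by
      rw [Set.image_empty, Set.sdiff_empty]
      simp only [List.map_cons, List.map_nil, Prod.map_apply, e1, e2, e3, e4, e5, e6]
      exact hH)
  rw [Set.sdiff_empty, he] at key
  exact key

end Pool.Agent.MPc603ed
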