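import Pool.Agent.Lib.MP_c603ed_co.Spec2
import Pool.Agent.Lib.MP_c603ed_co.LadAux2

/-!
# MP_c603ed_co: three edges (same mark twice)
-/

set_option autoImplicit false

namespace Pool.Agent.MPc603ed

open Lt

theorem p_B7c (h1 : S_rho) (h2 : S_deg) (h3 : S_rotF) (h4 : S_T1) : S_B7c := by
  intro n b hn hb hbn
  obtain ⟨ρ, hρ⟩ := h1 n 1
  obtain ⟨deg, hd1, hd2⟩ := h2 n ρ hρ
  -- the three states
  have hbl1 : Bl (UZ (n - 2) ++ [U, U, Z, Z]) (n - 2 + 1) := by
    have h5 : Bl (U :: ([U, Z] ++ [Z])) 1 :=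
      Bl.prime (show Dy [U, Z] from Dy.cons [] [] Z Dy.nil (by decide) Dy.nil) (by decide)
    exact (Bl.uz (n - 2)).app h5
  obtain ⟨s1, hs1⟩ : ∃ s : St n 1, s.1 = (T, UZ (n - 2) ++ [U, U, Z, Z]) :=
    ⟨mkT n _ hbl1.dy (by simp [length_UZ]; omega) (by simp [count_T_UZ]), rfl⟩
  obtain ⟨s2, hs2⟩ : ∃ s : St n 1, s.1 = (T, UZ n) :=
    ⟨mkT n _ (Dy.uz n) (by simp [length_UZ]) (by simp [count_T_UZ]), rfl⟩
  have hdy3' : Dy (U :: ([] ++ T :: UZ (n - b - 1))) :=
    Dy.cons [] _ T Dy.nil (by decide) (Dy.uz _)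
  have hdy3 : Dy (UZ b ++ U :: T :: UZ (n - b - 1)) := (Dy.uz b).app hdy3'
  obtain ⟨s3, hs3⟩ : ∃ s : St n 1, s.1 = (Z, UZ b ++ U :: T :: UZ (n - b - 1)) :=
    ⟨mkZ n _ hdy3 (by simp [length_UZ]; omega) (by simp [count_T_UZ]), rfl⟩
  have hg1 : deg s1 = n - 1 := by
    rw [hd2 s1 (n - 2 + 1) (by rw [hs1]) (by rw [hs1]; exact hbl1)]
    omega
  have hg2 : deg s2 = n := hd2 s2 n (by rw [hs2]) (by rw [hs2]; exact Bl.uz n)
  have hg3 : deg s3 = 1 := by
    have hit : ∀ k : ℕ, deg (ρ^[k] s3) = deg s3 := by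
      intro k
      induction k with
      | zero => rfl
      | succ k ih => rw [Function.iterate_succ_apply', hd1, ih]
    have h5 := h3 n 1 ρ hρ s3 (UZ b) (U :: T :: UZ (n - b - 1)) (Dy.uz b) hdy3' (by rw [hs3])
    set s4 := ρ^[(UZ b).length] s3 with hs4
    have h6 := hρ s4 [] (UZ (n - b - 1) ++ UZ b) T Dy.nil (by decide) ((Dy.uz _).app (Dy.uz _))
      (by rw [h5]; rfl)
    rw [← hit (UZ b).length, ← hs4, ← hd1]
    apply hd2
    · rw [h6]
    · rw [h6]
      have h7 : Bl (U :: ((UZ (n - b - 1) ++ UZ b) ++ [s4.1.1])) 1 :=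
        Bl.prime ((Dy.uz _).app (Dy.uz _)) s4.2.1
      exact h7
  set e : ZMod (2 * n + 1) := (((Z :: UZ (n - b - 1) : List Lt).length : ℕ) : ZMod (2 * n + 1))
    with he
  have h8 := h4 n 1 hn le_rfl ρ hρ [(true, 0, s1), (true, e, s2), (true, e, s3)] (by
      apply LadAux.pw hd1
      change [deg s1, deg s2, deg s3].Nodup
      rw [hg1, hg2, hg3]
      simp only [List.nodup_cons, List.mem_cons, List.not_mem_nil, or_false, not_or,
        List.nodup_nil, not_false_iff, and_true]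
      omega) (by
      refine ⟨(true, e, s2), by simp, 0, ?_⟩
      rw [Function.iterate_zero, id, IsStar, hs2]
      rfl) (by
      intro z hz
      simp only [List.mem_cons, List.not_mem_nil, or_false] at hz
      rcases hz with rfl | rfl | rfl <;> exact Or.inl rfl)
  simp only [List.map_cons, List.map_nil, sig_Q, dec_P, dec_Q, hs1, hs2, hs3] at h8
  have hn1 : UZ n = UZ b ++ U :: Z :: UZ (n - b - 1) := by
    conv_lhs => rw [show n = b + ((n - b - 1) + 1) by omega, UZ_add]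
    rfl
  have p1 : ∀ x : Lt, put e (x :: UZ n) =
      put 0 (Z :: (UZ (n - b - 1) ++ x :: (UZ b ++ [U]))) := by
    intro x
    have h := put_eq_put_zero (n := n) (x :: (UZ b ++ [U])) (Z :: UZ (n - b - 1)) (by
      simp only [List.length_cons, List.length_append, length_UZ, List.length_nil]; omega)
    rw [← he] at h
    rw [hn1]
    simpa using h
  have p2 : ∀ x : Lt, put e (x :: (UZ b ++ U :: T :: UZ (n - b - 1))) =
      put 0 (T :: (UZ (n - b - 1) ++ x :: (UZ b ++ [U]))) := by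
    intro x
    have h := put_eq_put_zero (n := n) (x :: (UZ b ++ [U])) (T :: UZ (n - b - 1)) (by
      simp only [List.length_cons, List.length_append, length_UZ, List.length_nil]; omega)
    have he' : (((T :: UZ (n - b - 1) : List Lt).length : ℕ) : ZMod (2 * n + 1)) = e := rfl
    rw [he'] at h
    simpa using h
  rw [p1, p1, p2, p2] at h8
  refine HPs.flips (fun _ _ => sadj_symm) h8 ?_
  refine List.Forall₂.cons (Or.inl rfl) (List.Forall₂.cons (Or.inl rfl)
    (List.Forall₂.cons (Or.inr rfl) List.Forall₂.nil))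

end Pool.Agent.MPc603ed
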