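import Pool.Agent.Lib.MP_c603ed_co.PartAux

/-!
# MP_c603ed_co: part B, three edges (2)
-/

set_option autoImplicit false
set_option linter.unusedSimpArgs false

namespace Pool.Agent.MPc603ed

open Lt PartAux

theorem p_B8 (h1 : S_arr) (h2 : S_putB) (h3 : S_trB) (h4 : S_B8c) : S_B8 := by
  intro n ι _ _ hn hc s t j p i r l hs ht hsj htj hsp htp hsi hti hsr htr hcnt
  have hll : l ≠ !l := by cases l <;> simp
  have hpi : p ≠ i := by rintro rfl; exact hll (hti.symm.trans htp)
  have hpr : p ≠ r := by rintro rfl; exact hll (hsr.symm.trans hsp)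
  have hir : i ≠ r := by rintro rfl; exact hll (hsr.symm.trans hsi)
  have hip := hpi.symm
  have hrp := hpr.symm
  have hri := hir.symm
  have hjp : j ≠ p := by rintro rfl; exact hll (hsj.symm.trans hsp)
  have hji : j ≠ i := by rintro rfl; exact hll (hsj.symm.trans hsi)
  have hjr : j ≠ r := by rintro rfl; exact hll (htj.symm.trans htr)
  have hpj := hjp.symm
  have hij := hji.symm
  have hrj := hjr.symm
  have hz : tl l l = Z := tl_self l
  have hu : tl l (!l) = U := tl_not l
  obtain ⟨hb1, hb2, hb3⟩ := cnt_bal hc hs ht l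
  obtain ⟨W, hW⟩ : ∃ W : List ((Bool × Bool) ⊕ ι), W =
    Sum.inr p :: Sum.inr i :: Sum.inl (!l, l) :: Sum.inr r :: Sum.inl (l, !l) ::
      rp (Sum.inl (!l, l)) (Sum.inl (l, !l)) (n - 2) := ⟨_, rfl⟩
  have hWl : W.length = 2 * n + 1 := by
    rw [hW]
    simp only [List.length_cons, length_rp]
    omega
  obtain ⟨e, he, hfit⟩ := h1 n ι s t j [p, i, r] W hc hWl
    (by simp [hpi, hpr, hir]) (by simp [hjp, hji, hjr])
    (by
      intro x
      rw [hW]
      simp only [List.count_cons, count_rp', beq1, beq4, beq_iff_eq, if_false,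
        List.count_nil, Bool.false_eq_true]
      omega)
    (by
      intro x y
      rw [hW]
      simp only [List.count_cons, count_rp', beq2, beq3, beq_iff_eq, if_false,
        Bool.false_eq_true, Prod.mk.injEq, List.filter_cons, List.filter_nil, hsj, htj, hsp, htp,
        hsi, hti, hsr, htr]
      cases l <;> cases x <;> cases y <;> simp at hcnt hb1 hb2 hb3 ⊢ <;> omega)
  have hH := h4 n hn
  have hap : swp t p i p = l := by rw [swp_apply_left, hti]
  have hai : swp t p i i = !l := by rw [swp_apply_right, htp]
  have haj : swp t p i j = l := by rw [swp_apply_of_ne _ hjp hji, htj]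
  have har : swp t p i r = !l := by rw [swp_apply_of_ne _ hrp hri, htr]
  have hax : ∀ x, x ≠ p → x ≠ i → swp t p i x = t x := fun x h h' => swp_apply_of_ne _ h h'
  have e1 : strB e l ((s, some p) : GV ι) =
      (U, put 0 (T :: U :: U :: Z :: Z :: UZ (n - 2))) := by
    refine Prod.ext (by change tl l (s p) = U; rw [hsp, hu]) (h2 n ι s t _ W e l _ _ hWl hfit ?_)
    rw [hW]
    repeat' (first
      | exact List.Forall₂.nil
      | refine List.Forall₂.cons ?_ ?_
      | refine List.rel_append ?_ ?_
      | refine forall2_UZ ?_ ?_ _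
      | refine forall2_ZU ?_ ?_ _)
    all_goals
      first
        | (simp [LetterOK, hsi, hsr, hpr, hpi, hu, hz]; done)
        | (intro x hxj hx hsx htx
           simp only [List.mem_cons, List.not_mem_nil, or_false, not_or] at hx
           simp [hsx, Ne.symm hx.1, hu, hz])
  have e2 : strB e l ((s, none) : GV ι) =
      (T, put 0 (U :: U :: U :: Z :: Z :: UZ (n - 2))) := by
    refine Prod.ext rfl (h2 n ι s t _ W e l _ _ hWl hfit ?_)
    rw [hW]
    repeat' (first
      | exact List.Forall₂.nil
      | refine List.Forall₂.cons ?_ ?_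
      | refine List.rel_append ?_ ?_
      | refine forall2_UZ ?_ ?_ _
      | refine forall2_ZU ?_ ?_ _)
    all_goals
      first
        | (simp [LetterOK, hsp, hsi, hsr, hu, hz]; done)
        | (intro x hxj hx hsx htx
           simp [hsx, hu, hz])
  have e3 : strB e l ((swp t p i, some r) : GV ι) =
      (U, put 0 (Z :: U :: Z :: T :: U :: ZU (n - 2))) := by
    refine Prod.ext (by change tl l (swp t p i r) = U; rw [har, hu])
      (h2 n ι s t _ W e l _ _ hWl hfit ?_)
    rw [hW]
    repeat' (first
      | exact List.Forall₂.nil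
      | refine List.Forall₂.cons ?_ ?_
      | refine List.rel_append ?_ ?_
      | refine forall2_UZ ?_ ?_ _
      | refine forall2_ZU ?_ ?_ _)
    all_goals
      first
        | (simp [LetterOK, hap, hai, hrp, hri, hu, hz]; done)
        | (intro x hxj hx hsx htx
           simp only [List.mem_cons, List.not_mem_nil, or_false, not_or] at hx
           simp [hax x hx.1 hx.2.1, htx, Ne.symm hx.2.2, hu, hz])
  have e4 : strB e l ((swp t p i, none) : GV ι) =
      (T, put 0 (Z :: U :: Z :: U :: U :: ZU (n - 2))) := by
    refine Prod.ext rfl (h2 n ι s t _ W e l _ _ hWl hfit ?_)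
    rw [hW]
    repeat' (first
      | exact List.Forall₂.nil
      | refine List.Forall₂.cons ?_ ?_
      | refine List.rel_append ?_ ?_
      | refine forall2_UZ ?_ ?_ _
      | refine forall2_ZU ?_ ?_ _)
    all_goals
      first
        | (simp [LetterOK, hap, hai, har, hu, hz]; done)
        | (intro x hxj hx hsx htx
           simp only [List.mem_cons, List.not_mem_nil, or_false, not_or] at hx
           simp [hax x hx.1 hx.2.1, htx, hu, hz])
  have e5 : strB e l ((swp t p i, some p) : GV ι) =
      (Z, put 0 (T :: U :: Z :: U :: U :: ZU (n - 2))) := by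
    refine Prod.ext (by change tl l (swp t p i p) = Z; rw [hap, hz])
      (h2 n ι s t _ W e l _ _ hWl hfit ?_)
    rw [hW]
    repeat' (first
      | exact List.Forall₂.nil
      | refine List.Forall₂.cons ?_ ?_
      | refine List.rel_append ?_ ?_
      | refine forall2_UZ ?_ ?_ _
      | refine forall2_ZU ?_ ?_ _)
    all_goals
      first
        | (simp [LetterOK, hai, har, hpi, hpr, hu]; done)
        | (intro x hxj hx hsx htx
           simp only [List.mem_cons, List.not_mem_nil, or_false, not_or] at hx
           simp [hax x hx.1 hx.2.1, htx, Ne.symm hx.1, hu, hz])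
  have e6 : strB e l ((t, some p) : GV ι) =
      (U, put 0 (T :: Z :: Z :: U :: U :: ZU (n - 2))) := by
    refine Prod.ext (by change tl l (t p) = U; rw [htp, hu]) (h2 n ι s t _ W e l _ _ hWl hfit ?_)
    rw [hW]
    repeat' (first
      | exact List.Forall₂.nil
      | refine List.Forall₂.cons ?_ ?_
      | refine List.rel_append ?_ ?_
      | refine forall2_UZ ?_ ?_ _
      | refine forall2_ZU ?_ ?_ _)
    all_goals
      first
        | (simp [LetterOK, hti, htr, hpi, hpr, hu, hz]; done)
        | (intro x hxj hx hsx htx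
           simp only [List.mem_cons, List.not_mem_nil, or_false, not_or] at hx
           simp [htx, Ne.symm hx.1, hu, hz])
  have key := h3 n ι e l ∅ [((s, some p), (s, none)),
      ((swp t p i, some r), (swp t p i, none)), ((swp t p i, some p), (t, some p))]
    (Set.empty_subset _)
    (by
      rw [he]
      intro q hq
      simp only [List.mem_cons, List.not_mem_nil, or_false] at hq
      rcases hq with rfl | rfl | rfl
      · exact ⟨⟨hs, hsj, fun h => hpj (Option.some.inj h)⟩, ⟨hs, hsj, by simp⟩⟩
      · exact ⟨⟨ht.swp p i, haj, fun h => hrj (Option.some.inj h)⟩, ⟨ht.swp p i, haj, by simp⟩⟩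
      · exact ⟨⟨ht.swp p i, haj, fun h => hpj (Option.some.inj h)⟩,
          ⟨ht, htj, fun h => hpj (Option.some.inj h)⟩⟩)
    (by
      rw [Set.image_empty, Set.sdiff_empty]
      simp only [List.map_cons, List.map_nil, Prod.map_apply, e1, e2, e3, e4, e5, e6]
      exact hH)
  rw [Set.sdiff_empty, he] at key
  exact key

end Pool.Agent.MPc603ed
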