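import Pool.Agent.Lib.MP_c603ed_co.Spec2

/-!
# MP_c603ed_co: three edges, complementary words
-/

set_option autoImplicit false

namespace Pool.Agent.MPc603ed

open Lt

namespace p_B8cAux

theorem dy_pair {d : Lt} (hd : d ≠ U) : Dy [U, d] := Dy.cons [] [] d Dy.nil hd Dy.nil

theorem deg_iter {n : ℕ} {ρ : Equiv.Perm (St n 1)} {deg : St n 1 → ℕ}
    (h : ∀ s, deg (ρ s) = deg s) (k : ℕ) (s : St n 1) : deg (ρ^[k] s) = deg s := by
  induction k with
  | zero => rfl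
  | succ k ih => rw [Function.iterate_succ_apply', h, ih]

theorem uz_split {n : ℕ} (hn : 2 ≤ n) : UZ n = U :: (ZU (n - 2) ++ [Z, U, Z]) := by
  have e : UZ n = UZ (n - 2) ++ UZ 2 := by
    rw [← UZ_add]
    congr 1
    omega
  rw [e]
  exact UZ_U_app (n - 2) [Z, U, Z]

theorem put3 {n : ℕ} (hn : 3 ≤ n) (x y z w : Lt) :
    put (3 : ZMod (2 * n + 1)) (x :: U :: (ZU (n - 2) ++ [y, z, w])) =
      put 0 (y :: z :: w :: x :: U :: ZU (n - 2)) := by
  have h6 := put_eq_put_zero (n := n) (x :: U :: ZU (n - 2)) [y, z, w] (by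
    simp [length_ZU]; omega)
  have e : (([y, z, w] : List Lt).length : ℕ) = 3 := rfl
  rw [e, Nat.cast_ofNat] at h6
  exact h6

theorem put2 {n : ℕ} (hn : 3 ≤ n) (x y z : Lt) :
    put (2 : ZMod (2 * n + 1)) (x :: U :: U :: (ZU (n - 2) ++ [y, z])) =
      put 0 (y :: z :: x :: U :: U :: ZU (n - 2)) := by
  have h6 := put_eq_put_zero (n := n) (x :: U :: U :: ZU (n - 2)) [y, z] (by
    simp [length_ZU]; omega)
  have e : (([y, z] : List Lt).length : ℕ) = 2 := rfl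
  rw [e, Nat.cast_ofNat] at h6
  exact h6

end p_B8cAux

open p_B8cAux in
theorem p_B8c (h1 : S_rho) (h2 : S_deg) (h3 : S_rotF) (h4 : S_T1) : S_B8c := by
  intro n hn
  obtain ⟨ρ, hρ⟩ := h1 n 1
  obtain ⟨deg, hdeg1, hdeg2⟩ := h2 n ρ hρ
  have hd1 : Dy (U :: U :: Z :: Z :: UZ (n - 2)) :=
    Dy.cons [U, Z] (UZ (n - 2)) Z (dy_pair (by simp)) (by simp) (Dy.uz _)
  have hb1 : Bl (U :: U :: Z :: Z :: UZ (n - 2)) (n - 2 + 1) :=
    Bl.cons [U, Z] (UZ (n - 2)) Z (n - 2) (dy_pair (by simp)) (by simp) (Bl.uz _)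
  obtain ⟨s₁, hs₁⟩ : ∃ s : St n 1, s.1 = (T, U :: U :: Z :: Z :: UZ (n - 2)) :=
    ⟨mkT n _ hd1 (by simp [length_UZ]; omega) (by simp [count_T_UZ]), rfl⟩
  obtain ⟨s₂, hs₂⟩ : ∃ s : St n 1, s.1 = (T, UZ n) :=
    ⟨mkT n (UZ n) (Dy.uz n) (length_UZ n) (count_T_UZ n), rfl⟩
  have hda : Dy (UZ (n - 2) ++ [U, T]) := (Dy.uz _).app (dy_pair (by simp))
  have hd3 : Dy (U :: ((UZ (n - 2) ++ [U, T]) ++ Z :: [])) := Dy.cons _ [] Z hda (by simp) Dy.nil
  obtain ⟨s₃, hs₃⟩ : ∃ s : St n 1, s.1 = (Z, U :: ((UZ (n - 2) ++ [U, T]) ++ Z :: [])) :=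
    ⟨mkZ n _ hd3 (by simp [length_UZ]; omega) (by simp [count_T_UZ]), rfl⟩
  have hρ₃ : (ρ s₃).1 = (Z, (UZ (n - 2) ++ [U, T]) ++ U :: ([] ++ [Z])) := by
    have h5 := hρ s₃ (UZ (n - 2) ++ [U, T]) [] Z hda (by simp) Dy.nil (by rw [hs₃])
    rw [h5, hs₃]
  have hg1 : deg s₁ = n - 1 := by
    have h5 := hdeg2 s₁ (n - 2 + 1) (by rw [hs₁]) (by rw [hs₁]; exact hb1)
    omega
  have hg2 : deg s₂ = n := hdeg2 s₂ n (by rw [hs₂]) (by rw [hs₂]; exact Bl.uz n)
  have hg3 : deg s₃ = 1 := by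
    have hdb : Dy [U, T, U, Z] := (dy_pair (d := T) (by simp)).app (dy_pair (d := Z) (by simp))
    have h5 := h3 n 1 ρ hρ (ρ s₃) (UZ (n - 2)) [U, T, U, Z] (Dy.uz _) hdb (by
      rw [hρ₃]
      simp)
    obtain ⟨s₄, hs₄⟩ : ∃ s, s = ρ^[(UZ (n - 2)).length] (ρ s₃) := ⟨_, rfl⟩
    rw [← hs₄, hρ₃] at h5
    have h6 := hρ s₄ [] (UZ (n - 1)) T Dy.nil (by simp) (Dy.uz _) (by
      rw [h5]
      have e : UZ (n - 1) = U :: Z :: UZ (n - 2) := by
        rw [show n - 1 = (n - 2) + 1 by omega]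
        rfl
      rw [e]
      rfl)
    rw [h5] at h6
    have h7 := hdeg2 (ρ s₄) 1 (by rw [h6]) (by
      rw [h6]
      exact Bl.prime (Dy.uz (n - 1)) (by simp))
    rw [hdeg1, hs₄, deg_iter hdeg1, hdeg1] at h7
    exact h7
  have hne : ∀ s t : St n 1, deg s ≠ deg t → ¬ ρ.SameCycle s t := fun s t hst h =>
    hst (sameCycle_const hdeg1 h)
  have h5 := h4 n 1 hn le_rfl ρ hρ [(true, 0, s₁), (true, 3, s₂), (false, 2, s₃)]
    (by
      rw [List.pairwise_cons, List.pairwise_cons]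
      refine ⟨fun z hz => ?_, fun z hz => ?_, by simp⟩
      · simp only [List.mem_cons, List.not_mem_nil, or_false] at hz
        rcases hz with rfl | rfl
        · exact hne _ _ (by rw [hg1, hg2]; omega)
        · exact hne _ _ (by rw [hg1, hg3]; omega)
      · rw [List.mem_singleton] at hz
        subst hz
        exact hne _ _ (by rw [hg2, hg3]; omega))
    ⟨(true, 3, s₂), by simp, 0, by rw [IsStar]; exact hs₂⟩
    (by
      intro z hz
      simp only [List.mem_cons, List.not_mem_nil, or_false] at hz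
      rcases hz with rfl | rfl | rfl
      · exact Or.inl rfl
      · exact Or.inl rfl
      · right
        have h6 : ∀ k : ℕ, k < 7 → k ≠ 2 → (2 : ZMod (2 * n + 1)) ≠ ((k : ℕ) : ZMod (2 * n + 1)) := by
          intro k hk hk2 h
          have h7 : ((2 : ℕ) : ZMod (2 * n + 1)) = ((k : ℕ) : ZMod (2 * n + 1)) := by
            rw [← h]; norm_num
          rw [ZMod.natCast_eq_natCast_iff', Nat.mod_eq_of_lt (by omega),
            Nat.mod_eq_of_lt (by omega)] at h7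
          omega
        refine ⟨?_, ?_⟩
        · have := h6 1 (by norm_num) (by norm_num)
          simpa using this
        · have := h6 4 (by norm_num) (by norm_num)
          simpa using this)
  have e1 : dec (sig ρ (true, 0, s₁)) = (U, put 0 (T :: U :: U :: Z :: Z :: UZ (n - 2))) := by
    rw [sig_Q, dec_P, hs₁]
  have e2 : dec ((true, 0, s₁) : AV n 1) = (T, put 0 (U :: U :: U :: Z :: Z :: UZ (n - 2))) := by
    rw [dec_Q, hs₁]
  have e3 : dec (sig ρ (true, 3, s₂)) = (U, put 0 (Z :: U :: Z :: T :: U :: ZU (n - 2))) := by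
    rw [sig_Q, dec_P, hs₂, ← put3 hn, ← uz_split (by omega)]
  have e4 : dec ((true, 3, s₂) : AV n 1) = (T, put 0 (Z :: U :: Z :: U :: U :: ZU (n - 2))) := by
    rw [dec_Q, hs₂, ← put3 hn, ← uz_split (by omega)]
  have e5 : dec (sig ρ (false, 2, s₃)) = (Z, put 0 (T :: U :: Z :: U :: U :: ZU (n - 2))) := by
    rw [sig_P, dec_Q, hρ₃, ← put3 hn, ← UZ_U_app]
    norm_num
  have e6 : dec ((false, 2, s₃) : AV n 1) = (U, put 0 (T :: Z :: Z :: U :: U :: ZU (n - 2))) := by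
    rw [dec_P, hs₃, ← put2 hn, ← UZ_U_app]
    simp
  rw [List.map_cons, List.map_cons, List.map_cons, List.map_nil, e1, e2, e3, e4, e5, e6] at h5
  exact h5

end Pool.Agent.MPc603ed
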