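import Pool.Agent.Lib.MP_c603ed_co.Spec4

/-!
# MP_c603ed_co: class C13a
-/

set_option autoImplicit false

namespace Pool.Agent.MPc603ed

namespace p_C13aAux

theorem cnt_pos {ι : Type} [Fintype ι] {s t : ι → Bool} {x y : Bool} (i : ι) (h1 : s i = x)
    (h2 : t i = y) : 0 < cnt s t x y :=
  Finset.card_pos.mpr ⟨i, by simp [h1, h2]⟩

theorem exists_of_cnt {ι : Type} [Fintype ι] {s t : ι → Bool} {x y : Bool} (h : 0 < cnt s t x y) :
    ∃ i, s i = x ∧ t i = y := by
  obtain ⟨i, hi⟩ := Finset.card_pos.mp h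
  exact ⟨i, (Finset.mem_filter.mp hi).2⟩

theorem cnt_lt {ι : Type} [Fintype ι] {s t s' t' : ι → Bool} {x y x' y' : Bool}
    (h : ∀ i, s i = x → t i = y → s' i = x' ∧ t' i = y') (j : ι) (hj : s' j = x' ∧ t' j = y')
    (hj' : ¬ (s j = x ∧ t j = y)) : cnt s t x y + 1 ≤ cnt s' t' x' y' := by
  unfold cnt
  apply Finset.card_lt_card
  rw [Finset.ssubset_iff_of_subset]
  · exact ⟨j, by simpa using hj, by simpa using hj'⟩
  · intro i hi
    rw [Finset.mem_filter] at hi ⊢
    exact ⟨Finset.mem_univ _, h i hi.2.1 hi.2.2⟩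

theorem eq_not_of_ne {a b : Bool} (h : a ≠ b) : a = !b := by
  cases a <;> cases b <;> simp_all

end p_C13aAux

open p_C13aAux in
theorem p_C13a (h1 : S_A1) (h2 : S_L1) : S_C13a := by
  intro n ι _ _ hn hc s t p q f hs ht hsp htq hst hcnt
  have hff : f ≠ !f := by cases f <;> simp
  obtain ⟨hb1, _, _⟩ := cnt_bal hc hs ht f
  have hpos : 0 < cnt s t (!f) f := by
    obtain ⟨x, hx⟩ := Function.ne_iff.mp hst
    by_cases hsx : s x = f
    · rw [hb1]
      refine cnt_pos x hsx ?_
      apply eq_not_of_ne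
      intro h
      exact hx (hsx.trans h.symm)
    · refine cnt_pos x (eq_not_of_ne hsx) ?_
      by_contra h
      exact hx ((eq_not_of_ne hsx).trans (eq_not_of_ne h).symm)
  obtain ⟨j, hsj, htj⟩ := exists_of_cnt hpos
  obtain ⟨i, hsi, hti, hiq⟩ : ∃ i, s i = f ∧ t i = !f ∧ (i = q ∨ s q = !f) := by
    by_cases hsq : s q = f
    · exact ⟨q, hsq, htq, Or.inl rfl⟩
    · rw [hb1] at hpos
      obtain ⟨i, hsi, hti⟩ := exists_of_cnt hpos
      exact ⟨i, hsi, hti, Or.inr (eq_not_of_ne hsq)⟩
  have hji : j ≠ i := by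
    rintro rfl
    exact hff (hsi.symm.trans hsj)
  have hqj : q ≠ j := by
    rintro rfl
    exact hff (htj.symm.trans htq)
  have hs1q : swp s j i q = !f := by
    rcases hiq with rfl | hsq
    · rw [swp_apply_right, hsj]
    · by_cases hqi : q = i
      · rw [hqi, swp_apply_right, hsj]
      · rw [swp_apply_of_ne _ hqj hqi, hsq]
  have hs1j : swp s j i j = f := by rw [swp_apply_left, hsi]
  have hcnt0 : cnt s s (!f) (!!f) = 0 := by
    unfold cnt
    rw [Finset.card_eq_zero, Finset.filter_eq_empty_iff]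
    rintro x _ ⟨h3, h4⟩
    rw [h3] at h4
    cases f <;> simp at h4
  have hcnt1 : cnt t (swp s j i) f (!f) + 1 ≤ n := by
    have h3 : cnt t (swp s j i) f (!f) + 1 ≤ cnt s t (!f) f := by
      refine cnt_lt ?_ j ⟨hsj, htj⟩ ?_
      · intro x hx1 hx2
        refine ⟨?_, hx1⟩
        rw [swp_apply] at hx2
        split_ifs at hx2 with h4 h5
        · exact absurd (hsi.symm.trans hx2) hff
        · rw [h5, hti] at hx1
          exact absurd hx1.symm hff
        · exact hx2
      · rintro ⟨_, h4⟩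
        rw [hs1j] at h4
        exact hff h4
    omega
  have kA := h1 n ι hn hc s j i hs (by rw [hsj, hsi]; exact hff.symm)
  have kg := h2 n ι hn hc s s j p (!f) hs hs hsj hsj (by rw [hsp, Bool.not_not])
    (by rw [hsp, Bool.not_not]) (by rw [hcnt0]; omega)
  have kf := h2 n ι hn hc t (swp s j i) j q f ht (hs.swp j i) htj hs1j htq hs1q hcnt1
  have k := HPs.parts kA kf kg
  have k1 : HPs gadj {w : GV ι | Bal w.1}
      [((s, some p), (s, none)), ((s, some j), (swp s j i, some j)),
        ((t, some q), (swp s j i, none))] := by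
    refine k.perm ?_
    simp only [List.cons_append, List.nil_append]
    exact (List.perm_append_comm (l₁ := [((s, some j), (swp s j i, some j)),
        ((t, some q), (swp s j i, none))]) (l₂ := [((s, some p), (s, none))]))
  have k2 := k1.merge (gadj.out s j)
  have k3 : HPs gadj {w : GV ι | Bal w.1}
      [((t, some q), (swp s j i, none)), ((s, some p), (swp s j i, some j))] :=
    k2.perm (List.Perm.swap _ _ _)
  have k5 : HPs gadj {w : GV ι | Bal w.1}
      [((swp s j i, none), (t, some q)), ((s, some p), (swp s j i, some j))] :=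
    k3.rev (fun _ _ => gadj_symm)
  have k6 : HPs gadj {w : GV ι | Bal w.1}
      [((s, some p), (swp s j i, some j)), ((swp s j i, none), (t, some q))] :=
    k5.perm (List.Perm.swap _ _ _)
  exact k6.merge (gadj.inn _ _)

end Pool.Agent.MPc603ed
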