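import Pool.Agent.Lib.MP_c603ed_co.Spec3

/-!
# MP_c603ed_co, Spec 4: the classes of pairs, small cases, final theorem

Notation in the docstrings: `f` is a symbol (`Bool`), `g = !f`.  Each proof chooses a position `j` and
uses one statement for each of the parts `PA j`, `PB j f`, `PB j g` (`HPs.parts`), then rearranges
(`HPs.perm`), reverses (`HPs.rev`) and concatenates (`HPs.merge`) along the given path.
In a path, `→` is one of the paths of the parts and `~` an edge of `gadj`:
* `(s, none) ~ (s, some p)` always (`gadj.out`, `gadj.inn`);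
* `(s, some p) ~ (swp s p i, some p)` if `s p ≠ s i` (`gadj.sw`);
`A(s, i)` denotes the pair `((s, some j), (swp s j i, some j))` of `S_A1` (`s j ≠ s i`).
`L1(f; (s, r), a)`: `S_L1` in the part `PB j l` where `l` is the common symbol of `s` and `a` at `j`; it
needs `s r = a r = !l` and `cnt s a l (!l) + 1 ≤ n`.
The counts are computed by comparing the words with `s`, `t` position by position, `cnt_bal` gives the
relations between the counts of balanced words.  All words which occur are balanced (`Bal.swp`).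
-/

set_option autoImplicit false

namespace Pool.Agent.MPc603ed

/-- **Class C13a**: different front symbols, `s ≠ t`, `c := cnt s t g f ≤ n`.
There is `j` with `s j = g`, `t j = f` (`c ≥ 1` by `cnt_bal` as `s ≠ t`).  There is `i` with `s i = f`,
`t i = g` and (`i = q` or `s q = g`): if `s q = f` take `i = q`, otherwise any `i` with these labels.
`s1 = swp s j i`: `s1 j = f`, `s1 i = g`, `s1 q = g`.
Part `PB j g`: `S_L1` for `(s, some p) → (s, none)` (`cnt s s _ _ = 0`).  Part `PA j`: `A(s, i)`.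
Part `PB j f`: `S_L1` for `(t, some q) → (s1, none)`: `t q = s1 q = g`;
`cnt t s1 f g = cnt t s f g - 1 = c - 1 ≤ n - 1` (`j` is lost, `i` is not counted).
Path: `(s, some p) → (s, none) ~ (s, some j) → (s1, some j) ~ (s1, none) → (t, some q)`.
(Hypotheses: `S_A1`, `S_L1`.) -/
def S_C13a : Prop := ∀ (n : ℕ) (ι : Type) [Fintype ι] [DecidableEq ι], 3 ≤ n →
  Fintype.card ι = 2 * n + 2 → ∀ (s t : ι → Bool) (p q : ι) (f : Bool), Bal s → Bal t →
    s p = f → t q = !f → s ≠ t → cnt s t (!f) f ≤ n → HP (s, some p) (t, some q)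

/-- **Class C13b**: different front symbols, `cnt s t g f = n + 1`, i.e. `t = !s`.
`s p = s q = f`.  Choose `x ∉ {p, q}` with `s x = f` (there are `n + 1 ≥ 4` such positions), and `j ≠ y`
with `s j = s y = g`.  `s0 = swp s x y`, `s1 = swp s0 j q`: `s1 j = f`, `s1 q = g`.
Part `PB j g`: `S_L1` for `(s, some p) → (s0, none)`: `s p = s0 p = f`, `cnt s s0 g f = 1`.  Part `PA j`:
`A(s0, q)`.  Part `PB j f`: `S_L1` for `(t, some q) → (s1, none)`: `t q = s1 q = g`; `cnt t s1 f g`: the
positions with `t = f` are the `n + 1` positions with `s = g`, and `s1 = g` there except at `y` and `j`: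
`n - 1`.
Path: `(s, some p) → (s0, none) ~ (s0, some j) → (s1, some j) ~ (s1, none) → (t, some q)`.
(Hypotheses: `S_A1`, `S_L1`.) -/
def S_C13b : Prop := ∀ (n : ℕ) (ι : Type) [Fintype ι] [DecidableEq ι], 3 ≤ n →
  Fintype.card ι = 2 * n + 2 → ∀ (s t : ι → Bool) (p q : ι) (f : Bool), Bal s → Bal t →
    s p = f → t q = !f → cnt s t (!f) f = n + 1 → HP (s, some p) (t, some q)

/-- **Class C30**: the same word, different front symbols.
Choose `j ≠ p` with `s j = f`.  `s1 = swp s j q`: `s1 j = g`, `s1 q = f`, `s1 p = f`.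
Part `PB j f`: `S_B6` (with `l = f`): `(s, none) → (s, some q)`, `(swp s p q, some p) → (s, some p)`.
Part `PA j`: `A(s, q)`.  Part `PB j g`: `S_L1` for `(s1, some p) → (s1, none)`.
Path (from `v` to `u`): `(s, some q) → (s, none) ~ (s, some j) → (s1, some j) ~ (s1, none) →
(s1, some p) ~ (swp s p q, some p) → (s, some p)`; note `swp s1 p j = swp s p q`.
(Hypotheses: `S_A1`, `S_L1`, `S_B6`.) -/
def S_C30 : Prop := ∀ (n : ℕ) (ι : Type) [Fintype ι] [DecidableEq ι], 3 ≤ n →
  Fintype.card ι = 2 * n + 2 → ∀ (s : ι → Bool) (p q : ι) (f : Bool), Bal s →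
    s p = f → s q = !f → HP (s, some p) (s, some q)

/-- **Class C4**: equal front symbols, `p ≠ q`, `s q = f`.
`j = q`.  If `t p = g` let `i = p`, otherwise any `i` with `t i = g`.  `t1 = swp t q i`: `t1 q = g`,
`t1 i = f`, `t1 p = f` in both cases.  `w = swp t1 p q`: `w p = g`, `w q = f`.
Part `PA q`: `A(t, i)`.  Part `PB q g`: `S_L1` for `(t1, some p) → (t1, none)`.  Part `PB q f`: `S_L1p` for
`(w, some p) → (s, some p)`: `w q = s q = f`, `w p = g`, `s p = f`.
Path (from `v` to `u`): `(t, some q) → (t1, some q) ~ (t1, none) → (t1, some p) ~ (w, some p) →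
(s, some p)`.  (Hypotheses: `S_A1`, `S_L1`, `S_L1p`.) -/
def S_C4 : Prop := ∀ (n : ℕ) (ι : Type) [Fintype ι] [DecidableEq ι], 3 ≤ n →
  Fintype.card ι = 2 * n + 2 → ∀ (s t : ι → Bool) (p q : ι) (f : Bool), Bal s → Bal t →
    s p = f → t q = f → p ≠ q → s q = f → HP (s, some p) (t, some q)

/-- **Class C5**: a hub and a vertex, `s q = t q = f`.
`j = q`.  If `s ≠ t` choose `r` with `t r = f`, `s r = g` and `i` with `t i = g`, `s i = f`; if `s = t`
choose `i` with `t i = g` and `r = i`.  `t1 = swp t q i`: `t1 q = g`, `t1 r = f`.  `w = swp t1 r q`: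
`w r = g`, `w q = f`.
Part `PA q`: `A(t, i)`.  Part `PB q g`: `S_L1` for `(t1, some r) → (t1, none)`.  Part `PB q f`: `S_L1` for
`(w, some r) → (s, none)`: `w r = s r = g`; `cnt w s f g`: if `s = t` then `w = s` and it is `0`; otherwise
`w` is `t` except `w i = f`, `w r = g`, so it is `cnt t s f g - 1 ≤ n - 1` (`cnt t s f g ≤ n` because `q`
has labels `f, f`).
Path (from `v` to `u`): `(t, some q) → (t1, some q) ~ (t1, none) → (t1, some r) ~ (w, some r) →
(s, none)`.  (Hypotheses: `S_A1`, `S_L1`.) -/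
def S_C5 : Prop := ∀ (n : ℕ) (ι : Type) [Fintype ι] [DecidableEq ι], 3 ≤ n →
  Fintype.card ι = 2 * n + 2 → ∀ (s t : ι → Bool) (q : ι) (f : Bool), Bal s → Bal t →
    t q = f → s q = f → HP (s, none) (t, some q)

/-- **Class C5pa**: a hub and a vertex, `t q = f`, `s q = g`, and there is `j` with `s j = t j = g`.
Choose `r` with `s r = f`, `t r = g` and `i` with `s i = g`, `t i = f`.  `s1 = swp s r j`: `s1 r = g`,
`s1 j = f`.  `t1 = swp t j i`: `t1 j = f`, `t1 i = g`.
Part `PB j g`: `S_S2` (`l = g`): `(s, none) → (s, some r)`, `(t, none) → (t, some q)`.  Part `PA j`: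
`A(t, i)`.  Part `PB j f`: `S_L1` for `(s1, some r) → (t1, none)`: `s1 r = t1 r = g`;
`cnt s1 t1 f g = cnt s t f g - 1 ≤ n - 1` (`r` is lost; `j`, `i` are not counted; `cnt s t f g ≤ n`
because `j` has labels `g, g`).
Path: `(s, none) → (s, some r) ~ (s1, some r) → (t1, none) ~ (t1, some j) → (t, some j) ~ (t, none) →
(t, some q)`.  (Hypotheses: `S_A1`, `S_L1`, `S_S2`.) -/
def S_C5pa : Prop := ∀ (n : ℕ) (ι : Type) [Fintype ι] [DecidableEq ι], 3 ≤ n →
  Fintype.card ι = 2 * n + 2 → ∀ (s t : ι → Bool) (q j : ι) (f : Bool), Bal s → Bal t →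
    t q = f → s q = !f → s j = !f → t j = !f → HP (s, none) (t, some q)

/-- **Class C5pb**: a hub and a vertex, `t = !s`, `t q = f`, `s q = g`.
Choose `j, i` with `s j = s i = g`, `j, i, q` different, and different `r, x, i1` with `s = f` there.
`s1 = swp s x q`, `w = swp s1 r j` (`w r = g`, `w j = f`), `b = swp t i1 j` (`b i1 = f`, `b j = g`),
`a = swp b j i` (`a j = f`, `a i = g`).
Part `PB j g`: `S_B11` with `s, b, r, x, q, i1`: `s` is `g, f, f, g, f` and `b` is `g, g, g, f, f` at
`j, r, x, q, i1`; `cnt s b g f = n` (the `n + 1` positions with `s = g`, `b = t = f` except at `j`):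
`(s, none) → (s1, some r)`, `(b, none) → (b, some q)`.
Part `PB j f`: `S_B10` with `w, a, r, i, x, i1, q`: both are `f` at `j, i1, q` and `g` at `r, i, x`;
`cnt w a f g = n - 2` (`w = f` on `{s = f} \ {r, x} ∪ {q, j}`, and there `a = g` on
`{s = f} \ {r, x, i1}`): `(w, some r) → (a, none)`, `(swp t q i1, some q) → (t, some q)`, since
`swp a i i1 = t`.
Part `PA j`: `A(b, i)`: `(b, some j) → (a, some j)`.
Path: `(s, none) → (s1, some r) ~ (w, some r) → (a, none) ~ (a, some j) → (b, some j) ~ (b, none) →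
(b, some q) ~ (swp t q i1, some q) → (t, some q)`; `swp b q j = swp t q i1`.
(Hypotheses: `S_A1`, `S_B10`, `S_B11`.) -/
def S_C5pb : Prop := ∀ (n : ℕ) (ι : Type) [Fintype ι] [DecidableEq ι], 3 ≤ n →
  Fintype.card ι = 2 * n + 2 → ∀ (s t : ι → Bool) (q : ι) (f : Bool), Bal s → Bal t →
    t q = f → s q = !f → (∀ i, t i = !(s i)) → HP (s, none) (t, some q)

/-- **Class C6a**: two hubs, `s ≠ t`, `cnt s t f g ≤ n`, i.e. there is `i2` with `s i2 = t i2 = f`.
Choose `j` with `s j = f`, `t j = g` and `i1` with `s i1 = g`, `t i1 = f`.  `a = swp s i1 j`: `a i1 = f`,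
`a j = g`.  `t1 = swp t j i2`: `t1 i2 = g`, `t1 j = f`.
Part `PB j f`: `S_S2` (`l = f`) with `s, t1`, `r = i1`, `q = i2`: `(s, none) → (s, some i1)`,
`(t1, none) → (t1, some i2)`.
Part `PB j g`: `S_L1m` (`l = g`) for `(a, some i1) → (t, some i2)`, the vertex `(t, none)` removed:
`a = t = f` at `i1` and `i2`; `cnt a t g f = cnt s t g f - 1 ≤ n - 1` (`i1` is lost, `j` is not counted);
add the vertex `(t, none)` (`HPs.addv`).  Part `PA j`: `A(t, i2)`.
Path: `(s, none) → (s, some i1) ~ (a, some i1) → (t, some i2) ~ (t1, some i2) → (t1, none) ~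
(t1, some j) → (t, some j) ~ (t, none)`.  (Hypotheses: `S_A1`, `S_L1m`, `S_S2`.) -/
def S_C6a : Prop := ∀ (n : ℕ) (ι : Type) [Fintype ι] [DecidableEq ι], 3 ≤ n →
  Fintype.card ι = 2 * n + 2 → ∀ (s t : ι → Bool) (i2 : ι) (f : Bool), Bal s → Bal t →
    s i2 = f → t i2 = f → s ≠ t → HP (s, none) (t, none)

/-- **Class C6b**: two hubs, `t = !s`.  Let `f = true` (or any symbol).
Choose `j ≠ y` with `s j = s y = f` and `i1 ≠ x` with `s i1 = s x = g`.  `s1 = swp s x y`,
`a = swp s1 i1 j` (`a i1 = f`, `a j = g`), `t1 = swp t j x` (`t1 j = f`, `t1 x = g`).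
Part `PB j f`: `S_B5` (`l = f`) with `s, t1`, `r = i1`, `x`, `y`: `s` is `f, g, g, f` and `t1` is
`f, f, g, g` at `j, i1, x, y`; `cnt s t1 f g = n`: `(s1, some i1) → (s, none)`,
`(t1, some x) → (t1, none)`.
Part `PB j g`: `S_L1m` (`l = g`) for `(a, some i1) → (t, some x)`, `(t, none)` removed: `a = t = f` at
`i1, x`; `cnt a t g f = n - 1` (`t = f` on the `n + 1` positions with `s = g`, and `a = g` there except at
`i1, x`); add `(t, none)`.  Part `PA j`: `A(t, x)`.
Path: `(s, none) → (s1, some i1) ~ (a, some i1) → (t, some x) ~ (t1, some x) → (t1, none) ~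
(t1, some j) → (t, some j) ~ (t, none)`.  (Hypotheses: `S_A1`, `S_L1m`, `S_B5`.) -/
def S_C6b : Prop := ∀ (n : ℕ) (ι : Type) [Fintype ι] [DecidableEq ι], 3 ≤ n →
  Fintype.card ι = 2 * n + 2 → ∀ (s t : ι → Bool), Bal s → Bal t →
    (∀ i, t i = !(s i)) → HP (s, none) (t, none)

/-- **Class C2a**: the same position of the symbol 3 and the same front symbol, `s ≠ t`,
`c := cnt s t g f ≤ n - 1`.
Choose `j` with `s j = t j = g` (there are `n + 1 - c`) and `i` with `s i = f`, `t i = g`.
`a = swp t p i`: `a p = g`, `a i = f`.  `s1 = swp s j i`: `s1 j = f`, `s1 i = g`.  `w = swp a i j`: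
`w i = g`, `w j = f`.
Part `PB j g`: `S_B7` (`l = g`): `(s, some p) → (s, none)`, `(a, some i) → (a, none)`,
`(a, some p) → (t, some p)`.  Part `PA j`: `A(s, i)`.  Part `PB j f`: `S_L1` for
`(w, some i) → (s1, none)`: `w i = s1 i = g`; `cnt w s1 f g = c` (`w` is `t` except `w p = g`, `w j = f`;
`s1` is `s` except `s1 j = f`, `s1 i = g`; the positions counted are those with `t = f`, `s = g`).
Path: `(s, some p) → (s, none) ~ (s, some j) → (s1, some j) ~ (s1, none) → (w, some i) ~
(a, some i) → (a, none) ~ (a, some p) → (t, some p)`.  (Hypotheses: `S_A1`, `S_L1`, `S_B7`.) -/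
def S_C2a : Prop := ∀ (n : ℕ) (ι : Type) [Fintype ι] [DecidableEq ι], 3 ≤ n →
  Fintype.card ι = 2 * n + 2 → ∀ (s t : ι → Bool) (p : ι) (f : Bool), Bal s → Bal t →
    s p = f → t p = f → s ≠ t → cnt s t (!f) f + 1 ≤ n → HP (s, some p) (t, some p)

/-- **Class C2b**: the same position of the symbol 3 and the same front symbol, `cnt s t g f = n`.
Choose `j` with `s j = t j = g` (unique), different `i, i0` with `s = f`, `t = g` there (there are `n`),
and `r` with `s r = g`, `t r = f`.
`a = swp t p i`: `a p = g`, `a i = f`, `a r = f`.  `s1 = swp s j i0`: `s1 j = f`, `s1 i0 = g`.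
`w = swp a r j`: `w r = g`, `w j = f`.
Part `PB j g`: `S_B8` (`l = g`): `(s, some p) → (s, none)`, `(a, some r) → (a, none)`,
`(a, some p) → (t, some p)`.  Part `PA j`: `A(s, i0)`.  Part `PB j f`: `S_L1` for
`(w, some r) → (s1, none)`: `w r = s1 r = g`; `cnt w s1 f g = n - 1`: `w` is `t` except `w p = g`,
`w i = f`, `w r = g`, `w j = f`; `s1` is `s` except `s1 j = f`, `s1 i0 = g`; the positions counted are
those with `t = f`, `s = g`, except `r`.
Path: `(s, some p) → (s, none) ~ (s, some j) → (s1, some j) ~ (s1, none) → (w, some r) ~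
(a, some r) → (a, none) ~ (a, some p) → (t, some p)`.  (Hypotheses: `S_A1`, `S_L1`, `S_B8`.) -/
def S_C2b : Prop := ∀ (n : ℕ) (ι : Type) [Fintype ι] [DecidableEq ι], 3 ≤ n →
  Fintype.card ι = 2 * n + 2 → ∀ (s t : ι → Bool) (p : ι) (f : Bool), Bal s → Bal t →
    s p = f → t p = f → cnt s t (!f) f = n → HP (s, some p) (t, some p)

/-- **Class C4pa**: equal front symbols `f`, `t = swp s p q`, `s q = g`.
`j = p`.  Choose `i ≠ q` with `s i = g` and `i1 ≠ p` with `s i1 = f`.  `s1 = swp s p i`: `s1 p = g`,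
`s1 i = f`.  `a = swp t p i1`: `a p = f`, `a i1 = g`.
Part `PA p`: `S_A2p` with `s, i, q, i1`: `(s, some p) → (s1, some p)`, `(a, some p) → (t, some p)`.
Part `PB p g`: `S_S2` (`l = g`) with `s1, t`, `r = i`, `q`: `(s1, none) → (s1, some i)`,
`(t, none) → (t, some q)`.  Part `PB p f`: `S_L1` for `(s, some i) → (a, none)`: `s i = a i = g`;
`cnt s a f g = 1` (only `i1`).
Path: `(s, some p) → (s1, some p) ~ (s1, none) → (s1, some i) ~ (s, some i) → (a, none) ~
(a, some p) → (t, some p) ~ (t, none) → (t, some q)`; `swp s1 i p = s`.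
(Hypotheses: `S_A2p`, `S_L1`, `S_S2`.) -/
def S_C4pa : Prop := ∀ (n : ℕ) (ι : Type) [Fintype ι] [DecidableEq ι], 3 ≤ n →
  Fintype.card ι = 2 * n + 2 → ∀ (s : ι → Bool) (p q : ι) (f : Bool), Bal s →
    s p = f → s q = !f → HP (s, some p) (swp s p q, some q)

/-- **Class C4pb**: equal front symbols `f`, `s q = t p = g`, `c := cnt s t g f ≥ 2`.
`j = p`.  Choose `i ≠ q` with `s i = g`, `t i = f` and `r ≠ p` with `s r = f`, `t r = g`.
`s1 = swp s p i`: `s1 p = g`, `s1 i = f`.  `w = swp s1 r p`: `w r = g`, `w p = f`.  `a = swp t p q`: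
`a p = f`, `a q = g`.
Part `PA p`: `S_A2` with `s, t, i, q`: `(s, some p) → (s1, some p)`, `(a, some p) → (t, some p)`.
Part `PB p g`: `S_S2` (`l = g`) with `s1, t, r, q`: `(s1, none) → (s1, some r)`,
`(t, none) → (t, some q)`.  Part `PB p f`: `S_L1` for `(w, some r) → (a, none)`: `w r = a r = g`;
`cnt w a f g = cnt s t f g - 2 ≤ n - 1` (`w` is `s` except `w i = f`, `w r = g`; `a` is `t` except
`a p = f`, `a q = g`; `p` and `r` are lost, `i` and `q` are not counted).
Path: `(s, some p) → (s1, some p) ~ (s1, none) → (s1, some r) ~ (w, some r) → (a, none) ~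
(a, some p) → (t, some p) ~ (t, none) → (t, some q)`.  (Hypotheses: `S_A2`, `S_L1`, `S_S2`.) -/
def S_C4pb : Prop := ∀ (n : ℕ) (ι : Type) [Fintype ι] [DecidableEq ι], 3 ≤ n →
  Fintype.card ι = 2 * n + 2 → ∀ (s t : ι → Bool) (p q : ι) (f : Bool), Bal s → Bal t →
    s p = f → t q = f → s q = !f → t p = !f → 2 ≤ cnt s t (!f) f → HP (s, some p) (t, some q)

/-- **All pairs, `n ≥ 3`.**  Put `c = cnt s t g f`.  Use `HP.symm` freely.
`(s, none)`, `(t, none)`: `s ≠ t`; if there is `i2` with `s i2 = t i2` then `S_C6a` with `f = s i2`,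
otherwise `S_C6b`.
`(s, none)`, `(t, some q)`, `f = t q`: `s q = f`: `S_C5`.  `s q = g`: if there is `j` with
`s j = t j = g`: `S_C5pa`.  Otherwise `cnt s t g g = 0`, so by `cnt_bal` also `cnt s t f f = 0`, so
`t = !s`: `S_C5pb`.
`(s, some p)`, `(t, some q)`, `f = s p`.  If `t q = g`: if `s = t`: `S_C30`; if `s ≠ t`: `S_C13a` if
`c ≤ n` and `S_C13b` if `c = n + 1` (`c ≤ n + 1` by `cnt_bal`).  If `t q = f`: if `p = q` then `s ≠ t` and
`c ≤ n` (`p` has labels `f, f`): `S_C2a` if `c ≤ n - 1`, `S_C2b` if `c = n`.  If `p ≠ q`: if `s q = f`: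
`S_C4`; if `t p = f`: `S_C4` for the reversed pair; otherwise `s q = t p = g` and `c ≥ 1`: if `c = 1` then
`q` is the only position with `s = g, t = f` and `p` the only one with `s = f, t = g`
(`cnt s t f g = c`), so `t = swp s p q`: `S_C4pa`; if `c ≥ 2`: `S_C4pb`. -/
def S_big : Prop := ∀ (n : ℕ) (ι : Type) [Fintype ι] [DecidableEq ι], 3 ≤ n →
  Fintype.card ι = 2 * n + 2 → ∀ u v : GV ι, Bal u.1 → Bal v.1 → u ≠ v → HP u v

/-- **Relabelling.**  For a bijection `e : ι ≃ κ` the map `(s, p) ↦ (s ∘ e.symm, p.map e)` is a bijection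
preserving `Bal` and `gadj`; use `HPs.map`. -/
def S_relabel : Prop := ∀ (ι κ : Type) [Fintype ι] [DecidableEq ι] [Fintype κ] [DecidableEq κ]
  (e : ι ≃ κ) (u v : GV ι), HP u v → HP (u.1 ∘ e.symm, u.2.map e) (v.1 ∘ e.symm, v.2.map e)

/-- **Exchange of the two symbols.**  The map `(s, p) ↦ (!s, p)` is a bijection preserving `Bal` and
`gadj`; use `HPs.map`. -/
def S_flip : Prop := ∀ (ι : Type) [Fintype ι] [DecidableEq ι] (u v : GV ι), HP u v →
  HP (fun i => !(u.1 i), u.2) (fun i => !(v.1 i), v.2)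

/-- **`n = 1`: `G(2,2,1)`, 30 vertices.**  By relabelling and exchange of the symbols it suffices to
consider `ι = Fin 4`, `s = (true, true, false, false)` and `u = (s, none)` or `u = (s, some 0)`, with all
29 vertices `v ≠ u`: for each a Hamilton path is given as an explicit list and checked by `decide`
(encode the vertices by numbers; the paths are found by a backtracking search). -/
def S_small1 : Prop := ∀ (ι : Type) [Fintype ι] [DecidableEq ι], Fintype.card ι = 4 →
  ∀ u v : GV ι, Bal u.1 → Bal v.1 → u ≠ v → HP u v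

/-- **`n = 2`: `G(3,3,1)`, 140 vertices.**  By relabelling and exchange of the symbols it suffices to
consider `ι = Fin 6`, `s = (true, true, true, false, false, false)` and `u = (s, none)` or
`u = (s, some 0)`, with all 139 vertices `v ≠ u` (fewer if the stabiliser of `u` is used): for each a
Hamilton path is given as an explicit list and checked by the kernel (`decide +kernel` on an efficient
encoding: vertices as natural numbers, paths as lists of numbers, adjacency and distinctness by
arithmetic on `Nat`; not `native_decide`). -/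
def S_small2 : Prop := ∀ (ι : Type) [Fintype ι] [DecidableEq ι], Fintype.card ι = 6 →
  ∀ u v : GV ι, Bal u.1 → Bal v.1 → u ≠ v → HP u v

/-! ## The final theorem -/

/-- the vertices of `G(a, a, 1)`: strings of length `2a + 1` over the alphabet `{0, 1, 2}` (for the
symbols 1, 2, 3) in which `0` and `1` occur exactly `a` times and `2` occurs exactly once -/
def StV (a : ℕ) : Type :=
  {x : Fin (2 * a + 1) → Fin 3 // (Finset.univ.filter (fun i => x i = 0)).card = a ∧
    (Finset.univ.filter (fun i => x i = 1)).card = a ∧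
    (Finset.univ.filter (fun i => x i = 2)).card = 1}

/-- the star transposition graph `G(a, a, 1)`: the first entry is exchanged with an entry carrying a
different symbol -/
def starGraph (a : ℕ) : SimpleGraph (StV a) where
  Adj x y := ∃ j : Fin (2 * a + 1), j ≠ 0 ∧ x.1 0 ≠ x.1 j ∧ y.1 = x.1 ∘ Equiv.swap 0 j
  symm := ⟨by
    rintro x y ⟨j, hj, hne, hy⟩
    refine ⟨j, hj, ?_, ?_⟩
    · rw [hy]
      simpa using hne.symm
    · rw [hy]
      funext i
      simp⟩
  loopless := ⟨by
    rintro x ⟨j, hj, hne, hy⟩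
    apply hne
    have := congrFun hy 0
    simpa using this⟩

/-- **Translation.**  Put `ι = {i : Fin (2a + 1) // i ≠ 0}` (`2a` elements).  A balanced `(s, some p)`
corresponds to the string `x` with `x p = 2`, `x 0 = sym (s p)`, `x i = sym (s i)` for `i ≠ 0, p`, and
`(s, none)` to the string with `x 0 = 2`, `x i = sym (s i)`, where `sym false = 0`, `sym true = 1`.  This is
a bijection from the vertices `(s, p)` with `Bal s` (then `s` takes each value `a` times) onto `StV a`, and
`gadj` corresponds to `Adj`: exchanging the first entry with the entry at `i`.  So `HP u v` gives a list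
of all vertices of `StV a` without repetition, consecutive members adjacent, from `u` to `v`, hence a
walk which is Hamiltonian (`SimpleGraph.Walk.IsHamiltonian`: every vertex occurs exactly once in the
support; the walk is built from the list by induction). -/
def S_transl : Prop := ∀ a : ℕ, 1 ≤ a →
  (∀ (ι : Type) [Fintype ι] [DecidableEq ι], Fintype.card ι = 2 * a →
    ∀ u v : GV ι, Bal u.1 → Bal v.1 → u ≠ v → HP u v) →
  ∀ (inst : DecidableEq (StV a)) (u v : StV a), u ≠ v →
    ∃ p : (starGraph a).Walk u v, p.IsHamiltonian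

end Pool.Agent.MPc603ed
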