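import Pool.Agent.Lib.MP_c603ed_co.ClassAux
import Pool.Agent.Lib.MP_c603ed_co.Spec4

/-!
# MP_c603ed_co: the class C13b
-/

set_option autoImplicit false

namespace Pool.Agent.MPc603ed

theorem p_C13b (h1 : S_A1) (h2 : S_L1) : S_C13b := by
  intro n ι _ _ hn hc s t p q f hs ht hp hq hcnt
  have hff : f ≠ !f := by cases f <;> simp
  obtain ⟨hb1, hb2, hb3⟩ := cnt_bal hc hs ht f
  have hts : ∀ i, t i = !(s i) := by
    intro i
    by_contra hi
    have hi' : t i = s i := by
      revert hi
      cases t i <;> cases s i <;> simp
    by_cases h : s i = f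
    · have := cnt_pos_of (s := s) (t := t) h (hi'.trans h)
      omega
    · have h' : s i = !f := by
        revert h
        cases s i <;> cases f <;> simp
      have := cnt_pos_of (s := s) (t := t) h' (hi'.trans h')
      omega
  have hsq : s q = f := by
    have := hts q
    rw [hq] at this
    revert this
    cases s q <;> cases f <;> simp
  obtain ⟨x, hx, hxE⟩ := exists_one hc hs f {p, q} (by
    have := Finset.card_le_two (a := p) (b := q)
    omega)
  obtain ⟨j, hj, _⟩ := exists_one hc hs (!f) ∅ (by simp)
  obtain ⟨y, hy, hyE⟩ := exists_one hc hs (!f) {j} (by rw [Finset.card_singleton]; omega)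
  rw [Finset.mem_insert, Finset.mem_singleton, not_or] at hxE
  rw [Finset.mem_singleton] at hyE
  obtain ⟨hxp, hxq⟩ := hxE
  have hne : ∀ a b, s a = f → s b = !f → a ≠ b := by
    rintro a b ha hb rfl
    rw [ha] at hb
    exact hff hb
  have hjx := hne x j hx hj
  have hyx := hne x y hx hy
  have hjp := hne p j hp hj
  have hyp := hne p y hp hy
  have hjq := hne q j hsq hj
  have hyq := hne q y hsq hy
  have s0j : swp s x y j = !f := by rw [swp_apply_of_ne _ (Ne.symm hjx) (Ne.symm hyE), hj]
  have s0q : swp s x y q = f := by rw [swp_apply_of_ne _ (Ne.symm hxq) hyq, hsq]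
  have s0p : swp s x y p = f := by rw [swp_apply_of_ne _ (Ne.symm hxp) hyp, hp]
  have s1j : swp (swp s x y) j q j = f := by rw [swp_apply_left, s0q]
  have s1q : swp (swp s x y) j q q = !f := by rw [swp_apply_right, s0j]
  have hc1 : cnt s (swp s x y) (!f) (!(!f)) + 1 ≤ n := by
    have h5 : cnt s (swp s x y) (!f) (!(!f)) ≤ ({y} : Finset ι).card := by
      unfold cnt
      apply Finset.card_le_card
      intro k hk
      simp only [Finset.mem_filter, Finset.mem_univ, true_and] at hk
      rw [Finset.mem_singleton]
      by_contra hky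
      have hkx : k ≠ x := (hne x k hx hk.1).symm
      rw [swp_apply_of_ne _ hkx hky, Bool.not_not] at hk
      rw [hk.2] at hk
      exact hff hk.1
    rw [Finset.card_singleton] at h5
    omega
  have hL : HPs gadj (PB j (!f)) [((s, some p), (swp s x y, none))] :=
    h2 n ι hn hc s (swp s x y) j p (!f) hs (hs.swp _ _) hj s0j (by rw [hp, Bool.not_not])
      (by rw [s0p, Bool.not_not]) hc1
  have hA : HPs gadj (PA j) [((swp s x y, some j), (swp (swp s x y) j q, some j))] :=
    h1 n ι hn hc (swp s x y) j q (hs.swp _ _) (by rw [s0j, s0q]; exact hff.symm)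
  have tj : t j = f := by rw [hts, hj, Bool.not_not]
  have hc2 : cnt t (swp (swp s x y) j q) f (!f) + 1 ≤ n := by
    have h5 := cnt_le_of (s := t) (t := s) (w := t) (a := swp (swp s x y) j q) (x := f)
      (y := !f) (x' := f) (y' := !f) {j, y} (by
        intro k hk
        rw [Finset.mem_insert, Finset.mem_singleton] at hk
        rcases hk with rfl | rfl
        · exact ⟨tj, hj⟩
        · exact ⟨by rw [hts, hy, Bool.not_not], hy⟩) (by
        intro k hk1 hk2
        rw [Finset.mem_insert, Finset.mem_singleton]
        have hsk : s k = !f := by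
          have := hts k
          rw [hk1] at this
          rw [this, Bool.not_not]
        have hkj : k ≠ j := by
          rintro rfl
          rw [s1j] at hk2
          exact hff hk2
        have hky : k ≠ y := by
          rintro rfl
          rw [swp_apply_of_ne _ hkj (Ne.symm hyq), swp_apply_right, hx] at hk2
          exact hff hk2
        exact ⟨⟨hk1, hsk⟩, by rintro (h | h); exacts [hkj h, hky h]⟩)
    rw [Finset.card_pair (Ne.symm hyE), cnt_swap t s, hcnt] at h5
    omega
  have hL2 : HPs gadj (PB j f) [((t, some q), (swp (swp s x y) j q, none))] :=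
    h2 n ι hn hc t (swp (swp s x y) j q) j q f ht ((hs.swp _ _).swp _ _) tj s1j hq s1q hc2
  have h := HPs.parts hA hL2 hL
  have e1 : HPs gadj {w : GV ι | Bal w.1} (((s, some p), (swp s x y, none)) ::
      [((swp s x y, some j), (swp (swp s x y) j q, some j)),
        ((t, some q), (swp (swp s x y) j q, none))]) := h.pull 2 (by simp)
  have e2 := e1.ext 0 (by simp) (gadj.out (swp s x y) j)
  have e3 := HPs.ext' (fun _ _ => gadj_symm) e2 0 (by simp) (gadj.inn (swp (swp s x y) j q) j)
  exact e3

end Pool.Agent.MPc603ed
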