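import Pool.Agent.Lib.MP_c603ed_co.ClassAux
import Pool.Agent.Lib.MP_c603ed_co.Spec4

/-!
# MP_c603ed_co: the class C2a
-/

set_option autoImplicit false

namespace Pool.Agent.MPc603ed

theorem p_C2a (h1 : S_A1) (h2 : S_L1) (h3 : S_B7) : S_C2a := by
  intro n ι _ _ hn hc s t p f hs ht hsp htp hst hcnt
  have hff : f ≠ !f := by cases f <;> simp
  obtain ⟨hb1, hb2, hb3⟩ := cnt_bal hc hs ht f
  have hpos := cnt_pos hc hs ht hst f
  obtain ⟨j, hsj, htj, _⟩ := exists_cnt (s := s) (t := t) (x := !f) (y := !f) ∅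
    (by rw [Finset.card_empty]; omega)
  obtain ⟨i, hsi, hti, _⟩ := exists_cnt (s := s) (t := t) (x := f) (y := !f) ∅
    (by rw [Finset.card_empty]; omega)
  have hne : ∀ a b, s a = f → s b = !f → a ≠ b := by
    rintro a b ha hb rfl
    rw [ha] at hb
    exact hff hb
  have pj := hne p j hsp hsj
  have ij := hne i j hsi hsj
  have pi : p ≠ i := by
    rintro rfl
    rw [htp] at hti
    exact hff hti
  obtain ⟨a, ha⟩ : ∃ a, a = swp t p i := ⟨_, rfl⟩
  obtain ⟨s1, hs1⟩ : ∃ s1, s1 = swp s j i := ⟨_, rfl⟩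
  obtain ⟨w, hw⟩ : ∃ w, w = swp a i j := ⟨_, rfl⟩
  have ba : Bal a := by rw [ha]; exact ht.swp _ _
  have bs1 : Bal s1 := by rw [hs1]; exact hs.swp _ _
  have bw : Bal w := by rw [hw]; exact ba.swp _ _
  have ap : a p = !f := by rw [ha, swp_apply_left, hti]
  have ai : a i = f := by rw [ha, swp_apply_right, htp]
  have ao : ∀ k, k ≠ p → k ≠ i → a k = t k := fun k h1 h2 => by rw [ha, swp_apply_of_ne _ h1 h2]
  have aj : a j = !f := by rw [ao j pj.symm ij.symm, htj]
  have s1j : s1 j = f := by rw [hs1, swp_apply_left, hsi]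
  have s1i : s1 i = !f := by rw [hs1, swp_apply_right, hsj]
  have s1o : ∀ k, k ≠ j → k ≠ i → s1 k = s k := fun k h1 h2 => by rw [hs1, swp_apply_of_ne _ h1 h2]
  have wi : w i = !f := by rw [hw, swp_apply_left, aj]
  have wj : w j = f := by rw [hw, swp_apply_right, ai]
  have wo : ∀ k, k ≠ i → k ≠ j → w k = a k := fun k h1 h2 => by rw [hw, swp_apply_of_ne _ h1 h2]
  have hB : HPs gadj (PB j (!f)) [((s, some p), (s, none)), ((a, some i), (a, none)),
      ((a, some p), (t, some p))] := by
    have := h3 n ι hn hc s t j p i (!f) hs ht hsj htj (by rw [hsp, Bool.not_not])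
      (by rw [htp, Bool.not_not]) (by rw [hsi, Bool.not_not]) hti
      (by rw [Bool.not_not]; exact hcnt)
    rwa [← ha] at this
  have hA : HPs gadj (PA j) [((s, some j), (s1, some j))] := by
    have := h1 n ι hn hc s j i hs (by rw [hsj, hsi]; exact hff.symm)
    rwa [← hs1] at this
  have hcount : cnt w s1 f (!f) + 1 ≤ n := by
    have h5 := cnt_le_of (s := t) (t := s) (w := w) (a := s1) (x := f)
      (y := !f) (x' := f) (y' := !f) ∅ (by simp) (by
        intro k hk1 hk2
        have k1 : k ≠ i := by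
          rintro rfl
          rw [wi] at hk1
          exact hff hk1.symm
        have k2 : k ≠ j := by
          rintro rfl
          rw [s1j] at hk2
          exact hff hk2
        have k3 : k ≠ p := by
          rintro rfl
          rw [wo _ k1 k2, ap] at hk1
          exact hff hk1.symm
        rw [wo k k1 k2, ao k k3 k1] at hk1
        rw [s1o k k2 k1] at hk2
        exact ⟨⟨hk1, hk2⟩, by simp⟩)
    rw [Finset.card_empty, cnt_swap t s] at h5
    omega
  have hL : HPs gadj (PB j f) [((w, some i), (s1, none))] :=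
    h2 n ι hn hc w s1 j i f bw bs1 wj s1j wi s1i hcount
  have h := HPs.parts hA hL hB
  have e1 : HPs gadj {w : GV ι | Bal w.1} (((s, some p), (s, none)) ::
      [((s, some j), (s1, some j)), ((w, some i), (s1, none)),
        ((a, some i), (a, none)), ((a, some p), (t, some p))]) := h.pull 2 (by simp)
  have e2 := e1.ext 0 (by simp) (gadj.out s j)
  have e3 := HPs.ext' (fun _ _ => gadj_symm) e2 0 (by simp) (gadj.inn s1 j)
  have e4 := e3.ext 0 (by simp) (by
    show gadj (w, some i) (a, some i)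
    rw [hw]
    exact gadj_symm (gadj.sw a i j (by rw [ai, aj]; exact hff)))
  have e5 := e4.ext 0 (by simp) (gadj.out a p)
  exact e5

end Pool.Agent.MPc603ed
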