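import Pool.Agent.Lib.MP_c603ed_co.ClassAux
import Pool.Agent.Lib.MP_c603ed_co.Spec4

/-!
# MP_c603ed_co: the class C30
-/

set_option autoImplicit false

namespace Pool.Agent.MPc603ed

theorem p_C30 (h1 : S_A1) (h2 : S_L1) (h3 : S_B6) : S_C30 := by
  intro n ι _ _ hn hc s p q f hs hp hq
  obtain ⟨j, hj, hjE⟩ := exists_one hc hs f {p} (by rw [Finset.card_singleton]; omega)
  rw [Finset.mem_singleton] at hjE
  have hpq : p ≠ q := by
    rintro rfl
    rw [hp] at hq
    cases f <;> simp at hq
  have hjq : j ≠ q := by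
    rintro rfl
    rw [hj] at hq
    cases f <;> simp at hq
  have hB : HPs gadj (PB j f) [((s, none), (s, some q)), ((swp s p q, some p), (s, some p))] :=
    h3 n ι hn hc s j q p f hs hj hq hp (Ne.symm hjE)
  have hA : HPs gadj (PA j) [((s, some j), (swp s j q, some j))] :=
    h1 n ι hn hc s j q hs (by rw [hj, hq]; cases f <;> simp)
  have s1j : swp s j q j = !f := by rw [swp_apply_left, hq]
  have s1p : swp s j q p = f := by rw [swp_apply_of_ne _ (Ne.symm hjE) hpq, hp]
  have hL : HPs gadj (PB j (!f)) [((swp s j q, some p), (swp s j q, none))] :=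
    h2 n ι hn hc (swp s j q) (swp s j q) j p (!f) (hs.swp _ _) (hs.swp _ _) s1j s1j
      (by rw [s1p, Bool.not_not]) (by rw [s1p, Bool.not_not])
      (by rw [(cnt_self _ _).2]; omega)
  have h := HPs.parts hA hB hL
  -- from `(s, some q)`
  have e1 : HPs gadj {w : GV ι | Bal w.1} (((s, some q), (s, none)) ::
      [((s, some j), (swp s j q, some j)), ((swp s p q, some p), (s, some p)),
        ((swp s j q, some p), (swp s j q, none))]) :=
    (h.pull 1 (by simp)).rev (fun _ _ => gadj_symm)
  have e2 := e1.ext 0 (by simp) (gadj.out s j)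
  have e3 := HPs.ext' (fun _ _ => gadj_symm) e2 1 (by simp) (gadj.inn (swp s j q) j)
  have e4 := e3.ext 0 (by simp) (by
    show gadj (swp s j q, some p) (swp s p q, some p)
    have h5 := gadj.sw (swp s j q) p j (by rw [s1p, s1j]; cases f <;> simp)
    have h6 : swp (swp s j q) p j = swp s p q := by
      funext x
      simp only [swp_apply]
      split_ifs <;> simp_all
    rwa [h6] at h5)
  exact HP.symm e4

end Pool.Agent.MPc603ed
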