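import Pool.Agent.Lib.MP_c603ed_co.ClassAux
import Pool.Agent.Lib.MP_c603ed_co.Spec4

/-!
# MP_c603ed_co: the class C4
-/

set_option autoImplicit false

namespace Pool.Agent.MPc603ed

theorem p_C4 (h1 : S_A1) (h2 : S_L1) (h3 : S_L1p) : S_C4 := by
  intro n ι _ _ hn hc s t p q f hs ht hp hq hpq hsq
  have hff : f ≠ !f := by cases f <;> simp
  -- the position `i`
  obtain ⟨i, hi, hi2⟩ : ∃ i, t i = !f ∧ (t p = !f → i = p) := by
    by_cases h : t p = !f
    · exact ⟨p, h, fun _ => rfl⟩
    · obtain ⟨i, hi, _⟩ := exists_one hc ht (!f) ∅ (by simp)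
      exact ⟨i, hi, fun h' => absurd h' h⟩
  have hqi : q ≠ i := by
    rintro rfl
    rw [hq] at hi
    exact hff hi
  have hA : HPs gadj (PA q) [((t, some q), (swp t q i, some q))] :=
    h1 n ι hn hc t q i ht (by rw [hq, hi]; exact hff)
  have t1q : swp t q i q = !f := by rw [swp_apply_left, hi]
  have t1i : swp t q i i = f := by rw [swp_apply_right, hq]
  have t1p : swp t q i p = f := by
    by_cases h : t p = !f
    · rw [← hi2 h]
      exact t1i
    · have hpi : p ≠ i := by
        rintro rfl
        exact h hi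
      rw [swp_apply_of_ne _ hpq hpi]
      cases f <;> simpa using h
  have hL : HPs gadj (PB q (!f)) [((swp t q i, some p), (swp t q i, none))] :=
    h2 n ι hn hc (swp t q i) (swp t q i) q p (!f) (ht.swp _ _) (ht.swp _ _) t1q t1q
      (by rw [t1p, Bool.not_not]) (by rw [t1p, Bool.not_not])
      (by rw [(cnt_self _ _).2]; omega)
  have wq : swp (swp t q i) p q q = f := by rw [swp_apply_right, t1p]
  have wp : swp (swp t q i) p q p = !f := by rw [swp_apply_left, t1q]
  have hP : HPs gadj (PB q f) [((swp (swp t q i) p q, some p), (s, some p))] :=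
    h3 n ι hn hc (swp (swp t q i) p q) s q p f ((ht.swp _ _).swp _ _) hs wq hsq wp hp
  have h := HPs.parts hA hP hL
  have e1 : HPs gadj {w : GV ι | Bal w.1} (((t, some q), (swp t q i, some q)) ::
      [((swp (swp t q i) p q, some p), (s, some p)),
        ((swp t q i, some p), (swp t q i, none))]) := h
  have e2 := HPs.ext' (fun _ _ => gadj_symm) e1 1 (by simp) (gadj.inn (swp t q i) q)
  have e3 := e2.ext 0 (by simp) (by
    show gadj (swp t q i, some p) (swp (swp t q i) p q, some p)
    exact gadj.sw (swp t q i) p q (by rw [t1p, t1q]; exact hff))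
  exact HP.symm e3

end Pool.Agent.MPc603ed
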