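import Pool.Agent.Lib.MP_c603ed_co.ClassAux
import Pool.Agent.Lib.MP_c603ed_co.Spec4

/-!
# MP_c603ed_co: the class C4pa
-/

set_option autoImplicit false

namespace Pool.Agent.MPc603ed

theorem p_C4pa (h1 : S_A2p) (h2 : S_L1) (h3 : S_S2) : S_C4pa := by
  intro n ι _ _ hn hc s p q f hs hsp hsq
  have hff : f ≠ !f := by cases f <;> simp
  obtain ⟨i, hi, hiE⟩ := exists_one hc hs (!f) {q} (by rw [Finset.card_singleton]; omega)
  obtain ⟨i1, hi1, hi1E⟩ := exists_one hc hs f {p} (by rw [Finset.card_singleton]; omega)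
  rw [Finset.mem_singleton] at hiE hi1E
  change i ≠ q at hiE
  change i1 ≠ p at hi1E
  have hne : ∀ a b, s a = f → s b = !f → a ≠ b := by
    rintro a b ha hb rfl
    rw [ha] at hb
    exact hff hb
  have pq := hne p q hsp hsq
  have pi := hne p i hsp hi
  have i1q := hne i1 q hi1 hsq
  have i1i := hne i1 i hi1 hi
  obtain ⟨t, ht⟩ : ∃ t, t = swp s p q := ⟨_, rfl⟩
  obtain ⟨s1, hs1⟩ : ∃ s1, s1 = swp s p i := ⟨_, rfl⟩
  obtain ⟨a, ha⟩ : ∃ a, a = swp t p i1 := ⟨_, rfl⟩
  have bt : Bal t := by rw [ht]; exact hs.swp _ _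
  have bs1 : Bal s1 := by rw [hs1]; exact hs.swp _ _
  have ba : Bal a := by rw [ha]; exact bt.swp _ _
  have tp : t p = !f := by rw [ht, swp_apply_left, hsq]
  have tq : t q = f := by rw [ht, swp_apply_right, hsp]
  have tOO : ∀ k, k ≠ p → k ≠ q → t k = s k := fun k h1 h2 => by rw [ht, swp_apply_of_ne _ h1 h2]
  have ti : t i = !f := by rw [tOO i pi.symm hiE, hi]
  have ti1 : t i1 = f := by rw [tOO i1 hi1E i1q, hi1]
  have s1p : s1 p = !f := by rw [hs1, swp_apply_left, hi]
  have s1i : s1 i = f := by rw [hs1, swp_apply_right, hsp]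
  have s1o : ∀ k, k ≠ p → k ≠ i → s1 k = s k := fun k h1 h2 => by rw [hs1, swp_apply_of_ne _ h1 h2]
  have s1q : s1 q = !f := by rw [s1o q pq.symm hiE.symm, hsq]
  have ap : a p = f := by rw [ha, swp_apply_left, ti1]
  have ai1 : a i1 = !f := by rw [ha, swp_apply_right, tp]
  have ao : ∀ k, k ≠ p → k ≠ i1 → a k = t k := fun k h1 h2 => by rw [ha, swp_apply_of_ne _ h1 h2]
  have ai : a i = !f := by rw [ao i pi.symm i1i.symm, ti]
  have hA : HPs gadj (PA p) [((s, some p), (s1, some p)), ((a, some p), (t, some p))] := by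
    have := h1 n ι hn hc s p i q i1 f hs hsp hi hsq hiE hi1 hi1E
    rwa [← ht, ← ha, ← hs1] at this
  have hS : HPs gadj (PB p (!f)) [((s1, none), (s1, some i)), ((t, none), (t, some q))] :=
    h3 n ι hn hc s1 t p i q (!f) bs1 bt s1p tp (by rw [s1i, Bool.not_not]) ti s1q
      (by rw [tq, Bool.not_not])
  have hcount : cnt s a f (!f) + 1 ≤ n := by
    have h5 : cnt s a f (!f) ≤ ({i1} : Finset ι).card := by
      unfold cnt
      apply Finset.card_le_card
      intro k hk
      simp only [Finset.mem_filter, Finset.mem_univ, true_and] at hk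
      rw [Finset.mem_singleton]
      obtain ⟨hk1, hk2⟩ := hk
      by_contra k1
      have k2 : k ≠ p := by
        rintro rfl
        rw [ap] at hk2
        exact hff hk2
      have k3 := hne k q hk1 hsq
      rw [ao k k2 k1, tOO k k2 k3, hk1] at hk2
      exact hff hk2
    rw [Finset.card_singleton] at h5
    omega
  have hL : HPs gadj (PB p f) [((s, some i), (a, none))] :=
    h2 n ι hn hc s a p i f hs ba hsp ap hi ai hcount
  have h := HPs.parts hA hL hS
  have e1 : HPs gadj {w : GV ι | Bal w.1} (((s, some p), (s1, some p)) ::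
      [((a, some p), (t, some p)), ((s, some i), (a, none)),
        ((s1, none), (s1, some i)), ((t, none), (t, some q))]) := h
  have e2 := e1.ext 2 (by simp) (gadj.inn s1 p)
  have e3 := e2.ext 1 (by simp) (by
    show gadj (s1, some i) (s, some i)
    have h6 : swp s i p = s1 := by rw [hs1, swp_comm]
    rw [← h6]
    exact gadj_symm (gadj.sw s i p (by rw [hi, hsp]; exact hff.symm)))
  have e4 := e3.ext 0 (by simp) (gadj.out a p)
  have e5 := e4.ext 0 (by simp) (gadj.inn t p)
  rw [← ht]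
  exact e5

end Pool.Agent.MPc603ed
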