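import Pool.Agent.Lib.MP_c603ed_co.ClassAux
import Pool.Agent.Lib.MP_c603ed_co.Spec4

/-!
# MP_c603ed_co: the class C4pb
-/

set_option autoImplicit false

namespace Pool.Agent.MPc603ed

theorem p_C4pb (h1 : S_A2) (h2 : S_L1) (h3 : S_S2) : S_C4pb := by
  intro n ι _ _ hn hc s t p q f hs ht hsp htq hsq htp hcnt
  have hff : f ≠ !f := by cases f <;> simp
  obtain ⟨hb1, hb2, hb3⟩ := cnt_bal hc hs ht f
  obtain ⟨i, hsi, hti, hiE⟩ := exists_cnt (s := s) (t := t) (x := !f) (y := f) {q}
    (by rw [Finset.card_singleton]; omega)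
  obtain ⟨r, hsr, htr, hrE⟩ := exists_cnt (s := s) (t := t) (x := f) (y := !f) {p}
    (by rw [Finset.card_singleton]; omega)
  rw [Finset.mem_singleton] at hiE hrE
  change i ≠ q at hiE
  change r ≠ p at hrE
  have hne : ∀ a b, s a = f → s b = !f → a ≠ b := by
    rintro a b ha hb rfl
    rw [ha] at hb
    exact hff hb
  have pq := hne p q hsp hsq
  have pi := hne p i hsp hsi
  have rq := hne r q hsr hsq
  have ri := hne r i hsr hsi
  obtain ⟨s1, hs1⟩ : ∃ s1, s1 = swp s p i := ⟨_, rfl⟩
  obtain ⟨w, hw⟩ : ∃ w, w = swp s1 r p := ⟨_, rfl⟩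
  obtain ⟨a, ha⟩ : ∃ a, a = swp t p q := ⟨_, rfl⟩
  have bs1 : Bal s1 := by rw [hs1]; exact hs.swp _ _
  have bw : Bal w := by rw [hw]; exact bs1.swp _ _
  have ba : Bal a := by rw [ha]; exact ht.swp _ _
  have s1p : s1 p = !f := by rw [hs1, swp_apply_left, hsi]
  have s1i : s1 i = f := by rw [hs1, swp_apply_right, hsp]
  have s1o : ∀ k, k ≠ p → k ≠ i → s1 k = s k := fun k h1 h2 => by rw [hs1, swp_apply_of_ne _ h1 h2]
  have s1q : s1 q = !f := by rw [s1o q pq.symm hiE.symm, hsq]
  have s1r : s1 r = f := by rw [s1o r hrE ri, hsr]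
  have wr : w r = !f := by rw [hw, swp_apply_left, s1p]
  have wp : w p = f := by rw [hw, swp_apply_right, s1r]
  have wo : ∀ k, k ≠ r → k ≠ p → w k = s1 k := fun k h1 h2 => by rw [hw, swp_apply_of_ne _ h1 h2]
  have ap : a p = f := by rw [ha, swp_apply_left, htq]
  have aq : a q = !f := by rw [ha, swp_apply_right, htp]
  have ao : ∀ k, k ≠ p → k ≠ q → a k = t k := fun k h1 h2 => by rw [ha, swp_apply_of_ne _ h1 h2]
  have ar : a r = !f := by rw [ao r hrE rq, htr]
  have ai : a i = f := by rw [ao i pi.symm hiE, hti]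
  have hA : HPs gadj (PA p) [((s, some p), (s1, some p)), ((a, some p), (t, some p))] := by
    have := h1 n ι hn hc s t p i q f hs ht hsp htp hsi hti hsq htq hiE
    rwa [← ha, ← hs1] at this
  have hS : HPs gadj (PB p (!f)) [((s1, none), (s1, some r)), ((t, none), (t, some q))] :=
    h3 n ι hn hc s1 t p r q (!f) bs1 ht s1p htp (by rw [s1r, Bool.not_not]) htr s1q
      (by rw [htq, Bool.not_not])
  have hcount : cnt w a f (!f) + 1 ≤ n := by
    have h5 := cnt_le_of (s := s) (t := t) (w := w) (a := a) (x := f)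
      (y := !f) (x' := f) (y' := !f) {p, r} (by
        intro k hk
        rw [Finset.mem_insert, Finset.mem_singleton] at hk
        rcases hk with rfl | rfl
        · exact ⟨hsp, htp⟩
        · exact ⟨hsr, htr⟩) (by
        intro k hk1 hk2
        rw [Finset.mem_insert, Finset.mem_singleton]
        have k1 : k ≠ r := by
          rintro rfl
          rw [wr] at hk1
          exact hff hk1.symm
        have k2 : k ≠ p := by
          rintro rfl
          rw [ap] at hk2
          exact hff hk2
        have k3 : k ≠ i := by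
          rintro rfl
          rw [ai] at hk2
          exact hff hk2
        rw [wo k k1 k2, s1o k k2 k3] at hk1
        have k4 := hne k q hk1 hsq
        rw [ao k k2 k4] at hk2
        exact ⟨⟨hk1, hk2⟩, by rintro (h | h); exacts [k2 h, k1 h]⟩)
    rw [Finset.card_pair (Ne.symm hrE)] at h5
    omega
  have hL : HPs gadj (PB p f) [((w, some r), (a, none))] :=
    h2 n ι hn hc w a p r f bw ba wp ap wr ar hcount
  have h := HPs.parts hA hL hS
  have e1 : HPs gadj {w : GV ι | Bal w.1} (((s, some p), (s1, some p)) ::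
      [((a, some p), (t, some p)), ((w, some r), (a, none)),
        ((s1, none), (s1, some r)), ((t, none), (t, some q))]) := h
  have e2 := e1.ext 2 (by simp) (gadj.inn s1 p)
  have e3 := e2.ext 1 (by simp) (by
    show gadj (s1, some r) (w, some r)
    rw [hw]
    exact gadj.sw s1 r p (by rw [s1r, s1p]; exact hff))
  have e4 := e3.ext 0 (by simp) (gadj.out a p)
  have e5 := e4.ext 0 (by simp) (gadj.inn t p)
  exact e5

end Pool.Agent.MPc603ed
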