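import Pool.Agent.Lib.MP_c603ed_co.ClassAux
import Pool.Agent.Lib.MP_c603ed_co.Spec4

/-!
# MP_c603ed_co: the class C5
-/

set_option autoImplicit false

namespace Pool.Agent.MPc603ed

theorem p_C5 (h1 : S_A1) (h2 : S_L1) : S_C5 := by
  intro n ι _ _ hn hc s t q f hs ht hq hsq
  have hff : f ≠ !f := by cases f <;> simp
  -- the positions
  obtain ⟨r, i, hsr, hti, ht1r, hcount⟩ : ∃ r i, s r = !f ∧ t i = !f ∧ swp t q i r = f ∧
      cnt (swp (swp t q i) r q) s f (!f) + 1 ≤ n := by
    by_cases hst : s = t
    · subst hst
      obtain ⟨i, hi, _⟩ := exists_one hc hs (!f) ∅ (by simp)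
      refine ⟨i, i, hi, hi, ?_, ?_⟩
      · rw [swp_apply_right, hq]
      · rw [swp_comm (swp s q i) i q, swp_swp, (cnt_self _ _).2]
        omega
    · have hpos := cnt_pos hc ht hs (Ne.symm hst) f
      obtain ⟨hb1, hb2, hb3⟩ := cnt_bal hc ht hs f
      obtain ⟨r, hr1, hr2, _⟩ := exists_cnt (s := t) (t := s) (x := f) (y := !f) ∅
        (by rw [Finset.card_empty]; omega)
      obtain ⟨i, hi1, hi2, _⟩ := exists_cnt (s := t) (t := s) (x := !f) (y := f) ∅
        (by rw [Finset.card_empty]; omega)
      have hrq : r ≠ q := by
        rintro rfl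
        rw [hsq] at hr2
        exact hff hr2
      have hri : r ≠ i := by
        rintro rfl
        rw [hr1] at hi1
        exact hff hi1
      refine ⟨r, i, hr2, hi1, ?_, ?_⟩
      · rw [swp_apply_of_ne _ hrq hri, hr1]
      · have hq1 := cnt_pos_of (s := t) (t := s) hq hsq
        have h5 := cnt_le_of (s := t) (t := s) (w := swp (swp t q i) r q) (a := s) (x := f)
          (y := !f) (x' := f) (y' := !f) {r} (by
            intro k hk
            rw [Finset.mem_singleton] at hk
            rw [hk]
            exact ⟨hr1, hr2⟩) (by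
            intro k hk1 hk2
            rw [Finset.mem_singleton]
            have hkq : k ≠ q := by
              rintro rfl
              rw [hsq] at hk2
              exact hff hk2
            have hki : k ≠ i := by
              rintro rfl
              rw [hi2] at hk2
              exact hff hk2
            have hkr : k ≠ r := by
              rintro rfl
              rw [swp_apply_left, swp_apply_left, hi1] at hk1
              exact hff hk1.symm
            rw [swp_apply_of_ne _ hkr hkq, swp_apply_of_ne _ hkq hki] at hk1
            exact ⟨⟨hk1, hk2⟩, hkr⟩)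
        rw [Finset.card_singleton] at h5
        omega
  have hA : HPs gadj (PA q) [((t, some q), (swp t q i, some q))] :=
    h1 n ι hn hc t q i ht (by rw [hq, hti]; exact hff)
  have t1q : swp t q i q = !f := by rw [swp_apply_left, hti]
  have hL : HPs gadj (PB q (!f)) [((swp t q i, some r), (swp t q i, none))] :=
    h2 n ι hn hc (swp t q i) (swp t q i) q r (!f) (ht.swp _ _) (ht.swp _ _) t1q t1q
      (by rw [ht1r, Bool.not_not]) (by rw [ht1r, Bool.not_not])
      (by rw [(cnt_self _ _).2]; omega)
  have wq : swp (swp t q i) r q q = f := by rw [swp_apply_right, ht1r]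
  have wr : swp (swp t q i) r q r = !f := by rw [swp_apply_left, t1q]
  have hP : HPs gadj (PB q f) [((swp (swp t q i) r q, some r), (s, none))] :=
    h2 n ι hn hc (swp (swp t q i) r q) s q r f ((ht.swp _ _).swp _ _) hs wq hsq wr hsr hcount
  have h := HPs.parts hA hP hL
  have e1 : HPs gadj {w : GV ι | Bal w.1} (((t, some q), (swp t q i, some q)) ::
      [((swp (swp t q i) r q, some r), (s, none)),
        ((swp t q i, some r), (swp t q i, none))]) := h
  have e2 := HPs.ext' (fun _ _ => gadj_symm) e1 1 (by simp) (gadj.inn (swp t q i) q)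
  have e3 := e2.ext 0 (by simp) (by
    show gadj (swp t q i, some r) (swp (swp t q i) r q, some r)
    exact gadj.sw (swp t q i) r q (by rw [ht1r, t1q]; exact hff))
  exact HP.symm e3

end Pool.Agent.MPc603ed
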