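import Pool.Agent.Lib.MP_c603ed_co.ClassAux
import Pool.Agent.Lib.MP_c603ed_co.Spec4

/-!
# MP_c603ed_co: the class C5pa
-/

set_option autoImplicit false

namespace Pool.Agent.MPc603ed

theorem p_C5pa (h1 : S_A1) (h2 : S_L1) (h3 : S_S2) : S_C5pa := by
  intro n ι _ _ hn hc s t q j f hs ht hq hsq hsj htj
  have hff : f ≠ !f := by cases f <;> simp
  obtain ⟨hb1, hb2, hb3⟩ := cnt_bal hc hs ht f
  have hqpos := cnt_pos_of (s := s) (t := t) hsq hq
  have hjpos := cnt_pos_of (s := s) (t := t) hsj htj
  obtain ⟨r, hsr, htr, _⟩ := exists_cnt (s := s) (t := t) (x := f) (y := !f) ∅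
    (by rw [Finset.card_empty]; omega)
  have hrj : r ≠ j := by
    rintro rfl
    rw [hsr] at hsj
    exact hff hsj
  have hrq : r ≠ q := by
    rintro rfl
    rw [hsr] at hsq
    exact hff hsq
  have hjq : j ≠ q := by
    rintro rfl
    rw [hq] at htj
    exact hff htj
  have hS : HPs gadj (PB j (!f)) [((s, none), (s, some r)), ((t, none), (t, some q))] :=
    h3 n ι hn hc s t j r q (!f) hs ht hsj htj (by rw [hsr, Bool.not_not]) htr hsq
      (by rw [hq, Bool.not_not])
  have hA : HPs gadj (PA j) [((t, some j), (swp t j q, some j))] :=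
    h1 n ι hn hc t j q ht (by rw [htj, hq]; exact hff.symm)
  have s1j : swp s r j j = f := by rw [swp_apply_right, hsr]
  have s1r : swp s r j r = !f := by rw [swp_apply_left, hsj]
  have t1j : swp t j q j = f := by rw [swp_apply_left, hq]
  have t1r : swp t j q r = !f := by rw [swp_apply_of_ne _ hrj hrq, htr]
  have hcount : cnt (swp s r j) (swp t j q) f (!f) + 1 ≤ n := by
    have h5 := cnt_le_of (s := s) (t := t) (w := swp s r j) (a := swp t j q) (x := f)
      (y := !f) (x' := f) (y' := !f) {r} (by
        intro k hk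
        rw [Finset.mem_singleton] at hk
        rw [hk]
        exact ⟨hsr, htr⟩) (by
        intro k hk1 hk2
        rw [Finset.mem_singleton]
        have hkr : k ≠ r := by
          rintro rfl
          rw [s1r] at hk1
          exact hff hk1.symm
        have hkj : k ≠ j := by
          rintro rfl
          rw [t1j] at hk2
          exact hff hk2
        have hkq : k ≠ q := by
          rintro rfl
          rw [swp_apply_of_ne _ hkr hkj, hsq] at hk1
          exact hff hk1.symm
        rw [swp_apply_of_ne _ hkr hkj] at hk1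
        rw [swp_apply_of_ne _ hkj hkq] at hk2
        exact ⟨⟨hk1, hk2⟩, hkr⟩)
    rw [Finset.card_singleton] at h5
    omega
  have hL : HPs gadj (PB j f) [((swp s r j, some r), (swp t j q, none))] :=
    h2 n ι hn hc (swp s r j) (swp t j q) j r f (hs.swp _ _) (ht.swp _ _) s1j t1j s1r t1r hcount
  have h := HPs.parts hA hL hS
  have e1 := h.pull 2 (by simp)
  have e2 : HPs gadj {w : GV ι | Bal w.1} (((s, none), (s, some r)) ::
      [((t, some j), (swp t j q, some j)), ((swp s r j, some r), (swp t j q, none)),
        ((t, none), (t, some q))]) := e1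
  have e3 := e2.ext 1 (by simp) (by
    show gadj (s, some r) (swp s r j, some r)
    exact gadj.sw s r j (by rw [hsr, hsj]; exact hff))
  have e4 := HPs.ext' (fun _ _ => gadj_symm) e3 0 (by simp) (gadj.out (swp t j q) j)
  have e5 := e4.ext 0 (by simp) (gadj.inn t j)
  exact e5

end Pool.Agent.MPc603ed
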