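import Pool.Agent.Lib.MP_c603ed_co.ClassAux
import Pool.Agent.Lib.MP_c603ed_co.Spec4

/-!
# MP_c603ed_co: the class C5pb
-/

set_option autoImplicit false

namespace Pool.Agent.MPc603ed

theorem p_C5pb (h1 : S_A1) (h2 : S_B10) (h3 : S_B11) : S_C5pb := by
  intro n ι _ _ hn hc s t q f hs ht hq hsq hts
  have hff : f ≠ !f := by cases f <;> simp
  have tf : ∀ k, s k = f → t k = !f := fun k hk => by rw [hts, hk]
  have tg : ∀ k, s k = !f → t k = f := fun k hk => by rw [hts, hk, Bool.not_not]
  have hcg : cnt s t (!f) f = n + 1 := by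
    rw [← hs.card hc (!f)]
    unfold cnt
    congr 1
    ext k
    simp only [Finset.mem_filter, Finset.mem_univ, true_and]
    exact ⟨fun h => h.1, fun h => ⟨h, tg k h⟩⟩
  have hcf : cnt s t f (!f) = n + 1 := by
    rw [← hs.card hc f]
    unfold cnt
    congr 1
    ext k
    simp only [Finset.mem_filter, Finset.mem_univ, true_and]
    exact ⟨fun h => h.1, fun h => ⟨h, tf k h⟩⟩
  -- positions
  obtain ⟨j, hj, hjE⟩ := exists_one hc hs (!f) {q} (by rw [Finset.card_singleton]; omega)
  obtain ⟨i, hi, hiE⟩ := exists_one hc hs (!f) {q, j} (by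
    have := Finset.card_le_two (a := q) (b := j)
    omega)
  obtain ⟨r, hr, _⟩ := exists_one hc hs f ∅ (by simp)
  obtain ⟨x, hx, hxE⟩ := exists_one hc hs f {r} (by rw [Finset.card_singleton]; omega)
  obtain ⟨i1, hi1, hi1E⟩ := exists_one hc hs f {r, x} (by
    have := Finset.card_le_two (a := r) (b := x)
    omega)
  rw [Finset.mem_singleton] at hjE hxE
  rw [Finset.mem_insert, Finset.mem_singleton, not_or] at hiE hi1E
  obtain ⟨hiq, hij⟩ := hiE
  change j ≠ q at hjE
  change x ≠ r at hxE
  change i ≠ q at hiq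
  change i ≠ j at hij
  obtain ⟨hi1r, hi1x⟩ := hi1E
  have hne : ∀ a b, s a = f → s b = !f → a ≠ b := by
    rintro a b ha hb rfl
    rw [ha] at hb
    exact hff hb
  have rq := hne r q hr hsq
  have rj := hne r j hr hj
  have ri := hne r i hr hi
  have xq := hne x q hx hsq
  have xj := hne x j hx hj
  have xi := hne x i hx hi
  have i1q := hne i1 q hi1 hsq
  have i1j := hne i1 j hi1 hj
  have i1i := hne i1 i hi1 hi
  -- the words
  obtain ⟨s1, hs1⟩ : ∃ s1, s1 = swp s x q := ⟨_, rfl⟩
  obtain ⟨w, hw⟩ : ∃ w, w = swp s1 r j := ⟨_, rfl⟩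
  obtain ⟨b, hb⟩ : ∃ b, b = swp t i1 j := ⟨_, rfl⟩
  obtain ⟨a, ha⟩ : ∃ a, a = swp b j i := ⟨_, rfl⟩
  have bs1 : Bal s1 := by rw [hs1]; exact hs.swp _ _
  have bw : Bal w := by rw [hw]; exact bs1.swp _ _
  have bb : Bal b := by rw [hb]; exact ht.swp _ _
  have ba : Bal a := by rw [ha]; exact bb.swp _ _
  -- values of `s1`
  have s1x : s1 x = !f := by rw [hs1, swp_apply_left, hsq]
  have s1q : s1 q = f := by rw [hs1, swp_apply_right, hx]
  have s1o : ∀ k, k ≠ x → k ≠ q → s1 k = s k := fun k h1 h2 => by rw [hs1, swp_apply_of_ne _ h1 h2]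
  -- values of `w`
  have wr : w r = !f := by rw [hw, swp_apply_left, s1o j xj.symm hjE, hj]
  have wj : w j = f := by rw [hw, swp_apply_right, s1o r hxE.symm rq, hr]
  have wo : ∀ k, k ≠ r → k ≠ j → w k = s1 k := fun k h1 h2 => by rw [hw, swp_apply_of_ne _ h1 h2]
  have wx : w x = !f := by rw [wo x hxE xj, s1x]
  have wq : w q = f := by rw [wo q rq.symm hjE.symm, s1q]
  have wi : w i = !f := by rw [wo i ri.symm hij, s1o i xi.symm hiq, hi]
  have wi1 : w i1 = f := by rw [wo i1 hi1r i1j, s1o i1 hi1x i1q, hi1]
  -- values of `b`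
  have bi1 : b i1 = f := by rw [hb, swp_apply_left, tg j hj]
  have bj : b j = !f := by rw [hb, swp_apply_right, tf i1 hi1]
  have bo : ∀ k, k ≠ i1 → k ≠ j → b k = t k := fun k h1 h2 => by rw [hb, swp_apply_of_ne _ h1 h2]
  have br : b r = !f := by rw [bo r (Ne.symm hi1r) rj, tf r hr]
  have bx : b x = !f := by rw [bo x (Ne.symm hi1x) xj, tf x hx]
  have bq : b q = f := by rw [bo q i1q.symm hjE.symm, hq]
  have bi : b i = f := by rw [bo i i1i.symm hij, tg i hi]
  -- values of `a`
  have aj : a j = f := by rw [ha, swp_apply_left, bi]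
  have ai : a i = !f := by rw [ha, swp_apply_right, bj]
  have ao : ∀ k, k ≠ j → k ≠ i → a k = b k := fun k h1 h2 => by rw [ha, swp_apply_of_ne _ h1 h2]
  have ar : a r = !f := by rw [ao r rj ri, br]
  have ax : a x = !f := by rw [ao x xj xi, bx]
  have ai1 : a i1 = f := by rw [ao i1 i1j i1i, bi1]
  have aq : a q = f := by rw [ao q hjE.symm hiq.symm, bq]
  -- counts
  have c1 : cnt s b (!f) (!(!f)) = n := by
    rw [Bool.not_not]
    have h5 := cnt_eq_of (s := s) (t := t) (w := s) (a := b) (x := !f) (y := f) (x' := !f)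
      (y' := f) {j} (by
        intro k hk
        rw [Finset.mem_singleton] at hk
        rw [hk]
        exact ⟨hj, tg j hj⟩) (by
        intro k
        rw [Finset.mem_singleton]
        constructor
        · rintro ⟨h6, h7⟩
          have hkj : k ≠ j := by
            rintro rfl
            rw [bj] at h7
            exact hff h7.symm
          exact ⟨⟨h6, tg k h6⟩, hkj⟩
        · rintro ⟨⟨h6, h7⟩, h8⟩
          refine ⟨h6, ?_⟩
          rw [bo k (hne i1 k hi1 h6).symm h8, h7])
    rw [Finset.card_singleton] at h5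
    omega
  have c2 : cnt w a f (!f) + 2 = n := by
    have h5 := cnt_eq_of (s := s) (t := t) (w := w) (a := a) (x := f) (y := !f) (x' := f)
      (y' := !f) {r, x, i1} (by
        intro k hk
        simp only [Finset.mem_insert, Finset.mem_singleton] at hk
        rcases hk with rfl | rfl | rfl
        · exact ⟨hr, tf _ hr⟩
        · exact ⟨hx, tf _ hx⟩
        · exact ⟨hi1, tf _ hi1⟩) (by
        intro k
        simp only [Finset.mem_insert, Finset.mem_singleton, not_or]
        constructor
        · rintro ⟨h6, h7⟩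
          have k1 : k ≠ r := by
            rintro rfl
            rw [wr] at h6
            exact hff h6.symm
          have k2 : k ≠ x := by
            rintro rfl
            rw [wx] at h6
            exact hff h6.symm
          have k3 : k ≠ i1 := by
            rintro rfl
            rw [ai1] at h7
            exact hff h7
          have k4 : k ≠ j := by
            rintro rfl
            rw [aj] at h7
            exact hff h7
          have k5 : k ≠ q := by
            rintro rfl
            rw [aq] at h7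
            exact hff h7
          have k6 : k ≠ i := by
            rintro rfl
            rw [wi] at h6
            exact hff h6.symm
          rw [wo k k1 k4, s1o k k2 k5] at h6
          exact ⟨⟨h6, tf k h6⟩, k1, k2, k3⟩
        · rintro ⟨⟨h6, h7⟩, k1, k2, k3⟩
          have k4 := hne k j h6 hj
          have k5 := hne k q h6 hsq
          have k6 := hne k i h6 hi
          refine ⟨?_, ?_⟩
          · rw [wo k k1 k4, s1o k k2 k5, h6]
          · rw [ao k k4 k6, bo k k3 k4, h7])
    have h6 : ({r, x, i1} : Finset ι).card = 3 := by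
      rw [Finset.card_insert_of_notMem, Finset.card_pair (Ne.symm hi1x)]
      rw [Finset.mem_insert, Finset.mem_singleton, not_or]
      exact ⟨Ne.symm hxE, Ne.symm hi1r⟩
    omega
  -- the parts
  have hB : HPs gadj (PB j (!f)) [((s, none), (swp s x q, some r)), ((b, none), (b, some q))] :=
    h3 n ι hn hc s b j r x q i1 (!f) hs bb hj bj (by rw [hr, Bool.not_not]) br
      (by rw [hx, Bool.not_not]) bx hsq (by rw [bq, Bool.not_not]) (by rw [hi1, Bool.not_not])
      (by rw [bi1, Bool.not_not]) (Ne.symm hxE) c1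
  have hC : HPs gadj (PB j f) [((w, some r), (a, none)),
      ((swp (swp a i i1) q i1, some q), (swp a i i1, some q))] :=
    h2 n ι hn hc w a j r i x i1 q f bw ba wj aj wr ar wi ai wx ax wi1 ai1 wq aq ri (Ne.symm hxE)
      xi.symm i1q i1j hjE.symm c2
  have hat : swp a i i1 = t := by
    funext k
    rw [swp_apply]
    split_ifs with k1 k2
    · rw [k1, ai1, tg i hi]
    · rw [k2, ai, tf i1 hi1]
    · by_cases k3 : k = j
      · rw [k3, aj, tg j hj]
      · rw [ao k k3 k1, bo k k2 k3]
  rw [hat] at hC
  have hA : HPs gadj (PA j) [((b, some j), (a, some j))] := by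
    have := h1 n ι hn hc b j i bb (by rw [bj, bi]; exact hff.symm)
    rwa [← ha] at this
  rw [← hs1] at hB
  have h := HPs.parts hA hC hB
  have e1 : HPs gadj {w : GV ι | Bal w.1} (((s, none), (s1, some r)) ::
      [((b, some j), (a, some j)), ((w, some r), (a, none)),
        ((swp t q i1, some q), (t, some q)), ((b, none), (b, some q))]) := h.pull 3 (by simp)
  have e2 := e1.ext 1 (by simp) (by
    show gadj (s1, some r) (w, some r)
    rw [hw]
    exact gadj.sw s1 r j (by rw [s1o r hxE.symm rq, s1o j xj.symm hjE, hr, hj]; exact hff))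
  have e3 := HPs.ext' (fun _ _ => gadj_symm) e2 0 (by simp) (gadj.out a j)
  have e4 := e3.ext 1 (by simp) (gadj.inn b j)
  have e5 := e4.ext 0 (by simp) (by
    show gadj (b, some q) (swp t q i1, some q)
    have h6 : swp b q j = swp t q i1 := by
      funext k
      rw [swp_apply, swp_apply]
      by_cases k1 : k = q
      · rw [if_pos k1, if_pos k1, bj, tf i1 hi1]
      · rw [if_neg k1, if_neg k1]
        by_cases k2 : k = j
        · rw [if_pos k2, if_neg (by rw [k2]; exact i1j.symm), bq, k2, tg j hj]
        · rw [if_neg k2]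
          by_cases k3 : k = i1
          · rw [if_pos k3, k3, bi1, hq]
          · rw [if_neg k3, bo k k3 k2]
    have h7 := gadj.sw b q j (by rw [bq, bj]; exact hff)
    rwa [h6] at h7)
  exact e5

end Pool.Agent.MPc603ed
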