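import Pool.Agent.Lib.MP_c603ed_co.ClassAux
import Pool.Agent.Lib.MP_c603ed_co.Spec4

/-!
# MP_c603ed_co: the class C6a
-/

set_option autoImplicit false

namespace Pool.Agent.MPc603ed

theorem p_C6a (h1 : S_A1) (h2 : S_L1m) (h3 : S_S2) : S_C6a := by
  intro n ι _ _ hn hc s t i2 f hs ht hsi2 hti2 hst
  have hff : f ≠ !f := by cases f <;> simp
  obtain ⟨hb1, hb2, hb3⟩ := cnt_bal hc hs ht f
  have hpos := cnt_pos hc hs ht hst f
  have hi2pos := cnt_pos_of (s := s) (t := t) hsi2 hti2
  obtain ⟨j, hsj, htj, _⟩ := exists_cnt (s := s) (t := t) (x := f) (y := !f) ∅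
    (by rw [Finset.card_empty]; omega)
  obtain ⟨i1, hsi1, hti1, _⟩ := exists_cnt (s := s) (t := t) (x := !f) (y := f) ∅
    (by rw [Finset.card_empty]; omega)
  have hne : ∀ a b, s a = f → s b = !f → a ≠ b := by
    rintro a b ha hb rfl
    rw [ha] at hb
    exact hff hb
  have ji1 := hne j i1 hsj hsi1
  have i2i1 := hne i2 i1 hsi2 hsi1
  have i2j : i2 ≠ j := by
    rintro rfl
    rw [hti2] at htj
    exact hff htj
  obtain ⟨a, ha⟩ : ∃ a, a = swp s i1 j := ⟨_, rfl⟩
  obtain ⟨t1, ht1⟩ : ∃ t1, t1 = swp t j i2 := ⟨_, rfl⟩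
  have ba : Bal a := by rw [ha]; exact hs.swp _ _
  have bt1 : Bal t1 := by rw [ht1]; exact ht.swp _ _
  have ai1 : a i1 = f := by rw [ha, swp_apply_left, hsj]
  have aj : a j = !f := by rw [ha, swp_apply_right, hsi1]
  have ao : ∀ k, k ≠ i1 → k ≠ j → a k = s k := fun k h1 h2 => by rw [ha, swp_apply_of_ne _ h1 h2]
  have t1j : t1 j = f := by rw [ht1, swp_apply_left, hti2]
  have t1i2 : t1 i2 = !f := by rw [ht1, swp_apply_right, htj]
  have t1o : ∀ k, k ≠ j → k ≠ i2 → t1 k = t k := fun k h1 h2 => by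
    rw [ht1, swp_apply_of_ne _ h1 h2]
  have hS : HPs gadj (PB j f) [((s, none), (s, some i1)), ((t1, none), (t1, some i2))] :=
    h3 n ι hn hc s t1 j i1 i2 f hs bt1 hsj t1j hsi1 (by rw [t1o i1 ji1.symm i2i1.symm, hti1])
      hsi2 t1i2
  have hcount : cnt a t (!f) (!(!f)) + 1 ≤ n := by
    rw [Bool.not_not]
    have h5 := cnt_le_of (s := s) (t := t) (w := a) (a := t) (x := !f)
      (y := f) (x' := !f) (y' := f) {i1} (by
        intro k hk
        rw [Finset.mem_singleton] at hk
        rw [hk]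
        exact ⟨hsi1, hti1⟩) (by
        intro k hk1 hk2
        rw [Finset.mem_singleton]
        have k1 : k ≠ i1 := by
          rintro rfl
          rw [ai1] at hk1
          exact hff hk1
        have k2 : k ≠ j := by
          rintro rfl
          rw [htj] at hk2
          exact hff hk2.symm
        rw [ao k k1 k2] at hk1
        exact ⟨⟨hk1, hk2⟩, k1⟩)
    rw [Finset.card_singleton] at h5
    omega
  have hL := h2 n ι hn hc a t j i1 i2 (!f) ba ht aj htj (by rw [ai1, Bool.not_not])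
    (by rw [hti1, Bool.not_not]) (by rw [ao i2 i2i1 i2j, hsi2, Bool.not_not])
    (by rw [hti2, Bool.not_not]) i2i1 hcount
  have hL2 : HPs gadj (PB j (!f)) [((a, some i1), (t, some i2)), ((t, none), (t, none))] :=
    hL.addv ⟨ht, htj, by simp⟩
  have hA : HPs gadj (PA j) [((t, some j), (t1, some j))] := by
    have := h1 n ι hn hc t j i2 ht (by rw [htj, hti2]; exact hff.symm)
    rwa [← ht1] at this
  have h := HPs.parts hA hS hL2
  have e1 : HPs gadj {w : GV ι | Bal w.1} (((s, none), (s, some i1)) ::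
      [((t, some j), (t1, some j)), ((t1, none), (t1, some i2)),
        ((a, some i1), (t, some i2)), ((t, none), (t, none))]) := h.pull 1 (by simp)
  have e2 := e1.ext 2 (by simp) (by
    show gadj (s, some i1) (a, some i1)
    rw [ha]
    exact gadj.sw s i1 j (by rw [hsi1, hsj]; exact hff.symm))
  have e3 := HPs.ext' (fun _ _ => gadj_symm) e2 1 (by simp) (by
    show gadj (t, some i2) (t1, some i2)
    rw [ht1, swp_comm]
    exact gadj.sw t i2 j (by rw [hti2, htj]; exact hff))
  have e4 := HPs.ext' (fun _ _ => gadj_symm) e3 0 (by simp) (gadj.out t1 j)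
  have e5 := e4.ext 0 (by simp) (gadj.inn t j)
  exact e5

end Pool.Agent.MPc603ed
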