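import Pool.Agent.Lib.MP_c603ed_co.ClassAux
import Pool.Agent.Lib.MP_c603ed_co.Spec4

/-!
# MP_c603ed_co: the class C6b
-/

set_option autoImplicit false

namespace Pool.Agent.MPc603ed

theorem p_C6b (h1 : S_A1) (h2 : S_L1m) (h3 : S_B5) : S_C6b := by
  intro n ι _ _ hn hc s t hs ht hts
  obtain ⟨f, -⟩ : ∃ f : Bool, f = true := ⟨true, rfl⟩
  have hff : f ≠ !f := by cases f <;> simp
  have tf : ∀ k, s k = f → t k = !f := fun k hk => by rw [hts, hk]
  have tg : ∀ k, s k = !f → t k = f := fun k hk => by rw [hts, hk, Bool.not_not]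
  have hcg : cnt s t (!f) f = n + 1 := by
    rw [← hs.card hc (!f)]
    unfold cnt
    congr 1
    ext k
    simp only [Finset.mem_filter, Finset.mem_univ, true_and]
    exact ⟨fun h => h.1, fun h => ⟨h, tg k h⟩⟩
  have hcf : cnt s t f (!f) = n + 1 := by
    rw [← hs.card hc f]
    unfold cnt
    congr 1
    ext k
    simp only [Finset.mem_filter, Finset.mem_univ, true_and]
    exact ⟨fun h => h.1, fun h => ⟨h, tf k h⟩⟩
  obtain ⟨j, hj, _⟩ := exists_one hc hs f ∅ (by simp)
  obtain ⟨y, hy, hyE⟩ := exists_one hc hs f {j} (by rw [Finset.card_singleton]; omega)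
  obtain ⟨i1, hi1, _⟩ := exists_one hc hs (!f) ∅ (by simp)
  obtain ⟨x, hx, hxE⟩ := exists_one hc hs (!f) {i1} (by rw [Finset.card_singleton]; omega)
  rw [Finset.mem_singleton] at hyE hxE
  have hne : ∀ a b, s a = f → s b = !f → a ≠ b := by
    rintro a b ha hb rfl
    rw [ha] at hb
    exact hff hb
  have ji1 := hne j i1 hj hi1
  have jx := hne j x hj hx
  have yi1 := hne y i1 hy hi1
  have yx := hne y x hy hx
  obtain ⟨s1, hs1⟩ : ∃ s1, s1 = swp s x y := ⟨_, rfl⟩
  obtain ⟨a, ha⟩ : ∃ a, a = swp s1 i1 j := ⟨_, rfl⟩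
  obtain ⟨t1, ht1⟩ : ∃ t1, t1 = swp t j x := ⟨_, rfl⟩
  have bs1 : Bal s1 := by rw [hs1]; exact hs.swp _ _
  have ba : Bal a := by rw [ha]; exact bs1.swp _ _
  have bt1 : Bal t1 := by rw [ht1]; exact ht.swp _ _
  have s1x : s1 x = f := by rw [hs1, swp_apply_left, hy]
  have s1y : s1 y = !f := by rw [hs1, swp_apply_right, hx]
  have s1o : ∀ k, k ≠ x → k ≠ y → s1 k = s k := fun k h1 h2 => by rw [hs1, swp_apply_of_ne _ h1 h2]
  have s1i1 : s1 i1 = !f := by rw [s1o i1 (Ne.symm hxE) yi1.symm, hi1]
  have s1j : s1 j = f := by rw [s1o j jx (Ne.symm hyE), hj]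
  have ai1 : a i1 = f := by rw [ha, swp_apply_left, s1j]
  have aj : a j = !f := by rw [ha, swp_apply_right, s1i1]
  have ao : ∀ k, k ≠ i1 → k ≠ j → a k = s1 k := fun k h1 h2 => by rw [ha, swp_apply_of_ne _ h1 h2]
  have ax : a x = f := by rw [ao x hxE jx.symm, s1x]
  have t1j : t1 j = f := by rw [ht1, swp_apply_left, tg x hx]
  have t1x : t1 x = !f := by rw [ht1, swp_apply_right, tf j hj]
  have t1o : ∀ k, k ≠ j → k ≠ x → t1 k = t k := fun k h1 h2 => by
    rw [ht1, swp_apply_of_ne _ h1 h2]
  have t1i1 : t1 i1 = f := by rw [t1o i1 ji1.symm (Ne.symm hxE), tg i1 hi1]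
  have t1y : t1 y = !f := by rw [t1o y hyE yx, tf y hy]
  have c1 : cnt s t1 f (!f) = n := by
    have h5 := cnt_eq_of (s := s) (t := t) (w := s) (a := t1) (x := f) (y := !f) (x' := f)
      (y' := !f) {j} (by
        intro k hk
        rw [Finset.mem_singleton] at hk
        rw [hk]
        exact ⟨hj, tf j hj⟩) (by
        intro k
        rw [Finset.mem_singleton]
        constructor
        · rintro ⟨h6, h7⟩
          have hkj : k ≠ j := by
            rintro rfl
            rw [t1j] at h7
            exact hff h7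
          exact ⟨⟨h6, tf k h6⟩, hkj⟩
        · rintro ⟨⟨h6, h7⟩, h8⟩
          refine ⟨h6, ?_⟩
          rw [t1o k h8 (hne k x h6 hx), h7])
    rw [Finset.card_singleton] at h5
    omega
  have hS : HPs gadj (PB j f) [((s1, some i1), (s, none)), ((t1, some x), (t1, none))] := by
    have := h3 n ι hn hc s t1 j i1 x y f hs bt1 hj t1j hi1 t1i1 hx t1x hy t1y c1
    rwa [← hs1] at this
  have hcount : cnt a t (!f) (!(!f)) + 1 ≤ n := by
    rw [Bool.not_not]
    have h5 := cnt_le_of (s := s) (t := t) (w := a) (a := t) (x := !f)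
      (y := f) (x' := !f) (y' := f) {i1, x} (by
        intro k hk
        rw [Finset.mem_insert, Finset.mem_singleton] at hk
        rcases hk with rfl | rfl
        · exact ⟨hi1, tg _ hi1⟩
        · exact ⟨hx, tg _ hx⟩) (by
        intro k hk1 hk2
        rw [Finset.mem_insert, Finset.mem_singleton]
        have hsk : s k = !f := by
          have := hts k
          rw [hk2] at this
          rw [this, Bool.not_not]
        have k1 : k ≠ i1 := by
          rintro rfl
          rw [ai1] at hk1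
          exact hff hk1
        have k2 : k ≠ x := by
          rintro rfl
          rw [ax] at hk1
          exact hff hk1
        exact ⟨⟨hsk, hk2⟩, by rintro (h | h); exacts [k1 h, k2 h]⟩)
    rw [Finset.card_pair (Ne.symm hxE)] at h5
    omega
  have hL := h2 n ι hn hc a t j i1 x (!f) ba ht aj (tf j hj) (by rw [ai1, Bool.not_not])
    (by rw [tg i1 hi1, Bool.not_not]) (by rw [ax, Bool.not_not])
    (by rw [tg x hx, Bool.not_not]) hxE hcount
  have hL2 : HPs gadj (PB j (!f)) [((a, some i1), (t, some x)), ((t, none), (t, none))] :=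
    hL.addv ⟨ht, tf j hj, by simp⟩
  have hA : HPs gadj (PA j) [((t, some j), (t1, some j))] := by
    have := h1 n ι hn hc t j x ht (by rw [tf j hj, tg x hx]; exact hff.symm)
    rwa [← ht1] at this
  have h := HPs.parts hA hS hL2
  have e1 : HPs gadj {w : GV ι | Bal w.1} (((s, none), (s1, some i1)) ::
      [((t, some j), (t1, some j)), ((t1, some x), (t1, none)),
        ((a, some i1), (t, some x)), ((t, none), (t, none))]) :=
    (h.pull 1 (by simp)).rev (fun _ _ => gadj_symm)
  have e2 := e1.ext 2 (by simp) (by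
    show gadj (s1, some i1) (a, some i1)
    rw [ha]
    exact gadj.sw s1 i1 j (by rw [s1i1, s1j]; exact hff.symm))
  have e3 := e2.ext 1 (by simp) (by
    show gadj (t, some x) (t1, some x)
    rw [ht1, swp_comm]
    exact gadj.sw t x j (by rw [tg x hx, tf j hj]; exact hff))
  have e4 := HPs.ext' (fun _ _ => gadj_symm) e3 0 (by simp) (gadj.out t1 j)
  have e5 := e4.ext 0 (by simp) (gadj.inn t j)
  exact e5

end Pool.Agent.MPc603ed
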