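import Pool.Agent.Lib.MP_c603ed_co.Spec2
import Pool.Agent.Lib.MP_c603ed_co.LadAux

/-!
# MP_c603ed_co: ladder ending in a hub
-/

set_option autoImplicit false

namespace Pool.Agent.MPc603ed

open Lt

theorem p_L1c (h1 : S_rho) (h2 : S_deg) (h3 : S_T1) : S_L1c := by
  intro n k hn hk
  obtain ⟨ρ, hρ⟩ := h1 n 1
  obtain ⟨deg, hd1, hd2⟩ := h2 n ρ hρ
  obtain ⟨S, hS⟩ := LadAux.exS (n := n) (by omega)
  have h4 := h3 n 1 hn le_rfl ρ hρ
    ((List.range k).map (fun i => ((false, 0, S i) : AV n 1)) ++ [(true, 0, S k)]) (by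
      apply LadAux.pw hd1
      have := LadAux.nodup_lad hS hd2 hk
      rw [List.range_succ, List.map_append] at this
      rw [List.map_append, List.map_map]
      exact this) (by
      rcases Nat.eq_zero_or_pos k with rfl | hk0
      · exact ⟨(true, 0, S 0), by simp, LadAux.star0 hS (by omega)⟩
      · exact ⟨(false, 0, S 0), List.mem_append_left _ (List.mem_map.2
          ⟨0, List.mem_range.2 hk0, rfl⟩), LadAux.star0 hS (by omega)⟩) (by
      intro z hz
      rw [List.mem_append] at hz
      rcases hz with hz | hz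
      · obtain ⟨i, _, rfl⟩ := List.mem_map.1 hz
        exact Or.inr (LadAux.zero_ne hn)
      · rw [List.mem_singleton] at hz
        subst hz
        exact Or.inl rfl)
  rw [List.map_append, List.map_map] at h4
  have h5 := LadAux.flip_range (fun _ _ => sadj_symm)
    (fun i => dec ((false, 0, S i) : AV n 1)) (fun i => dec (sig ρ ((false, 0, S i) : AV n 1))) k _ h4
  have h6 := LadAux.chain_range (fun i => dec ((false, 0, S i) : AV n 1))
    (fun i => dec (sig ρ ((false, 0, S i) : AV n 1))) k _ [] h5
    (fun i hi => LadAux.adj' hρ hS (by omega))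
  rw [LadAux.dec_u hS (by omega), LadAux.dec_w hS (by omega)] at h6
  exact h6

end Pool.Agent.MPc603ed
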