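import Pool.Agent.Lib.MP_c603ed_co.PartAux

/-!
# MP_c603ed_co: part B, ladder next to a removed hub
-/

set_option autoImplicit false
set_option linter.unusedSimpArgs false

namespace Pool.Agent.MPc603ed

open Lt PartAux

theorem p_L1m (h1 : S_arr) (h2 : S_putB) (h3 : S_trB) (h4 : S_L1mc) : S_L1m := by
  intro n ι _ _ hn hc s a j r g l hs ha hsj haj hsr har hsg hag hgr hcnt
  have hll : l ≠ !l := by cases l <;> simp
  have hrg := hgr.symm
  have hjr : j ≠ r := by rintro rfl; exact hll (hsj.symm.trans hsr)
  have hjg : j ≠ g := by rintro rfl; exact hll (hsj.symm.trans hsg)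
  have hrj := hjr.symm
  have hgj := hjg.symm
  have hz : tl l l = Z := tl_self l
  have hu : tl l (!l) = U := tl_not l
  obtain ⟨hb1, hb2, hb3⟩ := cnt_bal hc hs ha l
  have fin : ∀ (W : List ((Bool × Bool) ⊕ ι)) (e : Option (ZMod (2 * n + 1)) ≃ ι)
      (L1 L2 L3 : List Lt), W.length = 2 * n + 1 → e none = j → Fits e s a [r, g] W →
      List.Forall₂ (LetterOK s a (e none) [r, g] l (s, some r)) W L1 →
      List.Forall₂ (LetterOK s a (e none) [r, g] l (a, some g)) W L2 →
      List.Forall₂ (LetterOK s a (e none) [r, g] l (a, none)) W L3 →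
      HPs sadj (Cls n 1 \ {((T, put 0 L3) : Str n)}) [((U, put 0 L1), (U, put 0 L2))] →
      HPs gadj (PB j l \ {(a, none)}) [((s, some r), (a, some g))] := by
    intro W e L1 L2 L3 hWl he hfit f1 f2 f3 hH
    have e1 : strB e l ((s, some r) : GV ι) = (U, put 0 L1) :=
      Prod.ext (by change tl l (s r) = U; rw [hsr, hu]) (h2 n ι s a _ W e l _ _ hWl hfit f1)
    have e2 : strB e l ((a, some g) : GV ι) = (U, put 0 L2) :=
      Prod.ext (by change tl l (a g) = U; rw [hag, hu]) (h2 n ι s a _ W e l _ _ hWl hfit f2)
    have e3 : strB e l ((a, none) : GV ι) = (T, put 0 L3) :=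
      Prod.ext rfl (h2 n ι s a _ W e l _ _ hWl hfit f3)
    have key := h3 n ι e l {(a, none)} [((s, some r), (a, some g))]
      (by
        rw [he]
        rintro v rfl
        exact ⟨ha, haj, by simp⟩)
      (by
        rw [he]
        intro p hp
        simp only [List.mem_cons, List.not_mem_nil, or_false] at hp
        rcases hp with rfl
        exact ⟨⟨hs, hsj, fun h => hrj (Option.some.inj h)⟩,
          ⟨ha, haj, fun h => hgj (Option.some.inj h)⟩⟩)
      (by
        rw [Set.image_singleton, e3]
        simp only [List.map_cons, List.map_nil, Prod.map_apply, e1, e2]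
        exact hH)
    rw [he] at key
    exact key
  have hH := h4 n (cnt s a l (!l)) hn hcnt
  have hyl0 : yl n 0 = UZ n := yl_zero (by omega)
  by_cases hk : cnt s a l (!l) + 1 = n
  · obtain ⟨W, hW⟩ : ∃ W : List ((Bool × Bool) ⊕ ι), W =
      Sum.inr r :: Sum.inr g :: (rp (Sum.inl (l, !l)) (Sum.inl (!l, l)) (n - 1) ++
        [Sum.inl (l, l)]) := ⟨_, rfl⟩
    have hWl : W.length = 2 * n + 1 := by
      rw [hW]
      simp only [List.length_cons, List.length_append, length_rp, List.length_nil]
      omega
    obtain ⟨e, he, hfit⟩ := h1 n ι s a j [r, g] W hc hWl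
      (by simp [hrg]) (by simp [hjr, hjg])
      (by
        intro i
        rw [hW]
        simp only [List.count_cons, List.count_append, count_rp', beq1, beq4, beq_iff_eq, if_false,
          List.count_nil, Bool.false_eq_true])
      (by
        intro x y
        rw [hW]
        simp only [List.count_cons, List.count_append, count_rp', beq2, beq3, beq_iff_eq, if_false,
          Bool.false_eq_true, Prod.mk.injEq, List.filter_cons, List.filter_nil, hsj, haj, hsr, har,
          hsg, hag]
        cases l <;> cases x <;> cases y <;> simp at hb1 hb2 hb3 hk ⊢ <;> omega)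
    rw [if_pos hk] at hH
    have hk' : cnt s a l (!l) = n - 1 := by omega
    have g1 : T :: yl n 0 = T :: U :: (ZU (n - 1) ++ [Z]) := by
      rw [hyl0, ZU_Z]
      obtain ⟨m, rfl⟩ : ∃ m, n = m + 1 := ⟨n - 1, by omega⟩
      rfl
    have g3 : U :: yl n (cnt s a l (!l)) = U :: U :: (UZ (n - 1) ++ [Z]) := by
      rw [hk']
      unfold yl
      rw [show n - 1 - (n - 1) = 0 by omega]
      rfl
    rw [g1, g3] at hH
    refine fin W e _ _ _ hWl he hfit ?_ ?_ ?_ hH
    all_goals
      rw [hW]
      repeat' (first
        | exact List.Forall₂.nil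
        | refine List.Forall₂.cons ?_ ?_
        | refine List.rel_append ?_ ?_
        | refine forall2_UZ ?_ ?_ _
        | refine forall2_ZU ?_ ?_ _)
    all_goals
      first
        | (simp [LetterOK, hsr, har, hsg, hag, hrg, hgr, hu, hz]; done)
        | (intro i hij hi hsi hti
           simp only [List.mem_cons, List.not_mem_nil, or_false, not_or] at hi
           simp [hsi, hti, Ne.symm hi.1, Ne.symm hi.2, hu, hz])
  · obtain ⟨W, hW⟩ : ∃ W : List ((Bool × Bool) ⊕ ι), W =
      Sum.inr r :: Sum.inl (!l, !l) :: (rp (Sum.inl (l, !l)) (Sum.inl (!l, l)) (cnt s a l (!l)) ++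
        Sum.inl (l, l) :: (rp (Sum.inl (!l, !l)) (Sum.inl (l, l)) (n - 2 - cnt s a l (!l)) ++
          [Sum.inr g, Sum.inl (l, l)])) := ⟨_, rfl⟩
    have hWl : W.length = 2 * n + 1 := by
      rw [hW]
      simp only [List.length_cons, List.length_append, length_rp, List.length_nil]
      omega
    obtain ⟨e, he, hfit⟩ := h1 n ι s a j [r, g] W hc hWl
      (by simp [hrg]) (by simp [hjr, hjg])
      (by
        intro i
        rw [hW]
        simp only [List.count_cons, List.count_append, count_rp', beq1, beq4, beq_iff_eq, if_false,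
          List.count_nil, Bool.false_eq_true]
        omega)
      (by
        intro x y
        rw [hW]
        simp only [List.count_cons, List.count_append, count_rp', beq2, beq3, beq_iff_eq, if_false,
          Bool.false_eq_true, Prod.mk.injEq, List.filter_cons, List.filter_nil, hsj, haj, hsr, har,
          hsg, hag]
        cases l <;> cases x <;> cases y <;> simp at hb1 hb2 hb3 hcnt hk ⊢ <;> omega)
    rw [if_neg hk] at hH
    have hsub : UZ (n - 1 - cnt s a l (!l)) = UZ (n - 2 - cnt s a l (!l)) ++ [U, Z] := by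
      rw [show n - 1 - cnt s a l (!l) = n - 2 - cnt s a l (!l) + 1 by omega, UZ_add]
      rfl
    have g1 : T :: yl n 0 = T :: U :: (ZU (cnt s a l (!l)) ++
        Z :: (UZ (n - 2 - cnt s a l (!l)) ++ [U, Z])) := by
      rw [hyl0, ← hsub, ZU_Z_app, ← UZ_add]
      conv_lhs => rw [show n = cnt s a l (!l) + (n - 1 - cnt s a l (!l)) + 1 by omega]
      rfl
    have g3 : U :: yl n (cnt s a l (!l)) = U :: U :: (UZ (cnt s a l (!l)) ++
        Z :: (UZ (n - 2 - cnt s a l (!l)) ++ [U, Z])) := by
      unfold yl
      rw [hsub]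
    rw [g1, g3] at hH
    refine fin W e _ _ _ hWl he hfit ?_ ?_ ?_ hH
    all_goals
      rw [hW]
      repeat' (first
        | exact List.Forall₂.nil
        | refine List.Forall₂.cons ?_ ?_
        | refine List.rel_append ?_ ?_
        | refine forall2_UZ ?_ ?_ _
        | refine forall2_ZU ?_ ?_ _)
    all_goals
      first
        | (simp [LetterOK, hsr, har, hsg, hag, hrg, hgr, hu, hz]; done)
        | (intro i hij hi hsi hti
           simp only [List.mem_cons, List.not_mem_nil, or_false, not_or] at hi
           simp [hsi, hti, Ne.symm hi.1, Ne.symm hi.2, hu, hz])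

end Pool.Agent.MPc603ed
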