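import Pool.Agent.Lib.MP_c603ed_co.Spec2
import Pool.Agent.Lib.MP_c603ed_co.LadAux

/-!
# MP_c603ed_co: ladder ending next to a removed hub
-/

set_option autoImplicit false

namespace Pool.Agent.MPc603ed

open Lt

namespace p_L1mcAux

/-- the word before the hub -/
def wd (n k : ℕ) : List Lt :=
  if k + 1 = n then U :: T :: UZ (n - 1) else U :: ((U :: (UZ k ++ Z :: UZ (n - 2 - k))) ++ [T])

theorem exs {n k : ℕ} (hn : 3 ≤ n) (hk : k + 1 ≤ n) (ρ : Equiv.Perm (St n 1)) (hρ : RhoSpec ρ) :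
    ∃ s : St n 1, s.1 = (Z, wd n k) ∧ (ρ s).1 = (T, yl n k) := by
  by_cases hkn : k + 1 = n
  · have hw : wd n k = U :: ([] ++ T :: UZ (n - 1)) := by rw [wd, if_pos hkn]; rfl
    have hdy : Dy (wd n k) := by
      rw [hw]; exact Dy.cons [] _ T Dy.nil (by decide) (Dy.uz _)
    refine ⟨mkZ n (wd n k) hdy (by rw [hw]; simp [length_UZ]; omega)
      (by rw [hw]; simp [count_T_UZ]), rfl, ?_⟩
    rw [hρ _ [] (UZ (n - 1)) T Dy.nil (by decide) (Dy.uz _) hw]
    have e : yl n k = U :: (UZ (n - 1) ++ [Z]) := by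
      rw [yl, show k = n - 1 by omega]; simp [UZ]
    rw [e]
    rfl
  · have hw : wd n k = U :: ((U :: (UZ k ++ Z :: UZ (n - 2 - k))) ++ T :: []) := by
      rw [wd, if_neg hkn]
    have hd1 : Dy (U :: (UZ k ++ Z :: UZ (n - 2 - k))) :=
      Dy.cons _ _ Z (Dy.uz _) (by decide) (Dy.uz _)
    have hdy : Dy (wd n k) := by
      rw [hw]; exact Dy.cons _ [] T hd1 (by decide) Dy.nil
    refine ⟨mkZ n (wd n k) hdy (by rw [hw]; simp [length_UZ]; omega)
      (by rw [hw]; simp [count_T_UZ]), rfl, ?_⟩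
    rw [hρ _ (U :: (UZ k ++ Z :: UZ (n - 2 - k))) [] T hd1 (by decide) Dy.nil hw]
    have e : yl n k = U :: (UZ k ++ Z :: UZ (n - 2 - k)) ++ U :: ([] ++ [Z]) := by
      rw [yl, show n - 1 - k = (n - 2 - k) + 1 by omega, LadAux.UZ_succ']
      simp
    rw [e]
    rfl

theorem wd_Z (n k : ℕ) : wd n k ++ [Z] = U :: (if k + 1 = n then T :: (UZ (n - 1) ++ [Z])
        else U :: (UZ k ++ Z :: (UZ (n - 2 - k) ++ [T, Z]))) := by
  unfold wd
  split_ifs <;> simp

end p_L1mcAux

open p_L1mcAux in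
theorem p_L1mc (h1 : S_rho) (h2 : S_deg) (h3 : S_T1m) : S_L1mc := by
  intro n k hn hk
  obtain ⟨ρ, hρ⟩ := h1 n 1
  obtain ⟨deg, hd1, hd2⟩ := h2 n ρ hρ
  obtain ⟨S, hS⟩ := LadAux.exS (n := n) (by omega)
  obtain ⟨s, hs1, hs2⟩ := exs hn hk ρ hρ
  have hsS : ρ s = S k := Subtype.ext (hs2.trans (hS k hk).symm)
  have hds : deg s = deg (S k) := by rw [← hd1 s, hsS]
  have hz0 : sig ρ ((false, -1, s) : AV n 1) = (true, 0, S k) := by
    rw [sig_P, hsS, neg_add_cancel]
  have h4 := h3 n 1 hn le_rfl ρ hρ (false, -1, s)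
    ((List.range k).map (fun i => ((false, 0, S i) : AV n 1))) (by
      apply LadAux.pw hd1
      have h5 := LadAux.nodup_lad hS hd2 hk
      rw [List.range_succ, List.map_append] at h5
      have h6 := (List.perm_append_singleton (deg (S k))
        ((List.range k).map (fun i => deg (S i)))).nodup_iff.1 h5
      rw [List.map_cons, List.map_map]
      change (deg s :: _).Nodup
      rw [hds]
      exact h6) (by
      rcases Nat.eq_zero_or_pos k with rfl | hk0
      · refine ⟨(false, -1, s), List.mem_cons_self, 1, ?_⟩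
        rw [Function.iterate_one, hsS]
        rw [IsStar, hS 0 hk, yl_zero (by omega)]
        rfl
      · exact ⟨(false, 0, S 0), List.mem_cons_of_mem _ (List.mem_map.2
          ⟨0, List.mem_range.2 hk0, rfl⟩), LadAux.star0 hS (by omega)⟩) (by
      intro z hz
      rw [List.mem_cons] at hz
      rcases hz with rfl | hz
      · exact Or.inr (LadAux.neg_one_ne hn)
      · obtain ⟨i, _, rfl⟩ := List.mem_map.1 hz
        exact Or.inr (LadAux.zero_ne hn)) (by rw [hz0]; exact Or.inl rfl)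
  rw [hz0, sig_Q, List.map_map] at h4
  have h5 := (h4.perm (List.perm_append_singleton _ _).symm)
  have h6 := LadAux.flip_range (fun _ _ => sadj_symm)
    (fun i => dec ((false, 0, S i) : AV n 1)) (fun i => dec (sig ρ ((false, 0, S i) : AV n 1))) k _ h5
  have h7 := LadAux.chain_range (fun i => dec ((false, 0, S i) : AV n 1))
    (fun i => dec (sig ρ ((false, 0, S i) : AV n 1))) k _ [] h6
    (fun i hi => LadAux.adj' hρ hS (by omega))
  have hlen : (wd n k).length = 2 * n := by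
    have := s.2.2.2.1
    rw [hs1] at this
    exact this
  have e1 : dec ((false, -1, s) : AV n 1) = (U, put 0 (wd n k ++ [Z])) := by
    rw [dec_P, hs1]
    have h8 := put_rotate (-1 : ZMod (2 * n + 1)) Z (wd n k) hlen
    rw [neg_add_cancel] at h8
    rw [h8]
  rw [LadAux.dec_u hS (by omega), LadAux.dec_w hS hk, e1, wd_Z] at h7
  exact h7

end Pool.Agent.MPc603ed
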