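import Pool.Agent.Lib.MP_c603ed_co.PartAux

/-!
# MP_c603ed_co: part B, ladder with the same mark
-/

set_option autoImplicit false
set_option linter.unusedSimpArgs false

namespace Pool.Agent.MPc603ed

open Lt PartAux

theorem p_L1p (h1 : S_arr) (h2 : S_putB) (h3 : S_trB) (h4 : S_L1pc) : S_L1p := by
  intro n ι _ _ hn hc s a j r l hs ha hsj haj hsr har
  have hll : l ≠ !l := by cases l <;> simp
  have hjr : j ≠ r := by rintro rfl; exact hll (hsj.symm.trans hsr)
  have hrj := hjr.symm
  have hz : tl l l = Z := tl_self l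
  have hu : tl l (!l) = U := tl_not l
  obtain ⟨hb1, hb2, hb3⟩ := cnt_bal hc hs ha l
  have hc1 : 1 ≤ cnt s a (!l) l := by
    unfold cnt
    exact Finset.card_pos.2 ⟨r, by simp [hsr, har]⟩
  have hc2 : 1 ≤ cnt s a l l := by
    unfold cnt
    exact Finset.card_pos.2 ⟨j, by simp [hsj, haj]⟩
  obtain ⟨k, hk⟩ : ∃ k, cnt s a l (!l) = k + 1 := ⟨cnt s a l (!l) - 1, by omega⟩
  have hkn : k + 1 ≤ n := by omega
  rw [hk] at hb1 hb2 hb3
  obtain ⟨W, hW⟩ : ∃ W : List ((Bool × Bool) ⊕ ι), W =
    Sum.inr r :: Sum.inl (!l, !l) :: (rp (Sum.inl (l, !l)) (Sum.inl (!l, l)) k ++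
      Sum.inl (l, !l) :: rp (Sum.inl (!l, !l)) (Sum.inl (l, l)) (n - 1 - k)) := ⟨_, rfl⟩
  have hWl : W.length = 2 * n + 1 := by
    rw [hW]
    simp only [List.length_cons, List.length_append, length_rp]
    omega
  obtain ⟨e, he, hfit⟩ := h1 n ι s a j [r] W hc hWl
    (by simp) (by simp [hjr])
    (by
      intro x
      rw [hW]
      simp only [List.count_cons, List.count_append, count_rp', beq1, beq4, beq_iff_eq, if_false,
        List.count_nil, Bool.false_eq_true]
      try omega)
    (by
      intro x y
      rw [hW]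
      simp only [List.count_cons, List.count_append, count_rp', beq2, beq3, beq_iff_eq, if_false,
        Bool.false_eq_true, Prod.mk.injEq, List.filter_cons, List.filter_nil, hsj, haj, hsr, har]
      cases l <;> cases x <;> cases y <;> simp at hk hb1 hb2 hb3 ⊢ <;> omega)
  have hH := h4 n k hn hkn
  have g1 : T :: yl n 0 = T :: U :: (ZU k ++ Z :: UZ (n - 1 - k)) := by
    rw [yl_zero (by omega), ZU_Z_app, ← UZ_add]
    conv_lhs => rw [show n = k + (n - 1 - k) + 1 by omega]
    rfl
  rw [g1] at hH
  have e1 : strB e l ((s, some r) : GV ι) = (U, put 0 (T :: U :: (ZU k ++ Z :: UZ (n - 1 - k)))) := by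
    refine Prod.ext (by change tl l (s r) = U; rw [hsr, hu]) (h2 n ι s a _ W e l _ _ hWl hfit ?_)
    rw [hW]
    repeat' (first
      | exact List.Forall₂.nil
      | refine List.Forall₂.cons ?_ ?_
      | refine List.rel_append ?_ ?_
      | refine forall2_UZ ?_ ?_ _
      | refine forall2_ZU ?_ ?_ _)
    all_goals
      first
        | (simp [LetterOK]; done)
        | (intro x hxj hx hsx htx
           simp only [List.mem_cons, List.not_mem_nil, or_false, not_or] at hx
           simp [hsx, Ne.symm hx, hu, hz])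
  have e2 : strB e l ((a, some r) : GV ι) = (Z, put 0 (T :: U :: (UZ k ++ U :: UZ (n - 1 - k)))) := by
    refine Prod.ext (by change tl l (a r) = Z; rw [har, hz]) (h2 n ι s a _ W e l _ _ hWl hfit ?_)
    rw [hW]
    repeat' (first
      | exact List.Forall₂.nil
      | refine List.Forall₂.cons ?_ ?_
      | refine List.rel_append ?_ ?_
      | refine forall2_UZ ?_ ?_ _
      | refine forall2_ZU ?_ ?_ _)
    all_goals
      first
        | (simp [LetterOK]; done)
        | (intro x hxj hx hsx htx
           simp only [List.mem_cons, List.not_mem_nil, or_false, not_or] at hx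
           simp [htx, Ne.symm hx, hu, hz])
  have key := h3 n ι e l ∅ [((s, some r), (a, some r))] (Set.empty_subset _)
    (by
      rw [he]
      intro q hq
      simp only [List.mem_cons, List.not_mem_nil, or_false] at hq
      rcases hq with rfl
      exact ⟨⟨hs, hsj, fun h => hrj (Option.some.inj h)⟩,
        ⟨ha, haj, fun h => hrj (Option.some.inj h)⟩⟩)
    (by
      rw [Set.image_empty, Set.sdiff_empty]
      simp only [List.map_cons, List.map_nil, Prod.map_apply, e1, e2]
      exact hH)
  rw [Set.sdiff_empty, he] at key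
  exact key

end Pool.Agent.MPc603ed
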