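import Pool.Agent.Lib.MP_c603ed_co.PartAux

/-!
# MP_c603ed_co: part B, two hubs
-/

set_option autoImplicit false
set_option linter.unusedSimpArgs false

namespace Pool.Agent.MPc603ed

open Lt PartAux

theorem p_S2 (h1 : S_arr) (h2 : S_putB) (h3 : S_trB) (h4 : S_S2c1) (h5 : S_S2c2) : S_S2 := by
  intro n ι _ _ hn hc s t j r q l hs ht hsj htj hsr htr hsq htq
  have hll : l ≠ !l := by cases l <;> simp
  have hrq : r ≠ q := by rintro rfl; exact hll (htr.symm.trans htq)
  have hjr : j ≠ r := by rintro rfl; exact hll (hsj.symm.trans hsr)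
  have hjq : j ≠ q := by rintro rfl; exact hll (htj.symm.trans htq)
  have hqr := hrq.symm
  have hrj := hjr.symm
  have hqj := hjq.symm
  have hz : tl l l = Z := tl_self l
  have hu : tl l (!l) = U := tl_not l
  obtain ⟨hb1, hb2, hb3⟩ := cnt_bal hc hs ht l
  have hc1 : 1 ≤ cnt s t l (!l) := by
    unfold cnt
    exact Finset.card_pos.2 ⟨q, by simp [hsq, htq]⟩
  have hc2 : 1 ≤ cnt s t l l := by
    unfold cnt
    exact Finset.card_pos.2 ⟨j, by simp [hsj, htj]⟩
  have fin : ∀ (W : List ((Bool × Bool) ⊕ ι)) (e : Option (ZMod (2 * n + 1)) ≃ ι)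
      (L1 L2 L3 L4 : List Lt), W.length = 2 * n + 1 → e none = j → Fits e s t [r, q] W →
      List.Forall₂ (LetterOK s t (e none) [r, q] l (s, none)) W L1 →
      List.Forall₂ (LetterOK s t (e none) [r, q] l (s, some r)) W L2 →
      List.Forall₂ (LetterOK s t (e none) [r, q] l (t, none)) W L3 →
      List.Forall₂ (LetterOK s t (e none) [r, q] l (t, some q)) W L4 →
      HPs sadj (Cls n 1) [((T, put 0 L1), (U, put 0 L2)), ((T, put 0 L3), (U, put 0 L4))] →
      HPs gadj (PB j l) [((s, none), (s, some r)), ((t, none), (t, some q))] := by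
    intro W e L1 L2 L3 L4 hWl he hfit f1 f2 f3 f4 hH
    have e1 : strB e l ((s, none) : GV ι) = (T, put 0 L1) :=
      Prod.ext rfl (h2 n ι s t _ W e l _ _ hWl hfit f1)
    have e2 : strB e l ((s, some r) : GV ι) = (U, put 0 L2) :=
      Prod.ext (by change tl l (s r) = U; rw [hsr, hu]) (h2 n ι s t _ W e l _ _ hWl hfit f2)
    have e3 : strB e l ((t, none) : GV ι) = (T, put 0 L3) :=
      Prod.ext rfl (h2 n ι s t _ W e l _ _ hWl hfit f3)
    have e4 : strB e l ((t, some q) : GV ι) = (U, put 0 L4) :=
      Prod.ext (by change tl l (t q) = U; rw [htq, hu]) (h2 n ι s t _ W e l _ _ hWl hfit f4)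
    have key := h3 n ι e l ∅ [((s, none), (s, some r)), ((t, none), (t, some q))]
      (Set.empty_subset _)
      (by
        rw [he]
        intro p hp
        simp only [List.mem_cons, List.not_mem_nil, or_false] at hp
        rcases hp with rfl | rfl
        · exact ⟨⟨hs, hsj, by simp⟩, ⟨hs, hsj, fun h => hrj (Option.some.inj h)⟩⟩
        · exact ⟨⟨ht, htj, by simp⟩, ⟨ht, htj, fun h => hqj (Option.some.inj h)⟩⟩)
      (by
        rw [Set.image_empty, Set.sdiff_empty]
        simp only [List.map_cons, List.map_nil, Prod.map_apply, e1, e2, e3, e4]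
        exact hH)
    rw [Set.sdiff_empty, he] at key
    exact key
  by_cases hone : cnt s t l (!l) = 1
  · obtain ⟨W, hW⟩ : ∃ W : List ((Bool × Bool) ⊕ ι), W =
      Sum.inr r :: Sum.inl (!l, !l) :: Sum.inr q :: rp (Sum.inl (!l, !l)) (Sum.inl (l, l)) (n - 1) :=
      ⟨_, rfl⟩
    have hWl : W.length = 2 * n + 1 := by
      rw [hW]
      simp only [List.length_cons, length_rp]
      omega
    obtain ⟨e, he, hfit⟩ := h1 n ι s t j [r, q] W hc hWl
      (by simp [hrq]) (by simp [hjr, hjq])
      (by
        intro i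
        rw [hW]
        simp only [List.count_cons, count_rp', beq1, beq4, beq_iff_eq, if_false,
          List.count_nil, Bool.false_eq_true]
        omega)
      (by
        intro a b
        rw [hW]
        simp only [List.count_cons, count_rp', beq2, beq3, beq_iff_eq, if_false,
          Bool.false_eq_true, Prod.mk.injEq, List.filter_cons, List.filter_nil, hsj, htj, hsr, htr,
          hsq, htq]
        cases l <;> cases a <;> cases b <;> simp at hb1 hb2 hb3 hone ⊢ <;> omega)
    have hL1 : U :: UZ n = U :: U :: Z :: UZ (n - 1) := by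
      obtain ⟨k, rfl⟩ : ∃ k, n = k + 1 := ⟨n - 1, by omega⟩
      rfl
    have hL2 : T :: UZ n = T :: U :: Z :: UZ (n - 1) := by
      obtain ⟨k, rfl⟩ : ∃ k, n = k + 1 := ⟨n - 1, by omega⟩
      rfl
    have hH := h4 n hn
    rw [hL1, hL2] at hH
    refine fin W e _ _ _ _ hWl he hfit ?_ ?_ ?_ ?_ hH
    all_goals
      rw [hW]
      repeat' (first
        | exact List.Forall₂.nil
        | refine List.Forall₂.cons ?_ ?_
        | refine List.rel_append ?_ ?_
        | refine forall2_UZ ?_ ?_ _
        | refine forall2_ZU ?_ ?_ _)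
    all_goals
      first
        | (simp [LetterOK, hsr, hsq, htr, htq, hrq, hqr, hu, hz]; done)
        | (intro i hij hi hsi hti
           simp only [List.mem_cons, List.not_mem_nil, or_false, not_or] at hi
           simp [hsi, hti, Ne.symm hi.1, Ne.symm hi.2, hu, hz])
  · obtain ⟨k, hk⟩ : ∃ k, cnt s t l (!l) = k + 2 := ⟨cnt s t l (!l) - 2, by omega⟩
    have hkn : k + 2 ≤ n := by omega
    obtain ⟨W, hW⟩ : ∃ W : List ((Bool × Bool) ⊕ ι), W =
      Sum.inr r :: Sum.inl (!l, l) :: Sum.inr q :: Sum.inl (!l, !l) ::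
        (rp (Sum.inl (l, !l)) (Sum.inl (!l, l)) k ++ Sum.inl (l, !l) ::
          rp (Sum.inl (!l, !l)) (Sum.inl (l, l)) (n - 2 - k)) := ⟨_, rfl⟩
    have hWl : W.length = 2 * n + 1 := by
      rw [hW]
      simp only [List.length_cons, List.length_append, length_rp]
      omega
    obtain ⟨e, he, hfit⟩ := h1 n ι s t j [r, q] W hc hWl
      (by simp [hrq]) (by simp [hjr, hjq])
      (by
        intro i
        rw [hW]
        simp only [List.count_cons, List.count_append, count_rp', beq1, beq4, beq_iff_eq, if_false,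
          List.count_nil, Bool.false_eq_true]
        omega)
      (by
        intro a b
        rw [hW]
        simp only [List.count_cons, List.count_append, count_rp', beq2, beq3, beq_iff_eq, if_false,
          Bool.false_eq_true, Prod.mk.injEq, List.filter_cons, List.filter_nil, hsj, htj, hsr, htr,
          hsq, htq]
        cases l <;> cases a <;> cases b <;> simp at hb1 hb2 hb3 hk ⊢ <;> omega)
    have hUZ : UZ n = U :: Z :: U :: (ZU k ++ Z :: UZ (n - 2 - k)) := by
      rw [ZU_Z_app, ← UZ_add]
      have : n = k + (n - 2 - k) + 2 := by omega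
      conv_lhs => rw [this]
      rfl
    have hH := h5 n k hn hkn
    rw [hUZ] at hH
    refine fin W e _ _ _ _ hWl he hfit ?_ ?_ ?_ ?_ hH
    all_goals
      rw [hW]
      repeat' (first
        | exact List.Forall₂.nil
        | refine List.Forall₂.cons ?_ ?_
        | refine List.rel_append ?_ ?_
        | refine forall2_UZ ?_ ?_ _
        | refine forall2_ZU ?_ ?_ _)
    all_goals
      first
        | (simp [LetterOK, hsr, hsq, htr, htq, hrq, hqr, hu, hz]; done)
        | (intro i hij hi hsi hti
           simp only [List.mem_cons, List.not_mem_nil, or_false, not_or] at hi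
           simp [hsi, hti, Ne.symm hi.1, Ne.symm hi.2, hu, hz])

end Pool.Agent.MPc603ed
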