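import Pool.Agent.Lib.MP_c603ed_co.Spec2
import Pool.Agent.Lib.MP_c603ed_co.LadAux

/-!
# MP_c603ed_co: two hubs, distance one; a hub edge and a marked edge at the same star
-/

set_option autoImplicit false

namespace Pool.Agent.MPc603ed

open Lt

namespace p_S2c1Aux

theorem exZ {n : ℕ} (hn : 3 ≤ n) : ∃ s : St n 1, s.1 = (Z, U :: T :: UZ (n - 1)) := by
  have hd : Dy (U :: T :: UZ (n - 1)) := by
    have := Dy.cons [] (UZ (n - 1)) T Dy.nil (by decide) (Dy.uz (n - 1))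
    simpa using this
  exact ⟨mkZ n (U :: T :: UZ (n - 1)) hd (by simp [length_UZ]; omega) (by simp [count_T_UZ]), rfl⟩

theorem rho_exZ {n : ℕ} {ρ : Equiv.Perm (St n 1)} (hρ : RhoSpec ρ) {s : St n 1}
    (hs : s.1 = (Z, U :: T :: UZ (n - 1))) : (ρ s).1 = (T, U :: (UZ (n - 1) ++ [Z])) := by
  have := hρ s [] (UZ (n - 1)) T Dy.nil (by decide) (Dy.uz _) (by rw [hs]; rfl)
  rw [this, hs]
  rfl

theorem deg_exZ {n : ℕ} {ρ : Equiv.Perm (St n 1)} (hρ : RhoSpec ρ) {deg : St n 1 → ℕ}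
    (hd1 : ∀ s, deg (ρ s) = deg s)
    (hd2 : ∀ (s : St n 1) (k : ℕ), s.1.1 = T → Bl s.1.2 k → deg s = k) {s : St n 1}
    (hs : s.1 = (Z, U :: T :: UZ (n - 1))) : deg s = 1 := by
  rw [← hd1 s]
  apply hd2
  · rw [rho_exZ hρ hs]
  · rw [rho_exZ hρ hs]
    exact Bl.prime (Dy.uz (n - 1)) (by decide)

end p_S2c1Aux

open p_S2c1Aux in
theorem p_S2c1 (h1 : S_rho) (h2 : S_deg) (h3 : S_T1) : S_S2c1 := by
  intro n hn
  obtain ⟨ρ, hρ⟩ := h1 n 1
  obtain ⟨deg, hd1, hd2⟩ := h2 n ρ hρ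
  obtain ⟨s0, hs0⟩ : ∃ s : St n 1, s.1 = (T, UZ n) :=
    ⟨mkT n (UZ n) (Dy.uz n) (length_UZ n) (count_T_UZ n), rfl⟩
  obtain ⟨s, hs⟩ := exZ hn
  have g0 : deg s0 = n := hd2 s0 n (by rw [hs0]) (by rw [hs0]; exact Bl.uz n)
  have g1 : deg s = 1 := deg_exZ hρ hd1 hd2 hs
  have h4 := h3 n 1 hn le_rfl ρ hρ [(true, 0, s0), (false, 0, s)] (by
    apply LadAux.pw hd1
    simp only [List.map_cons, List.map_nil, g0, g1]
    simp
    omega) ⟨(true, 0, s0), by simp, 0, by rw [IsStar]; exact hs0⟩ (by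
    intro z hz
    simp only [List.mem_cons, List.not_mem_nil, or_false] at hz
    rcases hz with rfl | rfl
    · exact Or.inl rfl
    · exact Or.inr (LadAux.zero_ne hn))
  have e1 : dec (sig ρ (true, 0, s0)) = (U, put 0 (T :: UZ n)) := by
    rw [sig_Q, dec_P, hs0]
  have e2 : dec ((true, 0, s0) : AV n 1) = (T, put 0 (U :: UZ n)) := by
    rw [dec_Q, hs0]
  have e3 : dec (sig ρ (false, 0, s)) = (T, put 0 (Z :: U :: U :: UZ (n - 1))) := by
    rw [sig_P, dec_Q, rho_exZ hρ hs]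
    have := put_rotate (0 : ZMod (2 * n + 1)) Z (U :: U :: UZ (n - 1)) (by simp [length_UZ]; omega)
    simp only
    rw [← this]
    rfl
  have e4 : dec ((false, 0, s) : AV n 1) = (U, put 0 (Z :: U :: T :: UZ (n - 1))) := by
    rw [dec_P, hs]
  rw [List.map_cons, List.map_cons, List.map_nil, e1, e2, e3, e4] at h4
  exact h4.rev (fun _ _ => sadj_symm)

end Pool.Agent.MPc603ed
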