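import Pool.Agent.Lib.MP_c603ed_co.Spec2
import Pool.Agent.Lib.MP_c603ed_co.LadAux

/-!
# MP_c603ed_co: two hubs, distance `t + 2`
-/

set_option autoImplicit false

namespace Pool.Agent.MPc603ed

open Lt

theorem p_S2c2 (h1 : S_rho) (h2 : S_deg) (h3 : S_T1) : S_S2c2 := by
  intro n t hn ht
  obtain ⟨ρ, hρ⟩ := h1 n 1
  obtain ⟨deg, hd1, hd2⟩ := h2 n ρ hρ
  obtain ⟨s0, hs0⟩ : ∃ s : St n 1, s.1 = (T, UZ n) :=
    ⟨mkT n (UZ n) (Dy.uz n) (length_UZ n) (count_T_UZ n), rfl⟩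
  have hda : Dy (UZ t ++ (U :: (UZ (n - 2 - t) ++ [Z]))) :=
    (Dy.uz t).app (Bl.prime (Dy.uz (n - 2 - t)) (by decide)).dy
  have hb : Bl (U :: ((UZ t ++ (U :: (UZ (n - 2 - t) ++ [Z]))) ++ [Z])) 1 :=
    Bl.prime hda (by decide)
  have hy : U :: ((UZ t ++ (U :: (UZ (n - 2 - t) ++ [Z]))) ++ [Z])
      = (U :: (UZ t ++ U :: UZ (n - 2 - t))) ++ [Z, Z] := by simp
  obtain ⟨s, hs⟩ : ∃ s : St n 1, s.1 = (T, (U :: (UZ t ++ U :: UZ (n - 2 - t))) ++ [Z, Z]) := by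
    rw [hy] at hb
    exact ⟨mkT n _ hb.dy (by simp [length_UZ]; omega) (by simp [count_T_UZ]), rfl⟩
  have g0 : deg s0 = n := hd2 s0 n (by rw [hs0]) (by rw [hs0]; exact Bl.uz n)
  have g1 : deg s = 1 := hd2 s 1 (by rw [hs]) (by rw [hs, ← hy]; exact hb)
  have h4 := h3 n 1 hn le_rfl ρ hρ [(true, 0, s0), (true, 2, s)] (by
    apply LadAux.pw hd1
    simp only [List.map_cons, List.map_nil, g0, g1]
    simp
    omega) ⟨(true, 0, s0), by simp, 0, by rw [IsStar]; exact hs0⟩ (by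
    intro z hz
    left
    simp only [List.mem_cons, List.not_mem_nil, or_false] at hz
    rcases hz with rfl | rfl <;> rfl)
  have e1 : dec (sig ρ (true, 0, s0)) = (U, put 0 (T :: UZ n)) := by
    rw [sig_Q, dec_P, hs0]
  have e2 : dec ((true, 0, s0) : AV n 1) = (T, put 0 (U :: UZ n)) := by
    rw [dec_Q, hs0]
  have hput : ∀ x : Lt, put (2 : ZMod (2 * n + 1)) (x :: ((U :: (UZ t ++ U :: UZ (n - 2 - t))) ++ [Z, Z])) =
      put 0 (Z :: Z :: x :: U :: (UZ t ++ U :: UZ (n - 2 - t))) := by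
    intro x
    have h6 := put_eq_put_zero (n := n) (x :: U :: (UZ t ++ U :: UZ (n - 2 - t))) [Z, Z] (by
      simp [length_UZ]; omega)
    have e : (([Z, Z] : List Lt).length : ℕ) = 2 := rfl
    rw [e, Nat.cast_ofNat] at h6
    exact h6
  have e3 : dec (sig ρ (true, 2, s)) =
      (U, put 0 (Z :: Z :: T :: U :: (UZ t ++ U :: UZ (n - 2 - t)))) := by
    rw [sig_Q, dec_P, hs, ← hput]
  have e4 : dec ((true, 2, s) : AV n 1) =
      (T, put 0 (Z :: Z :: U :: U :: (UZ t ++ U :: UZ (n - 2 - t)))) := by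
    rw [dec_Q, hs, ← hput]
  rw [List.map_cons, List.map_cons, List.map_nil, e1, e2, e3, e4] at h4
  exact h4.flips (fun _ _ => sadj_symm)
    (List.Forall₂.cons (Or.inr rfl) (List.Forall₂.cons (Or.inr rfl) List.Forall₂.nil))

end Pool.Agent.MPc603ed
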