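import Pool.Agent.Lib.MP_c603ed_co.Spec1

set_option autoImplicit false

namespace Pool.Agent.MPc603ed

namespace p_T0Aux

variable {V I : Type}

theorem hsup_lt (σ : Equiv.Perm V) (x y : I → V) (i : I) (k : Fin 7) (hk : k ≠ 6) :
    hsup σ x y i k = (σ ^ (k : ℕ)) (x i) := by
  simp [hsup, hk]

theorem hsup_six (σ : Equiv.Perm V) (x y : I → V) (i : I) : hsup σ x y i 6 = y i := by
  simp [hsup]

/-- a point is in no support, or a `y i`, or a `σ^k (x i)` with `k ≤ 5` -/
theorem cases_sup (σ : Equiv.Perm V) (x y : I → V) (z : V) :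
    (∀ i k, z ≠ hsup σ x y i k) ∨ (∃ i, z = y i) ∨ ∃ i, ∃ k : ℕ, k ≤ 5 ∧ z = (σ ^ k) (x i) := by
  by_cases h : ∀ i k, z ≠ hsup σ x y i k
  · exact Or.inl h
  · push Not at h
    obtain ⟨i, k, hk⟩ := h
    by_cases h6 : k = 6
    · subst h6
      rw [hsup_six] at hk
      exact Or.inr (Or.inl ⟨i, hk⟩)
    · rw [hsup_lt _ _ _ _ _ h6] at hk
      refine Or.inr (Or.inr ⟨i, k, ?_, hk⟩)
      have h7 := k.isLt
      have h8 : (k : ℕ) ≠ 6 := fun h => h6 (Fin.ext h)
      omega

theorem one_ne_four {n : ℕ} (hn : 3 ≤ n) : (1 : ZMod (2 * n + 1)) ≠ 4 := by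
  intro h
  have h1 : ((3 : ℕ) : ZMod (2 * n + 1)) = 0 := by
    push_cast
    linear_combination -h
  rw [ZMod.natCast_eq_zero_iff] at h1
  have := Nat.le_of_dvd (by norm_num) h1
  omega

end p_T0Aux

open p_T0Aux in
theorem p_T0 (h1 : S_ptr) (h2 : S_sig) (h3 : S_hexadj) (h4 : S_glue) (h5 : S_conn) (h6 : S_tree)
    (h7 : S_sigcyc) (h8 : S_sup) : S_T0 := by
  intro n m hn hm ρ hρ Tch hT hstar
  obtain ⟨ψ, X, Y, hc, hX⟩ := h1 n m ρ (by omega) hm hρ
  let O : Type := Quotient (Equiv.Perm.SameCycle.setoid ρ)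
  let mk : St n m → O := fun s => Quotient.mk (Equiv.Perm.SameCycle.setoid ρ) s
  let out : O → St n m := Quotient.out
  have hmk : ∀ s t, mk s = mk t ↔ ρ.SameCycle s t := fun s t => Quotient.eq
  have hout : ∀ o, mk (out o) = o := fun o => Quotient.out_eq o
  have hom : ∀ s, ρ.SameCycle (out (mk s)) s := fun s => (hmk _ _).1 (hout (mk s))
  have hψ : ∀ s t, ρ.SameCycle s t → ψ s = ψ t := fun s t h =>
    sameCycle_const (g := ψ) (fun s => (hc s).1) h
  have hTc : ∀ s t, ρ.SameCycle s t → (Tch s ↔ Tch t) := fun s t h => by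
    have := sameCycle_const (g := Tch) (fun s => propext (hT s)) h
    rw [this]
  let q : AV n m → O := fun z => mk z.2.2
  have hq : ∀ z w, q z = q w ↔ (sig ρ).SameCycle z w := fun z w => by
    rw [h7 n m ρ hρ z w]
    exact hmk _ _
  let nr : O → Prop := fun o => ¬ Tch (out o)
  let par : O → O := fun o => mk (Y (out o))
  let rk : O → ℕ := fun o => ψ (out o)
  have hrkmk : ∀ s, rk (mk s) = ψ s := fun s => hψ _ _ (hom s)
  have hptr : ∀ o, nr o → ρ.SameCycle (out o) (X (out o)) ∧ ψ (Y (out o)) < ψ (out o) ∧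
      HexB (X (out o)) (Y (out o)) := fun o ho => hX _ (fun h => ho (hstar _ h))
  have hpar : ∀ o, nr o → rk (par o) < rk o := by
    intro o ho
    have := (hptr o ho).2.1
    rw [show rk (par o) = ψ (Y (out o)) from hrkmk _]
    exact this
  obtain ⟨⟨rt, hrt1, hrt2, hrt3⟩, col, hcol⟩ := h6 O par rk nr hpar
  let I : Type := {o : O // nr o}
  let sh : O → ZMod (2 * n + 1) := fun o => if col o then 1 else 4
  have hsh : ∀ o, sh o = 1 ∨ sh o = 4 := by
    intro o
    by_cases h : col o = true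
    · left; simp [sh, h]
    · right; simp [sh, h]
  have hshne : ∀ o o', col o ≠ col o' → sh o ≠ sh o' := by
    intro o o' h
    have h14 := one_ne_four hn
    cases h1 : col o <;> cases h2 : col o' <;> simp_all [sh]
    exact fun h => h14 h.symm
  let x : I → AV n m := fun i => (false, sh i.1, X (out i.1))
  let y : I → AV n m := fun i => (false, sh i.1, Y (out i.1))
  have hXi : ∀ i : I, mk (X (out i.1)) = i.1 := fun i => by
    rw [← hout i.1]
    exact ((hmk _ _).2 ((hmk _ _).1 (by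
      rw [hout]
      exact ((hmk _ _).2 ((hptr i.1 i.2).1)).symm.trans (hout i.1)))).trans rfl
  have hinj : ∀ i k i' k', hsup (sig ρ) x y i k = hsup (sig ρ) x y i' k' → i = i' ∧ k = k' := by
    refine h8 n m ρ hn hρ I (fun i => X (out i.1)) (fun i => Y (out i.1)) (fun i => sh i.1)
      (fun i => hsh _) (fun i => (hptr i.1 i.2).2.2) ?_ ?_
    · intro i i' h
      apply Subtype.ext
      rw [← hXi i, ← hXi i']
      exact (hmk _ _).2 h
    · intro i i' h
      apply hshne
      have h9 : par i.1 = i'.1 := by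
        rw [← hXi i']
        exact (hmk _ _).2 h
      rw [← h9]
      exact (hcol i.1 i.2).symm
  have hfinO : Finite O := Quotient.finite _
  have hfinI : Finite I := Subtype.finite
  obtain ⟨σ', hsw⟩ := h4 (AV n m) I (sig ρ) x y hfinI hinj
  have hfinAV : Finite (AV n m) := inferInstance
  have hconn := h5 (AV n m) O I (sig ρ) σ' q Subtype.val x y rt rk hfinAV hq
    Subtype.val_injective (fun i => hXi i)
    (fun i => by
      show rk (mk (Y (out i.1))) < rk i.1
      exact hpar i.1 i.2)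
    (fun i => hrt1 i.1 i.2)
    (fun o ho => hrt2 o (fun hno => ho ⟨o, hno⟩ rfl))
    hinj hsw
  have hsigadj := h2 n m ρ (by omega) hρ
  have hhex : ∀ i : I, _ := fun i => h3 n m ρ hρ (X (out i.1)) (Y (out i.1)) (hptr i.1 i.2).2.2
    (sh i.1)
  obtain ⟨hsw1, hsw2⟩ := hsw
  have hpow : ∀ (z : AV n m) (k : ℕ), (sig ρ ^ (k + 1)) z = sig ρ ((sig ρ ^ k) z) := by
    intro z k
    rw [pow_succ', Equiv.Perm.mul_apply]
  have htouch : ∀ z : AV n m, Tch z.2.2 → ¬ nr (q z) := fun z hz hno =>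
    hno ((hTc _ _ (hom z.2.2)).2 hz)
  refine ⟨σ', ?_, ?_, ?_, ?_⟩
  · intro z
    rcases cases_sup (sig ρ) x y z with h | ⟨i, rfl⟩ | ⟨i, k, hk, rfl⟩
    · rw [hsw2 z h]
      exact hsigadj z
    · rw [(hsw1 i).2.1]
      exact sadj_symm (hhex i).2.1
    · obtain ⟨a0, -, a5, a4, a3, a2, a1⟩ := hsw1 i
      interval_cases k
      · rw [pow_zero, Equiv.Perm.one_apply, a0]
        exact sadj_symm (hhex i).2.2
      · rw [pow_one, a1]
        exact (hhex i).1
      · rw [a2, hpow, pow_one]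
        exact sadj_symm (hsigadj _)
      · rw [a3, hpow _ 2]
        exact sadj_symm (hsigadj _)
      · rw [a4, hpow _ 3]
        exact sadj_symm (hsigadj _)
      · rw [a5, hpow _ 4]
        exact sadj_symm (hsigadj _)
  · intro z hz hs
    rcases cases_sup (sig ρ) x y z with h | ⟨i, rfl⟩ | ⟨i, k, hk, rfl⟩
    · exact hsw2 z h
    · exfalso
      rcases hs with hs | ⟨hs1, hs4⟩
      · exact absurd hs (by simp [y])
      · rcases hsh i.1 with h | h
        · exact hs1 h
        · exact hs4 h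
    · exfalso
      have h9 : q ((sig ρ ^ k) (x i)) = i.1 := by
        rw [← hXi i]
        exact ((hq _ _).2 (Equiv.Perm.SameCycle.rfl.pow_right)).symm
      have h10 := htouch _ hz
      rw [h9] at h10
      exact h10 i.2
  · intro z
    refine ⟨(false, 0, out (rt (q z))), not_not.1 (hrt3 (q z)), ?_⟩
    rw [hconn]
    show rt (q z) = rt (mk (out (rt (q z))))
    rw [hout, hrt2 _ (hrt3 (q z))]
  · intro z w hz hw
    rw [hconn, hrt2 _ (htouch z hz), hrt2 _ (htouch w hw)]
    exact hmk _ _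

end Pool.Agent.MPc603ed
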