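import Pool.Agent.Lib.MP_c603ed_co.Spec1

/-!
# MP_c603ed_co: cutting the cycles of a permutation (helper file of `P_T1` and `P_T1m`)
-/

namespace Pool.Agent.MPc603ed

namespace T1Aux

theorem finite_St (n m : ℕ) : Finite (St n m) := by
  have h : Function.Injective (fun s : St n m =>
      ((s.1.1, ⟨s.1.2, s.2.2.2.1⟩) : Lt × List.Vector Lt (2 * n))) := by
    rintro ⟨⟨a, b⟩, h⟩ ⟨⟨a', b'⟩, h'⟩ hh
    have h1 := congrArg Prod.fst hh
    have h2 := congrArg Subtype.val (congrArg Prod.snd hh)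
    simp only at h1 h2
    subst h1 h2
    rfl
  exact Finite.of_injective _ h

instance (n m : ℕ) : Finite (AV n m) := by
  haveI := finite_St n m
  infer_instance

section

variable {V : Type}

/-- the list of the cycle of `z`, starting with `σ z` and ending with `z` -/
theorem orb_spec [Finite V] (σ : Equiv.Perm V) (z : V) : ∃ l : List V,
    l.head? = some (σ z) ∧ l.getLast? = some z ∧ l.IsChain (fun a b => b = σ a) ∧ l.Nodup ∧
      ∀ w, w ∈ l ↔ σ.SameCycle z w := by
  set L := Function.minimalPeriod σ z with hL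
  have hper : z ∈ Function.periodicPts σ := by
    refine Function.mem_periodicPts.2 ⟨orderOf σ, orderOf_pos σ, ?_⟩
    have h1 : (σ ^ orderOf σ) z = z := by rw [pow_orderOf_eq_one]; rfl
    rw [← Equiv.Perm.iterate_eq_pow] at h1
    exact h1
  have hL0 : 0 < L := Function.minimalPeriod_pos_of_mem_periodicPts hper
  have hLz : (σ ^ L) z = z := by
    have h1 := Function.iterate_minimalPeriod (f := σ) (x := z)
    rw [Equiv.Perm.iterate_eq_pow] at h1
    exact h1
  refine ⟨(List.range L).map (fun k => (σ ^ (k + 1)) z), ?_, ?_, ?_, ?_, ?_⟩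
  · obtain ⟨M, hM⟩ : ∃ M, L = M + 1 := ⟨L - 1, by omega⟩
    rw [hM, List.range_succ_eq_map]
    simp
  · obtain ⟨M, hM⟩ : ∃ M, L = M + 1 := ⟨L - 1, by omega⟩
    rw [hM, List.range_succ, List.map_append]
    simp only [List.map_cons, List.map_nil, List.getLast?_append, List.getLast?_singleton,
      Option.or_some]
    rw [← hM, hLz]
    rfl
  · rw [List.isChain_iff_getElem]
    intro i hi
    simp only [List.getElem_map, List.getElem_range]
    rw [← Equiv.Perm.mul_apply, ← pow_succ']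
  · refine List.Nodup.map_on ?_ List.nodup_range
    intro i hi j hj hij
    rw [List.mem_range] at hi hj
    have h2 : (σ ^ i) z = (σ ^ j) z := by
      have h3 : σ ((σ ^ i) z) = σ ((σ ^ j) z) := by
        rw [← Equiv.Perm.mul_apply, ← pow_succ', ← Equiv.Perm.mul_apply, ← pow_succ']
        exact hij
      exact σ.injective h3
    rw [← Equiv.Perm.iterate_eq_pow, ← Equiv.Perm.iterate_eq_pow] at h2
    exact Function.iterate_injOn_Iio_minimalPeriod hi hj h2
  · intro w
    rw [List.mem_map]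
    constructor
    · rintro ⟨k, _, rfl⟩
      exact ⟨((k + 1 : ℕ) : ℤ), by rw [zpow_natCast]⟩
    · intro h
      obtain ⟨i, hi⟩ := h.exists_nat_pow_eq
      -- `i` modulo `L`
      have h1 : ∀ q r : ℕ, (σ ^ (L * q + r)) z = (σ ^ r) z := by
        intro q r
        induction q with
        | zero => simp
        | succ q ih =>
          rw [show L * (q + 1) + r = (L * q + r) + L by ring, pow_add, Equiv.Perm.mul_apply, hLz, ih]
      have h2 : (σ ^ (i % L)) z = w := by
        rw [← h1 (i / L) (i % L), Nat.div_add_mod, hi]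
      rcases Nat.eq_zero_or_pos (i % L) with h0 | h0
      · refine ⟨L - 1, List.mem_range.2 (by omega), ?_⟩
        rw [show L - 1 + 1 = L by omega, hLz, ← h2, h0]
        rfl
      · refine ⟨i % L - 1, List.mem_range.2 ?_, ?_⟩
        · have := Nat.mod_lt i hL0
          omega
        · rw [show i % L - 1 + 1 = i % L by omega, h2]

variable [Finite V] (σ : Equiv.Perm V) (R : V → V → Prop) (hR : ∀ z, R z (σ z))

include hR

theorem core (zs : List V) (h1 : zs.Pairwise (fun z w => ¬ σ.SameCycle z w))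
    (h2 : ∀ v, ∃ z ∈ zs, σ.SameCycle z v) :
    ∃ ls : List (List V), ls.flatten.Nodup ∧ (∀ v, v ∈ ls.flatten) ∧
      List.Forall₂ (fun l z => l.head? = some (σ z) ∧ l.getLast? = some z ∧
        l.IsChain (fun a b => b = σ a ∧ R a b)) ls zs := by
  choose f hf1 hf2 hf3 hf4 hf5 using orb_spec σ
  refine ⟨zs.map f, ?_, ?_, ?_⟩
  · rw [List.nodup_flatten]
    constructor
    · intro l hl
      obtain ⟨z, _, rfl⟩ := List.mem_map.1 hl
      exact hf4 z
    · rw [List.pairwise_map]
      refine h1.imp ?_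
      intro a b hab
      rw [List.disjoint_left]
      intro w hw hw'
      exact hab (((hf5 a w).1 hw).trans ((hf5 b w).1 hw').symm)
  · intro v
    obtain ⟨z, hz, hzv⟩ := h2 v
    exact List.mem_flatten.2 ⟨f z, List.mem_map.2 ⟨z, hz, rfl⟩, (hf5 z v).2 hzv⟩
  · rw [List.forall₂_map_left_iff, List.forall₂_same]
    intro z _
    refine ⟨hf1 z, hf2 z, (hf3 z).imp ?_⟩
    intro a b hab
    exact ⟨hab, hab ▸ hR a⟩

theorem core_T1 (zs : List V) (h1 : zs.Pairwise (fun z w => ¬ σ.SameCycle z w))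
    (h2 : ∀ v, ∃ z ∈ zs, σ.SameCycle z v) :
    HPs R Set.univ (zs.map fun z => (σ z, z)) := by
  obtain ⟨ls, h3, h4, h5⟩ := core σ R hR zs h1 h2
  refine ⟨ls, ?_, h3, fun v => ⟨fun _ => Set.mem_univ _, fun _ => h4 v⟩⟩
  rw [List.forall₂_map_right_iff]
  refine h5.imp ?_
  rintro l z ⟨ha, hb, hc⟩
  exact ⟨ha, hb, hc.imp fun a b h => h.2⟩

theorem core_T1m (z0 : V) (zs : List V) (hne : σ z0 ≠ z0)
    (h1 : (z0 :: zs).Pairwise (fun z w => ¬ σ.SameCycle z w))
    (h2 : ∀ v, ∃ z ∈ z0 :: zs, σ.SameCycle z v) :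
    HPs R ({σ z0}ᶜ : Set V) ((σ (σ z0), z0) :: zs.map fun z => (σ z, z)) := by
  obtain ⟨ls, h3, h4, h5⟩ := core σ R hR (z0 :: zs) h1 h2
  cases h5 with
  | cons ha hb =>
    rename_i l ls
    obtain ⟨hl1, hl2, hl3⟩ := ha
    cases l with
    | nil => simp at hl1
    | cons x t =>
      simp only [List.head?_cons, Option.some.injEq] at hl1
      subst hl1
      cases t with
      | nil =>
        simp only [List.getLast?_singleton, Option.some.injEq] at hl2
        exact absurd hl2 hne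
      | cons y t =>
        rw [List.isChain_cons_cons] at hl3
        obtain ⟨⟨hy, _⟩, hl4⟩ := hl3
        subst hy
        rw [List.flatten_cons, List.cons_append, List.nodup_cons] at h3
        refine ⟨(σ (σ z0) :: t) :: ls, List.Forall₂.cons ⟨rfl, ?_, hl4.imp fun a b h => h.2⟩ ?_, ?_, ?_⟩
        · rw [List.getLast?_cons_cons] at hl2
          exact hl2
        · rw [List.forall₂_map_right_iff]
          refine hb.imp ?_
          rintro l z ⟨ha, hb, hc⟩
          exact ⟨ha, hb, hc.imp fun a b h => h.2⟩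
        · exact h3.2
        · intro v
          constructor
          · intro hv hv'
            rw [Set.mem_singleton_iff] at hv'
            subst hv'
            exact h3.1 hv
          · intro hv
            have h6 := h4 v
            rw [List.flatten_cons, List.cons_append, List.mem_cons] at h6
            rcases h6 with h6 | h6
            · exact absurd h6 hv
            · exact h6

end

/-- the common part: the permutation `σ'` of `S_T0` for the cycles of the members of `zs` -/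
theorem prep (h1 : S_T0) {n m : ℕ} (hn : 3 ≤ n) (hm : m ≤ 1) (ρ : Equiv.Perm (St n m))
    (hρ : RhoSpec ρ) (zs : List (AV n m))
    (hp : zs.Pairwise (fun z w => ¬ ρ.SameCycle z.2.2 w.2.2))
    (hs : ∃ z ∈ zs, StarOrb ρ z.2.2) :
    ∃ σ' : Equiv.Perm (AV n m), (∀ z, sadj (dec z) (dec (σ' z))) ∧
      (∀ z, (∃ y ∈ zs, ρ.SameCycle y.2.2 z.2.2) → (z.1 = true ∨ (z.2.1 ≠ 1 ∧ z.2.1 ≠ 4)) →
        σ' z = sig ρ z) ∧
      zs.Pairwise (fun z w => ¬ σ'.SameCycle z w) ∧ ∀ v, ∃ z ∈ zs, σ'.SameCycle z v := by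
  obtain ⟨σ', ha, hb, hc, hd⟩ := h1 n m hn hm ρ hρ (fun s => ∃ z ∈ zs, ρ.SameCycle z.2.2 s)
    (fun s => by
      constructor
      · rintro ⟨z, hz, hzs⟩
        exact ⟨z, hz, Equiv.Perm.sameCycle_apply_right.1 hzs⟩
      · rintro ⟨z, hz, hzs⟩
        exact ⟨z, hz, Equiv.Perm.sameCycle_apply_right.2 hzs⟩)
    (fun s hs' => by
      obtain ⟨z, hz, k, hk⟩ := hs
      obtain ⟨k', hk'⟩ := hs'
      refine ⟨z, hz, ?_⟩
      have h5 : (ρ ^ k) z.2.2 = (ρ ^ k') s := by
        rw [← Equiv.Perm.iterate_eq_pow, ← Equiv.Perm.iterate_eq_pow]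
        exact Subtype.ext (hk.trans hk'.symm)
      have h6 : ρ.SameCycle z.2.2 ((ρ ^ k) z.2.2) := ⟨(k : ℤ), by rw [zpow_natCast]⟩
      have h7 : ρ.SameCycle s ((ρ ^ k') s) := ⟨(k' : ℤ), by rw [zpow_natCast]⟩
      rw [h5] at h6
      exact h6.trans h7.symm)
  have hrefl : ∀ z ∈ zs, ∃ y ∈ zs, ρ.SameCycle y.2.2 z.2.2 := fun z hz =>
    ⟨z, hz, Equiv.Perm.SameCycle.refl _ _⟩
  refine ⟨σ', ha, hb, ?_, ?_⟩
  · refine List.Pairwise.imp_of_mem ?_ hp
    intro z w hz hw hzw h
    exact hzw ((hd z w (hrefl z hz) (hrefl w hw)).1 h)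
  · intro v
    obtain ⟨w, ⟨z, hz, hzw⟩, hvw⟩ := hc v
    exact ⟨z, hz, ((hd z w (hrefl z hz) ⟨z, hz, hzw⟩).2 hzw).trans hvw.symm⟩

end T1Aux

end Pool.Agent.MPc603ed
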