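import Pool.Agent.Lib.MP_c603ed_co.Spec1
import Pool.Agent.Lib.MP_c603ed_co.T1Aux

/-!
# MP_c603ed_co: cutting the touched cycles, one vertex removed
-/

namespace Pool.Agent.MPc603ed

theorem p_T1m (h1 : S_T0) (h2 : S_decI) (h3 : S_decS) : S_T1m := by
  intro n m hn hm ρ hρ z0 zs hp hs hz hz1
  haveI := T1Aux.finite_St n m
  obtain ⟨σ', ha, hb, hc, hd⟩ := T1Aux.prep h1 hn hm ρ hρ (z0 :: zs) hp hs
  have hne : σ' z0 ≠ z0 := by
    intro h
    have h6 := ha z0
    rw [h] at h6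
    obtain ⟨i, hi, hi'⟩ := h6
    exact hi (congrArg Prod.fst hi').symm
  have h4 : HPs (fun a b : AV n m => sadj (dec a) (dec b)) ({σ' z0}ᶜ : Set (AV n m))
      ((σ' (σ' z0), z0) :: zs.map fun z => (σ' z, z)) :=
    T1Aux.core_T1m σ' (fun a b => sadj (dec a) (dec b)) ha z0 zs hne hc hd
  have h5 := h4.map (R' := sadj) (f := dec) ((h2 n m).injOn) (fun a _ b _ h => h)
  have e0 : σ' z0 = sig ρ z0 :=
    hb z0 ⟨z0, List.mem_cons_self, Equiv.Perm.SameCycle.refl _ _⟩ (hz z0 List.mem_cons_self)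
  have e00 : σ' (sig ρ z0) = sig ρ (sig ρ z0) := by
    refine hb _ ⟨z0, List.mem_cons_self, ?_⟩ hz1
    obtain ⟨b, e, s⟩ := z0
    cases b
    · exact Equiv.Perm.sameCycle_apply_right.2 (Equiv.Perm.SameCycle.refl _ _)
    · exact Equiv.Perm.SameCycle.refl _ _
  have e1 : (dec '' ({σ' z0}ᶜ : Set (AV n m))) = Cls n m \ {dec (sig ρ z0)} := by
    rw [e0]
    ext v
    rw [Set.mem_diff, h3 n m v, Set.mem_singleton_iff]
    constructor
    · rintro ⟨z, hz', rfl⟩
      exact ⟨⟨z, rfl⟩, fun h => hz' (h2 n m h)⟩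
    · rintro ⟨⟨z, rfl⟩, hz'⟩
      exact ⟨z, fun h => hz' (by rw [Set.mem_singleton_iff.1 h]), rfl⟩
  have e2 : ((σ' (σ' z0), z0) :: zs.map fun z => (σ' z, z)).map (Prod.map dec dec) =
      (dec (sig ρ (sig ρ z0)), dec z0) :: zs.map (fun z => (dec (sig ρ z), dec z)) := by
    rw [List.map_cons, List.map_map, e0, e00]
    congr 1
    apply List.map_congr_left
    intro z hz'
    simp only [Function.comp, Prod.map_apply]
    rw [hb z ⟨z, List.mem_cons_of_mem _ hz', Equiv.Perm.SameCycle.refl _ _⟩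
      (hz z (List.mem_cons_of_mem _ hz'))]
  rw [e1, e2] at h5
  exact h5

end Pool.Agent.MPc603ed
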