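import Pool.Agent.Lib.MP_c603ed_co.Spec3
import Pool.Agent.Lib.MP_c603ed_co.Beq

/-!
# MP_c603ed_co: arrangements of the positions with prescribed labels
-/

set_option autoImplicit false

namespace Pool.Agent.MPc603ed

open Lt

namespace p_arrAux

/-- the label of a position -/
def lab {ι : Type} [DecidableEq ι] (s t : ι → Bool) (sp : List ι) (i : ι) : (Bool × Bool) ⊕ ι :=
  if i ∈ sp then Sum.inr i else Sum.inl (s i, t i)

/-- the entry of the pattern at a position of the circle -/
def ent {n : ℕ} {α : Type} (v : List.Vector α (2 * n + 1)) (x : ZMod (2 * n + 1)) : α :=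
  v.get ⟨x.val, ZMod.val_lt x⟩

theorem ent_get {n : ℕ} {α : Type} (W : List α) (hW : W.length = 2 * n + 1)
    (x : ZMod (2 * n + 1)) (a : α) (h : W[x.val]? = some a) :
    ent (⟨W, hW⟩ : List.Vector α (2 * n + 1)) x = a := by
  rw [List.getElem?_eq_some_iff] at h
  obtain ⟨h1, h2⟩ := h
  exact h2

theorem card_ent {n : ℕ} {α : Type} [DecidableEq α] (v : List.Vector α (2 * n + 1)) (c : α) :
    Fintype.card {x : ZMod (2 * n + 1) // ent v x = c} = v.toList.count c := by
  rw [Fintype.card_subtype, ← Fin.card_filter_univ_eq_vector_get_eq_count]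
  refine Finset.card_bij (fun x _ => ⟨x.val, ZMod.val_lt x⟩) ?_ ?_ ?_
  · intro x hx
    rw [Finset.mem_filter] at hx ⊢
    exact ⟨Finset.mem_univ _, hx.2⟩
  · intro x _ y _ hxy
    exact ZMod.val_injective _ (congrArg Fin.val hxy)
  · intro i hi
    rw [Finset.mem_filter] at hi
    have h1 : ((i : ℕ) : ZMod (2 * n + 1)).val = i := by
      rw [ZMod.val_natCast, Nat.mod_eq_of_lt i.2]
    refine ⟨((i : ℕ) : ZMod (2 * n + 1)), ?_, ?_⟩
    · rw [Finset.mem_filter]
      refine ⟨Finset.mem_univ _, ?_⟩
      unfold ent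
      rw [← hi.2]
      congr 1
      exact Fin.ext h1
    · exact Fin.ext h1

theorem card_lab {ι : Type} [Fintype ι] [DecidableEq ι] (s t : ι → Bool) (j : ι) (sp : List ι)
    (W : List ((Bool × Bool) ⊕ ι)) (hnd : sp.Nodup) (hj : j ∉ sp)
    (h1 : ∀ i, W.count (Sum.inr i) = sp.count i)
    (h2 : ∀ x y, W.count (Sum.inl (x, y)) + ((j :: sp).filter (fun i => s i = x ∧ t i = y)).length
      = cnt s t x y) (c : (Bool × Bool) ⊕ ι) :
    Fintype.card {i : {i : ι // i ≠ j} // lab s t sp i.1 = c} = W.count c := by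
  classical
  have h3 : Fintype.card {i : {i : ι // i ≠ j} // lab s t sp i.1 = c} =
      (Finset.univ.filter (fun i : ι => i ≠ j ∧ lab s t sp i = c)).card := by
    rw [Fintype.card_subtype]
    refine Finset.card_bij (fun i _ => i.1) ?_ ?_ ?_
    · intro i hi
      rw [Finset.mem_filter] at hi ⊢
      exact ⟨Finset.mem_univ _, i.2, hi.2⟩
    · intro i _ i' _ h
      exact Subtype.ext h
    · intro i hi
      rw [Finset.mem_filter] at hi
      exact ⟨⟨i, hi.2.1⟩, by rw [Finset.mem_filter]; exact ⟨Finset.mem_univ _, hi.2.2⟩, rfl⟩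
  rw [h3]
  cases c with
  | inr k =>
    rw [h1]
    by_cases hk : k ∈ sp
    · rw [List.count_eq_one_of_mem hnd hk, Finset.card_eq_one]
      refine ⟨k, ?_⟩
      ext i
      simp only [Finset.mem_filter, Finset.mem_univ, true_and, Finset.mem_singleton]
      unfold lab
      constructor
      · rintro ⟨_, h⟩
        split_ifs at h with h4
        exact Sum.inr.inj h
      · rintro rfl
        refine ⟨fun h => hj (h ▸ hk), ?_⟩
        rw [if_pos hk]
    · rw [List.count_eq_zero_of_not_mem hk, Finset.card_eq_zero, Finset.filter_eq_empty_iff]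
      rintro i _ ⟨_, h⟩
      unfold lab at h
      split_ifs at h with h4
      exact hk (Sum.inr.inj h ▸ h4)
  | inl xy =>
    obtain ⟨x, y⟩ := xy
    have h4 := h2 x y
    have h5 : ((j :: sp).filter (fun i => s i = x ∧ t i = y)).length =
        (Finset.univ.filter (fun i => i ∈ j :: sp ∧ (s i = x ∧ t i = y))).card := by
      rw [← List.toFinset_card_of_nodup ((List.nodup_cons.2 ⟨hj, hnd⟩).filter _)]
      congr 1
      ext i
      simp
    have h6 : cnt s t x y =
        (Finset.univ.filter (fun i : ι => i ≠ j ∧ lab s t sp i = Sum.inl (x, y))).card +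
        (Finset.univ.filter (fun i => i ∈ j :: sp ∧ (s i = x ∧ t i = y))).card := by
      unfold cnt
      rw [← Finset.card_union_of_disjoint]
      · congr 1
        ext i
        simp only [Finset.mem_filter, Finset.mem_univ, true_and, Finset.mem_union, List.mem_cons]
        constructor
        · rintro ⟨h7, h8⟩
          by_cases h9 : i = j ∨ i ∈ sp
          · exact Or.inr ⟨h9, h7, h8⟩
          · push Not at h9
            refine Or.inl ⟨h9.1, ?_⟩
            unfold lab
            rw [if_neg h9.2, h7, h8]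
        · rintro (⟨_, h⟩ | ⟨_, h⟩)
          · unfold lab at h
            split_ifs at h with h9
            have h10 := Sum.inl.inj h
            exact ⟨congrArg Prod.fst h10, congrArg Prod.snd h10⟩
          · exact h
      · rw [Finset.disjoint_filter]
        rintro i _ ⟨h7, h8⟩ ⟨h9, _⟩
        unfold lab at h8
        split_ifs at h8 with h10
        rcases List.mem_cons.1 h9 with h | h
        · exact h7 h
        · exact h10 h
    rw [h5, h6] at h4
    omega

end p_arrAux

open p_arrAux in
theorem p_arr : S_arr := by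
  intro n ι _ _ s t j sp W hcard hW hnd hj h1 h2
  classical
  have hex : ∀ c : (Bool × Bool) ⊕ ι,
      Nonempty ({x : ZMod (2 * n + 1) //
        ent (⟨W, hW⟩ : List.Vector ((Bool × Bool) ⊕ ι) (2 * n + 1)) x = c} ≃
        {i : {i : ι // i ≠ j} // lab s t sp i.1 = c}) := by
    intro c
    refine ⟨Fintype.equivOfCardEq ?_⟩
    rw [card_ent, card_lab s t j sp W hnd hj h1 h2]
    exact @count_beq _ instBEqOfDecidableEq Sum.instBEq inferInstance inferInstance W c
  have φ : ∀ c : (Bool × Bool) ⊕ ι, ({x : ZMod (2 * n + 1) //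
        ent (⟨W, hW⟩ : List.Vector ((Bool × Bool) ⊕ ι) (2 * n + 1)) x = c} ≃
        {i : {i : ι // i ≠ j} // lab s t sp i.1 = c}) := fun c => Classical.choice (hex c)
  obtain ⟨ψ, hψ⟩ : ∃ ψ : ZMod (2 * n + 1) ≃ {i : ι // i ≠ j}, ∀ x, lab s t sp (ψ x).1 =
      ent (⟨W, hW⟩ : List.Vector ((Bool × Bool) ⊕ ι) (2 * n + 1)) x :=
    ⟨Equiv.ofFiberEquiv (g := fun i : {i : ι // i ≠ j} => lab s t sp i.1) φ,
      fun x => Equiv.ofFiberEquiv_map (g := fun i : {i : ι // i ≠ j} => lab s t sp i.1) φ x⟩
  refine ⟨((Equiv.optionSubtype j).symm ψ : {e : Option (ZMod (2 * n + 1)) ≃ ι // e none = j}).1,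
    rfl, ?_⟩
  intro x
  have he : ((Equiv.optionSubtype j).symm ψ : {e : Option (ZMod (2 * n + 1)) ≃ ι //
      e none = j}).1 (some x) = (ψ x).1 := rfl
  rw [he]
  constructor
  · intro i hi
    have h3 := hψ x
    rw [ent_get W hW x _ hi] at h3
    unfold lab at h3
    split_ifs at h3 with h4
    exact Sum.inr.inj h3
  · intro a b hab
    have h3 := hψ x
    rw [ent_get W hW x _ hab] at h3
    unfold lab at h3
    split_ifs at h3 with h4
    have h5 := Sum.inl.inj h3
    exact ⟨congrArg Prod.fst h5, congrArg Prod.snd h5, h4⟩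

end Pool.Agent.MPc603ed
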