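import Pool.Agent.Lib.MP_c603ed_co.ClassAux
import Pool.Agent.Lib.MP_c603ed_co.Spec4

/-!
# MP_c603ed_co: all pairs, `n ≥ 3`
-/

set_option autoImplicit false

namespace Pool.Agent.MPc603ed

theorem bne_of {b f : Bool} (h : b ≠ f) : b = !f := by
  revert h; cases b <;> cases f <;> simp

theorem p_big (h1 : S_C13a) (h2 : S_C13b) (h3 : S_C30) (h4 : S_C4) (h5 : S_C5) (h6 : S_C5pa)
    (h7 : S_C5pb) (h8 : S_C6a) (h9 : S_C6b) (h10 : S_C2a) (h11 : S_C2b) (h12 : S_C4pa)
    (h13 : S_C4pb) : S_big := by
  intro n ι _ _ hn hc u v hu hv huv
  -- a hub and a vertex
  have hubv : ∀ (s t : ι → Bool) (q : ι), Bal s → Bal t → HP (s, none) (t, some q) := by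
    intro s t q hs ht
    by_cases c1 : s q = t q
    · exact h5 n ι hn hc s t q (t q) hs ht rfl c1
    · have c1' : s q = !(t q) := bne_of c1
      by_cases c2 : ∃ j, s j = !(t q) ∧ t j = !(t q)
      · obtain ⟨j, hj1, hj2⟩ := c2
        exact h6 n ι hn hc s t q j (t q) hs ht rfl c1' hj1 hj2
      · apply h7 n ι hn hc s t q (t q) hs ht rfl c1'
        obtain ⟨hb1, hb2, hb3⟩ := cnt_bal hc hs ht (t q)
        have h0 : cnt s t (!(t q)) (!(t q)) = 0 := by
          unfold cnt
          rw [Finset.card_eq_zero, Finset.filter_eq_empty_iff]
          intro i _ hi
          exact c2 ⟨i, hi⟩
        intro i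
        by_contra hi
        have hi' : t i = s i := by
          revert hi
          cases t i <;> cases s i <;> simp
        by_cases h : s i = t q
        · have := cnt_pos_of (s := s) (t := t) h (hi'.trans h)
          omega
        · have h' : s i = !(t q) := bne_of h
          exact c2 ⟨i, h', hi'.trans h'⟩
  obtain ⟨s, o⟩ := u
  obtain ⟨t, o'⟩ := v
  change Bal s at hu
  change Bal t at hv
  cases o with
  | none =>
    cases o' with
    | none =>
      have hst : s ≠ t := by
        rintro rfl
        exact huv rfl
      by_cases c : ∃ i, s i = t i
      · obtain ⟨i, hi⟩ := c
        exact h8 n ι hn hc s t i (s i) hu hv rfl hi.symm hst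
      · apply h9 n ι hn hc s t hu hv
        intro i
        apply bne_of
        intro h
        exact c ⟨i, h.symm⟩
    | some q => exact hubv s t q hu hv
  | some p =>
    cases o' with
    | none => exact HP.symm (hubv t s p hv hu)
    | some q =>
      obtain ⟨hb1, hb2, hb3⟩ := cnt_bal hc hu hv (s p)
      by_cases htq : t q = s p
      · by_cases hpq : p = q
        · subst hpq
          have hst : s ≠ t := by
            rintro rfl
            exact huv rfl
          have := cnt_pos_of (s := s) (t := t) (i := p) rfl htq
          by_cases c : cnt s t (!(s p)) (s p) + 1 ≤ n
          · exact h10 n ι hn hc s t p (s p) hu hv rfl htq hst c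
          · exact h11 n ι hn hc s t p (s p) hu hv rfl htq (by omega)
        · by_cases hsq : s q = s p
          · exact h4 n ι hn hc s t p q (s p) hu hv rfl htq hpq hsq
          · have hsq' : s q = !(s p) := bne_of hsq
            by_cases htp : t p = s p
            · exact HP.symm (h4 n ι hn hc t s q p (s p) hv hu htq rfl (Ne.symm hpq) htp)
            · have htp' : t p = !(s p) := bne_of htp
              by_cases c : 2 ≤ cnt s t (!(s p)) (s p)
              · exact h13 n ι hn hc s t p q (s p) hu hv rfl htq hsq' htp' c
              · have hts : t = swp s p q := by
                  funext k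
                  rw [swp_apply]
                  split_ifs with k1 k2
                  · rw [k1, htp', hsq']
                  · rw [k2, htq]
                  · by_contra hk
                    have hk' : t k = !(s k) := bne_of hk
                    by_cases hsk : s k = s p
                    · have h20 : cnt s t (s p) (!(s p)) ≤ 1 := by omega
                      unfold cnt at h20
                      rw [Finset.card_le_one] at h20
                      apply k1
                      apply h20
                      · simp only [Finset.mem_filter, Finset.mem_univ, true_and]
                        exact ⟨hsk, by rw [hk', hsk]⟩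
                      · simp only [Finset.mem_filter, Finset.mem_univ, true_and]
                        exact htp'
                    · have hsk' : s k = !(s p) := bne_of hsk
                      have h20 : cnt s t (!(s p)) (s p) ≤ 1 := by omega
                      unfold cnt at h20
                      rw [Finset.card_le_one] at h20
                      apply k2
                      apply h20
                      · simp only [Finset.mem_filter, Finset.mem_univ, true_and]
                        exact ⟨hsk', by rw [hk', hsk', Bool.not_not]⟩
                      · simp only [Finset.mem_filter, Finset.mem_univ, true_and]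
                        exact ⟨hsq', htq⟩
                rw [hts]
                exact h12 n ι hn hc s p q (s p) hu rfl hsq'
      · have htq' : t q = !(s p) := bne_of htq
        by_cases hst : s = t
        · subst hst
          exact h3 n ι hn hc s p q (s p) hu rfl htq'
        · by_cases c : cnt s t (!(s p)) (s p) ≤ n
          · exact h1 n ι hn hc s t p q (s p) hu hv rfl htq' hst c
          · exact h2 n ι hn hc s t p q (s p) hu hv rfl htq' (by omega)

end Pool.Agent.MPc603ed
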