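import Pool.Agent.Lib.MP_c603ed_co.Spec1

set_option autoImplicit false

namespace Pool.Agent.MPc603ed

namespace p_connAux

variable {V O I : Type} {σ σ' : Equiv.Perm V}

theorem E_apply (σ : Equiv.Perm V) (z : V) : σ.SameCycle z (σ z) :=
  Equiv.Perm.SameCycle.rfl.apply_right

theorem E_pow (σ : Equiv.Perm V) (z : V) (k : ℕ) : σ.SameCycle z ((σ ^ k) z) :=
  Equiv.Perm.SameCycle.rfl.pow_right

/-- periods of a point of a finite permutation -/
theorem exists_period [Finite V] (σ : Equiv.Perm V) (X : V) :
    ∃ L, 0 < L ∧ (σ ^ L) X = X ∧ (∀ a b, a < L → b < L → (σ ^ a) X = (σ ^ b) X → a = b) ∧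
      ∀ z, σ.SameCycle X z → ∃ k, k < L ∧ (σ ^ k) X = z := by
  have hper : X ∈ Function.periodicPts (σ : V → V) := by
    refine ⟨orderOf σ, orderOf_pos σ, ?_⟩
    have h1 : (σ : V → V)^[orderOf σ] X = (σ ^ orderOf σ) X := by
      rw [Equiv.Perm.iterate_eq_pow]
    show (σ : V → V)^[orderOf σ] X = X
    rw [h1, pow_orderOf_eq_one]
    rfl
  have hpos := Function.minimalPeriod_pos_of_mem_periodicPts hper
  refine ⟨Function.minimalPeriod σ X, hpos, ?_, ?_, ?_⟩
  · rw [← Equiv.Perm.iterate_eq_pow]
    exact Function.iterate_minimalPeriod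
  · intro a b ha hb hab
    rw [← Equiv.Perm.iterate_eq_pow, ← Equiv.Perm.iterate_eq_pow] at hab
    exact (Function.iterate_eq_iterate_iff_of_lt_minimalPeriod ha hb).1 hab
  · intro z hz
    obtain ⟨i, hi⟩ := hz.exists_nat_pow_eq
    refine ⟨i % Function.minimalPeriod σ X, Nat.mod_lt _ hpos, ?_⟩
    rw [← Equiv.Perm.iterate_eq_pow, Function.iterate_mod_minimalPeriod_eq,
      Equiv.Perm.iterate_eq_pow, hi]

theorem hsup_lt (σ : Equiv.Perm V) (x y : I → V) (i : I) (k : Fin 7) (hk : k ≠ 6) :
    hsup σ x y i k = (σ ^ (k : ℕ)) (x i) := by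
  simp [hsup, hk]

theorem hsup_six (σ : Equiv.Perm V) (x y : I → V) (i : I) : hsup σ x y i 6 = y i := by
  simp [hsup]

/-- a point is in no support, or a `y i`, or a `σ^k (x i)` with `k ≤ 5` -/
theorem cases_sup (σ : Equiv.Perm V) (x y : I → V) (z : V) :
    (∀ i k, z ≠ hsup σ x y i k) ∨ (∃ i, z = y i) ∨ ∃ i, ∃ k : ℕ, k ≤ 5 ∧ z = (σ ^ k) (x i) := by
  by_cases h : ∀ i k, z ≠ hsup σ x y i k
  · exact Or.inl h
  · push Not at h
    obtain ⟨i, k, hk⟩ := h
    by_cases h6 : k = 6
    · subst h6
      rw [hsup_six] at hk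
      exact Or.inr (Or.inl ⟨i, hk⟩)
    · rw [hsup_lt _ _ _ _ _ h6] at hk
      refine Or.inr (Or.inr ⟨i, k, ?_, hk⟩)
      have h7 := k.isLt
      have h8 : (k : ℕ) ≠ 6 := fun h => h6 (Fin.ext h)
      omega

end p_connAux

open p_connAux in
theorem p_conn : S_conn := by
  intro V O I σ σ' q lab x y rt rk hV hq hlab hx hrk hrt1 hrt2 hinj hsw
  have hqs : ∀ z, q (σ z) = q z := fun z => ((hq _ _).2 (E_apply σ z)).symm
  have hqp : ∀ z (k : ℕ), q ((σ ^ k) z) = q z := fun z k => ((hq _ _).2 (E_pow σ z k)).symm
  obtain ⟨hsw1, hsw2⟩ := hsw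
  -- invariance of the root
  have hinv : ∀ z, rt (q (σ' z)) = rt (q z) := by
    intro z
    rcases cases_sup σ x y z with h | ⟨i, rfl⟩ | ⟨i, k, hk, rfl⟩
    · rw [hsw2 z h, hqs]
    · rw [(hsw1 i).2.1, hqp, hx, hrt1]
    · obtain ⟨a0, -, a5, a4, a3, a2, a1⟩ := hsw1 i
      rw [hqp, hx]
      interval_cases k
      · rw [pow_zero, Equiv.Perm.one_apply, a0, hqs, hrt1]
      · rw [pow_one, a1, hqp, hx]
      · rw [a2, hqs, hx]
      · rw [a3, hqp, hx]
      · rw [a4, hqp, hx]
      · rw [a5, hqp, hx]
  -- steps
  have E := E_apply σ'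
  have stepNo : ∀ z, (∀ i k, z ≠ hsup σ x y i k) → σ'.SameCycle z (σ z) := by
    intro z h
    have := E z
    rwa [hsw2 z h] at this
  -- the upper bound of the ranks
  obtain ⟨R, hR⟩ : ∃ R, ∀ z, rk (q z) ≤ R := by
    have hf : (Set.range fun z => rk (q z)).Finite := Set.finite_range _
    obtain ⟨R, hR⟩ := hf.bddAbove
    exact ⟨R, fun z => hR ⟨z, rfl⟩⟩
  -- claim 1
  have claim1 : ∀ d, ∀ z w, q z = q w → R < rk (q z) + d → σ'.SameCycle z w := by
    intro d
    induction d with
    | zero =>
      intro z w _ h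
      have := hR z
      omega
    | succ d ih =>
      intro z0 w0 hzw hd
      -- steps inside the cycle
      have step : ∀ z, q z = q z0 → (∀ i (k : ℕ), k ≤ 5 → z ≠ (σ ^ k) (x i)) →
          σ'.SameCycle z (σ z) := by
        intro z hz hno
        rcases cases_sup σ x y z with h | ⟨i, rfl⟩ | ⟨i, k, hk, h⟩
        · exact stepNo z h
        · have h1 : σ'.SameCycle (y i) ((σ ^ 5) (x i)) := by
            have := E (y i)
            rwa [(hsw1 i).2.1] at this
          have h2 : σ'.SameCycle ((σ ^ 5) (x i)) (x i) := by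
            refine ih _ _ (hqp _ _) ?_
            rw [hqp, hx]
            have := hrk i
            rw [hz] at this
            omega
          have h3 : σ'.SameCycle (x i) (σ (y i)) := by
            have := E (x i)
            rwa [(hsw1 i).1] at this
          exact (h1.trans h2).trans h3
        · exact absurd h (hno i k hk)
      by_cases hlabel : ∃ i, lab i = q z0
      · obtain ⟨i, hi⟩ := hlabel
        obtain ⟨a0, -, a5, a4, a3, a2, a1⟩ := hsw1 i
        obtain ⟨L, hL, hLX, hLinj, hLsurj⟩ := exists_period σ (x i)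
        have hL6 : 6 ≤ L := by
          by_contra hlt
          have h1 := hinj i ⟨L, by omega⟩ i 0 (by
            rw [hsup_lt _ _ _ _ _ (by intro h; have := congrArg Fin.val h; simp at this; omega),
              hsup_lt _ _ _ _ _ (by decide)]
            simpa using hLX)
          have h2 := congrArg Fin.val h1.2
          simp at h2
          omega
        -- the long way round
        have long : ∀ k, 6 ≤ k → k ≤ L → σ'.SameCycle ((σ ^ 6) (x i)) ((σ ^ k) (x i)) := by
          intro k hk
          induction k, hk using Nat.le_induction with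
          | base => intro _; exact Equiv.Perm.SameCycle.rfl
          | succ k hk ihk =>
            intro hkL
            refine (ihk (by omega)).trans ?_
            rw [pow_succ', Equiv.Perm.mul_apply]
            refine step _ (by rw [hqp, hx, hi]) ?_
            intro i' m hm heq
            have hii : i' = i := by
              apply hlab
              rw [← hx i', ← hqp (x i') m, ← heq, hqp, hx]
            subst hii
            have := hLinj k m (by omega) (by omega) heq
            omega
        have c5 : σ'.SameCycle ((σ ^ 5) (x i)) ((σ ^ 4) (x i)) := by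
          have := E ((σ ^ 5) (x i)); rwa [a5] at this
        have c4 : σ'.SameCycle ((σ ^ 4) (x i)) ((σ ^ 3) (x i)) := by
          have := E ((σ ^ 4) (x i)); rwa [a4] at this
        have c3 : σ'.SameCycle ((σ ^ 3) (x i)) ((σ ^ 2) (x i)) := by
          have := E ((σ ^ 3) (x i)); rwa [a3] at this
        have c2 : σ'.SameCycle ((σ ^ 2) (x i)) (σ (x i)) := by
          have := E ((σ ^ 2) (x i)); rwa [a2] at this
        have c1 : σ'.SameCycle (σ (x i)) ((σ ^ 6) (x i)) := by
          have := E (σ (x i)); rwa [a1] at this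
        have all : ∀ z, q z = q z0 → σ'.SameCycle ((σ ^ 6) (x i)) z := by
          intro z hz
          have h1 : σ.SameCycle (x i) z := (hq _ _).1 (by rw [hx, hi, hz])
          obtain ⟨k, hkL, rfl⟩ := hLsurj z h1
          by_cases hk6 : 6 ≤ k
          · exact long k hk6 hkL.le
          · have hk5 : k ≤ 5 := by omega
            interval_cases k
            · have := long L hL6 le_rfl
              rwa [hLX] at this
            · rw [pow_one]
              exact c1.symm
            · exact (c2.trans c1).symm
            · exact (c3.trans (c2.trans c1)).symm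
            · exact (c4.trans (c3.trans (c2.trans c1))).symm
            · exact (c5.trans (c4.trans (c3.trans (c2.trans c1)))).symm
        exact (all z0 rfl).symm.trans (all w0 hzw.symm)
      · push Not at hlabel
        have h1 : σ.SameCycle z0 w0 := (hq _ _).1 hzw
        obtain ⟨k, rfl⟩ := h1.exists_nat_pow_eq
        clear h1 hzw
        induction k with
        | zero => exact Equiv.Perm.SameCycle.rfl
        | succ k ihk =>
          refine ihk.trans ?_
          rw [pow_succ', Equiv.Perm.mul_apply]
          refine step _ (hqp _ _) ?_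
          intro i m _ heq
          apply hlabel i
          rw [← hx i, ← hqp (x i) m, ← heq, hqp]
  have claim1' : ∀ z w, q z = q w → σ'.SameCycle z w := fun z w h =>
    claim1 (R + 1) z w h (by omega)
  -- claim 2
  have claim2 : ∀ m, ∀ z, rk (q z) < m → ∃ w, σ'.SameCycle z w ∧ q w = rt (q z) := by
    intro m
    induction m with
    | zero => intro z h; omega
    | succ m ih =>
      intro z hz
      by_cases hlabel : ∃ i, q z = lab i
      · obtain ⟨i, hi⟩ := hlabel
        have h1 : σ'.SameCycle z (x i) := claim1' _ _ (by rw [hi, hx])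
        have h2 : σ'.SameCycle (x i) (σ (y i)) := by
          have := E (x i)
          rwa [(hsw1 i).1] at this
        obtain ⟨w, hw1, hw2⟩ := ih (σ (y i)) (by
          rw [hqs]
          have := hrk i
          rw [hi] at hz
          omega)
        refine ⟨w, (h1.trans h2).trans hw1, ?_⟩
        rw [hw2, hqs, hi, hrt1]
      · push Not at hlabel
        exact ⟨z, Equiv.Perm.SameCycle.rfl, (hrt2 _ hlabel).symm⟩
  intro z w
  constructor
  · intro h
    exact sameCycle_const (g := fun z => rt (q z)) hinv h
  · intro h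
    obtain ⟨z', hz1, hz2⟩ := claim2 (rk (q z) + 1) z (by omega)
    obtain ⟨w', hw1, hw2⟩ := claim2 (rk (q w) + 1) w (by omega)
    have h3 : σ'.SameCycle z' w' := claim1' _ _ (by rw [hz2, hw2, h])
    exact (hz1.trans h3).trans hw1.symm

end Pool.Agent.MPc603ed
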