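import Pool.Agent.Lib.MP_c603ed_co.Spec1

/-!
# MP_c603ed_co: the strings of the abstract vertices, injectivity
-/

namespace Pool.Agent.MPc603ed

open Lt

namespace p_decIAux

/-- the height -/
def hv (x : Lt) : ℤ := if x = U then 1 else -1

def ht (l : List Lt) : ℤ := (l.map hv).sum

theorem ht_nil : ht [] = 0 := rfl

theorem ht_cons (x : Lt) (l : List Lt) : ht (x :: l) = hv x + ht l := by
  simp [ht]

theorem ht_app (a b : List Lt) : ht (a ++ b) = ht a + ht b := by
  simp [ht]

theorem hv_U : hv U = 1 := rfl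

theorem hv_ne {x : Lt} (h : x ≠ U) : hv x = -1 := if_neg h

theorem dy_ht {w : List Lt} (h : Dy w) : ht w = 0 := by
  induction h with
  | nil => rfl
  | cons a b d ha hd hb iha ihb =>
    rw [ht_cons, ht_app, ht_cons, iha, ihb, hv_U, hv_ne hd]
    norm_num

theorem dy_take {w : List Lt} (h : Dy w) : ∀ j, 0 ≤ ht (w.take j) := by
  induction h with
  | nil => intro j; simp [ht_nil]
  | cons a b d ha hd hb iha ihb =>
    intro j
    cases j with
    | zero => simp [ht_nil]
    | succ j =>
      rw [List.take_succ_cons, ht_cons, hv_U, List.take_append, ht_app]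
      rcases le_or_gt j a.length with h | h
      · rw [Nat.sub_eq_zero_of_le h, List.take_zero, ht_nil]
        have := iha j
        linarith
      · obtain ⟨i, hi⟩ : ∃ i, j - a.length = i + 1 := ⟨j - a.length - 1, by omega⟩
        rw [hi, List.take_succ_cons, ht_cons, hv_ne hd, List.take_of_length_le h.le, dy_ht ha]
        have := ihb i
        linarith

theorem dy_prefix {a b : List Lt} (h : Dy (a ++ b)) : 0 ≤ ht a := by
  have := dy_take h a.length
  rwa [List.take_left] at this

theorem put_inj {n : ℕ} (e : ZMod (2 * n + 1)) (l l' : List Lt) (hl : l.length = 2 * n + 1)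
    (hl' : l'.length = 2 * n + 1) (h : put e l = put e l') : l = l' := by
  apply List.ext_getElem (by omega)
  intro k h1 h2
  have h3 := congrFun h (e + (k : ℕ))
  rw [put_add e l (by omega), put_add e l' (by omega), List.getD_eq_getElem _ _ h1,
    List.getD_eq_getElem _ _ h2] at h3
  exact h3

theorem core {n : ℕ} (e e' : ZMod (2 * n + 1)) (l l' : List Lt) (hl : l.length = 2 * n + 1)
    (hl' : l'.length = 2 * n + 1) (h : put e l = put e' l') :
    ∃ l1 l2 : List Lt, l = l1 ++ l2 ∧ l' = l2 ++ l1 ∧
      e' = e + ((l1.length : ℕ) : ZMod (2 * n + 1)) ∧ l1.length < 2 * n + 1 := by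
  have hk := ZMod.val_lt (e' - e)
  set k := (e' - e).val with hkd
  have he : e' = e + ((k : ℕ) : ZMod (2 * n + 1)) := by
    rw [hkd, ZMod.natCast_val, ZMod.cast_id', id]
    ring
  have hlen : (l.take k).length = k := by
    rw [List.length_take]
    omega
  refine ⟨l.take k, l.drop k, (List.take_append_drop k l).symm, ?_, by rw [hlen]; exact he, by omega⟩
  have h1 := put_rotate_list e (l.drop k) (l.take k) (by
    rw [List.length_drop, hlen]; omega)
  rw [List.take_append_drop, hlen, ← he, h] at h1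
  refine (put_inj e' _ _ ?_ hl' h1).symm
  rw [List.length_append, List.length_drop, hlen]
  omega

/-- the two forms at once: equal strings give equal positions and lists -/
theorem two {n : ℕ} (e e' : ZMod (2 * n + 1)) (x x' : Lt) (y y' : List Lt) (hy : Dy y) (hy' : Dy y')
    (hl : y.length = 2 * n) (hl' : y'.length = 2 * n)
    (hx : (x ≠ U ∧ x' ≠ U) ∨ (x = U ∧ x' = U))
    (h : put e (x :: y) = put e' (x' :: y')) : e = e' ∧ x = x' ∧ y = y' := by
  obtain ⟨l1, l2, h1, h2, h3, h4⟩ := core e e' (x :: y) (x' :: y') (by simp [hl]) (by simp [hl']) h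
  cases l1 with
  | nil =>
    rw [List.nil_append] at h1
    rw [List.append_nil] at h2
    rw [← h1] at h2
    rw [List.cons.injEq] at h2
    simp only [List.length_nil, Nat.cast_zero, add_zero] at h3
    exact ⟨h3.symm, h2.1.symm, h2.2.symm⟩
  | cons x1 t1 =>
    cases l2 with
    | nil =>
      exfalso
      have := congrArg List.length h1
      simp only [List.append_nil, List.length_cons] at this h4
      omega
    | cons x2 t2 =>
      exfalso
      rw [List.cons_append, List.cons.injEq] at h1 h2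
      obtain ⟨rfl, rfl⟩ := h1
      obtain ⟨rfl, rfl⟩ := h2
      have e1 := dy_ht hy
      have e2 := dy_ht hy'
      rw [ht_app, ht_cons] at e1 e2
      rcases hx with ⟨hx, hx'⟩ | ⟨hx, hx'⟩
      · have f1 : 0 ≤ ht (t1 ++ [x']) := by
          apply dy_prefix (b := t2)
          rw [List.append_assoc, List.singleton_append]
          exact hy
        have f2 : 0 ≤ ht (t2 ++ [x]) := by
          apply dy_prefix (b := t1)
          rw [List.append_assoc, List.singleton_append]
          exact hy'
        rw [ht_app, ht_cons, ht_nil, hv_ne hx'] at f1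
        rw [ht_app, ht_cons, ht_nil, hv_ne hx] at f2
        rw [hv_ne hx'] at e1
        linarith
      · have f1 : 0 ≤ ht t1 := dy_prefix hy
        have f2 : 0 ≤ ht t2 := dy_prefix hy'
        subst hx'
        rw [hv_U] at e1
        linarith

end p_decIAux

open p_decIAux in
theorem p_decI : S_decI := by
  intro n m
  rintro ⟨b, e, s⟩ ⟨b', e', s'⟩ h
  have hc : s.1.1 ≠ U := s.2.1
  have hy : Dy s.1.2 := s.2.2.1
  have hl : s.1.2.length = 2 * n := s.2.2.2.1
  have hc' : s'.1.1 ≠ U := s'.2.1
  have hy' : Dy s'.1.2 := s'.2.2.1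
  have hl' : s'.1.2.length = 2 * n := s'.2.2.2.1
  have hext : s.1.1 = s'.1.1 → s.1.2 = s'.1.2 → s = s' := fun h1 h2 => Subtype.ext (Prod.ext h1 h2)
  cases b <;> cases b'
  · rw [dec_P, dec_P] at h
    have h2 : put e (s.1.1 :: s.1.2) = put e' (s'.1.1 :: s'.1.2) := congrArg Prod.snd h
    obtain ⟨h3, h4, h5⟩ := two e e' s.1.1 s'.1.1 s.1.2 s'.1.2 hy hy' hl hl' (Or.inl ⟨hc, hc'⟩) h2
    rw [h3, hext h4 h5]
  · rw [dec_P, dec_Q] at h
    have h1 : U = s'.1.1 := congrArg Prod.fst h
    exact absurd h1.symm hc'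
  · rw [dec_P, dec_Q] at h
    have h1 : s.1.1 = U := congrArg Prod.fst h
    exact absurd h1 hc
  · rw [dec_Q, dec_Q] at h
    have h1 : s.1.1 = s'.1.1 := (Prod.ext_iff.1 h).1
    have h2 : put e (U :: s.1.2) = put e' (U :: s'.1.2) := (Prod.ext_iff.1 h).2
    obtain ⟨h3, _, h5⟩ := two e e' U U s.1.2 s'.1.2 hy hy' hl hl' (Or.inr ⟨rfl, rfl⟩) h2
    rw [h3, hext h1 h5]

end Pool.Agent.MPc603ed
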