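import Pool.Agent.Lib.MP_c603ed_co.Spec1

/-!
# MP_c603ed_co: the strings of the abstract vertices, the image of `dec`
-/

namespace Pool.Agent.MPc603ed

open Lt

namespace p_decSAux

theorem dy_count {w : List Lt} (h : Dy w) : 2 * w.count U = w.length := by
  induction h with
  | nil => rfl
  | cons a b d ha hd hb iha ihb =>
    rw [List.count_cons_self, List.count_append, List.count_cons_of_ne hd, List.length_cons,
      List.length_append, List.length_cons]
    omega

theorem sum_getD (a : Lt) (l : List Lt) :
    ∑ k ∈ Finset.range l.length, (if l.getD k U = a then 1 else 0) = l.count a := by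
  induction l with
  | nil => simp
  | cons x l ih =>
    rw [List.length_cons, Finset.sum_range_succ', List.count_cons]
    simp only [List.getD_cons_succ, List.getD_cons_zero, ih, beq_iff_eq]

theorem card_put {n : ℕ} (e : ZMod (2 * n + 1)) (l : List Lt) (hl : l.length = 2 * n + 1) (a : Lt) :
    (Finset.univ.filter (fun x => put e l x = a)).card = l.count a := by
  rw [Finset.card_filter]
  have h1 : ∑ x : ZMod (2 * n + 1), (if put e l x = a then 1 else 0) =
      ∑ y : ZMod (2 * n + 1), (if l.getD y.val U = a then 1 else 0) := by
    rw [← Equiv.sum_comp (Equiv.subRight e) (fun y => if l.getD y.val U = a then 1 else 0)]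
    rfl
  rw [h1, ← sum_getD a l, hl]
  exact (Finset.sum_range (fun k => if l.getD k U = a then 1 else 0)).symm

theorem put_of {n : ℕ} (w : ZMod (2 * n + 1) → Lt) :
    put 0 ((List.range (2 * n + 1)).map (fun k => w ((k : ℕ) : ZMod (2 * n + 1)))) = w := by
  funext x
  rw [put_apply, sub_zero, List.getD_eq_getElem _ _ (by simpa using ZMod.val_lt x),
    List.getElem_map, List.getElem_range, ZMod.natCast_val, ZMod.cast_id', id]

end p_decSAux

open p_decSAux in
theorem p_decS (h : S_cyc) : S_decS := by
  intro n m v
  constructor
  · rintro ⟨h1, h2⟩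
    obtain ⟨f, w⟩ := v
    simp only at h1 h2
    obtain ⟨l, hl, rfl⟩ : ∃ l : List Lt, l.length = 2 * n + 1 ∧ w = put 0 l :=
      ⟨_, by simp, (put_of w).symm⟩
    rw [card_put 0 l hl] at h1 h2
    have hlen : l.count U + (l.filter (fun z => z ≠ U)).length = 2 * n + 1 := by
      rw [← hl]
      clear h1 h2 hl
      induction l with
      | nil => rfl
      | cons x l ih => cases x <;> simp <;> simp at ih <;> omega
    have hcyc : l.count U + 1 = (l.filter (fun z => z ≠ U)).length ∨
        l.count U = (l.filter (fun z => z ≠ U)).length + 1 := by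
      by_cases hf : f = U
      · rw [if_pos hf] at h1
        left
        omega
      · rw [if_neg hf] at h1
        right
        omega
    obtain ⟨p, q, x, rfl, hd⟩ := h l hcyc
    have hc := dy_count hd
    rw [List.length_append, List.length_cons] at hl
    rw [List.length_append, List.count_append] at hc
    have hUT : ¬ (U : Lt) = T := by decide
    rw [List.count_append, List.count_cons] at h1 h2
    simp only [beq_iff_eq] at h1 h2
    have hrot : put ((0 : ZMod (2 * n + 1)) + ((p.length : ℕ) : ZMod (2 * n + 1))) (x :: (q ++ p)) =
        put 0 (p ++ x :: q) :=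
      put_rotate_list 0 (x :: q) p (by rw [List.length_cons]; omega)
    by_cases hf : f = U
    · have hx : x ≠ U := by
        intro hx
        rw [if_pos hf, if_pos hx] at h1
        omega
      subst hf
      obtain ⟨s, hs⟩ : ∃ s : St n m, s.1 = (x, q ++ p) := by
        refine ⟨⟨(x, q ++ p), hx, hd, by rw [List.length_append]; omega, ?_⟩, rfl⟩
        rw [if_neg hUT] at h2
        rw [List.count_cons, List.count_append]
        simp only [beq_iff_eq]
        omega
      refine ⟨(false, 0 + ((p.length : ℕ) : ZMod (2 * n + 1)), s), ?_⟩
      rw [dec_P, hs]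
      exact Prod.ext rfl hrot
    · have hx : x = U := by
        by_contra hx
        rw [if_neg hf, if_neg hx] at h1
        omega
      subst hx
      obtain ⟨s, hs⟩ : ∃ s : St n m, s.1 = (f, q ++ p) := by
        refine ⟨⟨(f, q ++ p), hf, hd, by rw [List.length_append]; omega, ?_⟩, rfl⟩
        rw [if_neg hUT] at h2
        rw [List.count_cons, List.count_append]
        simp only [beq_iff_eq]
        omega
      refine ⟨(true, 0 + ((p.length : ℕ) : ZMod (2 * n + 1)), s), ?_⟩
      rw [dec_Q, hs]
      exact Prod.ext rfl hrot
  · rintro ⟨⟨b, e, s⟩, rfl⟩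
    have hc : s.1.1 ≠ U := s.2.1
    have hy : Dy s.1.2 := s.2.2.1
    have hl : s.1.2.length = 2 * n := s.2.2.2.1
    have hT : (s.1.1 :: s.1.2).count T = m := s.2.2.2.2
    have hcy := dy_count hy
    cases b
    · rw [dec_P]
      refine ⟨?_, ?_⟩
      · simp only
        rw [card_put e _ (by simp [hl]), List.count_cons_of_ne hc, if_pos trivial]
        omega
      · simp only
        rw [card_put e _ (by simp [hl]), if_neg (by decide), hT, add_zero]
    · rw [dec_Q]
      refine ⟨?_, ?_⟩
      · simp only
        rw [card_put e _ (by simp [hl]), List.count_cons_self, if_neg hc]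
        omega
      · simp only
        rw [card_put e _ (by simp [hl]), List.count_cons_of_ne (by decide)]
        rw [List.count_cons] at hT
        simp only [beq_iff_eq] at hT
        exact hT

end Pool.Agent.MPc603ed
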