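import Pool.Agent.Lib.MP_c603ed_co.Spec1

/-! # MP_c603ed_co: the degree invariant of the marked vertex -/

set_option autoImplicit false

namespace Pool.Agent.MPc603ed

open Lt

namespace p_degAux

/-- first steps of the orbit: data of one prime factor -/
theorem steps (h1 : S_rotF) {n m : ℕ} (ρ : St n m → St n m) (hρ : RhoSpec ρ)
    (a1 a2 b : List Lt) (d : Lt) (ha1 : Dy a1) (hd : d ≠ U) (ha2 : Dy a2) (hb : Dy b)
    (s : St n m) (hs : s.1.2 = U :: (a1 ++ d :: a2) ++ b) :
    (ρ s).1 = (d, a1 ++ U :: ((a2 ++ b) ++ s.1.1 :: [])) ∧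
    Dy (U :: ((a2 ++ b) ++ s.1.1 :: [])) ∧
    (ρ^[a1.length + 2] s).1 = (s.1.1, a2 ++ (b ++ U :: (a1 ++ d :: []))) ∧
    Dy (b ++ U :: (a1 ++ d :: [])) := by
  have e1 : (ρ s).1 = (d, a1 ++ U :: ((a2 ++ b) ++ s.1.1 :: [])) := by
    refine hρ s a1 (a2 ++ b) d ha1 hd (Dy.app ha2 hb) ?_
    rw [hs]
    simp
  have hc : s.1.1 ≠ U := s.2.1
  have hD : Dy (U :: ((a2 ++ b) ++ s.1.1 :: [])) :=
    Dy.cons (a2 ++ b) [] s.1.1 (Dy.app ha2 hb) hc Dy.nil
  have e2 : (ρ^[a1.length] (ρ s)).1 = (d, (U :: ((a2 ++ b) ++ [s.1.1])) ++ a1) := by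
    have h := h1 n m ρ hρ (ρ s) a1 (U :: ((a2 ++ b) ++ s.1.1 :: [])) ha1 hD (by rw [e1])
    rw [h, e1]
  have e3 : (ρ (ρ^[a1.length] (ρ s))).1 = (s.1.1, (a2 ++ b) ++ U :: (a1 ++ [d])) := by
    have h := hρ (ρ^[a1.length] (ρ s)) (a2 ++ b) a1 s.1.1 (Dy.app ha2 hb) hc ha1
      (by rw [e2]; simp)
    rw [h, e2]
  refine ⟨e1, hD, ?_, Dy.app hb (Dy.cons a1 [] d ha1 hd Dy.nil)⟩
  have e4 : ρ^[a1.length + 2] s = ρ (ρ^[a1.length] (ρ s)) := by
    have h : a1.length + 2 = 1 + (a1.length + 1) := by omega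
    rw [h, Function.iterate_add_apply, Function.iterate_add_apply]
    rfl
  rw [e4, e3]
  simp

/-- Claim 1 -/
theorem root_mem (h1 : S_rotF) {n m : ℕ} (ρ : St n m → St n m) (hρ : RhoSpec ρ) (a : List Lt)
    (ha : Dy a) : ∀ (w : List Lt) (s : St n m) (t : ℕ), Dy w → s.1.2 = a ++ w → t ≤ a.length →
      (ρ^[t] s).1.1 = s.1.1 ∨ (ρ^[t] s).1.1 ∈ a := by
  induction ha with
  | nil =>
    intro w s t _ _ ht
    have h0 : t = 0 := by simpa using ht
    rw [h0]
    exact Or.inl rfl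
  | cons a1 a2 d ha1 hd ha2 ih1 ih2 =>
    intro w s t hw hs ht
    obtain ⟨e1, hD, e3, hD2⟩ := steps h1 ρ hρ a1 a2 w d ha1 hd ha2 hw s hs
    simp only [List.length_cons, List.length_append] at ht
    rcases Nat.eq_zero_or_pos t with h0 | h0
    · rw [h0]
      exact Or.inl rfl
    rcases Nat.lt_or_ge t (a1.length + 2) with h | h
    · right
      obtain ⟨t', rfl⟩ : ∃ t', t = t' + 1 := ⟨t - 1, by omega⟩
      rw [Function.iterate_succ_apply]
      rcases ih1 _ (ρ s) t' hD (by rw [e1]) (by omega) with h2 | h2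
      · rw [h2, e1]
        simp
      · exact List.mem_cons_of_mem _ (List.mem_append_left _ h2)
    · obtain ⟨t', rfl⟩ : ∃ t', t = t' + (a1.length + 2) := ⟨t - (a1.length + 2), by omega⟩
      rw [Function.iterate_add_apply]
      rcases ih2 _ (ρ^[a1.length + 2] s) t' hD2 (by rw [e3]) (by omega) with h2 | h2
      · left
        rw [h2, e3]
      · right
        exact List.mem_cons_of_mem _ (List.mem_append_right _ (List.mem_cons_of_mem _ h2))

/-- Claim 2 -/
theorem count (h1 : S_rotF) {n m : ℕ} (ρ : St n m → St n m) (hρ : RhoSpec ρ) (a : List Lt)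
    (k : ℕ) (ha : Bl a k) : ∀ (b : List Lt) (s : St n m), Dy b → s.1.2 = a ++ b → s.1.1 = T →
      T ∉ a →
      ∑ t ∈ Finset.range a.length, (if (ρ^[t] s).1.1 = T then 1 else 0) = k := by
  induction ha with
  | nil =>
    intro b s _ _ _ _
    simp
  | cons a1 a2 d k ha1 hd ha2 ih =>
    intro b s hb hs hT hna
    obtain ⟨e1, hD, e3, hD2⟩ := steps h1 ρ hρ a1 a2 b d ha1 hd ha2.dy hb s hs
    have hna1 : T ∉ a1 := fun h => hna (List.mem_cons_of_mem _ (List.mem_append_left _ h))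
    have hnd : d ≠ T := fun h => hna (List.mem_cons_of_mem _ (List.mem_append_right _
      (by rw [h]; exact List.mem_cons_self)))
    have hna2 : T ∉ a2 := fun h => hna (List.mem_cons_of_mem _ (List.mem_append_right _
      (List.mem_cons_of_mem _ h)))
    have hlen : (U :: (a1 ++ d :: a2)).length = (a1.length + 1 + 1) + a2.length := by
      simp only [List.length_cons, List.length_append]
      omega
    rw [hlen, Finset.sum_range_add, Finset.sum_range_succ']
    have hz : ∑ t ∈ Finset.range (a1.length + 1), (if (ρ^[t + 1] s).1.1 = T then 1 else 0) = 0 := by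
      refine Finset.sum_eq_zero fun t ht => ?_
      rw [Finset.mem_range] at ht
      rw [if_neg]
      intro h
      rw [Function.iterate_succ_apply] at h
      rcases root_mem h1 ρ hρ a1 ha1 _ (ρ s) t hD (by rw [e1]) (by omega) with h2 | h2
      · rw [h, e1] at h2
        exact hnd h2.symm
      · rw [h] at h2
        exact hna1 h2
    have h0 : (if (ρ^[0] s).1.1 = T then 1 else 0) = 1 := if_pos hT
    have h3 : ∑ t ∈ Finset.range a2.length,
        (if (ρ^[a1.length + 1 + 1 + t] s).1.1 = T then 1 else 0) = k := by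
      have h := ih _ (ρ^[a1.length + 2] s) hD2 (by rw [e3]) (by rw [e3]; exact hT) hna2
      rw [← h]
      refine Finset.sum_congr rfl fun t _ => ?_
      rw [← Function.iterate_add_apply, Nat.add_comm]
    rw [hz, h0, h3]
    omega

end p_degAux

open p_degAux in
theorem p_deg (h1 : S_rotF) : S_deg := by
  intro n ρ hρ
  refine ⟨fun s => ∑ t ∈ Finset.range (2 * n), (if ((⇑ρ)^[t] s).1.1 = T then 1 else 0), ?_, ?_⟩
  · intro s
    have hper : (⇑ρ)^[2 * n] s = s := by
      have h := h1 n 1 ρ hρ s s.1.2 [] s.2.2.1 Dy.nil (by simp)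
      rw [s.2.2.2.1] at h
      refine Subtype.ext ?_
      rw [h]
      simp
    have e1 := Finset.sum_range_succ' (fun t => if ((⇑ρ)^[t] s).1.1 = T then 1 else 0) (2 * n)
    have e2 := Finset.sum_range_succ (fun t => if ((⇑ρ)^[t] s).1.1 = T then 1 else 0) (2 * n)
    rw [hper] at e2
    rw [e2] at e1
    have e3 : ((⇑ρ)^[0] s) = s := rfl
    rw [e3] at e1
    have e4 : ∑ t ∈ Finset.range (2 * n), (if ((⇑ρ)^[t] (ρ s)).1.1 = T then 1 else 0) =
        ∑ t ∈ Finset.range (2 * n), (if ((⇑ρ)^[t + 1] s).1.1 = T then 1 else 0) :=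
      Finset.sum_congr rfl fun t _ => by rw [Function.iterate_succ_apply]
    refine e4.trans ?_
    exact (Nat.add_right_cancel e1).symm
  · intro s k hT hB
    have hcount := s.2.2.2.2
    rw [hT, List.count_cons_self] at hcount
    have hna : T ∉ s.1.2 := List.count_eq_zero.1 (by omega)
    have h := count h1 ρ hρ s.1.2 k hB [] s Dy.nil (by simp) hT hna
    rw [s.2.2.2.1] at h
    exact h

end Pool.Agent.MPc603ed
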