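import Pool.Agent.Lib.MP_c603ed_co.ClassAux
import Pool.Agent.Lib.MP_c603ed_co.Spec4

/-!
# MP_c603ed_co: exchange of the two symbols
-/

set_option autoImplicit false

namespace Pool.Agent.MPc603ed

theorem bal_flip {ι : Type} [Fintype ι] (s : ι → Bool) (h : Bal s) :
    Bal (fun i => !(s i)) := by
  unfold Bal at *
  have e1 : (Finset.univ.filter (fun i => (!(s i)) = true)) = Finset.univ.filter (fun i => s i = false) := by
    ext i
    simp
  have e2 : (Finset.univ.filter (fun i => (!(s i)) = false)) = Finset.univ.filter (fun i => s i = true) := by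
    ext i
    simp
  rw [e1, e2, h]

theorem p_flip : S_flip := by
  intro ι _ _ u v h
  have h1 := HPs.map (R' := gadj) (f := fun w : GV ι => ((fun i => !(w.1 i), w.2) : GV ι)) h (by
    intro a _ b _ hab
    obtain ⟨s, o⟩ := a
    obtain ⟨t, o'⟩ := b
    simp only [Prod.mk.injEq] at hab
    obtain ⟨h1, h2⟩ := hab
    have h3 : s = t := by
      funext i
      have := congrFun h1 i
      simpa using this
    rw [h3, h2]) (by
    intro a _ b _ hab
    cases hab with
    | out s p => exact gadj.out _ _
    | inn s p => exact gadj.inn _ _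
    | sw s p i hpi =>
      have h5 := gadj.sw (fun i => !(s i)) p i (by simpa using hpi)
      exact h5)
  refine HPs.congr h1 ?_
  ext w
  simp only [Set.mem_image, Set.mem_ofPred_eq]
  constructor
  · rintro ⟨a, ha, rfl⟩
    exact bal_flip a.1 ha
  · intro hw
    obtain ⟨s, o⟩ := w
    refine ⟨(fun i => !(s i), o), bal_flip s hw, ?_⟩
    simp

end Pool.Agent.MPc603ed
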