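import Pool.Agent.Lib.MP_c603ed_co.Spec1

/-!
# MP_c603ed_co: switching disjoint hexagons
-/

namespace Pool.Agent.MPc603ed

namespace p_glueAux

/-- the permutation of the seven elements of a support -/
def tau : Equiv.Perm (Fin 7) where
  toFun := ![6, 5, 0, 1, 2, 3, 4]
  invFun := ![2, 3, 4, 5, 6, 1, 0]
  left_inv := by intro i; fin_cases i <;> rfl
  right_inv := by intro i; fin_cases i <;> rfl

end p_glueAux

open p_glueAux in
theorem p_glue : S_glue := by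
  intro V I σ x y _ hinj
  let ι : I × Fin 7 ↪ V := ⟨fun p => hsup σ x y p.1 p.2, fun p p' h => by
    obtain ⟨h1, h2⟩ := hinj p.1 p.2 p'.1 p'.2 h
    exact Prod.ext h1 h2⟩
  let e : Equiv.Perm (I × Fin 7) := Equiv.prodCongr (Equiv.refl I) tau
  let P : Equiv.Perm V := e.viaEmbedding ι
  have hP : ∀ (i : I) (k : Fin 7), P (hsup σ x y i k) = hsup σ x y i (tau k) := fun i k =>
    Equiv.Perm.viaEmbedding_apply e ι (i, k)
  have hP' : ∀ z, (∀ i k, z ≠ hsup σ x y i k) → P z = z := by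
    intro z hz
    apply Equiv.Perm.viaEmbedding_apply_of_notMem
    rintro ⟨⟨i, k⟩, h⟩
    exact hz i k h.symm
  have s : ∀ (z : V) (k : ℕ), σ ((σ ^ k) z) = (σ ^ (k + 1)) z := fun z k => by
    rw [pow_succ', Equiv.Perm.mul_apply]
  have a0 : ∀ i, hsup σ x y i 0 = x i := fun i => rfl
  have a1 : ∀ i, hsup σ x y i 1 = σ (x i) := fun i => rfl
  have a2 : ∀ i, hsup σ x y i 2 = (σ ^ 2) (x i) := fun i => rfl
  have a3 : ∀ i, hsup σ x y i 3 = (σ ^ 3) (x i) := fun i => rfl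
  have a4 : ∀ i, hsup σ x y i 4 = (σ ^ 4) (x i) := fun i => rfl
  have a5 : ∀ i, hsup σ x y i 5 = (σ ^ 5) (x i) := fun i => rfl
  have a6 : ∀ i, hsup σ x y i 6 = y i := fun i => rfl
  refine ⟨P.trans σ, ?_, ?_⟩
  · intro i
    simp only [Equiv.trans_apply]
    refine ⟨?_, ?_, ?_, ?_, ?_, ?_, ?_⟩
    · rw [← a0, hP]; rfl
    · rw [← a6, hP, show tau 6 = 4 from rfl, a4, s]
    · rw [← a5, hP, show tau 5 = 3 from rfl, a3, s]
    · rw [← a4, hP, show tau 4 = 2 from rfl, a2, s]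
    · rw [← a3, hP, show tau 3 = 1 from rfl, a1]; rfl
    · rw [← a2, hP, show tau 2 = 0 from rfl, a0]
    · rw [← a1, hP, show tau 1 = 5 from rfl, a5, s]
  · intro z hz
    rw [Equiv.trans_apply, hP' z hz]

end Pool.Agent.MPc603ed
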