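import Pool.Agent.Lib.MP_c603ed_co.Spec1

/-!
# MP_c603ed_co, p_hexadj: the hexagon
-/

set_option autoImplicit false

namespace Pool.Agent.MPc603ed

open Lt

namespace p_hexadjAux

theorem rot3 {n : ℕ} (e : ZMod (2 * n + 1)) (a b c : Lt) (l : List Lt)
    (hl : l.length + 2 = 2 * n) :
    put (e + 1 + 1 + 1) (l ++ [a, b, c]) = put e (a :: b :: c :: l) := by
  have h1 : put (e + 1 + 1 + 1) ((l ++ [a, b]) ++ [c]) = put (e + 1 + 1) (c :: (l ++ [a, b])) :=
    put_rotate _ _ _ (by simp; omega)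
  have h2 : put (e + 1 + 1) ((c :: (l ++ [a])) ++ [b]) = put (e + 1) (b :: (c :: (l ++ [a]))) :=
    put_rotate _ _ _ (by simp; omega)
  have h3 : put (e + 1) ((b :: c :: l) ++ [a]) = put e (a :: (b :: c :: l)) :=
    put_rotate _ _ _ (by simp; omega)
  simp only [List.append_assoc, List.cons_append, List.nil_append] at h1 h2 h3
  rw [h1, h2, h3]

end p_hexadjAux

open p_hexadjAux in
theorem p_hexadj : S_hexadj := by
  intro n m ρ hρ X Y hXY e
  obtain ⟨c, u, v, hu, hv, hX, hY⟩ := hXY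
  have hc : c ≠ U := by
    have := X.2.1
    rw [hX] at this
    exact this
  have hlen : u.length + v.length + 4 = 2 * n := by
    have := X.2.2.2.1
    rw [hX] at this
    simp only [List.length_cons, List.length_append] at this
    omega
  have hX1 : (ρ X).1 = (Z, U :: Z :: (u ++ U :: (v ++ [c]))) := by
    have h := hρ X (U :: ([] ++ Z :: u)) v Z (Dy.cons [] u Z Dy.nil (by decide) hu) (by decide) hv
      (by rw [hX]; simp)
    rw [h, hX]
    simp
  have hvc : Dy (u ++ U :: (v ++ c :: [])) := hu.app (Dy.cons v [] c hv hc Dy.nil)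
  have hX2 : (ρ (ρ X)).1 = (Z, U :: (u ++ U :: (v ++ [c, Z]))) := by
    have h := hρ (ρ X) [] (u ++ U :: (v ++ c :: [])) Z Dy.nil (by decide) hvc
      (by rw [hX1]; simp)
    rw [h, hX1]
    simp
  have hX3 : (ρ (ρ (ρ X))).1 = (Z, u ++ U :: (v ++ [c, U, Z])) := by
    have h := hρ (ρ (ρ X)) (u ++ U :: (v ++ c :: [])) [] Z hvc (by decide) Dy.nil
      (by rw [hX2]; simp)
    rw [h, hX2]
    simp
  have hY1 : (ρ Y).1 = (Z, U :: U :: (u ++ Z :: (v ++ [c]))) := by
    have h := hρ Y [] (U :: (u ++ Z :: v)) Z Dy.nil (by decide) (Dy.cons u v Z hu (by decide) hv)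
      (by rw [hY]; simp)
    rw [h, hY]
    simp
  have e1 : sig ρ (false, e, X) = (true, e + 1, ρ X) := sig_P ρ e X
  have e5 : (sig ρ ^ 5) (false, e, X) = (true, e + 1 + 1 + 1, ρ (ρ (ρ X))) := by
    simp only [pow_succ', pow_zero, mul_one, Equiv.Perm.mul_apply, sig_P, sig_Q]
  have e6 : (sig ρ ^ 6) (false, e, X) = (false, e + 1 + 1 + 1, ρ (ρ (ρ X))) := by
    simp only [pow_succ', pow_zero, mul_one, Equiv.Perm.mul_apply, sig_P, sig_Q]
  have ey : sig ρ (false, e, Y) = (true, e + 1, ρ Y) := sig_P ρ e Y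
  -- the strings
  have d0 : dec ((false, e, X) : AV n m) = (U, put e ([c, U, U] ++ Z :: (u ++ Z :: v))) := by
    rw [dec_P, hX]
    simp
  have d0' : dec ((false, e, Y) : AV n m) = (U, put e (([c, U, Z, U] ++ u) ++ Z :: v)) := by
    rw [dec_P, hY]
    simp
  have d1 : dec ((true, e + 1, ρ X) : AV n m) = (Z, put e ([c, U] ++ U :: (Z :: (u ++ U :: v)))) := by
    rw [dec_Q, hX1]
    have h := put_rotate e c (U :: U :: Z :: (u ++ U :: v)) (by simp; omega)
    simp only [List.append_assoc, List.cons_append, List.nil_append] at h ⊢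
    rw [h]
  have dy1 : dec ((true, e + 1, ρ Y) : AV n m) = (Z, put e ([c, U, U] ++ U :: (u ++ Z :: v))) := by
    rw [dec_Q, hY1]
    have h := put_rotate e c (U :: U :: U :: (u ++ Z :: v)) (by simp; omega)
    simp only [List.append_assoc, List.cons_append, List.nil_append] at h ⊢
    rw [h]
  have d5 : dec ((true, e + 1 + 1 + 1, ρ (ρ (ρ X))) : AV n m) =
      (Z, put e (([c, U, Z, U] ++ u) ++ U :: v)) := by
    rw [dec_Q, hX3]
    have h := rot3 e c U Z (U :: (u ++ U :: v)) (by simp; omega)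
    simp only [List.append_assoc, List.cons_append, List.nil_append] at h ⊢
    rw [h]
  have d6 : dec ((false, e + 1 + 1 + 1, ρ (ρ (ρ X))) : AV n m) =
      (U, put e ([c, U] ++ Z :: (Z :: (u ++ U :: v)))) := by
    rw [dec_P, hX3]
    have h := rot3 e c U Z (Z :: (u ++ U :: v)) (by simp; omega)
    simp only [List.append_assoc, List.cons_append, List.nil_append] at h ⊢
    rw [h]
  rw [e1, e5, e6, ey, d0, d0', d1, dy1, d5, d6]
  refine ⟨?_, ?_, ?_⟩
  · exact sadj_put e [c, U] (Z :: (u ++ U :: v)) U Z (by decide) (by simp; omega)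
  · exact sadj_put e ([c, U, Z, U] ++ u) v U Z (by decide) (by simp; omega)
  · exact sadj_put e [c, U, U] (u ++ Z :: v) U Z (by decide) (by simp; omega)

end Pool.Agent.MPc603ed
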