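import Pool.Agent.Lib.MP_c603ed_co.Spec1

/-! # MP_c603ed_co: a word different from the star has a move -/

set_option autoImplicit false

namespace Pool.Agent.MPc603ed

open Lt

namespace p_hx1Aux

theorem uu_ne (l : List Lt) (k : ℕ) : U :: U :: l ≠ UZ k := by
  cases k with
  | zero => simp [UZ]
  | succ k => simp [UZ]

end p_hx1Aux

theorem p_hx1 : S_hx1 := by
  intro y hy
  induction hy with
  | nil => intro _ h; exact absurd rfl (h 0)
  | cons a b d ha hd hb ih1 ih2 =>
    intro hT hne
    have hTa : T ∉ a := fun h => hT (by simp [h])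
    have hTb : T ∉ b := fun h => hT (by simp [h])
    have hdZ : d = Z := by
      cases d
      · exact absurd rfl hd
      · rfl
      · exact absurd (by simp) hT
    subst hdZ
    cases ha with
    | nil =>
      have hb' : ∀ k, b ≠ UZ k := by
        intro k h
        exact hne (k + 1) (by simp [UZ, h])
      obtain ⟨b', h⟩ := ih2 hTb hb'
      exact ⟨_, Hx.right [] b b' Z Dy.nil (by decide) h⟩
    | cons a1 b1 d1 h1 hd1 h2 =>
      cases h1 with
      | nil =>
        have hd1Z : d1 = Z := by
          cases d1
          · exact absurd rfl hd1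
          · rfl
          · exact absurd (by simp) hTa
        subst hd1Z
        exact ⟨_, Hx.base b1 b h2 hb⟩
      | cons a2 b2 d2 h3 hd2 h4 =>
        obtain ⟨a', h⟩ := ih1 hTa (fun k => p_hx1Aux.uu_ne _ k)
        exact ⟨_, Hx.left _ a' b Z h (by decide) hb⟩

end Pool.Agent.MPc603ed
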