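import Pool.Agent.Lib.MP_c603ed_co.Spec1

/-! # MP_c603ed_co: properties of moves -/

set_option autoImplicit false

namespace Pool.Agent.MPc603ed

open Lt

namespace p_hx2Aux

/-- the number of down letters -/
def dn (l : List Lt) : ℕ := (l.filter (fun z => z ≠ U)).length

theorem dn_app (a b : List Lt) : dn (a ++ b) = dn a + dn b := by simp [dn]

theorem dn_cons (x : Lt) (a : List Lt) : dn (x :: a) = (if x = U then 0 else 1) + dn a := by
  unfold dn
  by_cases h : x = U
  · simp [h]
  · simp [h, add_comm]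

theorem inv_cons (x : Lt) (a : List Lt) : inv (x :: a) = (if x = U then dn a else 0) + inv a := rfl

theorem inv_app (a b : List Lt) : inv (a ++ b) = inv a + a.count U * dn b + inv b := by
  induction a with
  | nil => simp [inv]
  | cons x a ih =>
    rw [List.cons_append, inv_cons, ih, inv_cons, dn_app, List.count_cons]
    by_cases h : x = U
    · simp only [h, if_true, beq_self_eq_true]
      ring
    · have h' : (x == U) = false := by simpa using h
      simp only [h, if_false, h', Bool.false_eq_true]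
      ring

theorem main (y y' : List Lt) (h : Hx y y') : Dy y ∧ Dy y' ∧ y'.length = y.length ∧
    y'.count T = y.count T ∧ inv y' < inv y ∧ y'.count U = y.count U ∧ dn y' = dn y := by
  induction h with
  | base u v hu hv =>
    refine ⟨?_, ?_, ?_, ?_, ?_, ?_, ?_⟩
    · exact Dy.cons (U :: ([] ++ Z :: u)) v Z (Dy.cons [] u Z Dy.nil (by decide) hu) (by decide) hv
    · exact Dy.cons [] (U :: (u ++ Z :: v)) Z Dy.nil (by decide) (Dy.cons u v Z hu (by decide) hv)
    · simp
    · simp
    · rw [inv_cons, inv_cons, inv_cons, inv_cons, inv_cons, inv_cons]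
      simp only [if_true, dn_cons]
      simp
    · simp
    · simp [dn_cons]
  | left a a' b d _ hd hb ih =>
    obtain ⟨i1, i2, i3, i4, i5, i6, i7⟩ := ih
    refine ⟨Dy.cons a b d i1 hd hb, Dy.cons a' b d i2 hd hb, ?_, ?_, ?_, ?_, ?_⟩
    · simp [i3]
    · simp [List.count_cons, i4]
    · rw [inv_cons, inv_cons, inv_app, inv_app, dn_app, dn_app, i6, i7]
      omega
    · simp [List.count_cons, i6]
    · rw [dn_cons, dn_cons, dn_app, dn_app, i7]
  | right a b b' d ha hd _ ih =>
    obtain ⟨i1, i2, i3, i4, i5, i6, i7⟩ := ih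
    refine ⟨Dy.cons a b d ha hd i1, Dy.cons a b' d ha hd i2, ?_, ?_, ?_, ?_, ?_⟩
    · simp [i3]
    · simp [List.count_cons, i4]
    · rw [inv_cons, inv_cons, inv_app, inv_app, inv_cons, inv_cons, dn_app, dn_app, dn_cons, dn_cons, i7]
      omega
    · simp [List.count_cons, i6]
    · rw [dn_cons, dn_cons, dn_app, dn_app, dn_cons, dn_cons, i7]

end p_hx2Aux

theorem p_hx2 : S_hx2 := by
  intro y y' h
  obtain ⟨i1, i2, i3, i4, i5, -, -⟩ := p_hx2Aux.main y y' h
  exact ⟨i1, i2, i3, i4, i5⟩

end Pool.Agent.MPc603ed
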