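import Pool.Agent.Lib.MP_c603ed_co.Spec1

/-! # MP_c603ed_co: moves become gluing pairs after a rotation -/

set_option autoImplicit false

namespace Pool.Agent.MPc603ed

open Lt

namespace p_hx3Aux

/-- rotation by the prime prefix `U a1 d` -/
theorem rot (h1 : S_rotF) {n m : ℕ} {ρ : St n m → St n m} (hρ : RhoSpec ρ) {s : St n m}
    {c d : Lt} {a1 b w : List Lt} (ha1 : Dy a1) (hd : d ≠ U) (hbw : Dy (b ++ w))
    (hs : s.1 = (c, (U :: (a1 ++ d :: b)) ++ w)) :
    (ρ^[a1.length + 2] s).1 = (c, b ++ (w ++ U :: (a1 ++ d :: []))) := by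
  have hD : Dy (U :: (a1 ++ d :: [])) := Dy.cons a1 [] d ha1 hd Dy.nil
  have h := h1 n m ρ hρ s (U :: (a1 ++ d :: [])) (b ++ w) hD hbw (by rw [hs]; simp)
  have hl : (U :: (a1 ++ d :: [])).length = a1.length + 2 := by simp
  rw [hl] at h
  rw [h, hs]
  simp

end p_hx3Aux

theorem p_hx3 (h1 : S_rotF) (h2 : S_hx2) : S_hx3 := by
  intro n m ρ hρ a a' h
  induction h with
  | base u v hu hv =>
    intro w s s' c hw hs hs'
    refine ⟨0, c, u, v ++ w, hu, Dy.app hv hw, ?_, ?_⟩
    · show s.1 = _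
      rw [hs]
      simp
    · show s'.1 = _
      rw [hs']
      simp
  | left a a' b d hx hd hb ih =>
    intro w s s' c hw hs hs'
    have hc : c ≠ U := by
      have := s.2.1
      rw [hs] at this
      exact this
    obtain ⟨da, da', -, -, -⟩ := h2 a a' hx
    have hD : Dy (U :: ((b ++ w) ++ c :: [])) := Dy.cons (b ++ w) [] c (Dy.app hb hw) hc Dy.nil
    have e1 : (ρ s).1 = (d, a ++ U :: ((b ++ w) ++ [c])) := by
      have := hρ s a (b ++ w) d da hd (Dy.app hb hw) (by rw [hs]; simp)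
      rw [this, hs]
    have e2 : (ρ s').1 = (d, a' ++ U :: ((b ++ w) ++ [c])) := by
      have := hρ s' a' (b ++ w) d da' hd (Dy.app hb hw) (by rw [hs']; simp)
      rw [this, hs']
    obtain ⟨k, hk⟩ := ih (U :: ((b ++ w) ++ c :: [])) (ρ s) (ρ s') d hD e1 e2
    exact ⟨k + 1, by rw [Function.iterate_succ_apply, Function.iterate_succ_apply]; exact hk⟩
  | right a b b' d ha hd hx ih =>
    intro w s s' c hw hs hs'
    obtain ⟨db, db', -, -, -⟩ := h2 b b' hx
    have e1 := p_hx3Aux.rot h1 hρ ha hd (Dy.app db hw) hs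
    have e2 := p_hx3Aux.rot h1 hρ ha hd (Dy.app db' hw) hs'
    have hD : Dy (w ++ U :: (a ++ d :: [])) := Dy.app hw (Dy.cons a [] d ha hd Dy.nil)
    obtain ⟨k, hk⟩ := ih (w ++ U :: (a ++ d :: [])) _ _ c hD e1 e2
    refine ⟨k + (a.length + 2), ?_⟩
    rw [Function.iterate_add_apply ρ k (a.length + 2) s, Function.iterate_add_apply ρ k (a.length + 2) s']
    exact hk

end Pool.Agent.MPc603ed
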