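import Pool.Agent.Lib.MP_c603ed_co.Spec1

/-! # MP_c603ed_co: the pointers -/

set_option autoImplicit false

namespace Pool.Agent.MPc603ed

open Lt

namespace p_ptrAux

/-- the values of `inv` on the states of the orbit with distinguished root letter -/
def vals {n m : ℕ} (ρ : Equiv.Perm (St n m)) (s : St n m) : Set ℕ :=
  {j | ∃ t : St n m, ρ.SameCycle s t ∧ t.1.1 = rl m ∧ inv t.1.2 = j}

/-- the potential -/
noncomputable def psi {n m : ℕ} (ρ : Equiv.Perm (St n m)) (s : St n m) : ℕ := sInf (vals ρ s)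

theorem vals_eq {n m : ℕ} (ρ : Equiv.Perm (St n m)) {s t : St n m} (h : ρ.SameCycle s t) :
    vals ρ s = vals ρ t := by
  ext j
  constructor
  · rintro ⟨u, h1, h2, h3⟩
    exact ⟨u, h.symm.trans h1, h2, h3⟩
  · rintro ⟨u, h1, h2, h3⟩
    exact ⟨u, h.trans h1, h2, h3⟩

theorem psi_eq {n m : ℕ} (ρ : Equiv.Perm (St n m)) {s t : St n m} (h : ρ.SameCycle s t) :
    psi ρ s = psi ρ t := by
  unfold psi
  rw [vals_eq ρ h]

theorem sc_iter {n m : ℕ} (ρ : Equiv.Perm (St n m)) (k : ℕ) (s : St n m) :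
    ρ.SameCycle s ((ρ : St n m → St n m)^[k] s) := by
  refine ⟨(k : ℤ), ?_⟩
  rw [zpow_natCast, Equiv.Perm.coe_pow]

theorem root (h1 : S_rootT) {n m : ℕ} (hm : m ≤ 1) (ρ : Equiv.Perm (St n m)) (hρ : RhoSpec ρ)
    (s : St n m) : ∃ k : ℕ, ((ρ : St n m → St n m)^[k] s).1.1 = rl m := by
  rcases Nat.lt_or_ge m 1 with h | h
  · obtain rfl : m = 0 := by omega
    refine ⟨0, ?_⟩
    have hU := s.2.1
    have hc := s.2.2.2.2
    show s.1.1 = Z
    rw [List.count_cons] at hc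
    rcases hs : s.1.1 with _ | _ | _
    · exact absurd hs hU
    · rfl
    · rw [hs] at hc
      simp at hc
  · obtain rfl : m = 1 := by omega
    exact h1 n ρ hρ s

theorem rl_ne (m : ℕ) : rl m ≠ U := by
  unfold rl
  split_ifs <;> simp

theorem noT {n m : ℕ} (hm : m ≤ 1) (t : St n m) (ht : t.1.1 = rl m) : T ∉ t.1.2 := by
  have hc := t.2.2.2.2
  rw [List.count_cons, ht] at hc
  have h0 : t.1.2.count T = 0 := by
    rcases Nat.lt_or_ge m 1 with h | h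
    · omega
    · obtain rfl : m = 1 := by omega
      simpa [rl] using hc
  exact List.count_eq_zero.1 h0

theorem ex (h1 : S_rootT) (h2 : S_hx1) (h3 : S_hx2) (h4 : S_hx3) {n m : ℕ} (hm : m ≤ 1)
    (ρ : Equiv.Perm (St n m)) (hρ : RhoSpec ρ) (s : St n m) (hs : ¬ StarOrb ρ s) :
    ∃ X Y : St n m, ρ.SameCycle s X ∧ psi ρ Y < psi ρ s ∧ HexB X Y := by
  obtain ⟨k0, hk0⟩ := root h1 hm ρ hρ s
  have hne : (vals ρ s).Nonempty := ⟨_, _, sc_iter ρ k0 s, hk0, rfl⟩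
  obtain ⟨t, ht1, ht2, ht3⟩ := Nat.sInf_mem hne
  have hT := noT hm t ht2
  have hnot : ∀ k, t.1.2 ≠ UZ k := by
    intro k hk
    have hl := t.2.2.2.1
    rw [hk, length_UZ] at hl
    obtain rfl : k = n := by omega
    obtain ⟨i, -, hi⟩ := ht1.exists_pow_eq' 
    apply hs
    refine ⟨i, ?_⟩
    rw [← Equiv.Perm.coe_pow, hi]
    exact Prod.ext ht2 hk
  obtain ⟨y', hy'⟩ := h2 t.1.2 t.2.2.1 hT hnot
  obtain ⟨-, dy', l', c', i'⟩ := h3 _ _ hy'
  obtain ⟨t', ht'⟩ : ∃ t' : St n m, t'.1 = (rl m, y') := by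
    refine ⟨⟨(rl m, y'), rl_ne m, dy', l'.trans t.2.2.2.1, ?_⟩, rfl⟩
    have hc := t.2.2.2.2
    rw [ht2, List.count_cons] at hc
    rw [List.count_cons]
    show List.count T y' + _ = m
    rw [c']
    exact hc
  obtain ⟨k, hk⟩ := h4 n m ρ hρ t.1.2 y' hy' [] t t' (rl m) Dy.nil
    (by rw [List.append_nil]; exact Prod.ext ht2 rfl) (by rw [List.append_nil]; exact ht')
  refine ⟨_, _, ht1.trans (sc_iter ρ k t), ?_, hk⟩
  rw [← psi_eq ρ (sc_iter ρ k t')]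
  have h5 : psi ρ t' ≤ inv y' := by
    apply Nat.sInf_le
    exact ⟨t', Equiv.Perm.SameCycle.refl ρ t', by rw [ht'], by rw [ht']⟩
  have h6 : psi ρ s = inv t.1.2 := ht3.symm
  omega

end p_ptrAux

open p_ptrAux in
theorem p_ptr (h1 : S_rootT) (h2 : S_hx1) (h3 : S_hx2) (h4 : S_hx3) : S_ptr := by
  classical
  intro n m ρ _ hm hρ
  have hcl : ∀ c : Quotient (Equiv.Perm.SameCycle.setoid ρ), ∃ XY : St n m × St n m,
      ∀ s : St n m, (Quotient.mk (Equiv.Perm.SameCycle.setoid ρ) s) = c → ¬ StarOrb ρ s →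
        ρ.SameCycle s XY.1 ∧ psi ρ XY.2 < psi ρ s ∧ HexB XY.1 XY.2 := by
    intro c
    by_cases h : ∃ s : St n m, (Quotient.mk (Equiv.Perm.SameCycle.setoid ρ) s) = c ∧ ¬ StarOrb ρ s
    · obtain ⟨s, hs, hs'⟩ := h
      obtain ⟨X, Y, e1, e2, e3⟩ := ex h1 h2 h3 h4 hm ρ hρ s hs'
      refine ⟨(X, Y), fun s' hs1 _ => ?_⟩
      have h5 : ρ.SameCycle s' s := Quotient.exact (hs1.trans hs.symm)
      exact ⟨h5.trans e1, by rw [psi_eq ρ h5]; exact e2, e3⟩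
    · refine ⟨(c.out, c.out), fun s' hs1 hs2 => ?_⟩
      exact absurd ⟨s', hs1, hs2⟩ h
  choose F hF using hcl
  refine ⟨psi ρ, fun s => (F (Quotient.mk (Equiv.Perm.SameCycle.setoid ρ) s)).1,
    fun s => (F (Quotient.mk (Equiv.Perm.SameCycle.setoid ρ) s)).2, ?_, ?_⟩
  · intro s
    have h5 : ρ.SameCycle (ρ s) s := Equiv.Perm.sameCycle_apply_left.2 (Equiv.Perm.SameCycle.refl ρ s)
    have h6 : (Quotient.mk (Equiv.Perm.SameCycle.setoid ρ) (ρ s)) =
        (Quotient.mk (Equiv.Perm.SameCycle.setoid ρ) s) := Quotient.sound h5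
    refine ⟨psi_eq ρ h5, ?_, ?_⟩
    · show (F _).1 = (F _).1
      rw [h6]
    · show (F _).2 = (F _).2
      rw [h6]
  · intro s hs
    exact hF _ s rfl hs

end Pool.Agent.MPc603ed
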