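import Pool.Agent.Lib.MP_c603ed_co.Spec3

/-!
# MP_c603ed_co: letters of a vertex, part B
-/

set_option autoImplicit false

namespace Pool.Agent.MPc603ed

theorem p_putB : S_putB := by
  intro n ι _ _ s t sp W e l v L hW hfit hF
  funext x
  have hx : x.val < 2 * n + 1 := ZMod.val_lt x
  rw [List.forall₂_iff_get] at hF
  obtain ⟨hlen, hget⟩ := hF
  have h1 : x.val < W.length := by omega
  have h2 : x.val < L.length := by omega
  have h3 := hget x.val h1 h2
  rw [List.get_eq_getElem, List.get_eq_getElem] at h3
  rw [put_apply, sub_zero, List.getD_eq_getElem _ _ h2]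
  show (if v.2 = some (e (some x)) then Lt.T else tl l (v.1 (e (some x)))) = _
  obtain ⟨f1, f2⟩ := hfit x
  have h4 : W[x.val]? = some W[x.val] := List.getElem?_eq_getElem h1
  generalize hw : W[x.val] = w at h3 h4
  rcases w with ⟨a, b⟩ | i
  · obtain ⟨g1, g2, g3⟩ := f2 a b h4
    exact h3 (e (some x)) (by
      intro h
      have := e.injective h
      simp at this) g3 g1 g2
  · have g1 := f1 i h4
    rw [g1]
    exact h3

end Pool.Agent.MPc603ed
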