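import Pool.Agent.Lib.MP_c603ed_co.ClassAux
import Pool.Agent.Lib.MP_c603ed_co.Spec4

/-!
# MP_c603ed_co: relabelling
-/

set_option autoImplicit false

namespace Pool.Agent.MPc603ed

theorem bal_relabel {ι κ : Type} [Fintype ι] [Fintype κ] (e : ι ≃ κ) (s : ι → Bool) :
    Bal (s ∘ e.symm) ↔ Bal s := by
  have key : ∀ b : Bool, (Finset.univ.filter (fun x => (s ∘ e.symm) x = b)).card
      = (Finset.univ.filter (fun x => s x = b)).card := by
    intro b
    apply Finset.card_bij (fun x _ => e.symm x)
    · intro a ha
      rw [Finset.mem_filter] at ha ⊢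
      exact ⟨Finset.mem_univ _, ha.2⟩
    · intro a _ b _ hab
      exact e.symm.injective hab
    · intro b hb
      refine ⟨e b, ?_, by simp⟩
      rw [Finset.mem_filter] at hb ⊢
      refine ⟨Finset.mem_univ _, ?_⟩
      simpa using hb.2
  unfold Bal
  rw [key, key]

theorem p_relabel : S_relabel := by
  intro ι κ _ _ _ _ e u v h
  have h1 := HPs.map (R' := gadj) (f := fun w : GV ι => ((w.1 ∘ e.symm, w.2.map e) : GV κ)) h (by
    intro a _ b _ hab
    obtain ⟨s, o⟩ := a
    obtain ⟨t, o'⟩ := b
    simp only [Prod.mk.injEq] at hab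
    obtain ⟨h1, h2⟩ := hab
    have h3 : s = t := by
      funext i
      have := congrFun h1 (e i)
      simpa using this
    have h4 : o = o' := Option.map_injective e.injective h2
    rw [h3, h4]) (by
    intro a _ b _ hab
    cases hab with
    | out s p => exact gadj.out _ _
    | inn s p => exact gadj.inn _ _
    | sw s p i hpi =>
      have h5 := gadj.sw (s ∘ e.symm) (e p) (e i) (by simpa using hpi)
      have h6 : swp (s ∘ e.symm) (e p) (e i) = swp s p i ∘ e.symm := by
        funext k
        rw [swp_apply]
        simp only [Function.comp_apply]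
        rw [swp_apply]
        have e1 : (k = e p) ↔ (e.symm k = p) := by
          rw [Equiv.symm_apply_eq]
        have e2 : (k = e i) ↔ (e.symm k = i) := by
          rw [Equiv.symm_apply_eq]
        simp only [e1, e2, Equiv.symm_apply_apply]
      rw [h6] at h5
      exact h5)
  refine HPs.congr h1 ?_
  ext w
  simp only [Set.mem_image, Set.mem_ofPred_eq]
  constructor
  · rintro ⟨a, ha, rfl⟩
    exact (bal_relabel e a.1).2 ha
  · intro hw
    obtain ⟨s, o⟩ := w
    refine ⟨(s ∘ e, o.map e.symm), ?_, ?_⟩
    · have : Bal ((s ∘ e) ∘ e.symm) := by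
        have h2 : (s ∘ e) ∘ e.symm = s := by
          funext k
          simp
        rw [h2]
        exact hw
      exact (bal_relabel e _).1 this
    · refine Prod.ext ?_ ?_
      · funext k
        simp
      · cases o with
        | none => rfl
        | some p => simp

end Pool.Agent.MPc603ed
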