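import Pool.Agent.Lib.MP_c603ed_co.Spec1

/-!
# MP_c603ed_co: existence of the rotation permutation
-/

set_option autoImplicit false

namespace Pool.Agent.MPc603ed

open Lt

namespace p_rhoAux

theorem dy_cases {y : List Lt} (h : Dy y) :
    y = [] ∨ ∃ (a b : List Lt) (d : Lt), Dy a ∧ d ≠ U ∧ Dy b ∧ y = U :: (a ++ d :: b) := by
  cases h with
  | nil => exact Or.inl rfl
  | cons a b d ha hd hb => exact Or.inr ⟨a, b, d, ha, hd, hb, rfl⟩

theorem ext_st {n m : ℕ} {s t : St n m} (h : s.1 = t.1) : s = t := Subtype.ext h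

theorem exists_next (h1 : S_split) {n m : ℕ} (s : St n m) : ∃ t : St n m,
    ∀ (a b : List Lt) (d : Lt), Dy a → d ≠ U → Dy b →
      s.1.2 = U :: (a ++ d :: b) → t.1 = (d, a ++ U :: (b ++ [s.1.1])) := by
  obtain ⟨hc, hy, hl, hT⟩ := s.2
  rcases dy_cases hy with h0 | ⟨a, b, d, ha, hd, hb, hs⟩
  · refine ⟨s, fun a b d _ _ _ h => ?_⟩
    rw [h0] at h
    exact absurd h (by simp)
  · have hdy : Dy (a ++ U :: (b ++ [s.1.1])) := by
      have h3 : Dy (U :: (b ++ s.1.1 :: [])) := Dy.cons b [] s.1.1 hb hc Dy.nil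
      exact Dy.app ha h3
    have hlen : (a ++ U :: (b ++ [s.1.1])).length = 2 * n := by
      rw [hs] at hl
      simp only [List.length_cons, List.length_append, List.length_nil] at hl ⊢
      omega
    have hcnt : (d :: (a ++ U :: (b ++ [s.1.1]))).count T = m := by
      rw [hs] at hT
      refine Eq.trans ?_ hT
      simp only [List.count_cons, List.count_append, List.count_nil]
      omega
    refine ⟨Subtype.mk (d, a ++ U :: (b ++ [s.1.1])) ⟨hd, hdy, hlen, hcnt⟩, ?_⟩
    intro a' b' d' ha' hd' _ h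
    rw [hs] at h
    have h4 := List.cons.inj h
    obtain ⟨h5, h6, h7⟩ := h1 a a' b b' d d' ha ha' hd hd' h4.2
    subst h5 h6 h7
    rfl

end p_rhoAux

open p_rhoAux

theorem p_rho (h1 : S_split) (h2 : S_rotF) : S_rho := by
  intro n m
  rcases Nat.eq_zero_or_pos n with h0 | hn
  · refine ⟨Equiv.refl _, ?_⟩
    intro s a b d _ _ _ h
    have hl := s.2.2.2.1
    rw [h, h0] at hl
    simp at hl
  · choose f hf using fun s : St n m => exists_next h1 s
    have hspec : RhoSpec f := fun s a b d ha hd hb h => hf s a b d ha hd hb h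
    have hper : ∀ s : St n m, f^[2 * n] s = s := by
      intro s
      have h3 := h2 n m f hspec s s.1.2 [] s.2.2.1 Dy.nil (by simp)
      rw [s.2.2.2.1] at h3
      apply ext_st
      rw [h3]
      simp
    have hk : 2 * n = (2 * n - 1) + 1 := by omega
    refine ⟨⟨f, f^[2 * n - 1], ?_, ?_⟩, hspec⟩
    · intro s
      have h4 := hper s
      rw [hk, Function.iterate_succ_apply] at h4
      exact h4
    · intro s
      have h4 := hper s
      rw [hk, Function.iterate_succ_apply'] at h4
      exact h4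

end Pool.Agent.MPc603ed
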