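import Pool.Agent.Lib.MP_c603ed_co.Spec1

/-! # MP_c603ed_co: every orbit contains a state with root letter `T` -/

set_option autoImplicit false

namespace Pool.Agent.MPc603ed

open Lt

namespace p_rootTAux

theorem claim (h1 : S_rotF) (n : ℕ) (ρ : St n 1 → St n 1) (hρ : RhoSpec ρ) (a : List Lt)
    (ha : Dy a) : ∀ (b : List Lt) (s : St n 1), T ∈ a → Dy b → s.1.2 = a ++ b →
      ∃ k, (ρ^[k] s).1.1 = T := by
  induction ha with
  | nil =>
    intro b s hT
    exact absurd hT (by simp)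
  | cons a1 a2 d ha1 hd ha2 ih1 ih2 =>
    intro b s hT hb hs
    have e1 : (ρ s).1 = (d, a1 ++ U :: ((a2 ++ b) ++ [s.1.1])) := by
      refine hρ s a1 (a2 ++ b) d ha1 hd (Dy.app ha2 hb) ?_
      rw [hs]
      simp
    have hc : s.1.1 ≠ U := s.2.1
    have hD : Dy (U :: ((a2 ++ b) ++ s.1.1 :: [])) :=
      Dy.cons (a2 ++ b) [] s.1.1 (Dy.app ha2 hb) hc Dy.nil
    have hcases : T ∈ a1 ∨ d = T ∨ T ∈ a2 := by
      rcases List.mem_cons.1 hT with h | h
      · exact absurd h (by decide)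
      · rcases List.mem_append.1 h with h | h
        · exact Or.inl h
        · rcases List.mem_cons.1 h with h | h
          · exact Or.inr (Or.inl h.symm)
          · exact Or.inr (Or.inr h)
    rcases hcases with h | h | h
    · obtain ⟨k, hk⟩ := ih1 (U :: ((a2 ++ b) ++ s.1.1 :: [])) (ρ s) h hD (by rw [e1])
      exact ⟨k + 1, by rw [Function.iterate_succ_apply]; exact hk⟩
    · exact ⟨1, by rw [Function.iterate_one, e1]; exact h⟩
    · have e2 : (ρ^[a1.length] (ρ s)).1 = (d, (U :: ((a2 ++ b) ++ [s.1.1])) ++ a1) := by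
        have h := h1 n 1 ρ hρ (ρ s) a1 (U :: ((a2 ++ b) ++ s.1.1 :: [])) ha1 hD (by rw [e1])
        rw [h, e1]
      have e3 : (ρ (ρ^[a1.length] (ρ s))).1 = (s.1.1, (a2 ++ b) ++ U :: (a1 ++ [d])) := by
        have h := hρ (ρ^[a1.length] (ρ s)) (a2 ++ b) a1 s.1.1 (Dy.app ha2 hb) hc ha1
          (by rw [e2]; simp)
        rw [h, e2]
      have hD2 : Dy (b ++ U :: (a1 ++ d :: [])) := Dy.app hb (Dy.cons a1 [] d ha1 hd Dy.nil)
      obtain ⟨k, hk⟩ := ih2 (b ++ U :: (a1 ++ d :: [])) (ρ (ρ^[a1.length] (ρ s))) h hD2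
        (by rw [e3]; simp)
      refine ⟨k + (1 + (a1.length + 1)), ?_⟩
      rw [Function.iterate_add_apply, Function.iterate_add_apply, Function.iterate_add_apply]
      exact hk

end p_rootTAux

theorem p_rootT (h1 : S_rotF) : S_rootT := by
  intro n ρ hρ s
  by_cases hT : s.1.1 = T
  · exact ⟨0, hT⟩
  · have hcount := s.2.2.2.2
    have hmem : T ∈ s.1.2 := by
      rw [List.count_cons] at hcount
      by_contra hno
      rw [List.count_eq_zero_of_not_mem hno] at hcount
      simp [hT] at hcount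
    exact p_rootTAux.claim h1 n ρ hρ s.1.2 s.2.2.1 [] s hmem Dy.nil (by simp)

end Pool.Agent.MPc603ed
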