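import Pool.Agent.Lib.MP_c603ed_co.Spec1

/-! # MP_c603ed_co: rotation by a Dyck prefix -/

set_option autoImplicit false

namespace Pool.Agent.MPc603ed

open Lt

theorem p_rotF : S_rotF := by
  intro n m ρ hρ s a b ha
  induction ha generalizing s b with
  | nil =>
    intro _ hs
    simp only [List.length_nil, Function.iterate_zero, id_eq, List.append_nil]
    rw [List.nil_append] at hs
    rw [← hs]
  | cons a1 a2 d ha1 hd ha2 ih1 ih2 =>
    intro hb hs
    -- first step
    have e1 : (ρ s).1 = (d, a1 ++ U :: ((a2 ++ b) ++ [s.1.1])) := by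
      refine hρ s a1 (a2 ++ b) d ha1 hd (Dy.app ha2 hb) ?_
      rw [hs]
      simp
    -- the root letter
    have hc : s.1.1 ≠ U := s.2.1
    have hD : Dy (U :: ((a2 ++ b) ++ s.1.1 :: [])) :=
      Dy.cons (a2 ++ b) [] s.1.1 (Dy.app ha2 hb) hc Dy.nil
    -- after `|a1|` further steps
    have e2 : (ρ^[a1.length] (ρ s)).1 = (d, (U :: ((a2 ++ b) ++ [s.1.1])) ++ a1) := by
      have h := ih1 (ρ s) (U :: ((a2 ++ b) ++ s.1.1 :: [])) hD (by rw [e1])
      rw [h, e1]
    -- one step
    have e3 : (ρ (ρ^[a1.length] (ρ s))).1 = (s.1.1, (a2 ++ b) ++ U :: (a1 ++ [d])) := by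
      have h := hρ (ρ^[a1.length] (ρ s)) (a2 ++ b) a1 s.1.1 (Dy.app ha2 hb) hc ha1
        (by rw [e2]; simp)
      rw [h, e2]
    -- after `|a2|` further steps
    have hD2 : Dy (b ++ U :: (a1 ++ d :: [])) := Dy.app hb (Dy.cons a1 [] d ha1 hd Dy.nil)
    have e4 : (ρ^[a2.length] (ρ (ρ^[a1.length] (ρ s)))).1 =
        (s.1.1, (b ++ U :: (a1 ++ [d])) ++ a2) := by
      have h := ih2 (ρ (ρ^[a1.length] (ρ s))) (b ++ U :: (a1 ++ d :: [])) hD2
        (by rw [e3]; simp)
      rw [h, e3]
    have e5 : ρ^[(U :: (a1 ++ d :: a2)).length] s =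
        ρ^[a2.length] (ρ (ρ^[a1.length] (ρ s))) := by
      have h : (U :: (a1 ++ d :: a2)).length = a2.length + (1 + (a1.length + 1)) := by
        simp only [List.length_cons, List.length_append]
        omega
      rw [h, Function.iterate_add_apply, Function.iterate_add_apply, Function.iterate_add_apply]
      rfl
    rw [e5, e4]
    simp

end Pool.Agent.MPc603ed
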