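import Pool.Agent.Lib.MP_c603ed_co.Spec1

/-! # MP_c603ed_co: the 2-factor consists of edges -/

set_option autoImplicit false

namespace Pool.Agent.MPc603ed

open Lt

theorem p_sig : S_sig := by
  intro n m ρ hn hρ z
  obtain ⟨b, e, s⟩ := z
  have hlen : s.1.2.length = 2 * n := s.2.2.2.1
  have hc : s.1.1 ≠ U := s.2.1
  cases b with
  | true =>
    rw [sig_Q, dec_Q, dec_P]
    exact sadj_put e [] s.1.2 U s.1.1 hc.symm (by simp; omega)
  | false =>
    rw [sig_P, dec_P, dec_Q]
    obtain ⟨a, b, d, hs, ha, hd, hb⟩ : ∃ (a b : List Lt) (d : Lt),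
        s.1.2 = U :: (a ++ d :: b) ∧ Dy a ∧ d ≠ U ∧ Dy b := by
      have hDy := s.2.2.1
      generalize s.1.2 = y at hDy hlen
      cases hDy with
      | nil =>
        simp only [List.length_nil] at hlen
        omega
      | cons a b d ha hd hb => exact ⟨a, b, d, rfl, ha, hd, hb⟩
    have e1 := hρ s a b d ha hd hb hs
    have hl2 : (a ++ d :: b).length + 1 = 2 * n := by
      rw [hs] at hlen
      simpa using hlen
    simp only [List.length_append, List.length_cons] at hl2
    have e2 : (put (e + 1) (U :: (ρ s).1.2) : ZMod (2 * n + 1) → Lt) =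
        put e ((s.1.1 :: U :: a) ++ U :: b) := by
      rw [e1]
      have h3 : U :: (a ++ U :: (b ++ [s.1.1])) = (U :: (a ++ U :: b)) ++ [s.1.1] := by simp
      show put (e + 1) (U :: (a ++ U :: (b ++ [s.1.1]))) = _
      rw [h3, put_rotate e s.1.1 (U :: (a ++ U :: b)) (by simp; omega)]
      simp
    have e3 : (ρ s).1.1 = d := by rw [e1]
    have e4 : (put e (s.1.1 :: s.1.2) : ZMod (2 * n + 1) → Lt) =
        put e ((s.1.1 :: U :: a) ++ d :: b) := by
      rw [hs]
      simp
    rw [e2, e3, e4]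
    exact sadj_put e (s.1.1 :: U :: a) b d U hd (by simp; omega)

end Pool.Agent.MPc603ed
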