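import Pool.Agent.Lib.MP_c603ed_co.Spec1

/-!
# MP_c603ed_co: the cycles of `sig ρ`
-/

set_option autoImplicit false

namespace Pool.Agent.MPc603ed

open Lt

theorem p_sigcyc (h1 : S_rotF) : S_sigcyc := by
  intro n m ρ hρ z w
  constructor
  · intro h
    have hg : ∀ z : AV n m, (Quotient.mk (Equiv.Perm.SameCycle.setoid ρ) ((sig ρ z).2.2)) =
        Quotient.mk (Equiv.Perm.SameCycle.setoid ρ) z.2.2 := by
      rintro ⟨b, e, s⟩
      cases b
      · rw [sig_P]
        apply Quotient.sound
        show ρ.SameCycle (ρ s) s
        exact Equiv.Perm.sameCycle_apply_left.2 (Equiv.Perm.SameCycle.refl _ _)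
      · rfl
    exact Quotient.exact (sameCycle_const (g := fun z : AV n m =>
      Quotient.mk (Equiv.Perm.SameCycle.setoid ρ) z.2.2) hg h)
  · intro h
    -- vertices with the same state
    have hPQ : ∀ e s, (sig ρ).SameCycle ((true, e, s) : AV n m) (false, e, s) := by
      intro e s
      rw [← sig_Q ρ]
      exact Equiv.Perm.sameCycle_apply_right.2 (Equiv.Perm.SameCycle.refl _ _)
    have hstep : ∀ e s, (sig ρ).SameCycle ((false, e, s) : AV n m) (false, e + 1, ρ s) := by
      intro e s
      have h2 : sig ρ (sig ρ ((false, e, s) : AV n m)) = (false, e + 1, ρ s) := rfl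
      rw [← h2]
      exact Equiv.Perm.sameCycle_apply_right.2 (Equiv.Perm.sameCycle_apply_right.2
        (Equiv.Perm.SameCycle.refl _ _))
    have hiter : ∀ (k : ℕ) e s, (sig ρ).SameCycle ((false, e, s) : AV n m)
        (false, e + (k : ℕ), ρ^[k] s) := by
      intro k
      induction k with
      | zero =>
        intro e s
        simpa using Equiv.Perm.SameCycle.refl _ _
      | succ k ih =>
        intro e s
        have h2 := (ih e s).trans (hstep _ _)
        rw [Function.iterate_succ_apply']
        have h3 : e + ((k + 1 : ℕ) : ZMod (2 * n + 1)) = e + ((k : ℕ) : ZMod (2 * n + 1)) + 1 := by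
          push_cast
          ring
        rw [h3]
        exact h2
    have hfix : ∀ s : St n m, ρ^[2 * n] s = s := by
      intro s
      have h2 := h1 n m ρ hρ s s.1.2 [] s.2.2.1 Dy.nil (by simp)
      rw [s.2.2.2.1] at h2
      exact Subtype.ext h2
    have hm1 : ∀ e s, (sig ρ).SameCycle ((false, e, s) : AV n m) (false, e - 1, s) := by
      intro e s
      have h2 := hiter (2 * n) e s
      rw [hfix] at h2
      have h3 : e + ((2 * n : ℕ) : ZMod (2 * n + 1)) = e - 1 := by
        have h4 : ((2 * n + 1 : ℕ) : ZMod (2 * n + 1)) = 0 := ZMod.natCast_self _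
        push_cast at h4 ⊢
        linear_combination h4
      rwa [h3] at h2
    have hmk : ∀ (k : ℕ) e s, (sig ρ).SameCycle ((false, e, s) : AV n m)
        (false, e - (k : ℕ), s) := by
      intro k
      induction k with
      | zero =>
        intro e s
        simpa using Equiv.Perm.SameCycle.refl _ _
      | succ k ih =>
        intro e s
        have h2 := (ih e s).trans (hm1 _ _)
        have h3 : e - ((k + 1 : ℕ) : ZMod (2 * n + 1)) = e - ((k : ℕ) : ZMod (2 * n + 1)) - 1 := by
          push_cast
          ring
        rw [h3]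
        exact h2
    have hee : ∀ e e' s, (sig ρ).SameCycle ((false, e, s) : AV n m) (false, e', s) := by
      intro e e' s
      have h2 := hmk (e - e').val e s
      rw [ZMod.natCast_val, ZMod.cast_id', id, sub_sub_cancel] at h2
      exact h2
    have hρs : ∀ s, (sig ρ).SameCycle ((false, 0, ρ s) : AV n m) (false, 0, s) := by
      intro s
      exact ((hstep 0 s).trans (hee _ 0 _)).symm
    have hg : ∀ s : St n m, (Quotient.mk (Equiv.Perm.SameCycle.setoid (sig ρ))
        ((false, 0, ρ s) : AV n m)) =
        Quotient.mk (Equiv.Perm.SameCycle.setoid (sig ρ)) ((false, 0, s) : AV n m) :=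
      fun s => Quotient.sound (hρs s)
    have h5 : (sig ρ).SameCycle ((false, 0, z.2.2) : AV n m) (false, 0, w.2.2) :=
      Quotient.exact (sameCycle_const (g := fun s : St n m =>
        Quotient.mk (Equiv.Perm.SameCycle.setoid (sig ρ)) ((false, 0, s) : AV n m)) hg h)
    have h6 : ∀ z : AV n m, (sig ρ).SameCycle z (false, 0, z.2.2) := by
      rintro ⟨b, e, s⟩
      cases b
      · exact hee _ _ _
      · exact (hPQ e s).trans (hee _ _ _)
    exact ((h6 z).trans h5).trans (h6 w).symm

end Pool.Agent.MPc603ed
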