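import Pool.Agent.Lib.MP_c603ed_co.Spec4
import Pool.Agent.Lib.MP_c603ed_co.P_small2A
import Pool.Agent.Lib.MP_c603ed_co.P_small2B

/-!
# MP_c603ed_co: `n = 2` by explicit paths
-/

set_option autoImplicit false

namespace Pool.Agent.MPc603ed

namespace p_small2Aux

/-- the word `111000` -/
def w7 : Fin 6 → Bool := fun i => Nat.testBit 7 i

theorem vx77 : vx (7, 7) = (w7, none) := rfl

theorem vx70 : vx (7, 0) = (w7, some 0) := rfl

theorem bal7 : Bal w7 := by decide +kernel

theorem fin_none (v : GV (Fin 6)) (hb : Bal v.1) (hne : v ≠ (w7, none)) : HP (w7, none) v :=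
  hp_of_tab (s := 7) (p := 7) ⟨by norm_num, Or.inr rfl⟩ chkA occA v hb hne

theorem fin_some (v : GV (Fin 6)) (hb : Bal v.1) (hne : v ≠ (w7, some 0)) :
    HP (w7, some 0) v :=
  hp_of_tab (s := 7) (p := 0) ⟨by norm_num, Or.inl (by norm_num)⟩ chkB occB v hb hne

variable {ι : Type} [Fintype ι] [DecidableEq ι]

theorem card_sub {s : ι → Bool} (hc : Fintype.card ι = 6) (hs : Bal s) (b : Bool) :
    Fintype.card {i // s i = b} = 3 := by
  rw [Fintype.card_subtype]
  exact hs.card (n := 2) hc b

theorem card_w7 (b : Bool) : Fintype.card {i // w7 i = b} = 3 :=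
  card_sub (by simp) bal7 b

/-- an arrangement of the positions -/
theorem arr {s : ι → Bool} (hc : Fintype.card ι = 6) (hs : Bal s) :
    ∃ e : ι ≃ Fin 6, s ∘ e.symm = w7 := by
  have e1 : ∀ b : Bool, Nonempty ({i // s i = b} ≃ {i // w7 i = b}) := fun b =>
    ⟨Fintype.equivOfCardEq ((card_sub hc hs b).trans (card_w7 b).symm)⟩
  refine ⟨Equiv.ofFiberEquiv (f := s) (g := w7) (fun b => (e1 b).some), ?_⟩
  funext i
  have h := Equiv.ofFiberEquiv_map (f := s) (g := w7) (fun b => (e1 b).some)
    ((Equiv.ofFiberEquiv (f := s) (g := w7) (fun b => (e1 b).some)).symm i)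
  rw [Equiv.apply_symm_apply] at h
  exact h.symm

/-- an arrangement of the positions with a prescribed first position -/
theorem arr0 {s : ι → Bool} (hc : Fintype.card ι = 6) (hs : Bal s) (a : ι) (ha : s a = true) :
    ∃ e : ι ≃ Fin 6, s ∘ e.symm = w7 ∧ e a = 0 := by
  obtain ⟨e, he⟩ := arr hc hs
  have h1 : w7 (e a) = true := by
    rw [← he]
    simpa using ha
  refine ⟨e.trans (Equiv.swap (e a) 0), ?_, by simp⟩
  have h2 : s ∘ (e.trans (Equiv.swap (e a) 0)).symm = w7 ∘ Equiv.swap (e a) 0 := by
    rw [← he]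
    funext i
    simp
  rw [h2]
  funext i
  have h3 : w7 0 = true := rfl
  simp only [Function.comp_apply, Equiv.swap_apply_def]
  split_ifs with h4 h5
  · rw [h3, h4, h1]
  · rw [h5, h1, h3]
  · rfl

theorem back (h1 : S_relabel) (e : ι ≃ Fin 6) (u v : GV ι)
    (h : HP (u.1 ∘ e.symm, u.2.map e) (v.1 ∘ e.symm, v.2.map e)) : HP u v := by
  have h2 := h1 (Fin 6) ι e.symm _ _ h
  have key : ∀ w : GV ι, (((w.1 ∘ e.symm, w.2.map e) : GV (Fin 6)).1 ∘ e.symm.symm,
      ((w.1 ∘ e.symm, w.2.map e) : GV (Fin 6)).2.map e.symm) = w := by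
    rintro ⟨s, p⟩
    rw [Prod.mk.injEq]
    constructor
    · funext i
      simp
    · cases p <;> simp
  rw [key u, key v] at h2
  exact h2

omit [DecidableEq ι] in
theorem bal_comp (e : ι ≃ Fin 6) {s : ι → Bool} (hs : Bal s) : Bal (s ∘ e.symm) := by
  unfold Bal at *
  have key : ∀ b : Bool, (Finset.univ.filter (fun i => (s ∘ e.symm) i = b)).card =
      (Finset.univ.filter (fun i => s i = b)).card := by
    intro b
    apply Finset.card_bij (fun x _ => e.symm x)
    · intro a ha
      rw [Finset.mem_filter] at ha ⊢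
      exact ⟨Finset.mem_univ _, ha.2⟩
    · intro a _ b _ hab
      exact e.symm.injective hab
    · intro b hb
      refine ⟨e b, ?_, by simp⟩
      rw [Finset.mem_filter] at hb ⊢
      refine ⟨Finset.mem_univ _, ?_⟩
      simpa using hb.2
  rw [key, key, hs]

omit [Fintype ι] [DecidableEq ι] in
theorem emb_ne (e : ι ≃ Fin 6) {u v : GV ι} (h : u ≠ v) :
    ((v.1 ∘ e.symm, v.2.map e) : GV (Fin 6)) ≠ (u.1 ∘ e.symm, u.2.map e) := by
  intro h1
  rw [Prod.mk.injEq] at h1
  apply h
  refine Prod.ext ?_ ?_
  · funext i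
    have h2 := congrFun h1.1 (e i)
    simpa using h2.symm
  · exact (Option.map_injective e.injective h1.2).symm

theorem from_true (h1 : S_relabel) (hc : Fintype.card ι = 6) (u v : GV ι) (hu : Bal u.1)
    (hv : Bal v.1) (hne : u ≠ v) (ht : ∀ a, u.2 = some a → u.1 a = true) : HP u v := by
  obtain ⟨s, p⟩ := u
  rcases p with _ | a
  · obtain ⟨e, he⟩ := arr hc hu
    apply back h1 e
    have h2 := fin_none (v.1 ∘ e.symm, v.2.map e) (bal_comp e hv) (by
      have h3 := emb_ne e hne
      simp only at h3 he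
      rw [he] at h3
      exact h3)
    simp only at he
    simp only [Option.map_none]
    rw [he]
    exact h2
  · obtain ⟨e, he, he0⟩ := arr0 hc hu a (ht a rfl)
    apply back h1 e
    have h2 := fin_some (v.1 ∘ e.symm, v.2.map e) (bal_comp e hv) (by
      have h3 := emb_ne e hne
      simp only [Option.map_some] at h3 he
      rw [he, he0] at h3
      exact h3)
    simp only at he
    simp only [Option.map_some]
    rw [he, he0]
    exact h2

omit [DecidableEq ι] in
theorem bal_not {s : ι → Bool} (hs : Bal s) : Bal (fun i => !(s i)) := by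
  unfold Bal at *
  have e1 : (Finset.univ.filter (fun i => (!(s i)) = true)) =
      Finset.univ.filter (fun i => s i = false) := by
    ext i
    simp
  have e2 : (Finset.univ.filter (fun i => (!(s i)) = false)) =
      Finset.univ.filter (fun i => s i = true) := by
    ext i
    simp
  rw [e1, e2, hs]

end p_small2Aux

open p_small2Aux in
theorem p_small2 (h1 : S_relabel) (h2 : S_flip) : S_small2 := by
  intro ι _ _ hc u v hu hv hne
  by_cases ht : ∀ a, u.2 = some a → u.1 a = true
  · exact from_true h1 hc u v hu hv hne ht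
  · push Not at ht
    obtain ⟨a, ha, ha2⟩ := ht
    have ha3 : u.1 a = false := by simpa using ha2
    have h3 := from_true h1 hc ((fun i => !(u.1 i)), u.2) ((fun i => !(v.1 i)), v.2)
      (bal_not hu) (bal_not hv) (by
        intro h4
        rw [Prod.mk.injEq] at h4
        apply hne
        refine Prod.ext ?_ h4.2
        funext i
        have h5 := congrFun h4.1 i
        simpa using h5)
      (by
        intro b hb
        simp only at hb
        rw [ha, Option.some.injEq] at hb
        subst hb
        simp [ha3])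
    have h4 := h2 ι _ _ h3
    simpa using h4

end Pool.Agent.MPc603ed
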