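import Pool.Agent.Lib.MP_c603ed_co.Spec1

/-!
# MP_c603ed_co: the star orbit without marks
-/

set_option autoImplicit false

namespace Pool.Agent.MPc603ed

open Lt

namespace p_star0Aux

/-- a letter of a word without `T` which is not `U` is `Z` -/
theorem eq_Z {d : Lt} (h1 : d ≠ U) (h2 : d ≠ T) : d = Z := by
  cases d with
  | U => exact absurd rfl h1
  | Z => rfl
  | T => exact absurd rfl h2

/-- the root letter is `Z` if there is no `T` -/
theorem root_Z {n : ℕ} (s : St n 0) : s.1.1 = Z := by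
  have h := s.2.2.2.2
  refine eq_Z s.2.1 ?_
  intro hT
  rw [hT, List.count_cons_self] at h
  exact absurd h (Nat.succ_ne_zero _)

/-- the two words of the star orbit -/
def Two (n : ℕ) (s : St n 0) : Prop := s.1.2 = UZ n ∨ s.1.2 = U :: (UZ (n - 1) ++ [Z])

theorem step {n : ℕ} (ρ : St n 0 → St n 0) (hn : 1 ≤ n) (h : RhoSpec ρ) {s : St n 0}
    (hs : Two n s) : Two n (ρ s) := by
  obtain ⟨k, rfl⟩ : ∃ k, n = k + 1 := ⟨n - 1, by omega⟩
  rcases hs with hs | hs
  · right
    have h1 := h s [] (UZ k) Z Dy.nil (by decide) (Dy.uz k) (by rw [hs]; rfl)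
    rw [h1, root_Z s]
    rfl
  · left
    have h1 := h s (UZ k) [] Z (Dy.uz k) (by decide) Dy.nil (by rw [hs]; rfl)
    rw [h1, root_Z s]
    show UZ k ++ U :: ([] ++ [Z]) = UZ (k + 1)
    rw [UZ_add k 1]
    rfl

theorem back {n : ℕ} (ρ : Equiv.Perm (St n 0)) (hn : 1 ≤ n) (h : RhoSpec ρ) (hf : Finite (St n 0))
    {s : St n 0} (hs : Two n (ρ s)) : Two n s := by
  have hfo := (isOfFinOrder_of_finite ρ)
  obtain ⟨N, hN, hN1⟩ := hfo.exists_pow_eq_one
  have key : ∀ j, Two n ((ρ ^ j) (ρ s)) := by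
    intro j
    induction j with
    | zero => exact hs
    | succ j ih =>
      have h1 := step ρ hn h ih
      rw [pow_succ', Equiv.Perm.mul_apply]
      exact h1
  have h2 := key (N - 1)
  rw [← Equiv.Perm.mul_apply, ← pow_succ, Nat.sub_add_cancel hN, hN1] at h2
  exact h2

theorem fin_St (n m : ℕ) : Finite (St n m) := by
  refine Finite.of_injective
    (fun s : St n m => ((s.1.1, ⟨s.1.2, s.2.2.2.1⟩) : Lt × List.Vector Lt (2 * n))) ?_
  intro s t h
  have h1 := congrArg Prod.fst h
  have h2 := congrArg Subtype.val (congrArg Prod.snd h)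
  exact Subtype.ext (Prod.ext h1 h2)

end p_star0Aux

open p_star0Aux

theorem p_star0 : S_star0 := by
  intro n ρ hn h s hs
  obtain ⟨k, hk⟩ := hs
  have h0 : Two n (ρ^[k] s) := Or.inl (by rw [hk])
  clear hk
  induction k with
  | zero => exact h0
  | succ k ih =>
    rw [Function.iterate_succ_apply'] at h0
    exact ih (back ρ hn h (fin_St n 0) h0)

end Pool.Agent.MPc603ed
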