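import Pool.Agent.Lib.MP_c603ed_co.Spec1

/-!
# MP_c603ed_co: the supports are disjoint
-/

namespace Pool.Agent.MPc603ed

open Lt

namespace p_supAux

/-- the elements `σ^k P(e; s)` -/
theorem pw {n m : ℕ} (ρ : Equiv.Perm (St n m)) (e : ZMod (2 * n + 1)) (s : St n m) :
    (sig ρ ^ 0) ((false, e, s) : AV n m) = (false, e, s) ∧
    (sig ρ ^ 1) ((false, e, s) : AV n m) = (true, e + 1, ρ s) ∧
    (sig ρ ^ 2) ((false, e, s) : AV n m) = (false, e + 1, ρ s) ∧
    (sig ρ ^ 3) ((false, e, s) : AV n m) = (true, e + 2, ρ (ρ s)) ∧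
    (sig ρ ^ 4) ((false, e, s) : AV n m) = (false, e + 2, ρ (ρ s)) ∧
    (sig ρ ^ 5) ((false, e, s) : AV n m) = (true, e + 3, ρ (ρ (ρ s))) := by
  have e2 : e + 1 + 1 = e + 2 := by ring
  have e3 : e + 2 + 1 = e + 3 := by ring
  refine ⟨rfl, rfl, rfl, ?_, ?_, ?_⟩
  · simp only [pow_succ', pow_zero, Equiv.Perm.mul_apply, Equiv.Perm.one_apply, sig_P, sig_Q, e2]
  · simp only [pow_succ', pow_zero, Equiv.Perm.mul_apply, Equiv.Perm.one_apply, sig_P, sig_Q, e2]
  · simp only [pow_succ', pow_zero, Equiv.Perm.mul_apply, Equiv.Perm.one_apply, sig_P, sig_Q, e2, e3]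

/-- small numbers are different modulo `2 n + 1 ≥ 7` -/
theorem cast_inj {n : ℕ} (hn : 3 ≤ n) (a b : ℕ) (ha : a < 7) (hb : b < 7)
    (h : ((a : ℕ) : ZMod (2 * n + 1)) = ((b : ℕ) : ZMod (2 * n + 1))) : a = b := by
  have := congrArg ZMod.val h
  rw [ZMod.val_natCast, ZMod.val_natCast, Nat.mod_eq_of_lt (by omega), Nat.mod_eq_of_lt (by omega)] at this
  exact this

/-- type, shift and state of `σ^k P(e; s)`, `k < 6` -/
theorem pw_all {n m : ℕ} (ρ : Equiv.Perm (St n m)) (e : ZMod (2 * n + 1)) (s : St n m) (k : ℕ)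
    (hk : k < 6) : ∃ (j : ℕ) (t : St n m), ρ.SameCycle t s ∧ j ≤ 3 ∧
      (((sig ρ ^ k) ((false, e, s) : AV n m) = (false, e + (j : ℕ), t) ∧ k = 2 * j) ∨
        ((sig ρ ^ k) ((false, e, s) : AV n m) = (true, e + (j : ℕ), t) ∧ k + 1 = 2 * j)) := by
  obtain ⟨h0, h1, h2, h3, h4, h5⟩ := pw ρ e s
  have s1 : ρ.SameCycle (ρ s) s := (Equiv.Perm.sameCycle_apply_left).2 (Equiv.Perm.SameCycle.refl _ _)
  have s2 : ρ.SameCycle (ρ (ρ s)) s := (Equiv.Perm.sameCycle_apply_left).2 s1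
  have s3 : ρ.SameCycle (ρ (ρ (ρ s))) s := (Equiv.Perm.sameCycle_apply_left).2 s2
  interval_cases k
  · exact ⟨0, s, Equiv.Perm.SameCycle.refl _ _, by norm_num, Or.inl ⟨by rw [h0]; simp, rfl⟩⟩
  · exact ⟨1, ρ s, s1, by norm_num, Or.inr ⟨by rw [h1]; simp, rfl⟩⟩
  · exact ⟨1, ρ s, s1, by norm_num, Or.inl ⟨by rw [h2]; simp, rfl⟩⟩
  · exact ⟨2, ρ (ρ s), s2, by norm_num, Or.inr ⟨by rw [h3]; simp, rfl⟩⟩
  · exact ⟨2, ρ (ρ s), s2, by norm_num, Or.inl ⟨by rw [h4]; simp, rfl⟩⟩
  · exact ⟨3, ρ (ρ (ρ s)), s3, by norm_num, Or.inr ⟨by rw [h5]; simp, rfl⟩⟩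

end p_supAux

open p_supAux in
theorem p_sup : S_sup := by
  intro n m ρ hn hρ I X Y sh hsh hHex hXX hYX
  -- the shift is a cast
  have hshc : ∀ i, ∃ a : ℕ, sh i = ((a : ℕ) : ZMod (2 * n + 1)) ∧ (a = 1 ∨ a = 4) := by
    intro i
    rcases hsh i with h | h
    · exact ⟨1, by rw [h]; simp, Or.inl rfl⟩
    · exact ⟨4, by rw [h]; simp, Or.inr rfl⟩
  have key : ∀ (i : I) (k : Fin 7), k ≠ 6 →
      hsup (sig ρ) (fun i => ((false, sh i, X i) : AV n m)) (fun i => (false, sh i, Y i)) i k =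
        (sig ρ ^ (k : ℕ)) (false, sh i, X i) := by
    intro i k hk
    unfold hsup
    rw [if_neg hk]
  have key6 : ∀ (i : I),
      hsup (sig ρ) (fun i => ((false, sh i, X i) : AV n m)) (fun i => (false, sh i, Y i)) i 6 =
        (false, sh i, Y i) := by
    intro i
    unfold hsup
    rw [if_pos rfl]
  have hlt : ∀ k : Fin 7, k ≠ 6 → (k : ℕ) < 6 := by decide
  -- the y's are not the powers
  have hYP : ∀ (i i' : I) (k : ℕ), k < 6 →
      (sig ρ ^ k) ((false, sh i', X i') : AV n m) ≠ (false, sh i, Y i) := by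
    intro i i' k hk h
    obtain ⟨j, t, ht, hj, h1⟩ := pw_all ρ (sh i') (X i') k hk
    rcases h1 with ⟨h1, hkj⟩ | ⟨h1, hkj⟩
    · rw [h1] at h
      have e1 : sh i' + ((j : ℕ) : ZMod (2 * n + 1)) = sh i := congrArg (fun z : AV n m => z.2.1) h
      have e2 : t = Y i := congrArg (fun z : AV n m => z.2.2) h
      subst e2
      have hne := hYX i i' ht
      obtain ⟨a, ha, ha'⟩ := hshc i
      obtain ⟨a', hb, hb'⟩ := hshc i'
      rw [ha, hb] at e1 hne
      rw [← Nat.cast_add] at e1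
      have := cast_inj hn _ _ (by omega) (by omega) e1
      have hne' : a ≠ a' := fun h => hne (by rw [h])
      omega
    · rw [h1] at h
      have e1 : true = false := congrArg (fun z : AV n m => z.1) h
      exact absurd e1 (by decide)
  intro i k i' k' h
  by_cases hk : k = 6
  · subst hk
    by_cases hk' : k' = 6
    · subst hk'
      rw [key6, key6] at h
      have e1 : sh i = sh i' := congrArg (fun z : AV n m => z.2.1) h
      have e2 : Y i = Y i' := congrArg (fun z : AV n m => z.2.2) h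
      refine ⟨?_, rfl⟩
      apply hXX
      have hX : X i = X i' := by
        obtain ⟨c, u, v, hu, hv, h1, h2⟩ := hHex i
        obtain ⟨c', u', v', hu', hv', h1', h2'⟩ := hHex i'
        rw [e2, h2'] at h2
        have h3 := congrArg Prod.fst h2
        have h4 := congrArg Prod.snd h2
        simp only [List.cons.injEq, true_and] at h3 h4
        apply Subtype.ext
        rw [h1, h1', h3, h4]
      rw [hX]
    · exfalso
      rw [key6, key i' k' hk'] at h
      exact hYP i i' k' (hlt k' hk') h.symm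
  · by_cases hk' : k' = 6
    · exfalso
      subst hk'
      rw [key6, key i k hk] at h
      exact hYP i' i k (hlt k hk) h
    · rw [key i k hk, key i' k' hk'] at h
      obtain ⟨j, t, ht, hj, h1⟩ := pw_all ρ (sh i) (X i) k (hlt k hk)
      obtain ⟨j', t', ht', hj', h1'⟩ := pw_all ρ (sh i') (X i') k' (hlt k' hk')
      have e2 : t = t' := by
        rcases h1 with ⟨h1, _⟩ | ⟨h1, _⟩ <;> rcases h1' with ⟨h1', _⟩ | ⟨h1', _⟩ <;>
          (rw [h1, h1'] at h; exact congrArg (fun z : AV n m => z.2.2) h)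
      subst e2
      have hi : i = i' := hXX i i' (ht.symm.trans ht')
      subst hi
      refine ⟨rfl, ?_⟩
      have e3 : sh i + ((j : ℕ) : ZMod (2 * n + 1)) = sh i + ((j' : ℕ) : ZMod (2 * n + 1)) := by
        rcases h1 with ⟨h1, _⟩ | ⟨h1, _⟩ <;> rcases h1' with ⟨h1', _⟩ | ⟨h1', _⟩ <;>
          (rw [h1, h1'] at h; exact congrArg (fun z : AV n m => z.2.1) h)
      have e4 : j = j' := cast_inj hn _ _ (by omega) (by omega) (add_left_cancel e3)
      subst e4
      apply Fin.ext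
      rcases h1 with ⟨h1, hh⟩ | ⟨h1, hh⟩ <;> rcases h1' with ⟨h1', hh'⟩ | ⟨h1', hh'⟩
      · omega
      · exfalso
        rw [h1, h1'] at h
        have e1 : false = true := congrArg (fun z : AV n m => z.1) h
        exact absurd e1 (by decide)
      · exfalso
        rw [h1, h1'] at h
        have e1 : true = false := congrArg (fun z : AV n m => z.1) h
        exact absurd e1 (by decide)
      · omega

end Pool.Agent.MPc603ed
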