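import Pool.Agent.Lib.MP_c603ed_co.Spec3

/-!
# MP_c603ed_co: transport of path covers, part A
-/

set_option autoImplicit false

namespace Pool.Agent.MPc603ed

open Lt

namespace p_trAAux

/-- the symbol of a letter -/
def sy (l : Bool) (c : Lt) : Bool := if c = Z then l else !l

theorem tl_eq_U {l b : Bool} : tl l b = U ↔ b = !l := by
  cases l <;> cases b <;> simp [tl]

theorem tl_ne_T {l b : Bool} : tl l b ≠ T := by
  cases l <;> cases b <;> simp [tl]

theorem sy_tl (l b : Bool) : sy l (tl l b) = b := by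
  cases l <;> cases b <;> simp [tl, sy]

theorem tl_sy {l : Bool} {c : Lt} (hc : c ≠ T) : tl l (sy l c) = c := by
  cases l <;> cases c <;> simp_all [tl, sy]

/-- the inverse map -/
def g {n : ℕ} {ι : Type} (e : Option (ZMod (2 * n + 1)) ≃ ι) (l : Bool) (w : Str n) : GV ι :=
  (fun i => match e.symm i with
    | none => sy l w.1
    | some x => sy l (w.2 x), some (e none))

theorem g_none {n : ℕ} {ι : Type} (e : Option (ZMod (2 * n + 1)) ≃ ι) (l : Bool) (w : Str n) :
    (g e l w).1 (e none) = sy l w.1 := by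
  simp [g]

theorem g_some {n : ℕ} {ι : Type} (e : Option (ZMod (2 * n + 1)) ≃ ι) (l : Bool) (w : Str n)
    (x : ZMod (2 * n + 1)) : (g e l w).1 (e (some x)) = sy l (w.2 x) := by
  simp [g]

theorem ext_e {n : ℕ} {ι : Type} (e : Option (ZMod (2 * n + 1)) ≃ ι) {a b : ι → Bool}
    (h1 : a (e none) = b (e none)) (h2 : ∀ x, a (e (some x)) = b (e (some x))) : a = b := by
  funext i
  obtain ⟨o, rfl⟩ := e.surjective i
  cases o with
  | none => exact h1
  | some x => exact h2 x

theorem g_strA {n : ℕ} {ι : Type} (e : Option (ZMod (2 * n + 1)) ≃ ι) (l : Bool)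
    (v : GV ι) (hv : v.2 = some (e none)) : g e l (strA e l v) = v := by
  refine Prod.ext ?_ hv.symm
  apply ext_e e
  · rw [g_none]; exact sy_tl l _
  · intro x
    rw [g_some]; exact sy_tl l _

theorem strA_g {n : ℕ} {ι : Type} (e : Option (ZMod (2 * n + 1)) ≃ ι) (l : Bool)
    (w : Str n) (h1 : w.1 ≠ T) (h2 : ∀ x, w.2 x ≠ T) : strA e l (g e l w) = w := by
  refine Prod.ext ?_ ?_
  · change tl l ((g e l w).1 (e none)) = w.1
    rw [g_none, tl_sy h1]
  · funext x
    change tl l ((g e l w).1 (e (some x))) = w.2 x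
    rw [g_some, tl_sy (h2 x)]

theorem card_opt {n : ℕ} {ι : Type} [Fintype ι] (e : Option (ZMod (2 * n + 1)) ≃ ι)
    (P : ι → Prop) [DecidablePred P] :
    (Finset.univ.filter (fun i : ι => P i)).card =
      (Finset.univ.filter (fun x : ZMod (2 * n + 1) => P (e (some x)))).card +
        (if P (e none) then 1 else 0) := by
  rw [Finset.card_filter, Finset.card_filter, ← Equiv.sum_comp e, Fintype.sum_option, add_comm]

theorem card_ι {n : ℕ} {ι : Type} [Fintype ι] (e : Option (ZMod (2 * n + 1)) ≃ ι) :
    Fintype.card ι = 2 * n + 2 := by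
  rw [← Fintype.card_congr e, Fintype.card_option, ZMod.card]

theorem cls_T {n : ℕ} {w : Str n} (hw : w ∈ Cls n 0) : w.1 ≠ T ∧ ∀ x, w.2 x ≠ T := by
  have h := hw.2
  rw [Nat.add_eq_zero_iff] at h
  refine ⟨fun h1 => ?_, fun x hx => ?_⟩
  · rw [if_pos h1] at h
    exact one_ne_zero h.2
  · have h2 := Finset.card_eq_zero.mp h.1
    rw [Finset.filter_eq_empty_iff] at h2
    exact h2 (Finset.mem_univ x) hx

theorem strA_mem {n : ℕ} {ι : Type} [Fintype ι] [DecidableEq ι]
    (e : Option (ZMod (2 * n + 1)) ≃ ι) (l : Bool) (v : GV ι) (hv : Bal v.1) :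
    strA e l v ∈ Cls n 0 := by
  have h1 := hv.card (card_ι e) (!l)
  rw [card_opt e] at h1
  refine ⟨?_, ?_⟩
  · simp only [strA, tl_eq_U]
    exact h1
  · simp only [strA, tl_ne_T, if_false, Finset.filter_false, Finset.card_empty]

theorem g_mem {n : ℕ} {ι : Type} [Fintype ι] [DecidableEq ι]
    (e : Option (ZMod (2 * n + 1)) ≃ ι) (l : Bool) (w : Str n) (hw : w ∈ Cls n 0) :
    g e l w ∈ PA (e none) := by
  refine ⟨?_, rfl⟩
  obtain ⟨h1, h2⟩ := cls_T hw
  have h3 := strA_g e l w h1 h2
  have h4 := hw.1
  rw [← h3] at h4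
  simp only [strA, tl_eq_U] at h4
  have h5 := card_opt e (fun i => (g e l w).1 i = !l)
  rw [h4] at h5
  have h6 := Finset.card_filter_add_card_filter_not (s := (Finset.univ : Finset ι))
    (fun i => (g e l w).1 i = !l)
  rw [h5, Finset.card_univ, card_ι e] at h6
  have h7 : (Finset.univ.filter (fun i => ¬ (g e l w).1 i = !l)).card =
      (Finset.univ.filter (fun i => (g e l w).1 i = l)).card := by
    congr 1
    ext i
    simp only [Finset.mem_filter, Finset.mem_univ, true_and]
    cases l <;> cases (g e _ w).1 i <;> simp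
  rw [h7] at h6
  unfold Bal
  cases l
  · simp only [Bool.not_false] at h5
    rw [h5]
    omega
  · simp only [Bool.not_true] at h5
    rw [h5]
    omega

end p_trAAux

open p_trAAux in
theorem p_trA : S_trA := by
  intro n ι _ _ e l ps hps h
  have hinj : Set.InjOn (g e l) (Cls n 0) := by
    intro a ha b hb hab
    obtain ⟨h1, h2⟩ := cls_T ha
    obtain ⟨h3, h4⟩ := cls_T hb
    rw [← strA_g e l a h1 h2, ← strA_g e l b h3 h4, hab]
  have hR : ∀ a ∈ Cls n 0, ∀ b ∈ Cls n 0, sadj a b → gadj (g e l a) (g e l b) := by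
    intro a ha b hb hab
    obtain ⟨h1, h2⟩ := cls_T ha
    obtain ⟨i, hi, rfl⟩ := hab
    have hne : (g e l a).1 (e none) ≠ (g e l a).1 (e (some i)) := by
      rw [g_none, g_some]
      intro h3
      apply hi
      rw [← tl_sy (l := l) h1, ← tl_sy (l := l) (h2 i), h3]
    have h3 := gadj.sw (g e l a).1 (e none) (e (some i)) hne
    have h4 : g e l (a.2 i, Function.update a.2 i a.1) =
        (swp (g e l a).1 (e none) (e (some i)), some (e none)) := by
      refine Prod.ext ?_ rfl
      apply ext_e e
      · rw [g_none]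
        dsimp only
        rw [swp_apply_left, g_some]
      · intro x
        rw [g_some]
        dsimp only
        by_cases hx : x = i
        · subst hx
          rw [Function.update_self, swp_apply_right, g_none]
        · rw [Function.update_of_ne hx, swp_apply_of_ne, g_some]
          · intro h5
            exact absurd (e.injective h5) (by simp)
          · intro h5
            exact hx (Option.some.inj (e.injective h5))
    rw [h4]
    exact h3
  have h5 := h.map hinj hR
  have himg : g e l '' Cls n 0 = PA (e none) := by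
    ext v
    constructor
    · rintro ⟨w, hw, rfl⟩
      exact g_mem e l w hw
    · intro hv
      exact ⟨strA e l v, strA_mem e l v hv.1, g_strA e l v hv.2⟩
  rw [himg, List.map_map] at h5
  have h6 : ps.map (Prod.map (g e l) (g e l) ∘ Prod.map (strA e l) (strA e l)) = ps := by
    conv_rhs => rw [← List.map_id ps]
    apply List.map_congr_left
    intro p hp
    obtain ⟨hp1, hp2⟩ := hps p hp
    refine Prod.ext ?_ ?_
    · exact g_strA e l p.1 hp1.2
    · exact g_strA e l p.2 hp2.2
  rw [h6] at h5
  exact h5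

end Pool.Agent.MPc603ed
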