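import Pool.Agent.Lib.MP_c603ed_co.Spec3

/-!
# MP_c603ed_co: transport of path covers, part `B`
-/

set_option autoImplicit false
set_option linter.unusedSectionVars false

namespace Pool.Agent.MPc603ed

open Lt

namespace p_trBAux

theorem tl_ne_T (l b : Bool) : tl l b ≠ T := by
  unfold tl
  split_ifs <;> simp

theorem tl_inj {l a b : Bool} (h : tl l a = tl l b) : a = b := by
  revert h
  cases l <;> cases a <;> cases b <;> simp [tl]

theorem tl_U {l b : Bool} : tl l b = U ↔ b = !l := by
  cases l <;> cases b <;> simp [tl]

section

variable {n : ℕ} {ι : Type} [Fintype ι] [DecidableEq ι] (e : Option (ZMod (2 * n + 1)) ≃ ι)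
  (l : Bool)

theorem str_none (s : ι → Bool) :
    strB e l (s, none) = (T, fun x => tl l (s (e (some x)))) := by
  unfold strB
  simp

theorem str_some (s : ι → Bool) (p : ι) :
    strB e l (s, some p) =
      (tl l (s p), fun x => if p = e (some x) then T else tl l (s (e (some x)))) := by
  unfold strB
  simp

/-- the domain -/
def Dm (v : GV ι) : Prop := v.1 (e none) = l ∧ v.2 ≠ some (e none)

theorem inj {v w : GV ι} (hv : Dm e l v) (hw : Dm e l w) (h : strB e l v = strB e l w) :
    v = w := by
  obtain ⟨s, o⟩ := v
  obtain ⟨t, q⟩ := w
  have hext : ∀ (s t : ι → Bool), s (e none) = l → t (e none) = l →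
      (∀ x, s (e (some x)) = t (e (some x))) → s = t := by
    intro s t h1 h2 h3
    funext i
    obtain ⟨o, rfl⟩ := e.surjective i
    cases o with
    | none => rw [h1, h2]
    | some x => exact h3 x
  obtain ⟨hv1, hv2⟩ := hv
  obtain ⟨hw1, hw2⟩ := hw
  cases o with
  | none =>
    cases q with
    | none =>
      rw [str_none, str_none] at h
      have h2 := congrArg Prod.snd h
      have : s = t := hext s t hv1 hw1 fun x => tl_inj (congrFun h2 x)
      rw [this]
    | some p =>
      rw [str_none, str_some] at h
      exact absurd (congrArg Prod.fst h).symm (tl_ne_T _ _)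
  | some p =>
    cases q with
    | none =>
      rw [str_none, str_some] at h
      exact absurd (congrArg Prod.fst h) (tl_ne_T _ _)
    | some p' =>
      rw [str_some, str_some] at h
      have h1 := congrArg Prod.fst h
      have h2 := congrArg Prod.snd h
      simp only at h1 h2
      have hpp : p = p' := by
        obtain ⟨o, rfl⟩ := e.surjective p
        cases o with
        | none => exact absurd rfl hv2
        | some x =>
          have h3 := congrFun h2 x
          rw [if_pos rfl] at h3
          by_cases h4 : p' = e (some x)
          · exact h4.symm
          · rw [if_neg h4] at h3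
            exact absurd h3.symm (tl_ne_T _ _)
      subst hpp
      have : s = t := by
        refine hext s t hv1 hw1 fun x => ?_
        by_cases h4 : p = e (some x)
        · rw [← h4]
          exact tl_inj h1
        · have h3 := congrFun h2 x
          rw [if_neg h4, if_neg h4] at h3
          exact tl_inj h3
      rw [this]

theorem adj {v w : GV ι} (hv : Dm e l v) (hw : Dm e l w)
    (h : sadj (strB e l v) (strB e l w)) : gadj v w := by
  obtain ⟨s, o⟩ := v
  obtain ⟨x, hx1, hx2⟩ := h
  obtain ⟨hv1, hv2⟩ := hv
  simp only at hv1 hv2
  cases o with
  | none =>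
    have h1 : strB e l w = strB e l (s, some (e (some x))) := by
      rw [hx2, str_none, str_some]
      refine Prod.ext rfl ?_
      funext y
      by_cases hy : y = x
      · subst hy
        simp
      · have h3 : e (some x) ≠ e (some y) := by
          intro h4
          exact hy (Option.some.inj (e.injective h4)).symm
        simp only [Function.update_of_ne hy]
        rw [if_neg h3]
    have h2 := inj e l hw (show Dm e l (s, some (e (some x))) from ⟨hv1, by
      intro h4
      have h5 := e.injective (Option.some.inj h4)
      exact absurd h5 (by simp)⟩) h1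
    rw [h2]
    exact gadj.out s _
  | some p =>
    obtain ⟨o, rfl⟩ := e.surjective p
    cases o with
    | none => exact absurd rfl hv2
    | some y0 =>
      by_cases hxy : x = y0
      · subst hxy
        have h1 : strB e l w = strB e l (s, none) := by
          rw [hx2, str_none, str_some]
          refine Prod.ext ?_ ?_
          · simp
          · funext y
            by_cases hy : y = x
            · subst hy
              simp
            · have h3 : e (some x) ≠ e (some y) := by
                intro h4
                exact hy (Option.some.inj (e.injective h4)).symm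
              simp only [Function.update_of_ne hy]
              rw [if_neg h3]
        have h2 := inj e l hw (show Dm e l (s, none) from ⟨hv1, by simp⟩) h1
        rw [h2]
        exact gadj.inn s _
      · have hne : e (some y0) ≠ e (some x) := by
          intro h4
          exact hxy (Option.some.inj (e.injective h4)).symm
        have hnn : ∀ z, e none ≠ e (some z) := by
          intro z h4
          exact absurd (e.injective h4) (by simp)
        have hx3 : s (e (some y0)) ≠ s (e (some x)) := by
          intro h4
          rw [str_some] at hx1
          simp only at hx1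
          rw [if_neg hne, h4] at hx1
          exact hx1 rfl
        have h1 : strB e l w = strB e l (swp s (e (some y0)) (e (some x)), some (e (some y0))) := by
          rw [hx2, str_some, str_some]
          refine Prod.ext ?_ ?_
          · simp only
            rw [if_neg hne, swp_apply_left]
          · funext y
            by_cases hy : y = x
            · subst hy
              simp only [Function.update_self]
              rw [if_neg hne, swp_apply_right]
            · simp only [Function.update_of_ne hy]
              by_cases hy0 : y = y0
              · subst hy0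
                rw [if_pos rfl, if_pos rfl]
              · have h3 : e (some y0) ≠ e (some y) := by
                  intro h4
                  exact hy0 (Option.some.inj (e.injective h4)).symm
                have h4 : e (some x) ≠ e (some y) := by
                  intro h4
                  exact hy (Option.some.inj (e.injective h4)).symm
                rw [if_neg h3, if_neg h3, swp_apply_of_ne s h3.symm h4.symm]
        have h2 := inj e l hw (show Dm e l (swp s (e (some y0)) (e (some x)), some (e (some y0)))
          from ⟨by
            simp only
            rw [swp_apply_of_ne s (hnn _) (hnn _)]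
            exact hv1, hv2⟩) h1
        rw [h2]
        exact gadj.sw s _ _ hx3

include e in
theorem card_iota : Fintype.card ι = 2 * n + 2 := by
  rw [← Fintype.card_congr e, Fintype.card_option, ZMod.card]

/-- counting over the positions different from `e none` -/
theorem card_split (s : ι → Bool) (h : s (e none) = l) :
    (Finset.univ.filter (fun i => s i = !l)).card =
      (Finset.univ.filter (fun x => s (e (some x)) = !l)).card := by
  symm
  refine Finset.card_bij (fun x _ => e (some x)) ?_ ?_ ?_
  · intro x hx
    rw [Finset.mem_filter] at hx ⊢
    exact ⟨Finset.mem_univ _, hx.2⟩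
  · intro x _ y _ hxy
    exact Option.some.inj (e.injective hxy)
  · intro i hi
    rw [Finset.mem_filter] at hi
    obtain ⟨o, rfl⟩ := e.surjective i
    cases o with
    | none =>
      rw [h] at hi
      have := hi.2
      cases l <;> simp at this
    | some x =>
      refine ⟨x, ?_, rfl⟩
      rw [Finset.mem_filter]
      exact ⟨Finset.mem_univ _, hi.2⟩

theorem bal_iff (s : ι → Bool) (h : s (e none) = l) :
    Bal s ↔ (Finset.univ.filter (fun x => s (e (some x)) = !l)).card = n + 1 := by
  rw [← card_split e l s h]
  constructor
  · intro hb
    exact hb.card (card_iota e) _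
  · intro hc
    have h1 : (Finset.univ.filter (fun x => s x = true)).card
        + (Finset.univ.filter (fun x => s x = false)).card = 2 * n + 2 := by
      rw [← card_iota e, ← Finset.card_univ, ← Finset.card_union_of_disjoint]
      · congr 1
        ext x
        simp
      · rw [Finset.disjoint_filter]
        intro x _ h1 h2
        rw [h1] at h2
        exact absurd h2 (by simp)
    unfold Bal
    cases l
    · simp only [Bool.not_false] at hc
      omega
    · simp only [Bool.not_true] at hc
      omega

theorem countU (v : GV ι) (hv : v.2 ≠ some (e none)) :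
    (Finset.univ.filter (fun x => (strB e l v).2 x = U)).card +
      (if (strB e l v).1 = U then 1 else 0) =
      (Finset.univ.filter (fun x => v.1 (e (some x)) = !l)).card := by
  obtain ⟨s, o⟩ := v
  cases o with
  | none =>
    rw [str_none]
    simp only [tl_U]
    simp
  | some p =>
    obtain ⟨o, rfl⟩ := e.surjective p
    cases o with
    | none => exact absurd rfl hv
    | some y0 =>
      rw [str_some]
      simp only [tl_U]
      by_cases h : s (e (some y0)) = !l
      · rw [if_pos h]
        have h1 : Finset.univ.filter (fun x => s (e (some x)) = !l) =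
            insert y0 (Finset.univ.filter (fun x =>
              (if e (some y0) = e (some x) then T else tl l (s (e (some x)))) = U)) := by
          ext x
          simp only [Finset.mem_filter, Finset.mem_univ, true_and, Finset.mem_insert]
          by_cases hx : x = y0
          · subst hx
            simp [h]
          · have h3 : e (some y0) ≠ e (some x) := by
              intro h4
              exact hx (Option.some.inj (e.injective h4)).symm
            rw [if_neg h3, tl_U]
            simp [hx]
        rw [h1, Finset.card_insert_of_notMem]
        simp
      · rw [if_neg h, add_zero]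
        congr 1
        ext x
        simp only [Finset.mem_filter, Finset.mem_univ, true_and]
        by_cases hx : x = y0
        · subst hx
          simp [h]
        · have h3 : e (some y0) ≠ e (some x) := by
            intro h4
            exact hx (Option.some.inj (e.injective h4)).symm
          rw [if_neg h3, tl_U]

theorem countT (v : GV ι) (hv : v.2 ≠ some (e none)) :
    (Finset.univ.filter (fun x => (strB e l v).2 x = T)).card +
      (if (strB e l v).1 = T then 1 else 0) = 1 := by
  obtain ⟨s, o⟩ := v
  cases o with
  | none =>
    rw [str_none]
    simp [tl_ne_T]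
  | some p =>
    obtain ⟨o, rfl⟩ := e.surjective p
    cases o with
    | none => exact absurd rfl hv
    | some y0 =>
      rw [str_some]
      simp only [tl_ne_T, if_false, add_zero]
      rw [Finset.card_eq_one]
      refine ⟨y0, ?_⟩
      ext x
      simp only [Finset.mem_filter, Finset.mem_univ, true_and, Finset.mem_singleton]
      by_cases hx : x = y0
      · subst hx
        simp
      · have h3 : e (some y0) ≠ e (some x) := by
          intro h4
          exact hx (Option.some.inj (e.injective h4)).symm
        rw [if_neg h3]
        simp [hx, tl_ne_T]

/-- the inverse of `tl` -/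
def ut (l : Bool) (x : Lt) : Bool := if x = Z then l else !l

theorem tl_ut {l : Bool} {x : Lt} (h : x ≠ T) : tl l (ut l x) = x := by
  cases l <;> cases x <;> simp [tl, ut] at h ⊢

theorem surj (v : Str n)
    (hT : (Finset.univ.filter (fun x => v.2 x = T)).card + (if v.1 = T then 1 else 0) = 1) :
    ∃ w : GV ι, Dm e l w ∧ strB e l w = v := by
  obtain ⟨c, f⟩ := v
  simp only at hT
  by_cases hc : c = T
  · rw [if_pos hc] at hT
    have h0 : (Finset.univ.filter (fun x => f x = T)).card = 0 := by omega
    rw [Finset.card_eq_zero, Finset.filter_eq_empty_iff] at h0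
    refine ⟨(fun i => match e.symm i with
      | none => l
      | some x => ut l (f x), none), ⟨by simp, by simp⟩, ?_⟩
    rw [str_none]
    refine Prod.ext hc.symm ?_
    funext x
    simp only [Equiv.symm_apply_apply]
    exact tl_ut (h0 (Finset.mem_univ x))
  · rw [if_neg hc, add_zero, Finset.card_eq_one] at hT
    obtain ⟨x0, hx0⟩ := hT
    have h1 : ∀ x, f x = T ↔ x = x0 := by
      intro x
      have := Finset.ext_iff.1 hx0 x
      simpa using this
    refine ⟨(fun i => match e.symm i with
      | none => l
      | some x => if x = x0 then ut l c else ut l (f x), some (e (some x0))), ⟨by simp, ?_⟩, ?_⟩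
    · intro h4
      exact absurd (e.injective (Option.some.inj h4)) (by simp)
    · rw [str_some]
      refine Prod.ext ?_ ?_
      · simp only [Equiv.symm_apply_apply, if_true]
        exact tl_ut hc
      · funext x
        simp only [Equiv.symm_apply_apply]
        by_cases hx : x = x0
        · subst hx
          rw [if_pos rfl]
          exact ((h1 x).2 rfl).symm
        · have h3 : e (some x0) ≠ e (some x) := by
            intro h4
            exact hx (Option.some.inj (e.injective h4)).symm
          rw [if_neg h3, if_neg hx]
          exact tl_ut fun h => hx ((h1 x).1 h)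

theorem mem_PB {v : GV ι} : v ∈ PB (e none) l ↔ Dm e l v ∧ Bal v.1 := by
  constructor
  · rintro ⟨h1, h2, h3⟩
    exact ⟨⟨h2, h3⟩, h1⟩
  · rintro ⟨⟨h2, h3⟩, h1⟩
    exact ⟨h1, h2, h3⟩

theorem maps {v : GV ι} (hv : v ∈ PB (e none) l) : strB e l v ∈ Cls n 1 := by
  obtain ⟨⟨h1, h2⟩, h3⟩ := (mem_PB e l).1 hv
  refine ⟨?_, countT e l v h2⟩
  rw [countU e l v h2]
  exact (bal_iff e l v.1 h1).1 h3

theorem surjPB {v : Str n} (hv : v ∈ Cls n 1) : ∃ w ∈ PB (e none) l, strB e l w = v := by
  obtain ⟨w, hw, rfl⟩ := surj e l v hv.2
  refine ⟨w, (mem_PB e l).2 ⟨hw, ?_⟩, rfl⟩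
  rw [bal_iff e l w.1 hw.1, ← countU e l w hw.2]
  exact hv.1

end

end p_trBAux

open p_trBAux in
theorem p_trB : S_trB := by
  intro n ι _ _ e l D ps hD hps h
  classical
  have hinj : ∀ v ∈ PB (e none) l, ∀ w ∈ PB (e none) l, strB e l v = strB e l w → v = w :=
    fun v hv w hw hvw => inj e l ((mem_PB e l).1 hv).1 ((mem_PB e l).1 hw).1 hvw
  have hex : ∀ v : Str n, ∃ w : GV ι, v ∈ Cls n 1 → w ∈ PB (e none) l ∧ strB e l w = v := by
    intro v
    by_cases hv : v ∈ Cls n 1
    · obtain ⟨w, hw, hwv⟩ := surjPB e l hv
      exact ⟨w, fun _ => ⟨hw, hwv⟩⟩
    · exact ⟨(fun _ => false, none), fun h => absurd h hv⟩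
  choose g hg using hex
  have hgf : ∀ v ∈ PB (e none) l, g (strB e l v) = v := by
    intro v hv
    obtain ⟨h1, h2⟩ := hg _ (maps e l hv)
    exact hinj _ h1 _ hv h2
  have h1 := h.map (R' := gadj) (f := g)
    (by
      intro a ha b hb hab
      rw [← (hg a ha.1).2, ← (hg b hb.1).2, hab])
    (by
      intro a ha b hb hab
      obtain ⟨a1, a2⟩ := hg a ha.1
      obtain ⟨b1, b2⟩ := hg b hb.1
      rw [← a2, ← b2] at hab
      exact adj e l ((mem_PB e l).1 a1).1 ((mem_PB e l).1 b1).1 hab)
  have h2 : (ps.map (Prod.map (strB e l) (strB e l))).map (Prod.map g g) = ps := by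
    rw [List.map_map]
    conv_rhs => rw [← List.map_id ps]
    refine List.map_congr_left fun p hp => ?_
    obtain ⟨p1, p2⟩ := hps p hp
    refine Prod.ext ?_ ?_
    · exact hgf _ p1
    · exact hgf _ p2
  rw [h2] at h1
  refine h1.congr ?_
  ext v
  constructor
  · rintro ⟨w, ⟨hw1, hw2⟩, rfl⟩
    obtain ⟨a1, a2⟩ := hg w hw1
    refine ⟨a1, fun hd => hw2 ⟨g w, hd, a2⟩⟩
  · rintro ⟨hv1, hv2⟩
    refine ⟨strB e l v, ⟨maps e l hv1, ?_⟩, hgf v hv1⟩
    rintro ⟨w, hw, hwv⟩
    rw [hinj w (hD hw) v hv1 hwv] at hw
    exact hv2 hw

end Pool.Agent.MPc603ed
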