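import Pool.Agent.Lib.MP_c603ed_co.Basic2
import Pool.Agent.Lib.MP_c603ed_co.Spec4

/-!
# MP_c603ed_co: translation to strings over `Fin 3` and walks
-/

set_option autoImplicit false

namespace Pool.Agent.MPc603ed

/-- the positions different from `0` -/
abbrev TPos (a : ℕ) : Type := {i : Fin (2 * a + 1) // i ≠ 0}

/-- the symbol of a truth value -/
def tsym (b : Bool) : Fin 3 := if b then 1 else 0

theorem tsym_ne (b : Bool) : tsym b ≠ 2 := by cases b <;> decide

theorem tsym_inj {b c : Bool} (h : tsym b = tsym c) : b = c := by
  revert h; cases b <;> cases c <;> decide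

/-- the string with the symbol `2` in front -/
def tbase {a : ℕ} (s : TPos a → Bool) : Fin (2 * a + 1) → Fin 3 :=
  fun i => if h : i ≠ 0 then tsym (s ⟨i, h⟩) else 2

theorem tbase_zero {a : ℕ} (s : TPos a → Bool) : tbase s 0 = 2 := by simp [tbase]

theorem tbase_pos {a : ℕ} (s : TPos a → Bool) (p : TPos a) : tbase s p.1 = tsym (s p) := by
  unfold tbase
  rw [dif_pos p.2]

theorem tbase_inj {a : ℕ} {s t : TPos a → Bool} (h : tbase s = tbase t) : s = t := by
  funext p
  have := congrFun h p.1
  rw [tbase_pos, tbase_pos] at this
  exact tsym_inj this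

theorem tbase_eq_two {a : ℕ} (s : TPos a → Bool) (i : Fin (2 * a + 1)) : tbase s i = 2 ↔ i = 0 := by
  constructor
  · intro h
    by_contra hi
    have := tbase_pos s ⟨i, hi⟩
    rw [h] at this
    exact tsym_ne _ this.symm
  · rintro rfl
    exact tbase_zero s

/-- the string of a vertex -/
def tstr {a : ℕ} (w : GV (TPos a)) : Fin (2 * a + 1) → Fin 3 :=
  match w.2 with
  | none => tbase w.1
  | some p => tbase w.1 ∘ Equiv.swap 0 p.1

theorem tstr_none {a : ℕ} (s : TPos a → Bool) : tstr (s, none) = tbase s := rfl

theorem tstr_some {a : ℕ} (s : TPos a → Bool) (p : TPos a) :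
    tstr (s, some p) = tbase s ∘ Equiv.swap 0 p.1 := rfl

theorem tstr_inj {a : ℕ} {w w' : GV (TPos a)} (h : tstr w = tstr w') : w = w' := by
  obtain ⟨s, o⟩ := w
  obtain ⟨t, o'⟩ := w'
  cases o with
  | none =>
    cases o' with
    | none =>
      rw [tstr_none, tstr_none] at h
      rw [tbase_inj h]
    | some q =>
      exfalso
      have := congrFun h 0
      rw [tstr_none, tstr_some, tbase_zero, Function.comp_apply, Equiv.swap_apply_left,
        tbase_pos] at this
      exact tsym_ne _ this.symm
  | some p =>
    cases o' with
    | none =>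
      exfalso
      have := congrFun h 0
      rw [tstr_none, tstr_some, tbase_zero, Function.comp_apply, Equiv.swap_apply_left,
        tbase_pos] at this
      exact tsym_ne _ this
    | some q =>
      have hpq : p = q := by
        have := congrFun h p.1
        rw [tstr_some, tstr_some, Function.comp_apply, Function.comp_apply,
          Equiv.swap_apply_right, tbase_zero] at this
        have h2 := (tbase_eq_two t _).1 this.symm
        have h3 : Equiv.swap 0 q.1 (Equiv.swap 0 q.1 p.1) = Equiv.swap 0 q.1 0 := by rw [h2]
        rw [Equiv.swap_apply_self, Equiv.swap_apply_left] at h3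
        exact Subtype.ext h3
      subst hpq
      rw [tstr_some, tstr_some] at h
      have h2 : tbase s = tbase t := by
        funext k
        have := congrFun h (Equiv.swap 0 p.1 k)
        simpa using this
      rw [tbase_inj h2]

/-- counting is invariant under permutations -/
theorem tcount_perm {a : ℕ} (x : Fin (2 * a + 1) → Fin 3) (e : Equiv.Perm (Fin (2 * a + 1)))
    (c : Fin 3) :
    (Finset.univ.filter (fun i => (x ∘ e) i = c)).card = (Finset.univ.filter (fun i => x i = c)).card := by
  apply Finset.card_bij (fun i _ => e i)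
  · intro i hi
    simpa using hi
  · intro i _ j _ h
    exact e.injective h
  · intro j hj
    refine ⟨e.symm j, ?_, by simp⟩
    simpa using hj

theorem tbase_count_two {a : ℕ} (s : TPos a → Bool) :
    (Finset.univ.filter (fun i => tbase s i = 2)).card = 1 := by
  have : Finset.univ.filter (fun i => tbase s i = 2) = {0} := by
    ext i
    simp [tbase_eq_two]
  rw [this, Finset.card_singleton]

theorem tbase_count {a : ℕ} (s : TPos a → Bool) (b : Bool) :
    (Finset.univ.filter (fun i => tbase s i = tsym b)).card
      = (Finset.univ.filter (fun i => s i = b)).card := by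
  symm
  apply Finset.card_bij (fun i _ => i.1)
  · intro i hi
    simp only [Finset.mem_filter, Finset.mem_univ, true_and] at hi ⊢
    rw [tbase_pos, hi]
  · intro i _ j _ h
    exact Subtype.ext h
  · intro j hj
    simp only [Finset.mem_filter, Finset.mem_univ, true_and] at hj
    by_cases h0 : j = 0
    · exfalso
      rw [h0, tbase_zero] at hj
      exact tsym_ne _ hj.symm
    · refine ⟨⟨j, h0⟩, ?_, rfl⟩
      simp only [Finset.mem_filter, Finset.mem_univ, true_and]
      rw [tbase_pos s ⟨j, h0⟩] at hj
      exact tsym_inj hj

theorem tcard (a : ℕ) : Fintype.card (TPos a) = 2 * a := by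
  rw [Fintype.card_subtype_compl]
  simp

theorem tbal_card {a : ℕ} (s : TPos a → Bool) :
    Bal s ↔ ∀ b, (Finset.univ.filter (fun i => s i = b)).card = a := by
  have hsum : (Finset.univ.filter (fun i => s i = true)).card
      + (Finset.univ.filter (fun i => s i = false)).card = 2 * a := by
    have h := Finset.card_filter_add_card_filter_not (s := (Finset.univ : Finset (TPos a)))
      (p := fun i => s i = true)
    rw [Finset.card_univ, tcard] at h
    have h2 : (Finset.univ.filter (fun i => s i = false)) = (Finset.univ.filter (fun i => ¬ s i = true)) := by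
      ext i
      simp
    rw [h2]
    exact h
  unfold Bal
  constructor
  · intro h b
    cases b
    · omega
    · omega
  · intro h
    rw [h true, h false]

theorem tstr_count {a : ℕ} (w : GV (TPos a)) (c : Fin 3) :
    (Finset.univ.filter (fun i => tstr w i = c)).card
      = (Finset.univ.filter (fun i => tbase w.1 i = c)).card := by
  obtain ⟨s, o⟩ := w
  cases o with
  | none => rfl
  | some p => exact tcount_perm (tbase s) (Equiv.swap 0 p.1) c

theorem tstr_mem {a : ℕ} (w : GV (TPos a)) (hw : Bal w.1) :
    (Finset.univ.filter (fun i => tstr w i = 0)).card = a ∧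
    (Finset.univ.filter (fun i => tstr w i = 1)).card = a ∧
    (Finset.univ.filter (fun i => tstr w i = 2)).card = 1 := by
  refine ⟨?_, ?_, ?_⟩
  · rw [tstr_count]
    exact (tbase_count w.1 false).trans ((tbal_card w.1).1 hw false)
  · rw [tstr_count]
    exact (tbase_count w.1 true).trans ((tbal_card w.1).1 hw true)
  · rw [tstr_count]
    exact tbase_count_two w.1

theorem tstr_surj {a : ℕ} (x : StV a) : ∃ w : GV (TPos a), Bal w.1 ∧ tstr w = x.1 := by
  obtain ⟨x, h0, h1, h2⟩ := x
  -- first the case of `2` in front
  have key : ∀ y : Fin (2 * a + 1) → Fin 3, (Finset.univ.filter (fun i => y i = 0)).card = a →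
      (Finset.univ.filter (fun i => y i = 1)).card = a →
      (Finset.univ.filter (fun i => y i = 2)).card = 1 → y 0 = 2 →
      ∃ s : TPos a → Bool, Bal s ∧ tbase s = y := by
    intro y g0 g1 g2 gy
    have hne : ∀ i, i ≠ 0 → y i ≠ 2 := by
      intro i hi hy
      have h3 : ({0, i} : Finset (Fin (2 * a + 1))) ⊆ Finset.univ.filter (fun i => y i = 2) := by
        intro k hk
        simp only [Finset.mem_insert, Finset.mem_singleton] at hk
        simp only [Finset.mem_filter, Finset.mem_univ, true_and]
        rcases hk with rfl | rfl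
        · exact gy
        · exact hy
      have h4 := Finset.card_le_card h3
      rw [g2, Finset.card_pair (Ne.symm hi)] at h4
      omega
    have hb : tbase (fun p : TPos a => decide (y p.1 = 1)) = y := by
      funext i
      by_cases hi : i = 0
      · rw [hi, tbase_zero, gy]
      · have := tbase_pos (fun p : TPos a => decide (y p.1 = 1)) ⟨i, hi⟩
        rw [this]
        have h5 := hne i hi
        show tsym (decide (y i = 1)) = y i
        revert h5
        generalize y i = z
        revert z
        decide
    refine ⟨fun p => decide (y p.1 = 1), ?_, hb⟩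
    rw [tbal_card]
    intro b
    rw [← tbase_count, hb]
    cases b
    · exact g0
    · exact g1
  obtain ⟨q, hq⟩ := Finset.card_eq_one.1 h2
  have hq2 : x q = 2 := by
    have : q ∈ Finset.univ.filter (fun i => x i = 2) := by rw [hq]; simp
    simpa using this
  by_cases hq0 : q = 0
  · subst hq0
    obtain ⟨s, hs, hs2⟩ := key x h0 h1 h2 hq2
    exact ⟨(s, none), hs, hs2⟩
  · obtain ⟨s, hs, hs2⟩ := key (x ∘ Equiv.swap 0 q) (by rw [tcount_perm]; exact h0)
      (by rw [tcount_perm]; exact h1) (by rw [tcount_perm]; exact h2)
      (by rw [Function.comp_apply, Equiv.swap_apply_left]; exact hq2)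
    refine ⟨(s, some ⟨q, hq0⟩), hs, ?_⟩
    rw [tstr_some, hs2]
    funext i
    simp

theorem tstr_adj {a : ℕ} {w w' : GV (TPos a)} (h : gadj w w') :
    ∃ j : Fin (2 * a + 1), j ≠ 0 ∧ tstr w 0 ≠ tstr w j ∧ tstr w' = tstr w ∘ Equiv.swap 0 j := by
  cases h with
  | out s p =>
    refine ⟨p.1, p.2, ?_, rfl⟩
    rw [tstr_none, tbase_zero, tbase_pos]
    exact (tsym_ne _).symm
  | inn s p =>
    refine ⟨p.1, p.2, ?_, ?_⟩
    · rw [tstr_some, Function.comp_apply, Function.comp_apply, Equiv.swap_apply_left,
        Equiv.swap_apply_right, tbase_zero, tbase_pos]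
      exact tsym_ne _
    · rw [tstr_some, tstr_none]
      funext i
      simp
  | sw s p i hne =>
    have hpi : p ≠ i := by
      rintro rfl
      exact hne rfl
    have hpi' : p.1 ≠ i.1 := fun h => hpi (Subtype.ext h)
    refine ⟨i.1, i.2, ?_, ?_⟩
    · rw [tstr_some, Function.comp_apply, Function.comp_apply, Equiv.swap_apply_left,
        Equiv.swap_apply_of_ne_of_ne i.2 (Ne.symm hpi'), tbase_pos, tbase_pos]
      intro h
      exact hne (tsym_inj h)
    · rw [tstr_some, tstr_some]
      have hb : tbase (swp s p i) = tbase s ∘ Equiv.swap p.1 i.1 := by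
        funext k
        by_cases hk : k = 0
        · rw [hk, tbase_zero, Function.comp_apply,
            Equiv.swap_apply_of_ne_of_ne (Ne.symm p.2) (Ne.symm i.2), tbase_zero]
        · have h1 := tbase_pos (swp s p i) ⟨k, hk⟩
          rw [h1]
          have h2 : (Equiv.swap p.1 i.1) k = ((Equiv.swap p i) ⟨k, hk⟩ : TPos a).1 := by
            by_cases hkp : k = p.1
            · have : (⟨k, hk⟩ : TPos a) = p := Subtype.ext hkp
              rw [this, hkp, Equiv.swap_apply_left, Equiv.swap_apply_left]
            · by_cases hki : k = i.1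
              · have : (⟨k, hk⟩ : TPos a) = i := Subtype.ext hki
                rw [this, hki, Equiv.swap_apply_right, Equiv.swap_apply_right]
              · rw [Equiv.swap_apply_of_ne_of_ne hkp hki, Equiv.swap_apply_of_ne_of_ne]
                · intro h
                  exact hkp (congrArg Subtype.val h)
                · intro h
                  exact hki (congrArg Subtype.val h)
          rw [Function.comp_apply, h2, tbase_pos]
          rfl
      rw [hb]
      rw [Function.comp_assoc, Function.comp_assoc]
      congr 1
      funext k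
      simp only [Function.comp_apply]
      have h3 : Equiv.swap p.1 i.1 * Equiv.swap 0 p.1 = Equiv.swap 0 p.1 * Equiv.swap 0 i.1 := by
        have := Equiv.swap_mul_swap_mul_swap (x := i.1) (y := 0) (z := p.1) i.2 (Ne.symm hpi')
        have h4 := Equiv.mul_swap_eq_swap_mul (Equiv.swap 0 p.1) 0 i.1
        rw [Equiv.swap_apply_left, Equiv.swap_apply_of_ne_of_ne i.2 (Ne.symm hpi')] at h4
        exact h4.symm
      exact congrFun (congrArg (fun e : Equiv.Perm (Fin (2 * a + 1)) => (e : _ → _)) h3) k

theorem walk_of_chain {V : Type} (G : SimpleGraph V) :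
    ∀ (l : List V) (u v : V), l.head? = some u → l.getLast? = some v → l.IsChain G.Adj →
      ∃ p : G.Walk u v, p.support = l := by
  intro l
  induction l with
  | nil =>
    intro u v h
    simp at h
  | cons x l ih =>
    intro u v hu hv hc
    have hxu : x = u := by simpa using hu
    subst hxu
    cases l with
    | nil =>
      have hxv : x = v := by simpa using hv
      subst hxv
      exact ⟨SimpleGraph.Walk.nil, rfl⟩
    | cons y l =>
      rw [List.isChain_cons_cons] at hc
      obtain ⟨p, hp⟩ := ih y v rfl (by simpa using hv) hc.2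
      refine ⟨SimpleGraph.Walk.cons hc.1 p, ?_⟩
      rw [SimpleGraph.Walk.support_cons, hp]

theorem p_transl : S_transl := by
  intro a ha hall inst u v huv
  obtain ⟨u', hu', hu2⟩ := tstr_surj u
  obtain ⟨v', hv', hv2⟩ := tstr_surj v
  have hne : u' ≠ v' := by
    rintro rfl
    apply huv
    apply Subtype.ext
    rw [← hu2, ← hv2]
  obtain ⟨ls, hF, hnd, hmem⟩ := hall (TPos a) (tcard a) u' v' hu' hv' hne
  obtain ⟨l, ls', hl, hls', rfl⟩ := List.forall₂_cons_right_iff.1 hF
  have hls'' : ls' = [] := List.forall₂_nil_right_iff.1 hls'
  subst hls''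
  simp only [List.flatten_cons, List.flatten_nil, List.append_nil] at hnd hmem
  obtain ⟨hhd, hlast, hchain⟩ := hl
  have hB : ∀ w ∈ l, Bal w.1 := fun w hw => (hmem w).1 hw
  -- the list of strings
  let D : (w : GV (TPos a)) → Bal w.1 → StV a := fun w hw => ⟨tstr w, tstr_mem w hw⟩
  let L : List (StV a) := l.pmap D hB
  have hLu : L.head? = some u := by
    cases l with
    | nil => simp at hhd
    | cons w l =>
      have hw : w = u' := by simpa using hhd
      subst hw
      show some (D w (hB w List.mem_cons_self)) = some u
      congr 1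
      exact Subtype.ext hu2
  have hLv : L.getLast? = some v := by
    have hlne : l ≠ [] := by
      rintro rfl
      simp at hhd
    have h1 : l.getLast hlne = v' := by
      rw [List.getLast?_eq_some_getLast hlne] at hlast
      exact Option.some.inj hlast
    have hLne : L ≠ [] := by
      intro h
      exact hlne (List.pmap_eq_nil_iff.1 h)
    rw [List.getLast?_eq_some_getLast hLne]
    congr 1
    have h2 : L.getLast hLne = D (l.getLast hlne) (hB _ (List.getLast_mem hlne)) := by
      exact List.getLast_pmap hB hLne
    rw [h2]
    apply Subtype.ext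
    show tstr (l.getLast hlne) = v.1
    rw [h1, hv2]
  have hLc : L.IsChain (starGraph a).Adj := by
    show (l.pmap D hB).IsChain (starGraph a).Adj
    clear hLu hLv hnd hmem hF hls' hhd hlast
    have hD : ∀ w hw, (D w hw).1 = tstr w := fun _ _ => rfl
    clear_value D
    revert hB hchain
    induction l with
    | nil => intro _ _; simp
    | cons w l ih =>
      intro hchain hB
      cases l with
      | nil => simp
      | cons w' l =>
        rw [List.isChain_cons_cons] at hchain
        have h2 := ih hchain.2 (fun w hw => hB w (List.mem_cons_of_mem _ hw))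
        simp only [List.pmap] at h2 ⊢
        rw [List.isChain_cons_cons]
        refine ⟨?_, h2⟩
        obtain ⟨j, hj, hj2, hj3⟩ := tstr_adj hchain.1
        exact ⟨j, hj, by rw [hD]; exact hj2, by rw [hD, hD]; exact hj3⟩
  obtain ⟨p, hp⟩ := walk_of_chain (starGraph a) L u v hLu hLv hLc
  refine ⟨p, ?_⟩
  intro x
  rw [hp]
  apply List.count_eq_one_of_mem
  · show (l.pmap D hB).Nodup
    apply hnd.pmap
    intro w _ w' _ h
    exact tstr_inj (congrArg Subtype.val h)
  · obtain ⟨x', hx', hx2⟩ := tstr_surj x
    show x ∈ l.pmap D hB
    rw [List.mem_pmap]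
    exact ⟨x', (hmem x').2 hx', Subtype.ext hx2⟩

end Pool.Agent.MPc603ed
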