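import Pool.Agent.Lib.MP_c603ed_co.Spec1

/-!
# MP_c603ed_co, p_tree: roots and colours of a forest of pointers
-/

set_option autoImplicit false

namespace Pool.Agent.MPc603ed

theorem p_tree : S_tree := by
  classical
  intro O par rk nr h
  have wf : WellFounded (fun a b : O => rk a < rk b) := InvImage.wf rk Nat.lt_wfRel.wf
  constructor
  · let F : (o : O) → ((o' : O) → rk o' < rk o → O) → O :=
      fun o IH => if hn : nr o then IH (par o) (h o hn) else o
    have hrt : ∀ o, wf.fix F o = F o (fun o' _ => wf.fix F o') := fun o => wf.fix_eq F o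
    have h1 : ∀ o, nr o → wf.fix F o = wf.fix F (par o) := by
      intro o hn
      rw [hrt o]
      simp only [F, dif_pos hn]
    have h2 : ∀ o, ¬ nr o → wf.fix F o = o := by
      intro o hn
      rw [hrt o]
      simp only [F, dif_neg hn]
    refine ⟨wf.fix F, h1, h2, ?_⟩
    intro o
    induction o using wf.induction with
    | _ o ih =>
      by_cases hn : nr o
      · rw [h1 o hn]
        exact ih (par o) (h o hn)
      · rw [h2 o hn]
        exact hn
  · let F : (o : O) → ((o' : O) → rk o' < rk o → Bool) → Bool :=
      fun o IH => if hn : nr o then !(IH (par o) (h o hn)) else true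
    have hrt : ∀ o, wf.fix F o = F o (fun o' _ => wf.fix F o') := fun o => wf.fix_eq F o
    refine ⟨wf.fix F, ?_⟩
    intro o hn
    rw [hrt o]
    simp only [F, dif_pos hn]
    intro h3
    revert h3
    cases wf.fix F (par o) <;> simp

end Pool.Agent.MPc603ed
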