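import Pool.Agent.Lib.MP_c603ed_co.P_split
import Pool.Agent.Lib.MP_c603ed_co.P_rotF
import Pool.Agent.Lib.MP_c603ed_co.P_rho
import Pool.Agent.Lib.MP_c603ed_co.P_rootT
import Pool.Agent.Lib.MP_c603ed_co.P_deg
import Pool.Agent.Lib.MP_c603ed_co.P_star0
import Pool.Agent.Lib.MP_c603ed_co.P_hx1
import Pool.Agent.Lib.MP_c603ed_co.P_hx2
import Pool.Agent.Lib.MP_c603ed_co.P_hx3
import Pool.Agent.Lib.MP_c603ed_co.P_ptr
import Pool.Agent.Lib.MP_c603ed_co.P_cyc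
import Pool.Agent.Lib.MP_c603ed_co.P_decS
import Pool.Agent.Lib.MP_c603ed_co.P_decI
import Pool.Agent.Lib.MP_c603ed_co.P_sig
import Pool.Agent.Lib.MP_c603ed_co.P_hexadj
import Pool.Agent.Lib.MP_c603ed_co.P_glue
import Pool.Agent.Lib.MP_c603ed_co.P_conn
import Pool.Agent.Lib.MP_c603ed_co.P_tree
import Pool.Agent.Lib.MP_c603ed_co.P_sigcyc
import Pool.Agent.Lib.MP_c603ed_co.P_sup
import Pool.Agent.Lib.MP_c603ed_co.P_T0
import Pool.Agent.Lib.MP_c603ed_co.P_T1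
import Pool.Agent.Lib.MP_c603ed_co.P_T1m
import Pool.Agent.Lib.MP_c603ed_co.P_L1c
import Pool.Agent.Lib.MP_c603ed_co.P_L1pc
import Pool.Agent.Lib.MP_c603ed_co.P_L1mc
import Pool.Agent.Lib.MP_c603ed_co.P_S2c1
import Pool.Agent.Lib.MP_c603ed_co.P_S2c2
import Pool.Agent.Lib.MP_c603ed_co.P_B6c
import Pool.Agent.Lib.MP_c603ed_co.P_B7c
import Pool.Agent.Lib.MP_c603ed_co.P_B8c
import Pool.Agent.Lib.MP_c603ed_co.P_B5c
import Pool.Agent.Lib.MP_c603ed_co.P_B10c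
import Pool.Agent.Lib.MP_c603ed_co.P_B11c
import Pool.Agent.Lib.MP_c603ed_co.P_A1c
import Pool.Agent.Lib.MP_c603ed_co.P_A2c
import Pool.Agent.Lib.MP_c603ed_co.P_A2cc
import Pool.Agent.Lib.MP_c603ed_co.P_A2pc
import Pool.Agent.Lib.MP_c603ed_co.P_arr
import Pool.Agent.Lib.MP_c603ed_co.P_putB
import Pool.Agent.Lib.MP_c603ed_co.P_putA
import Pool.Agent.Lib.MP_c603ed_co.P_trB
import Pool.Agent.Lib.MP_c603ed_co.P_trA
import Pool.Agent.Lib.MP_c603ed_co.P_A1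
import Pool.Agent.Lib.MP_c603ed_co.P_A2
import Pool.Agent.Lib.MP_c603ed_co.P_A2p
import Pool.Agent.Lib.MP_c603ed_co.P_L1
import Pool.Agent.Lib.MP_c603ed_co.P_L1p
import Pool.Agent.Lib.MP_c603ed_co.P_L1m
import Pool.Agent.Lib.MP_c603ed_co.P_S2
import Pool.Agent.Lib.MP_c603ed_co.P_B6
import Pool.Agent.Lib.MP_c603ed_co.P_B7
import Pool.Agent.Lib.MP_c603ed_co.P_B8
import Pool.Agent.Lib.MP_c603ed_co.P_B5
import Pool.Agent.Lib.MP_c603ed_co.P_B10
import Pool.Agent.Lib.MP_c603ed_co.P_B11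
import Pool.Agent.Lib.MP_c603ed_co.P_C13a
import Pool.Agent.Lib.MP_c603ed_co.P_C13b
import Pool.Agent.Lib.MP_c603ed_co.P_C30
import Pool.Agent.Lib.MP_c603ed_co.P_C4
import Pool.Agent.Lib.MP_c603ed_co.P_C5
import Pool.Agent.Lib.MP_c603ed_co.P_C5pa
import Pool.Agent.Lib.MP_c603ed_co.P_C5pb
import Pool.Agent.Lib.MP_c603ed_co.P_C6a
import Pool.Agent.Lib.MP_c603ed_co.P_C6b
import Pool.Agent.Lib.MP_c603ed_co.P_C2a
import Pool.Agent.Lib.MP_c603ed_co.P_C2b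
import Pool.Agent.Lib.MP_c603ed_co.P_C4pa
import Pool.Agent.Lib.MP_c603ed_co.P_C4pb
import Pool.Agent.Lib.MP_c603ed_co.P_big
import Pool.Agent.Lib.MP_c603ed_co.P_relabel
import Pool.Agent.Lib.MP_c603ed_co.P_flip
import Pool.Agent.Lib.MP_c603ed_co.P_small1
import Pool.Agent.Lib.MP_c603ed_co.P_small2
import Pool.Agent.Lib.MP_c603ed_co.P_transl
import Pool.Agent.Lib.MP_c603ed_co.Assemble

/-!
# MP_c603ed_co: assembly of all modules
-/

set_option autoImplicit false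

namespace Pool.Agent.MPc603ed

theorem q_split : S_split := p_split

theorem q_rotF : S_rotF := p_rotF

theorem q_rho : S_rho := p_rho q_split q_rotF

theorem q_rootT : S_rootT := p_rootT q_rotF

theorem q_deg : S_deg := p_deg q_rotF

theorem q_star0 : S_star0 := p_star0

theorem q_hx1 : S_hx1 := p_hx1

theorem q_hx2 : S_hx2 := p_hx2

theorem q_hx3 : S_hx3 := p_hx3 q_rotF q_hx2

theorem q_ptr : S_ptr := p_ptr q_rootT q_hx1 q_hx2 q_hx3

theorem q_cyc : S_cyc := p_cyc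

theorem q_decS : S_decS := p_decS q_cyc

theorem q_decI : S_decI := p_decI

theorem q_sig : S_sig := p_sig

theorem q_hexadj : S_hexadj := p_hexadj

theorem q_glue : S_glue := p_glue

theorem q_conn : S_conn := p_conn

theorem q_tree : S_tree := p_tree

theorem q_sigcyc : S_sigcyc := p_sigcyc q_rotF

theorem q_sup : S_sup := p_sup

theorem q_T0 : S_T0 := p_T0 q_ptr q_sig q_hexadj q_glue q_conn q_tree q_sigcyc q_sup

theorem q_T1 : S_T1 := p_T1 q_T0 q_decI q_decS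

theorem q_T1m : S_T1m := p_T1m q_T0 q_decI q_decS

theorem q_L1c : S_L1c := p_L1c q_rho q_deg q_T1

theorem q_L1pc : S_L1pc := p_L1pc q_rho q_deg q_T1

theorem q_L1mc : S_L1mc := p_L1mc q_rho q_deg q_T1m

theorem q_S2c1 : S_S2c1 := p_S2c1 q_rho q_deg q_T1

theorem q_S2c2 : S_S2c2 := p_S2c2 q_rho q_deg q_T1

theorem q_B6c : S_B6c := p_B6c q_rho q_deg q_T1

theorem q_B7c : S_B7c := p_B7c q_rho q_deg q_rotF q_T1

theorem q_B8c : S_B8c := p_B8c q_rho q_deg q_rotF q_T1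

theorem q_B5c : S_B5c := p_B5c q_rho q_deg q_T1

theorem q_B10c : S_B10c := p_B10c q_rho q_deg q_T1

theorem q_B11c : S_B11c := p_B11c q_rho q_deg q_T1

theorem q_A1c : S_A1c := p_A1c q_rho q_T1

theorem q_A2c : S_A2c := p_A2c q_rho q_star0 q_T1

theorem q_A2cc : S_A2cc := p_A2cc q_rho q_star0 q_T1

theorem q_A2pc : S_A2pc := p_A2pc q_rho q_star0 q_T1

theorem q_arr : S_arr := p_arr

theorem q_putB : S_putB := p_putB

theorem q_putA : S_putA := p_putA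

theorem q_trB : S_trB := p_trB

theorem q_trA : S_trA := p_trA

theorem q_A1 : S_A1 := p_A1 q_arr q_putA q_trA q_A1c

theorem q_A2 : S_A2 := p_A2 q_arr q_putA q_trA q_A2c q_A2cc

theorem q_A2p : S_A2p := p_A2p q_arr q_putA q_trA q_A2pc

theorem q_L1 : S_L1 := p_L1 q_arr q_putB q_trB q_L1c

theorem q_L1p : S_L1p := p_L1p q_arr q_putB q_trB q_L1pc

theorem q_L1m : S_L1m := p_L1m q_arr q_putB q_trB q_L1mc

theorem q_S2 : S_S2 := p_S2 q_arr q_putB q_trB q_S2c1 q_S2c2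

theorem q_B6 : S_B6 := p_B6 q_arr q_putB q_trB q_B6c

theorem q_B7 : S_B7 := p_B7 q_arr q_putB q_trB q_B7c

theorem q_B8 : S_B8 := p_B8 q_arr q_putB q_trB q_B8c

theorem q_B5 : S_B5 := p_B5 q_arr q_putB q_trB q_B5c

theorem q_B10 : S_B10 := p_B10 q_arr q_putB q_trB q_B10c

theorem q_B11 : S_B11 := p_B11 q_arr q_putB q_trB q_B11c

theorem q_C13a : S_C13a := p_C13a q_A1 q_L1

theorem q_C13b : S_C13b := p_C13b q_A1 q_L1

theorem q_C30 : S_C30 := p_C30 q_A1 q_L1 q_B6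

theorem q_C4 : S_C4 := p_C4 q_A1 q_L1 q_L1p

theorem q_C5 : S_C5 := p_C5 q_A1 q_L1

theorem q_C5pa : S_C5pa := p_C5pa q_A1 q_L1 q_S2

theorem q_C5pb : S_C5pb := p_C5pb q_A1 q_B10 q_B11

theorem q_C6a : S_C6a := p_C6a q_A1 q_L1m q_S2

theorem q_C6b : S_C6b := p_C6b q_A1 q_L1m q_B5

theorem q_C2a : S_C2a := p_C2a q_A1 q_L1 q_B7

theorem q_C2b : S_C2b := p_C2b q_A1 q_L1 q_B8

theorem q_C4pa : S_C4pa := p_C4pa q_A2p q_L1 q_S2

theorem q_C4pb : S_C4pb := p_C4pb q_A2 q_L1 q_S2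

theorem q_big : S_big := p_big q_C13a q_C13b q_C30 q_C4 q_C5 q_C5pa q_C5pb q_C6a q_C6b q_C2a q_C2b q_C4pa q_C4pb

theorem q_relabel : S_relabel := p_relabel

theorem q_flip : S_flip := p_flip

theorem q_small1 : S_small1 := p_small1 q_relabel q_flip

theorem q_small2 : S_small2 := p_small2 q_relabel q_flip

theorem q_transl : S_transl := p_transl

/-- every two different vertices of `G(a, a, 1)`, `a ≥ 2`, are the ends of a Hamilton path -/
theorem final (a : ℕ) (ha : 2 ≤ a) (inst : DecidableEq (StV a)) (u v : StV a) (huv : u ≠ v) :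
    ∃ p : (starGraph a).Walk u v, p.IsHamiltonian :=
  assemble q_big q_small1 q_small2 q_transl a ha inst u v huv

end Pool.Agent.MPc603ed
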