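import Pool.Agent.Lib.MP_c603ed_co.Spec3

/-!
# MP_c603ed_co: part A, one edge
-/

set_option autoImplicit false

namespace Pool.Agent.MPc603ed

open Lt

namespace p_A1Aux

variable {ι : Type} [Fintype ι] [DecidableEq ι]

theorem cnt_same {n : ℕ} (hc : Fintype.card ι = 2 * n + 2) {s : ι → Bool} (hs : Bal s)
    (x : Bool) : cnt s s x x = n + 1 := by
  rw [← hs.card hc x]
  unfold cnt
  congr 1
  ext i
  simp

omit [DecidableEq ι] in
theorem cnt_diff (s : ι → Bool) {x y : Bool} (h : x ≠ y) : cnt s s x y = 0 := by
  unfold cnt
  rw [Finset.card_eq_zero, Finset.filter_eq_empty_iff]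
  rintro i _ ⟨h1, h2⟩
  exact h (h1.symm.trans h2)

theorem count_rp' {α : Type} [BEq α] [LawfulBEq α] [DecidableEq α] (a b c : α) (k : ℕ) :
    (rp a b k).count c = (if a = c then k else 0) + (if b = c then k else 0) := by
  induction k with
  | zero => simp [rp]
  | succ k ih =>
    simp only [rp, List.count_cons, ih, beq_iff_eq]
    split_ifs <;> omega

/-- the instance used in `S_arr` is lawful -/
instance lawful : LawfulBEq ((Bool × Bool) ⊕ ι) where
  eq_of_beq := by
    intro a b h
    rcases a with a | a <;> rcases b with b | b
    · have h1 : (a == b) = true := h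
      rw [eq_of_beq h1]
    · exact Bool.noConfusion (show false = true from h)
    · exact Bool.noConfusion (show false = true from h)
    · have h1 : (a == b) = true := h
      rw [eq_of_beq h1]
  rfl := by
    intro a
    rcases a with a | a
    · exact (beq_self_eq_true a : (a == a) = true)
    · exact (beq_self_eq_true a : (a == a) = true)

theorem tl_ne {l b : Bool} (h : b ≠ l) : tl l b = U := by
  simp [tl, h]

theorem tl_eq {l b : Bool} (h : b = l) : tl l b = Z := by
  simp [tl, h]

end p_A1Aux

open p_A1Aux in
theorem p_A1 (h1 : S_arr) (h2 : S_putA) (h3 : S_trA) (h4 : S_A1c) : S_A1 := by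
  intro n ι _ _ hn hc s j i hs hji
  have hij : j ≠ i := fun h => hji (by rw [h])
  set l : Bool := s i with hl
  set W : List ((Bool × Bool) ⊕ ι) :=
    Sum.inr i :: rp (Sum.inl (s j, s j)) (Sum.inl (s i, s i)) n with hW
  have hWl : W.length = 2 * n + 1 := by
    rw [hW, List.length_cons, length_rp]
  obtain ⟨e, he, hfit⟩ := h1 n ι s s j [i] W hc hWl (List.nodup_singleton _)
    (by simpa using hij)
    (by
      intro a
      rw [hW, List.count_cons, count_rp', List.count_cons, List.count_nil]
      simp)
    (by
      intro x y
      rw [hW, List.count_cons, count_rp']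
      by_cases hxy : x = y
      · subst hxy
        rw [cnt_same hc hs]
        have hx : x = s j ∨ x = s i := by
          cases h5 : s j <;> cases h6 : s i <;> cases x <;> simp_all
        rcases hx with rfl | rfl
        · have h7 : ¬ s i = s j := fun h => hji h.symm
          simp [h7]
        · have h7 : ¬ s j = s i := hji
          simp [h7]
      · rw [cnt_diff s hxy]
        have e1 : ((j :: [i]).filter (fun i => decide (s i = x ∧ s i = y))) = [] := by
          rw [List.filter_eq_nil_iff]
          intro a _ h
          rw [decide_eq_true_eq] at h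
          exact hxy (h.1.symm.trans h.2)
        rw [e1]
        have e2 : ((s j, s j) : Bool × Bool) ≠ (x, y) := by
          intro h
          rw [Prod.mk.injEq] at h
          exact hxy (h.1.symm.trans h.2)
        have e3 : ((s i, s i) : Bool × Bool) ≠ (x, y) := by
          intro h
          rw [Prod.mk.injEq] at h
          exact hxy (h.1.symm.trans h.2)
        simp [e2, e3])
  have hZ : tl l (s i) = Z := tl_eq rfl
  have hU : tl l (s j) = U := tl_ne hji
  have a1 : strA e l (s, some j) = (U, put 0 (Z :: UZ n)) := by
    refine Prod.ext ?_ ?_
    · simp only [strA]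
      rw [he]
      exact hU
    · refine h2 n ι s s [i] W e l (s, some j) _ hWl hfit ?_
      rw [hW]
      refine List.Forall₂.cons hZ (forall2_UZ ?_ ?_ n)
      · intro a _ _ ha _
        simp only
        rw [ha]
        exact hU
      · intro a _ _ ha _
        simp only
        rw [ha]
        exact hZ
  have a2 : strA e l (swp s j i, some j) = (Z, put 0 (U :: UZ n)) := by
    refine Prod.ext ?_ ?_
    · simp only [strA]
      rw [he, swp_apply_left]
      exact hZ
    · refine h2 n ι s s [i] W e l (swp s j i, some j) _ hWl hfit ?_
      rw [hW]
      refine List.Forall₂.cons ?_ (forall2_UZ ?_ ?_ n)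
      · change tl l (swp s j i i) = U
        rw [swp_apply_right]
        exact hU
      · intro a haj hai ha _
        rw [he] at haj
        simp only
        rw [swp_apply_of_ne s haj (by simpa using hai), ha]
        exact hU
      · intro a haj hai ha _
        rw [he] at haj
        simp only
        rw [swp_apply_of_ne s haj (by simpa using hai), ha]
        exact hZ
  have h5 := h3 n ι e l [((s, some j), (swp s j i, some j))]
    (by
      intro p hp
      rw [List.mem_singleton] at hp
      subst hp
      rw [he]
      exact ⟨⟨hs, rfl⟩, ⟨hs.swp j i, rfl⟩⟩)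
    (by
      rw [List.map_cons, List.map_nil, Prod.map_apply, a1, a2]
      exact h4 n hn)
  rw [he] at h5
  exact h5

end Pool.Agent.MPc603ed
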