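import Pool.Agent.Lib.MP_c603ed_co.Spec2
import Pool.Agent.Lib.MP_c603ed_co.LadAux2

/-!
# MP_c603ed_co: long ladder and a marked edge
-/

set_option autoImplicit false

namespace Pool.Agent.MPc603ed

open Lt

theorem p_B10c (h1 : S_rho) (h2 : S_deg) (h3 : S_T1) : S_B10c := by
  intro n hn
  obtain ⟨ρ, hρ⟩ := h1 n 1
  obtain ⟨deg, hd1, hd2⟩ := h2 n ρ hρ
  obtain ⟨S, hS⟩ := LadAux.exS (n := n) (by omega)
  obtain ⟨s, hs, hdeg⟩ := LadAux.exs0 (n := n) (by omega) hρ hd1 hd2
  have h4 := LadAux.lad_rest h3 hn hρ hd1 hd2 hS (k := n - 2) (by omega)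
    (true, ((UZ (n - 1)).length : ℕ), s) rfl (by
      change deg s < _
      rw [hdeg]; omega)
  have e1 : dec (sig ρ ((true, ((UZ (n - 1)).length : ℕ), s) : AV n 1)) =
      (U, put 0 (UZ (n - 1) ++ [Z, U, T])) := by
    rw [sig_Q, dec_P, hs]
    have h := put_eq_put_zero (n := n) [Z, U, T] (UZ (n - 1)) (by
      simp only [List.length_cons, length_UZ, List.length_nil]; omega)
    exact congrArg (Prod.mk U) h
  have e2 : dec ((true, ((UZ (n - 1)).length : ℕ), s) : AV n 1) =
      (Z, put 0 (UZ (n - 1) ++ [U, U, T])) := by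
    rw [dec_Q, hs]
    have h := put_eq_put_zero (n := n) [U, U, T] (UZ (n - 1)) (by
      simp only [List.length_cons, length_UZ, List.length_nil]; omega)
    exact congrArg (Prod.mk Z) h
  rw [e1, e2] at h4
  exact h4

end Pool.Agent.MPc603ed
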