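import Pool.Agent.Lib.MP_c603ed_co.PartAux

/-!
# MP_c603ed_co: part B, ladder and hub edge (2)
-/

set_option autoImplicit false
set_option linter.unusedSimpArgs false

namespace Pool.Agent.MPc603ed

open Lt PartAux

theorem p_B11 (h1 : S_arr) (h2 : S_putB) (h3 : S_trB) (h4 : S_B11c) : S_B11 := by
  intro n ι _ _ hn hc s b j r x q i1 l hs hb hsj hbj hsr hbr hsx hbx hsq hbq hsi hbi hrx hk
  have hll : l ≠ !l := by cases l <;> simp
  have hrq : r ≠ q := by rintro rfl; exact hll (hsq.symm.trans hsr)
  have hri : r ≠ i1 := by rintro rfl; exact hll (hbr.symm.trans hbi)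
  have hxq : x ≠ q := by rintro rfl; exact hll (hsq.symm.trans hsx)
  have hxi : x ≠ i1 := by rintro rfl; exact hll (hbx.symm.trans hbi)
  have hqi : q ≠ i1 := by rintro rfl; exact hll (hsq.symm.trans hsi)
  have hjr : j ≠ r := by rintro rfl; exact hll (hsj.symm.trans hsr)
  have hjx : j ≠ x := by rintro rfl; exact hll (hsj.symm.trans hsx)
  have hjq : j ≠ q := by rintro rfl; exact hll (hbj.symm.trans hbq)
  have hji : j ≠ i1 := by rintro rfl; exact hll (hsj.symm.trans hsi)
  have hrj := hjr.symm
  have hqj := hjq.symm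
  have hz : tl l l = Z := tl_self l
  have hu : tl l (!l) = U := tl_not l
  obtain ⟨hb1, hb2, hb3⟩ := cnt_bal hc hs hb l
  obtain ⟨W, hW⟩ : ∃ W : List ((Bool × Bool) ⊕ ι), W =
    Sum.inr r :: Sum.inl (!l, l) :: Sum.inr x :: Sum.inr q :: Sum.inl (l, !l) :: Sum.inr i1 ::
      Sum.inl (l, !l) :: rp (Sum.inl (!l, l)) (Sum.inl (l, !l)) (n - 3) := ⟨_, rfl⟩
  have hWl : W.length = 2 * n + 1 := by
    rw [hW]
    simp only [List.length_cons, length_rp]
    omega
  obtain ⟨e, he, hfit⟩ := h1 n ι s b j [r, x, q, i1] W hc hWl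
    (by simp [hrx, hrq, hri, hxq, hxi, hqi])
    (by simp [hjr, hjx, hjq, hji])
    (by
      intro x
      rw [hW]
      simp only [List.count_cons, List.count_append, count_rp', beq1, beq4, beq_iff_eq, if_false,
        List.count_nil, Bool.false_eq_true]
      omega)
    (by
      intro x' y'
      rw [hW]
      simp only [List.count_cons, List.count_append, count_rp', beq2, beq3, beq_iff_eq, if_false,
        Bool.false_eq_true, Prod.mk.injEq, List.filter_cons, List.filter_nil, hsj, hbj, hsr, hbr,
        hsx, hbx, hsq, hbq, hsi, hbi, List.count_nil]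
      cases l <;> cases x' <;> cases y' <;> simp at hk hb1 hb2 hb3 ⊢ <;> omega)
  have hH := h4 n hn
  have g1 : T :: yl n 0 = T :: U :: Z :: U :: Z :: U :: Z :: UZ (n - 3) := by
    rw [yl_zero (by omega)]
    obtain ⟨k, rfl⟩ : ∃ k, n = k + 3 := ⟨n - 3, by omega⟩
    rfl
  have g2 : U :: yl n 1 = U :: U :: U :: Z :: Z :: U :: Z :: UZ (n - 3) := by
    obtain ⟨k, rfl⟩ : ∃ k, n = k + 3 := ⟨n - 3, by omega⟩
    rfl
  rw [g1, g2] at hH
  obtain ⟨a, had⟩ : ∃ a, a = swp s x q := ⟨_, rfl⟩
  have haB : Bal a := had ▸ hs.swp x q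
  have hax : ∀ y, y ≠ x → y ≠ q → a y = s y := fun y h h' => by
    rw [had]; exact swp_apply_of_ne _ h h'
  have haxx : a x = l := by rw [had, swp_apply_left, hsq]
  have haq : a q = !l := by rw [had, swp_apply_right, hsx]
  have har : a r = !l := by rw [hax r hrx hrq, hsr]
  have haj : a j = l := by rw [hax j hjx hjq, hsj]
  have hai : a i1 = !l := by rw [hax i1 hxi.symm hqi.symm, hsi]
  rw [← had]
  have e1 : strB e l ((a, some r) : GV ι) =
      (U, put 0 (T :: U :: Z :: U :: Z :: U :: Z :: UZ (n - 3))) := by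
    refine Prod.ext (by change tl l (a r) = U; rw [har, hu]) (h2 n ι s b _ W e l _ _ hWl hfit ?_)
    rw [hW]
    repeat' (first
      | exact List.Forall₂.nil
      | refine List.Forall₂.cons ?_ ?_
      | refine List.rel_append ?_ ?_
      | refine forall2_UZ ?_ ?_ _
      | refine forall2_ZU ?_ ?_ _)
    all_goals
      first
        | (simp [LetterOK, haxx, haq, hai, hrx, hrq, hri, hu, hz]; done)
        | (intro y hyj hy hsy hty
           simp only [List.mem_cons, List.not_mem_nil, or_false, not_or] at hy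
           simp [hax y hy.2.1 hy.2.2.1, hsy, Ne.symm hy.1, hu, hz])
  have e2 : strB e l ((s, none) : GV ι) =
      (T, put 0 (U :: U :: U :: Z :: Z :: U :: Z :: UZ (n - 3))) := by
    refine Prod.ext rfl (h2 n ι s b _ W e l _ _ hWl hfit ?_)
    rw [hW]
    repeat' (first
      | exact List.Forall₂.nil
      | refine List.Forall₂.cons ?_ ?_
      | refine List.rel_append ?_ ?_
      | refine forall2_UZ ?_ ?_ _
      | refine forall2_ZU ?_ ?_ _)
    all_goals
      first
        | (simp [LetterOK, hsr, hsx, hsq, hsi, hu, hz]; done)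
        | (intro y hyj hy hsy hty
           simp [hsy, hu, hz])
  have e3 : strB e l ((b, some q) : GV ι) =
      (U, put 0 (Z :: Z :: Z :: T :: U :: U :: U :: ZU (n - 3))) := by
    refine Prod.ext (by change tl l (b q) = U; rw [hbq, hu]) (h2 n ι s b _ W e l _ _ hWl hfit ?_)
    rw [hW]
    repeat' (first
      | exact List.Forall₂.nil
      | refine List.Forall₂.cons ?_ ?_
      | refine List.rel_append ?_ ?_
      | refine forall2_UZ ?_ ?_ _
      | refine forall2_ZU ?_ ?_ _)
    all_goals
      first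
        | (simp [LetterOK, hbr, hbx, hbi, hrq.symm, hxq.symm, hqi, hu, hz]; done)
        | (intro y hyj hy hsy hty
           simp only [List.mem_cons, List.not_mem_nil, or_false, not_or] at hy
           simp [hty, Ne.symm hy.2.2.1, hu, hz])
  have e4 : strB e l ((b, none) : GV ι) =
      (T, put 0 (Z :: Z :: Z :: U :: U :: U :: U :: ZU (n - 3))) := by
    refine Prod.ext rfl (h2 n ι s b _ W e l _ _ hWl hfit ?_)
    rw [hW]
    repeat' (first
      | exact List.Forall₂.nil
      | refine List.Forall₂.cons ?_ ?_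
      | refine List.rel_append ?_ ?_
      | refine forall2_UZ ?_ ?_ _
      | refine forall2_ZU ?_ ?_ _)
    all_goals
      first
        | (simp [LetterOK, hbr, hbx, hbq, hbi, hu, hz]; done)
        | (intro y hyj hy hsy hty
           simp [hty, hu, hz])
  have key := h3 n ι e l ∅ [((a, some r), (s, none)), ((b, some q), (b, none))]
    (Set.empty_subset _)
    (by
      rw [he]
      intro v hv
      simp only [List.mem_cons, List.not_mem_nil, or_false] at hv
      rcases hv with rfl | rfl
      · exact ⟨⟨haB, haj, fun h => hrj (Option.some.inj h)⟩, ⟨hs, hsj, by simp⟩⟩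
      · exact ⟨⟨hb, hbj, fun h => hqj (Option.some.inj h)⟩, ⟨hb, hbj, by simp⟩⟩)
    (by
      rw [Set.image_empty, Set.sdiff_empty]
      simp only [List.map_cons, List.map_nil, Prod.map_apply, e1, e2, e3, e4]
      exact hH)
  rw [Set.sdiff_empty, he] at key
  exact key.flips (fun _ _ => gadj_symm)
    (List.Forall₂.cons (Or.inr rfl) (List.Forall₂.cons (Or.inr rfl) List.Forall₂.nil))

end Pool.Agent.MPc603ed
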