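import Pool.Agent.Lib.MP_c603ed_co.Spec1
import Pool.Agent.Lib.MP_c603ed_co.T1Aux

/-!
# MP_c603ed_co: cutting the touched cycles
-/

namespace Pool.Agent.MPc603ed

theorem p_T1 (h1 : S_T0) (h2 : S_decI) (h3 : S_decS) : S_T1 := by
  intro n m hn hm ρ hρ zs hp hs hz
  haveI := T1Aux.finite_St n m
  obtain ⟨σ', ha, hb, hc, hd⟩ := T1Aux.prep h1 hn hm ρ hρ zs hp hs
  have h4 : HPs (fun a b : AV n m => sadj (dec a) (dec b)) Set.univ (zs.map fun z => (σ' z, z)) :=
    T1Aux.core_T1 σ' (fun a b => sadj (dec a) (dec b)) ha zs hc hd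
  have h5 := h4.map (R' := sadj) (f := dec) ((h2 n m).injOn) (fun a _ b _ h => h)
  have e1 : (dec '' (Set.univ : Set (AV n m))) = Cls n m := by
    ext v
    rw [h3 n m v]
    simp
  have e2 : (zs.map fun z => (σ' z, z)).map (Prod.map dec dec) =
      zs.map (fun z => (dec (sig ρ z), dec z)) := by
    rw [List.map_map]
    apply List.map_congr_left
    intro z hz'
    simp only [Function.comp, Prod.map_apply]
    rw [hb z ⟨z, hz', Equiv.Perm.SameCycle.refl _ _⟩ (hz z hz')]
  rw [e1, e2] at h5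
  exact h5

end Pool.Agent.MPc603ed
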