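import Pool.Agent.Lib.MP_c603ed_co.Spec1

/-!
# MP_c603ed_co: the cycle lemma for lists
-/

namespace Pool.Agent.MPc603ed

open Lt

namespace p_cycAux

/-- the height -/
def hv (x : Lt) : ℤ := if x = U then 1 else -1

def ht (l : List Lt) : ℤ := (l.map hv).sum

theorem ht_nil : ht [] = 0 := rfl

theorem ht_cons (x : Lt) (l : List Lt) : ht (x :: l) = hv x + ht l := by
  simp [ht]

theorem ht_app (a b : List Lt) : ht (a ++ b) = ht a + ht b := by
  simp [ht]

theorem ht_eq (l : List Lt) : ht l = (l.count U : ℤ) - ((l.filter (fun z => z ≠ U)).length : ℤ) := by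
  induction l with
  | nil => rfl
  | cons x l ih =>
    rw [ht_cons, ih]
    cases x <;> simp [hv] <;> ring

theorem hv_cases (x : Lt) : (x = U ∧ hv x = 1) ∨ (x ≠ U ∧ hv x = -1) := by
  unfold hv
  by_cases h : x = U
  · left; exact ⟨h, if_pos h⟩
  · right; exact ⟨h, if_neg h⟩

/-- `k` descents -/
def EE : ℕ → List Lt → Prop
  | 0, w => Dy w
  | k + 1, w => ∃ (a : List Lt) (d : Lt) (r : List Lt), Dy a ∧ d ≠ U ∧ EE k r ∧ w = a ++ d :: r

theorem EE_prime (k : ℕ) (a r : List Lt) (d : Lt) (ha : Dy a) (hd : d ≠ U) (hr : EE k r) :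
    EE k (U :: (a ++ d :: r)) := by
  cases k with
  | zero => exact Dy.cons a r d ha hd hr
  | succ k =>
    obtain ⟨a', d', r', ha', hd', hr', rfl⟩ := hr
    refine ⟨U :: (a ++ d :: a'), d', r', Dy.cons a a' d ha hd ha', hd', hr', ?_⟩
    simp

theorem EE_of : ∀ (w : List Lt) (k : ℕ), (∀ j, -(k : ℤ) ≤ ht (w.take j)) → ht w = -(k : ℤ) → EE k w := by
  intro w
  induction w with
  | nil =>
    intro k _ h
    rw [ht_nil] at h
    have hk : k = 0 := by omega
    subst hk
    exact Dy.nil
  | cons x w ih =>
    intro k hp ht0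
    rcases hv_cases x with ⟨hx, hx1⟩ | ⟨hx, hx1⟩
    · subst hx
      have h1 : EE (k + 1) w := by
        apply ih
        · intro j
          have := hp (j + 1)
          rw [List.take_succ_cons, ht_cons, hx1] at this
          push_cast
          linarith
        · rw [ht_cons, hx1] at ht0
          push_cast
          linarith
      obtain ⟨a, d, r, ha, hd, hr, rfl⟩ := h1
      exact EE_prime k a r d ha hd hr
    · have hk : k ≠ 0 := by
        rintro rfl
        have := hp 1
        rw [List.take_succ_cons, ht_cons, hx1, List.take_zero, ht_nil] at this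
        simp at this
      obtain ⟨k, rfl⟩ := Nat.exists_eq_succ_of_ne_zero hk
      refine ⟨[], x, w, Dy.nil, hx, ?_, rfl⟩
      apply ih
      · intro j
        have := hp (j + 1)
        rw [List.take_succ_cons, ht_cons, hx1] at this
        push_cast at this
        linarith
      · rw [ht_cons, hx1] at ht0
        push_cast at ht0
        linarith

theorem dy_of (w : List Lt) (h : ∀ j, 0 ≤ ht (w.take j)) (h0 : ht w = 0) : Dy w :=
  EE_of w 0 (by simpa using h) (by simpa using h0)

theorem ht_take_le (l : List Lt) (k : ℕ) (hk : l.length ≤ k) : ht (l.take k) = ht l := by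
  rw [List.take_of_length_le hk]

theorem ht_drop_take (l : List Lt) (a k : ℕ) :
    ht ((l.drop a).take k) = ht (l.take (a + k)) - ht (l.take a) := by
  have : l.take (a + k) = l.take a ++ (l.drop a).take k := List.take_add
  rw [this, ht_app]
  ring

theorem ht_drop (l : List Lt) (a : ℕ) : ht (l.drop a) = ht l - ht (l.take a) := by
  have : ht l = ht (l.take a ++ l.drop a) := by rw [List.take_append_drop]
  rw [this, ht_app]
  ring

/-- first minimum -/
theorem first_min (l : List Lt) : ∃ k, k ≤ l.length ∧ (∀ j, ht (l.take k) ≤ ht (l.take j)) ∧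
    ∀ j, j < k → ht (l.take k) < ht (l.take j) := by
  obtain ⟨k, hk, hmin⟩ := Finset.exists_min_image (Finset.range (l.length + 1))
    (fun k => ((l.length : ℤ) + 1) * ht (l.take k) + k) ⟨0, by simp⟩
  rw [Finset.mem_range] at hk
  have h1 : ∀ j, j ≤ l.length → ht (l.take k) ≤ ht (l.take j) := by
    intro j hj
    have := hmin j (Finset.mem_range.2 (by omega))
    by_contra hcon
    push Not at hcon
    have h2 : ht (l.take j) ≤ ht (l.take k) - 1 := by omega
    have h3 : ((l.length : ℤ) + 1) * ht (l.take j) ≤ ((l.length : ℤ) + 1) * (ht (l.take k) - 1) :=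
      mul_le_mul_of_nonneg_left h2 (by positivity)
    have h4 : (j : ℤ) ≤ l.length := by exact_mod_cast hj
    have h5 : (0 : ℤ) ≤ k := by positivity
    nlinarith
  refine ⟨k, by omega, ?_, ?_⟩
  · intro j
    rcases le_total j l.length with h | h
    · exact h1 j h
    · rw [ht_take_le l j h, ← ht_take_le l l.length le_rfl]
      exact h1 _ le_rfl
  · intro j hj
    have := hmin j (Finset.mem_range.2 (by omega))
    by_contra hcon
    push Not at hcon
    have h3 : ((l.length : ℤ) + 1) * ht (l.take j) ≤ ((l.length : ℤ) + 1) * ht (l.take k) :=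
      mul_le_mul_of_nonneg_left hcon (by positivity)
    have h4 : (j : ℤ) < k := by exact_mod_cast hj
    linarith

/-- last minimum -/
theorem last_min (l : List Lt) : ∃ k, k ≤ l.length ∧ (∀ j, ht (l.take k) ≤ ht (l.take j)) ∧
    ∀ j, k < j → j ≤ l.length → ht (l.take k) < ht (l.take j) := by
  obtain ⟨k, hk, hmin⟩ := Finset.exists_min_image (Finset.range (l.length + 1))
    (fun k => ((l.length : ℤ) + 1) * ht (l.take k) - k) ⟨0, by simp⟩
  rw [Finset.mem_range] at hk
  have h1 : ∀ j, j ≤ l.length → ht (l.take k) ≤ ht (l.take j) := by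
    intro j hj
    have := hmin j (Finset.mem_range.2 (by omega))
    by_contra hcon
    push Not at hcon
    have h2 : ht (l.take j) ≤ ht (l.take k) - 1 := by omega
    have h3 : ((l.length : ℤ) + 1) * ht (l.take j) ≤ ((l.length : ℤ) + 1) * (ht (l.take k) - 1) :=
      mul_le_mul_of_nonneg_left h2 (by positivity)
    have h4 : (k : ℤ) ≤ l.length := by exact_mod_cast (by omega : k ≤ l.length)
    have h5 : (0 : ℤ) ≤ j := by positivity
    nlinarith
  refine ⟨k, by omega, ?_, ?_⟩
  · intro j
    rcases le_total j l.length with h | h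
    · exact h1 j h
    · rw [ht_take_le l j h, ← ht_take_le l l.length le_rfl]
      exact h1 _ le_rfl
  · intro j hj hj'
    have := hmin j (Finset.mem_range.2 (by omega))
    by_contra hcon
    push Not at hcon
    have h3 : ((l.length : ℤ) + 1) * ht (l.take j) ≤ ((l.length : ℤ) + 1) * ht (l.take k) :=
      mul_le_mul_of_nonneg_left hcon (by positivity)
    have h4 : (k : ℤ) < j := by exact_mod_cast hj
    linarith

theorem split_at (l : List Lt) (k : ℕ) (hk : k < l.length) :
    l = l.take k ++ l[k] :: l.drop (k + 1) := by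
  rw [← List.drop_eq_getElem_cons hk, List.take_append_drop]

theorem ht_step (l : List Lt) (k : ℕ) (hk : k < l.length) :
    ht (l.take (k + 1)) = ht (l.take k) + hv l[k] := by
  rw [List.take_succ_eq_append_getElem hk, ht_app, ht_cons, ht_nil, add_zero]

/-- the common conclusion -/
theorem fin (l : List Lt) (k : ℕ) (m : ℤ) (hk : k < l.length)
    (h1 : ∀ j, 0 ≤ ht ((l.drop (k + 1)).take j)) (h2 : ∀ j, m ≤ ht ((l.take k).take j))
    (h3 : ht (l.drop (k + 1)) = -m) (h4 : ht (l.take k) = m) :
    ∃ (p q : List Lt) (x : Lt), l = p ++ x :: q ∧ Dy (q ++ p) := by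
  refine ⟨l.take k, l.drop (k + 1), l[k], split_at l k hk, ?_⟩
  apply dy_of
  · intro j
    rw [List.take_append, ht_app]
    rcases le_total j (l.drop (k + 1)).length with h | h
    · rw [Nat.sub_eq_zero_of_le h, List.take_zero, ht_nil, add_zero]
      exact h1 j
    · rw [ht_take_le _ j h, h3]
      have := h2 (j - (l.drop (k + 1)).length)
      linarith
  · rw [ht_app, h3, h4]
    ring

end p_cycAux

open p_cycAux in
theorem p_cyc : S_cyc := by
  intro l hl
  rcases hl with hl | hl
  · have hl' : ht l = -1 := by
      rw [ht_eq]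
      omega
    obtain ⟨k0, hk0, hmin, hlt⟩ := first_min l
    have h0 : k0 ≠ 0 := by
      rintro rfl
      have := hmin l.length
      rw [ht_take_le l _ le_rfl, hl', List.take_zero, ht_nil] at this
      omega
    obtain ⟨k, rfl⟩ := Nat.exists_eq_succ_of_ne_zero h0
    have hk : k < l.length := by omega
    have hs := ht_step l k hk
    have h5 := hlt k (Nat.lt_succ_self k)
    rw [Nat.succ_eq_add_one] at h5 hlt hmin
    have h6 : ht (l.take k) = ht (l.take (k + 1)) + 1 := by
      rcases hv_cases l[k] with ⟨_, h⟩ | ⟨_, h⟩ <;> omega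
    apply fin l k (ht (l.take (k + 1)) + 1) hk
    · intro j
      rw [ht_drop_take]
      have := hmin (k + 1 + j)
      linarith
    · intro j
      rw [List.take_take]
      have := hlt (min j k) (by omega)
      omega
    · rw [ht_drop, hl']
      ring
    · exact h6
  · have hl' : ht l = 1 := by
      rw [ht_eq]
      omega
    obtain ⟨k, hk0, hmin, hlt⟩ := last_min l
    have hm0 : ht (l.take k) ≤ 0 := by
      have := hmin 0
      rwa [List.take_zero, ht_nil] at this
    have hk : k < l.length := by
      rcases hk0.lt_or_eq with h | h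
      · exact h
      · rw [ht_take_le l k h.ge, hl'] at hm0
        omega
    have hs := ht_step l k hk
    have h5 := hlt (k + 1) (Nat.lt_succ_self k) (by omega)
    have h6 : ht (l.take (k + 1)) = ht (l.take k) + 1 := by
      rcases hv_cases l[k] with ⟨_, h⟩ | ⟨_, h⟩ <;> omega
    apply fin l k (ht (l.take k)) hk
    · intro j
      rw [ht_drop_take, h6]
      rcases le_total (k + 1 + j) l.length with h | h
      · have := hlt (k + 1 + j) (by omega) h
        omega
      · rw [ht_take_le l _ h, hl']
        omega
    · intro j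
      rw [List.take_take]
      exact hmin _
    · rw [ht_drop, hl', h6]
      ring
    · rfl

end Pool.Agent.MPc603ed
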