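import Pool.Agent.Lib.MP_c603ed_co.Spec4

/-!
# MP_c603ed_co, `n = 2`: the checker for explicit paths

A vertex `(s, p)` of `GV (Fin 6)` is coded by two numbers: the bit mask `s < 64` and the number `p`
(`7` for `none`).
-/

set_option autoImplicit false

namespace Pool.Agent.MPc603ed

namespace p_small2Aux

/-- evaluation of `n` before the call of `f` -/
def force (n : ℕ) (f : ℕ → Bool) : Bool := Nat.casesOn n (f 0) (fun k => f (k + 1))

theorem force_eq (n : ℕ) (f : ℕ → Bool) : force n f = f n := by
  cases n <;> rfl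

/-- one move: from `(s, none)` the digit `d` leads to `(s, some d)`; from `(s, some p)` the digit `6`
leads to `(s, none)` and a digit `d < 6` to `(swp s p d, some p)` -/
def nx (s p d : ℕ) (k : ℕ → ℕ → Bool) : Bool :=
  bif Nat.beq p 7 then (bif Nat.blt d 6 then k s d else false)
  else bif Nat.beq d 6 then k s 7
  else bif (Nat.blt d 6 && (Nat.testBit s p ^^ Nat.testBit s d)) then
    force (s ^^^ (2 ^ p ^^^ 2 ^ d)) (fun s' => k s' p)
  else false

/-- the vertex with number `i` is visited -/
def visit (i vis : ℕ) (k : ℕ → Bool) : Bool :=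
  force i fun i => bif Nat.testBit vis i then false else force (vis ||| 2 ^ i) k

/-- the path starting in `(s, p)` with the digits of `m` ends in `(t, q)`, has no repetitions and visits
the set `full` -/
def go (full t q : ℕ) : ℕ → ℕ → ℕ → ℕ → ℕ → Bool
  | 0, s, p, _, vis => Nat.beq s t && Nat.beq p q && Nat.beq vis full
  | n + 1, s, p, m, vis =>
    force (m % 8) fun d => force (m / 8) fun m' => nx s p d fun s' p' =>
      visit (8 * s' + p') vis fun vis' => go full t q n s' p' m' vis'

/-- the set of all vertices: the vertex `(s, p)` has the number `8 * s + p` -/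
def fullN : ℕ :=
  138826196372784403881216052381159056591284172706914244256677306750909577610178741655660970730002311437374938958153680239283755378718801920

/-- the vertex with the code `x` -/
def vx (x : ℕ × ℕ) : GV (Fin 6) :=
  (fun i => x.1.testBit i, if h : x.2 < 6 then some ⟨x.2, h⟩ else none)

/-- the admissible codes -/
def Vd (x : ℕ × ℕ) : Prop := x.1 < 64 ∧ (x.2 < 6 ∨ x.2 = 7)

/-- the number of a code -/
def cd (x : ℕ × ℕ) : ℕ := 8 * x.1 + x.2

theorem cd_inj {x y : ℕ × ℕ} (hx : Vd x) (hy : Vd y) (h : cd x = cd y) : x = y := by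
  obtain ⟨a, b⟩ := x
  obtain ⟨c, d⟩ := y
  unfold Vd at hx hy
  unfold cd at h
  simp only at *
  have h1 : a = c := by omega
  have h2 : b = d := by omega
  rw [h1, h2]

theorem vx_inj {x y : ℕ × ℕ} (hx : Vd x) (hy : Vd y) (h : vx x = vx y) : x = y := by
  obtain ⟨a, b⟩ := x
  obtain ⟨c, d⟩ := y
  unfold Vd at hx hy
  unfold vx at h
  rw [Prod.mk.injEq] at h
  obtain ⟨h1, h2⟩ := h
  simp only at *
  have h3 : a = c := by
    apply Nat.eq_of_testBit_eq
    intro i
    by_cases hi : i < 6
    · exact congrFun h1 ⟨i, hi⟩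
    · have h64 : 64 ≤ 2 ^ i := by
        calc 64 = 2 ^ 6 := by norm_num
          _ ≤ 2 ^ i := Nat.pow_le_pow_right (by norm_num) (by omega)
      rw [Nat.testBit_lt_two_pow (by omega), Nat.testBit_lt_two_pow (by omega)]
  have h4 : b = d := by
    by_cases hb : b < 6 <;> by_cases hd : d < 6
    · rw [dif_pos hb, dif_pos hd, Option.some.injEq, Fin.mk.injEq] at h2
      exact h2
    · rw [dif_pos hb, dif_neg hd] at h2
      exact absurd h2 (by simp)
    · rw [dif_neg hb, dif_pos hd] at h2
      exact absurd h2 (by simp)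
    · omega
  rw [h3, h4]

theorem nx_sound {s p d : ℕ} {k : ℕ → ℕ → Bool} (h : nx s p d k = true) (hv : Vd (s, p)) :
    ∃ s' p', k s' p' = true ∧ Vd (s', p') ∧ gadj (vx (s, p)) (vx (s', p')) := by
  unfold nx at h
  obtain ⟨hs, hp⟩ := hv
  simp only at hs hp
  cases h1 : Nat.beq p 7
  · rw [h1, cond_false] at h
    have hp7 : p ≠ 7 := by
      intro h2
      rw [h2] at h1
      exact absurd h1 (by decide)
    have hp6 : p < 6 := by omega
    cases h2 : Nat.beq d 6
    · rw [h2, cond_false] at h
      cases h3 : (Nat.blt d 6 && (Nat.testBit s p ^^ Nat.testBit s d))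
      · rw [h3, cond_false] at h
        exact absurd h (by decide)
      · rw [h3, cond_true, force_eq] at h
        rw [Bool.and_eq_true] at h3
        have hd : d < 6 := Eq.mp Nat.blt_eq h3.1
        have hne : Nat.testBit s p ≠ Nat.testBit s d := by
          intro h4
          rw [h4] at h3
          simp at h3
        refine ⟨_, _, h, ⟨?_, Or.inl hp6⟩, ?_⟩
        · have e1 : (2 : ℕ) ^ p < 2 ^ 6 := Nat.pow_lt_pow_right (by norm_num) hp6
          have e2 : (2 : ℕ) ^ d < 2 ^ 6 := Nat.pow_lt_pow_right (by norm_num) hd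
          exact Nat.xor_lt_two_pow (n := 6) hs (Nat.xor_lt_two_pow e1 e2)
        · have e3 : vx (s, p) = (fun i : Fin 6 => s.testBit i, some (⟨p, hp6⟩ : Fin 6)) := by
            unfold vx
            rw [dif_pos hp6]
          have e4 : vx (s ^^^ (2 ^ p ^^^ 2 ^ d), p) =
              (swp (fun i : Fin 6 => s.testBit i) (⟨p, hp6⟩ : Fin 6) ⟨d, hd⟩,
                some (⟨p, hp6⟩ : Fin 6)) := by
            unfold vx
            rw [dif_pos hp6, Prod.mk.injEq]
            refine ⟨?_, rfl⟩
            funext i
            rw [swp_apply]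
            simp only [Nat.testBit_xor, Nat.testBit_two_pow, Fin.ext_iff]
            by_cases hip : (i : ℕ) = p
            · rw [if_pos hip, hip]
              have hdp : d ≠ p := fun h4 => hne (by rw [h4])
              cases h5 : s.testBit p <;> cases h6 : s.testBit d
              · exact absurd (h5.trans h6.symm) hne
              · simp [hdp]
              · simp [hdp]
              · exact absurd (h5.trans h6.symm) hne
            · rw [if_neg hip]
              have hip' : ¬ p = (i : ℕ) := fun h4 => hip h4.symm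
              by_cases hid : (i : ℕ) = d
              · rw [if_pos hid, hid]
                have hdp : p ≠ d := fun h4 => hne (by rw [h4])
                cases h5 : s.testBit p <;> cases h6 : s.testBit d
                · exact absurd (h5.trans h6.symm) hne
                · simp [hdp]
                · simp [hdp]
                · exact absurd (h5.trans h6.symm) hne
              · rw [if_neg hid]
                have hid' : ¬ d = (i : ℕ) := fun h4 => hid h4.symm
                simp [hip', hid']
          rw [e3, e4]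
          exact gadj.sw _ _ _ hne
    · rw [h2, cond_true] at h
      refine ⟨_, _, h, ⟨hs, Or.inr rfl⟩, ?_⟩
      unfold vx
      rw [dif_pos hp6, dif_neg (by norm_num)]
      exact gadj.inn _ _
  · rw [h1, cond_true] at h
    have hp7 : p = 7 := Nat.eq_of_beq_eq_true h1
    cases h2 : Nat.blt d 6
    · rw [h2, cond_false] at h
      exact absurd h (by decide)
    · rw [h2, cond_true] at h
      have hd : d < 6 := Eq.mp Nat.blt_eq h2
      refine ⟨_, _, h, ⟨hs, Or.inl hd⟩, ?_⟩
      unfold vx
      rw [dif_pos hd, dif_neg (by simp only; omega)]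
      exact gadj.out _ _

theorem go_sound (full t q : ℕ) : ∀ (n s p m vis : ℕ), go full t q n s p m vis = true →
    Vd (s, p) → ∃ l : List (ℕ × ℕ), List.IsChain (fun a b => gadj (vx a) (vx b)) ((s, p) :: l) ∧
      ((s, p) :: l).getLast (by simp) = (t, q) ∧ (∀ x ∈ l, Vd x) ∧ (l.map cd).Nodup ∧
      (∀ x ∈ l, vis.testBit (cd x) = false) ∧
      ∀ i, full.testBit i = true ↔ (vis.testBit i = true ∨ i ∈ l.map cd) := by
  intro n
  induction n with
  | zero =>
    intro s p m vis h hv
    simp only [go, Bool.and_eq_true] at h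
    obtain ⟨⟨h1, h2⟩, h3⟩ := h
    have h1 := Nat.eq_of_beq_eq_true h1
    have h2 := Nat.eq_of_beq_eq_true h2
    have h3 := Nat.eq_of_beq_eq_true h3
    refine ⟨[], by simp, ?_, by simp, by simp, by simp, ?_⟩
    · simp [h1, h2]
    · intro i
      simp [h3]
  | succ n ih =>
    intro s p m vis h hv
    simp only [go, force_eq] at h
    obtain ⟨s', p', h1, h2, h3⟩ := nx_sound h hv
    simp only [visit, force_eq] at h1
    cases h4 : Nat.testBit vis (8 * s' + p')
    · rw [h4, cond_false] at h1
      obtain ⟨l, a1, a2, a3, a4, a5, a6⟩ := ih s' p' _ _ h1 h2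
      have hb : ∀ i, (vis ||| 2 ^ (8 * s' + p')).testBit i =
          (vis.testBit i || decide (8 * s' + p' = i)) := by
        intro i
        rw [Nat.testBit_or, Nat.testBit_two_pow]
      refine ⟨(s', p') :: l, ?_, ?_, ?_, ?_, ?_, ?_⟩
      · rw [List.isChain_cons_cons]
        exact ⟨h3, a1⟩
      · rw [List.getLast_cons (by simp)]
        exact a2
      · intro x hx
        rcases List.mem_cons.1 hx with rfl | hx
        · exact h2
        · exact a3 x hx
      · rw [List.map_cons, List.nodup_cons]
        refine ⟨?_, a4⟩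
        intro h5
        obtain ⟨x, hx, h6⟩ := List.mem_map.1 h5
        have h7 := a5 x hx
        rw [hb, h6] at h7
        simp [cd] at h7
      · intro x hx
        rcases List.mem_cons.1 hx with rfl | hx
        · exact h4
        · have h7 := a5 x hx
          rw [hb, Bool.or_eq_false_iff] at h7
          exact h7.1
      · intro i
        rw [a6 i, hb, Bool.or_eq_true, decide_eq_true_eq, List.map_cons, List.mem_cons, or_assoc]
        have e : (8 * s' + p' = i) ↔ (i = cd (s', p')) := by
          unfold cd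
          simp only
          exact eq_comm
        rw [e]
    · rw [h4, cond_true] at h1
      exact absurd h1 (by decide)

instance (s : Fin 6 → Bool) : Decidable (Bal s) := by
  unfold Bal
  infer_instance

theorem full_spec : ∀ s : Fin 64, ∀ p : Fin 8, (Nat.testBit fullN (8 * s + p) = true ↔
    (Bal (fun i : Fin 6 => Nat.testBit s i) ∧ p ≠ 6)) := by
  decide +kernel

theorem full_iff {x : ℕ × ℕ} (hx : Vd x) : Nat.testBit fullN (cd x) = true ↔ Bal (vx x).1 := by
  obtain ⟨s, p⟩ := x
  obtain ⟨h1, h2⟩ := hx
  simp only at h1 h2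
  have h3 := full_spec ⟨s, h1⟩ ⟨p, by omega⟩
  simp only at h3
  unfold cd vx
  simp only
  rw [h3]
  refine ⟨fun h => h.1, fun h => ⟨h, ?_⟩⟩
  intro h4
  rw [Fin.ext_iff] at h4
  simp only at h4
  change p = 6 at h4
  omega

theorem vx_surj (v : GV (Fin 6)) : ∃ x, Vd x ∧ vx x = v := by
  obtain ⟨s, p⟩ := v
  have hs : Nat.ofBits s < 64 := Nat.ofBits_lt_two_pow s
  have hs2 : (fun i : Fin 6 => (Nat.ofBits s).testBit i) = s := by
    funext i
    rw [Nat.testBit_ofBits_lt s i i.2]
  rcases p with _ | p
  · refine ⟨(Nat.ofBits s, 7), ⟨hs, Or.inr rfl⟩, ?_⟩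
    unfold vx
    rw [dif_neg (by norm_num)]
    simp only
    rw [hs2]
  · refine ⟨(Nat.ofBits s, p), ⟨hs, Or.inl p.2⟩, ?_⟩
    unfold vx
    rw [dif_pos p.2]
    simp only
    rw [hs2]

theorem hp_of_go {s p t q m : ℕ} (hv : Vd (s, p))
    (h : go fullN t q 139 s p m (2 ^ (8 * s + p)) = true) : HP (vx (s, p)) (vx (t, q)) := by
  obtain ⟨l, a1, a2, a3, a4, a5, a6⟩ := go_sound fullN t q 139 s p m _ h hv
  have hall : ∀ x ∈ ((s, p) :: l), Vd x := by
    intro x hx
    rcases List.mem_cons.1 hx with rfl | hx
    · exact hv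
    · exact a3 x hx
  have hnd : ((s, p) :: l).Nodup := by
    rw [List.nodup_cons]
    refine ⟨?_, List.Nodup.of_map _ a4⟩
    intro h1
    have h2 := a5 _ h1
    unfold cd at h2
    rw [Nat.testBit_two_pow_self] at h2
    exact absurd h2 (by decide)
  have hmem : ∀ x, Vd x → (x ∈ ((s, p) :: l) ↔ Nat.testBit fullN (cd x) = true) := by
    intro x hx
    rw [a6, Nat.testBit_two_pow, decide_eq_true_eq, List.mem_cons]
    constructor
    · rintro (rfl | h1)
      · exact Or.inl rfl
      · exact Or.inr (List.mem_map.2 ⟨x, h1, rfl⟩)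
    · rintro (h1 | h1)
      · left
        exact cd_inj hx hv h1.symm
      · right
        obtain ⟨y, hy, h2⟩ := List.mem_map.1 h1
        have h3 := cd_inj (a3 y hy) hx h2
        rw [← h3]
        exact hy
  refine ⟨[((s, p) :: l).map vx], List.Forall₂.cons ⟨?_, ?_, ?_⟩ List.Forall₂.nil, ?_, ?_⟩
  · simp
  · rw [List.getLast?_map, List.getLast?_eq_getLast_of_ne_nil (by simp), a2]
    rfl
  · rw [List.isChain_map]
    exact a1
  · simp only [List.flatten_cons, List.flatten_nil, List.append_nil]
    exact List.Nodup.map_on (fun x hx y hy hxy => vx_inj (hall x hx) (hall y hy) hxy) hnd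
  · intro w
    simp only [List.flatten_cons, List.flatten_nil, List.append_nil]
    rw [List.mem_map]
    constructor
    · rintro ⟨x, hx, rfl⟩
      exact (full_iff (hall x hx)).1 ((hmem x (hall x hx)).1 hx)
    · intro hw
      obtain ⟨x, hx, rfl⟩ := vx_surj w
      exact ⟨x, (hmem x hx).2 ((full_iff hx).2 hw), rfl⟩

/-- all targets occur -/
def occ (tab : List (ℕ × ℕ × ℕ)) (s0 p0 : ℕ) : Bool :=
  (List.range 64).all fun s => (List.range 8).all fun p =>
    !(Nat.testBit fullN (8 * s + p)) || (Nat.beq s s0 && Nat.beq p p0) ||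
      tab.any (fun e => Nat.beq e.1 s && Nat.beq e.2.1 p)

theorem hp_of_tab {tab : List (ℕ × ℕ × ℕ)} {s p : ℕ} (hv : Vd (s, p))
    (h : tab.all (fun e => go fullN e.1 e.2.1 139 s p e.2.2 (2 ^ (8 * s + p))) = true)
    (ho : occ tab s p = true) (v : GV (Fin 6)) (hbv : Bal v.1) (hne : v ≠ vx (s, p)) :
    HP (vx (s, p)) v := by
  obtain ⟨⟨t, q⟩, hx, rfl⟩ := vx_surj v
  have h1 := (full_iff hx).2 hbv
  unfold occ at ho
  rw [List.all_eq_true] at ho
  have h2 := ho t (List.mem_range.2 hx.1)
  rw [List.all_eq_true] at h2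
  have h3 := h2 q (List.mem_range.2 (by have := hx.2; simp only at this; omega))
  unfold cd at h1
  simp only at h1
  rw [h1] at h3
  simp only [Bool.not_true, Bool.false_or, Bool.or_eq_true, Bool.and_eq_true] at h3
  rcases h3 with ⟨h4, h5⟩ | h3
  · exfalso
    apply hne
    rw [Nat.eq_of_beq_eq_true h4, Nat.eq_of_beq_eq_true h5]
  · rw [List.any_eq_true] at h3
    obtain ⟨e, he, h4⟩ := h3
    rw [Bool.and_eq_true] at h4
    rw [List.all_eq_true] at h
    have h5 := h e he
    have h6 := hp_of_go hv h5
    rw [Nat.eq_of_beq_eq_true h4.1, Nat.eq_of_beq_eq_true h4.2] at h6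
    exact h6

end p_small2Aux

end Pool.Agent.MPc603ed
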