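import Pool.Agent.Lib.MP_c603ed_co.Spec1

/-!
# MP_c603ed_co: unique decomposition of Dyck words
-/

set_option autoImplicit false

namespace Pool.Agent.MPc603ed

open Lt

theorem p_split : S_split := by
  intro a a' b b' d d' ha
  induction ha generalizing a' b b' d d' with
  | nil =>
    intro ha' hd hd' h
    cases ha' with
    | nil =>
      rw [List.nil_append, List.nil_append] at h
      injection h with h1 h2
      exact ⟨rfl, h1, h2⟩
    | cons a1 a2 e h1 h2 h3 =>
      rw [List.nil_append, List.cons_append] at h
      injection h with h4 h5
      exact absurd h4 hd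
  | cons a1 a2 e h1 he h2 ih1 ih2 =>
    intro ha' hd hd' h
    cases ha' with
    | nil =>
      rw [List.nil_append, List.cons_append] at h
      injection h with h4 h5
      exact absurd h4.symm hd'
    | cons a1' a2' e' h1' he' h2' =>
      rw [List.cons_append, List.cons_append, List.append_assoc, List.append_assoc,
        List.cons_append, List.cons_append] at h
      injection h with h4 h5
      obtain ⟨r1, r2, r3⟩ := ih1 a1' (a2 ++ d :: b) (a2' ++ d' :: b') e e' h1' he he' h5
      obtain ⟨s1, s2, s3⟩ := ih2 a2' b b' d d' h2' hd hd' r3
      subst r1 r2 s1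
      exact ⟨rfl, s2, s3⟩

end Pool.Agent.MPc603ed
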