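import Pool.Agent.Lib.MP_c603ed_co.Spec3

/-!
# MP_c603ed_co: tools for the part modules
-/

set_option autoImplicit false

namespace Pool.Agent.MPc603ed

open Lt

namespace PartAux

theorem beq1 {α β : Type} [BEq α] [BEq β] (a : α) (b : β) :
    ((Sum.inl a : α ⊕ β) == Sum.inr b) = false := rfl

theorem beq2 {α β : Type} [BEq α] [BEq β] (a : α) (b : β) :
    ((Sum.inr b : α ⊕ β) == Sum.inl a) = false := rfl

theorem beq3 {α β : Type} [BEq α] [BEq β] (a b : α) :
    ((Sum.inl a : α ⊕ β) == Sum.inl b) = (a == b) := rfl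

theorem beq4 {α β : Type} [BEq α] [BEq β] (a b : β) :
    ((Sum.inr a : α ⊕ β) == Sum.inr b) = (a == b) := rfl

theorem count_rp' {α : Type} [BEq α] (a b c : α) (k : ℕ) :
    (rp a b k).count c = (if (a == c) = true then k else 0) + (if (b == c) = true then k else 0) := by
  induction k with
  | zero => simp [rp]
  | succ k ih =>
    simp only [rp, List.count_cons, ih]
    split_ifs <;> omega

end PartAux

end Pool.Agent.MPc603ed
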