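import Pool.Agent.Lib.MP_c603ed_co.Basic

/-!
# MP_c603ed_co, Spec 1: words, the 2-factor, the gluing theorem

Every `S_...` is a statement to be proved in its own file; the docstring contains the complete
proof.  `ρ` always is a rotation of states, `RhoSpec ρ`: `ρ (c; U a d b) = (d; a U b c)`.
In the docstrings a state is written `(c; y)`, and `|a|` is the length of the word `a`.
`P(e; s)` is `(false, e, s)`, `Q(e; s)` is `(true, e, s)`.
-/

set_option autoImplicit false

namespace Pool.Agent.MPc603ed

open Lt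

/-! ## Words -/

/-- **Unique decomposition.**  For a word `y` let `h(y)` be the number of letters `U` minus the number
of other letters.  By induction on `Dy`: `h(y) = 0` and `h(p) ≥ 0` for every prefix `p` of `y` (for
`y = U a d b`: a prefix is empty, or `U p` with `p` a prefix of `a`, or `U a d q` with `q` a prefix of
`b`).  In the situation of the statement `a` and `a'` are prefixes of the same word.  If `|a| < |a'|`,
then `a d` is a prefix of `a'` with `h = -1`, a contradiction; likewise for `|a'| < |a|`; so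
`|a| = |a'|` and everything follows. -/
def S_split : Prop := ∀ (a a' b b' : List Lt) (d d' : Lt), Dy a → Dy a' → d ≠ U → d' ≠ U →
  a ++ d :: b = a' ++ d' :: b' → a = a' ∧ d = d' ∧ b = b'

/-- **Rotation by a Dyck prefix** (for functions).  Induction on `Dy a`, for all `s` and `b`.
`a = []`: trivial.  `a = U a1 d a2`: `(c; U a1 d a2 b) ↦ (d; a1 U a2 b c)` by `RhoSpec` (the word after
`d` is `a2 b`); after `|a1|` further steps it is `(d; (U a2 b c) a1)` by induction (`U a2 b c` is the
Dyck word `U (a2 b) c []`); one step: `(c; a2 b U a1 d)`; after `|a2|` further steps it is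
`(c; (b U a1 d) a2) = (c; b a)`.  Altogether `1 + |a1| + 1 + |a2| = |a|` steps. -/
def S_rotF : Prop := ∀ (n m : ℕ) (ρ : St n m → St n m), RhoSpec ρ → ∀ (s : St n m) (a b : List Lt),
  Dy a → Dy b → s.1.2 = a ++ b → (ρ^[a.length] s).1 = (s.1.1, b ++ a)

/-- **Existence of the rotation**, using `S_split` and `S_rotF`.  If `n = 0` the identity works (the
hypothesis of `RhoSpec` never holds).  If `n ≥ 1`, every state has a word `y ≠ []`, so by definition of
`Dy` (cases) there are `a, d, b` with `y = U a d b`, unique by `S_split`; put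
`ρ (c; y) = (d; a U b c)`.  This is a state: `d ≠ U`; `a ++ U b c` is a Dyck word (`Dy.app`, `Dy.cons`);
the length and the number of letters `T` are unchanged.  So there is a function with `RhoSpec`; by
`S_rotF` with `b = []` we have `ρ^[2n] = id`, so `ρ` is bijective (for `n ≥ 1`, `ρ^[2n-1]` is the
inverse). -/
def S_rho : Prop := ∀ (n m : ℕ), ∃ ρ : Equiv.Perm (St n m), RhoSpec ρ

/-- **Every orbit contains a state with root letter `T`.**  If the root letter is `T`, take `k = 0`.
Otherwise the word contains `T`.  Claim: for every Dyck word `a` containing `T`, every Dyck word `b` and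
every state `s = (c; a b)` there is `k` such that the root letter of `ρ^[k] s` is `T`.  Induction on
`Dy a`, `a = U a1 d a2`: `ρ s = (d; a1 (U a2 b c))`.  If `d = T` take `k = 1`.  If `T ∈ a1` use the
induction hypothesis for `a1` and `ρ s`.  If `T ∈ a2`: `ρ^[|a1| + 2] s = (c; a2 (b U a1 d))` (apply
`S_rotF` to `ρ s` and `a1`, then one step), use the induction hypothesis for `a2`.
(Hypothesis: `S_rotF`.) -/
def S_rootT : Prop := ∀ (n : ℕ) (ρ : St n 1 → St n 1), RhoSpec ρ → ∀ s : St n 1,
  ∃ k, (ρ^[k] s).1.1 = T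

/-- **The degree of the marked vertex.**  Put
`deg s = #{t < 2n | the root letter of ρ^[t] s is T}`.  By `S_rotF` (with `b = []`) `ρ^[2n] s = s`, so
the number is the same for `ρ s` (the values `t = 1, ..., 2n` instead of `0, ..., 2n - 1`).

Claim 1: for Dyck words `a`, `w` and a state `s = (c; a w)` and `t ≤ |a|`, the root letter of
`ρ^[t] s` is `c` or a letter of `a`.  Induction on `Dy a`; `a = U a1 d a2`: for `t = 0` it is `c`;
`ρ s = (d; a1 (U a2 w c))`, so for `1 ≤ t ≤ 1 + |a1|` it is `d` or a letter of `a1` by induction;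
`ρ^[|a1| + 2] s = (c; a2 (w U a1 d))` (`S_rotF` and one step), so for
`|a1| + 2 ≤ t ≤ |a1| + 2 + |a2| = |a|` it is `c` or a letter of `a2`.

Claim 2: if `s = (T; a b)` with Dyck words `a`, `b` and `Bl a k`, then
`#{t < |a| | the root letter of ρ^[t] s is T} = k`.  Induction on `Bl a k`; `a = U a1 d a2` with
`Bl a2 (k - 1)`: the words contain no `T` (the root letter is the only one).  `t = 0` counts;
`ρ s = (d; a1 (U a2 b T))` and for `1 ≤ t ≤ 1 + |a1|` the root letter is `d` or a letter of `a1` by
Claim 1, so it is not `T`; `ρ^[|a1| + 2] s = (T; a2 (b U a1 d))` and the remaining `|a2|` values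
contribute `k - 1` by induction.  Take `b = []` for the statement.  (Hypothesis: `S_rotF`.) -/
def S_deg : Prop := ∀ (n : ℕ) (ρ : Equiv.Perm (St n 1)), RhoSpec ρ →
  ∃ deg : St n 1 → ℕ, (∀ s, deg (ρ s) = deg s) ∧
    ∀ (s : St n 1) (k : ℕ), s.1.1 = T → Bl s.1.2 k → deg s = k

/-- **The star orbit without marks** consists of two words: if the word of `s` is `(UZ)^n` then the
word of `ρ s` is `U (UZ)^(n-1) Z`, and if it is `U (UZ)^(n-1) Z` then the word of `ρ s` is `(UZ)^n`
(all root letters are `Z` as there is no `T`).  So the set of states with one of these two words is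
mapped into itself by `ρ`; as `ρ` is a permutation of a finite set and the set is finite, it is also
mapped into itself by the inverse, so if `ρ^[k] s` is in the set then so is `s`. -/
def S_star0 : Prop := ∀ (n : ℕ) (ρ : Equiv.Perm (St n 0)), 1 ≤ n → RhoSpec ρ → ∀ s : St n 0,
  StarOrb ρ s → s.1.2 = UZ n ∨ s.1.2 = U :: (UZ (n - 1) ++ [Z])

/-- **A word different from the star has a move.**  Induction on `Dy y`, `y = U a d b` (the case
`y = [] = UZ 0` is excluded); all letters `d` are `Z` as `T ∉ y`.  If `a ≠ []`, write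
`a = U a1 d1 b1`.  If `a1 = []` then `y = U U Z b1 Z b`, use `Hx.base b1 b`.  If `a1 ≠ []` then `a` is
not of the form `(UZ)^k` (its second letter is `U`), so by induction `Hx a a'`, use `Hx.left`.  If
`a = []`, then `y = U Z b` and `b ≠ (UZ)^k` for all `k`, so `Hx b b'` by induction, use `Hx.right`. -/
def S_hx1 : Prop := ∀ y : List Lt, Dy y → T ∉ y → (∀ k, y ≠ UZ k) → ∃ y', Hx y y'

/-- **Properties of moves.**  Induction on `Hx`.  For `inv`: for lists `a, b`,
`inv (a ++ b) = inv a + (a.count U) * (number of letters of b different from U) + inv b`; the two words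
of a move have the same length and the same numbers of letters, and in the base case
`inv (U U Z r) = inv (U Z U r) + 1`. -/
def S_hx2 : Prop := ∀ y y' : List Lt, Hx y y' → Dy y ∧ Dy y' ∧ y'.length = y.length ∧
  y'.count T = y.count T ∧ inv y' < inv y

/-- **Moves become gluing pairs after a rotation.**  Induction on `Hx a a'`, for all `w, s, s', c`.
Base: `a w = U U Z (u Z (v w))` and `a' w = U Z U (u Z (v w))`, take `k = 0`.
Left, `a = U a1 d b`, `a' = U a1' d b`: `ρ s = (d; a1 (U b w c))` and `ρ s' = (d; a1' (U b w c))`, use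
the induction hypothesis with the Dyck word `U b w c` (here `c ≠ U` because it is a root letter).
Right, `a = U a1 d b`, `a' = U a1 d b'`: by `S_rotF` with the Dyck word `U a1 d` (of length `|a1| + 2`)
`ρ^[|a1| + 2] s = (c; b (w U a1 d))` and `ρ^[|a1| + 2] s' = (c; b' (w U a1 d))`, use the induction
hypothesis with the Dyck word `w U a1 d`.  (Hypotheses: `S_rotF`, `S_hx2` for `Dy a'`.) -/
def S_hx3 : Prop := ∀ (n m : ℕ) (ρ : St n m → St n m), RhoSpec ρ → ∀ a a' : List Lt, Hx a a' →
  ∀ (w : List Lt) (s s' : St n m) (c : Lt), Dy w → s.1 = (c, a ++ w) → s'.1 = (c, a' ++ w) →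
    ∃ k, HexB (ρ^[k] s) (ρ^[k] s')

/-- **The pointers.**  Write `o(s)` for the `ρ`-orbit of `s` (a finite set, `ρ` a permutation; two states
are in the same orbit iff `ρ.SameCycle`).  Every orbit contains a state with root letter `rl m`: for
`m = 0` all letters different from `U` are `Z = rl 0`; for `m = 1` this is `S_rootT`.  Define `ψ s` as the
minimum of `inv y` over all states `(rl m; y)` in the orbit of `s`; it only depends on the orbit.  Choose
(by choice, depending only on the orbit, e.g. via `Quotient.out` for the setoid `SameCycle`, or a choice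
function on the set of orbits) a state `(rl m; y)` of the orbit with `inv y = ψ s`.  Its word contains
no `T` (if `m = 1`, the root letter is the only `T`).  If the orbit is not the star orbit
(`¬ StarOrb ρ s`) then `y` is not `(UZ)^n`, and not `(UZ)^k` for `k ≠ n` because of the length; by `S_hx1`
there is `y'` with `Hx y y'`, and `(rl m; y')` is a state with `inv y' < inv y` by `S_hx2`.  By `S_hx3`
with `w = []` there is `k` with `HexB (ρ^[k] (rl m; y)) (ρ^[k] (rl m; y'))`; let `X s`, `Y s` be these
two states.  Then `X s` is in the orbit of `s` and `ψ (Y s) ≤ inv y' < ψ s`.  For the star orbit let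
`X s`, `Y s` be arbitrary (depending only on the orbit).
(Hypotheses: `S_rootT`, `S_hx1`, `S_hx2`, `S_hx3`.) -/
def S_ptr : Prop := ∀ (n m : ℕ) (ρ : Equiv.Perm (St n m)), 1 ≤ n → m ≤ 1 → RhoSpec ρ →
  ∃ (ψ : St n m → ℕ) (X Y : St n m → St n m),
    (∀ s, ψ (ρ s) = ψ s ∧ X (ρ s) = X s ∧ Y (ρ s) = Y s) ∧
    ∀ s, ¬ StarOrb ρ s → ρ.SameCycle s (X s) ∧ ψ (Y s) < ψ s ∧ HexB (X s) (Y s)

/-! ## Strings -/

/-- **Cycle lemma for lists.**  Induction on the length of `l`.  Put `D` for the number of letters
different from `U`.  If the length is `1`, then `p = q = []`.  Otherwise both numbers are positive.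
Replacing `l` by a rotation of itself is harmless (if `l = l1 l2` and the statement holds for `l2 l1`
then it holds for `l`: a rotation of a rotation is a rotation; work with the formulation there are
`x, y` with `Dy y` and `x y` a rotation `l2 l1` of `l = l1 l2`, see `List.IsRotated`).  As `l` contains
`U` and a down letter, there is a cyclic occurrence of `U d`, `d ≠ U`, so after a rotation `l = U d l'`.
`l'` satisfies the hypothesis, so some rotation of `l'` is `x y` with `Dy y`.  Hence `l' = p q` with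
`q p = x y`.  If `q = []`, then `p = x y` and `l = U d x y` has the rotation `x y U d`, and `y U d` is a
Dyck word.  If `q = x q'`, then `y = q' p` and `l = U d p q` has the rotation `q U d p = x q' U d p`, and
`q' U d p` is a Dyck word because `q' p` is one: inserting `U d` (`d ≠ U`) into a Dyck word gives a Dyck
word (induction on `Dy (q' p)` for all splittings: the insertion is at the beginning, or inside `a`, or
inside `b` (including their ends) of `U a d' b`). -/
def S_cyc : Prop := ∀ l : List Lt,
  (l.count U + 1 = (l.filter (fun z => z ≠ U)).length ∨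
    l.count U = (l.filter (fun z => z ≠ U)).length + 1) →
  ∃ (p q : List Lt) (x : Lt), l = p ++ x :: q ∧ Dy (q ++ p)

/-- **The strings of the abstract vertices (1): the image of `dec`.**  Put `N = 2n + 1`.
(a) `dec z ∈ Cls n m`: the front letter together with the letters of the string are the letters `U`,
`c`, and those of `y` (a Dyck word of length `2n` has exactly `n` letters `U`); the string `put e l`
is a bijective rearrangement of the list `l` of length `N`.
(b) Every `v = (f, w)` in `Cls n m` is a `dec z`: let `l = [w 0, w 1, ..., w (N - 1)]`.  If `f = U` then `l`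
has `n` letters `U` and `n + 1` others, if `f ≠ U` it has `n + 1` letters `U` and `n` others.  By `S_cyc`
`l = p x q` with `Dy (q p)`; `|q p| = 2n`, so `q p` has `n` letters `U`, hence `x ≠ U` if `f = U` and
`x = U` if `f ≠ U`.  With `e = |p|` we have `w = put 0 (p x q) = put e (x q p)` (`put_rotate_list`).  So
`v = dec (P(e; x; q p))` or `v = dec (Q(e; f; q p))`.  (Hypothesis: `S_cyc`.) -/
def S_decS : Prop := ∀ (n m : ℕ) (v : Str n), v ∈ Cls n m ↔ ∃ z : AV n m, dec z = v

/-- **The strings of the abstract vertices (2): injectivity.**  The front letter shows which of the two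
forms `P`, `Q` the vertex has (`c ≠ U`).  If `e` is the same, the lists are the same (they have length
`2n + 1`).  Suppose `e ≠ e'`.  For a word let `h` be the number of letters `U` minus the number of the other
letters; a Dyck word has `h = 0` and `h ≥ 0` for all prefixes.  Both decompositions of the form `P`:
reading from `e`, the letter at `e'` is a down letter of the Dyck word after `e`, and the prefix before
it has `h ≥ 1` (as the prefix including it has `h ≥ 0`), i.e. the open cyclic interval `(e, e')` has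
`h ≥ 1`; likewise `(e', e)`.  The whole circle has `h = n - (n + 1) = -1` but also
`h = h(e, e') + h(e', e) - 2 ≥ 0`, a contradiction.  Form `Q`: the letter at `e'` is `U`, the prefixes
have `h(e, e') ≥ 0`, `h(e', e) ≥ 0`, the circle has `h = (n + 1) - n = 1` but also
`h = h(e, e') + h(e', e) + 2 ≥ 2`, a contradiction.  (In lists: if `e' = e + k`, `0 < k < 2n + 1`, and `l, l'`
are the two lists of length `2n + 1`, then `l = l1 l2`, `l' = l2 l1` with `|l1| = k`; `l = x y`,
`l' = x' y'` with `Dy y`, `Dy y'`.) -/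
def S_decI : Prop := ∀ (n m : ℕ), Function.Injective (dec : AV n m → Str n)

/-- **The 2-factor consists of edges.**  `Q(e; c; y)` and `P(e; c; y)`: the strings are
`(c, put e (U y))` and `(U, put e (c y))`, use `sadj_put` with empty prefix.  `P(e; c; U a d b)` and
`Q(e + 1; d; a U b c)`: the strings are `(U, put e (c U a d b))` and
`(d, put (e + 1) (U a U b c)) = (d, put e (c U a U b))` (`put_rotate`), use `sadj_put`.  (For `n ≥ 1` the word
of a state is not empty, so it is of the form `U a d b`.) -/
def S_sig : Prop := ∀ (n m : ℕ) (ρ : Equiv.Perm (St n m)), 1 ≤ n → RhoSpec ρ →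
  ∀ z : AV n m, sadj (dec z) (dec (sig ρ z))

/-- **The hexagon.**  Let `X = (c; U U Z u Z v)`, `Y = (c; U Z U u Z v)`, `x0 = P(e; X)`, `xk = σ^k x0`,
`y0 = P(e; Y)`, `y1 = σ y0`, `σ = sig ρ`.  Then by `RhoSpec`
`x1 = Q(e + 1; Z; U Z u U v c)`, `x2 = P(e + 1; same)`, `x3 = Q(e + 2; Z; U u U v c Z)`,
`x4 = P(e + 2; same)`, `x5 = Q(e + 3; Z; u U v c U Z)`, `x6 = P(e + 3; same)`,
`y1 = Q(e + 1; Z; U U u Z v c)`.  All strings written from position `e` on (`put_rotate`):
`x0 = (U, [c U U Z u Z v])`, `x1 = (Z, [c U U Z u U v])`, `x5 = (Z, [c U Z U u U v])`,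
`x6 = (U, [c U Z Z u U v])`, `y0 = (U, [c U Z U u Z v])`, `y1 = (Z, [c U U U u Z v])`.
So `x1 ~ x6`, `x5 ~ y0`, `y1 ~ x0` by `sadj_put` (and `sadj_symm`). -/
def S_hexadj : Prop := ∀ (n m : ℕ) (ρ : Equiv.Perm (St n m)), RhoSpec ρ → ∀ X Y : St n m,
  HexB X Y → ∀ e : ZMod (2 * n + 1),
    sadj (dec (sig ρ (false, e, X))) (dec ((sig ρ ^ 6) (false, e, X))) ∧
    sadj (dec ((sig ρ ^ 5) (false, e, X))) (dec (false, e, Y)) ∧
    sadj (dec (sig ρ (false, e, Y))) (dec (false, e, X))

/-! ## Abstract gluing -/

/-- the support of a hexagon: `x, σ x, ..., σ^5 x` and `y` -/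
def hsup {V I : Type} (σ : Equiv.Perm V) (x y : I → V) (i : I) (k : Fin 7) : V :=
  if k = 6 then y i else (σ ^ (k : ℕ)) (x i)

/-- `σ'` is obtained from `σ` by switching all hexagons: the edges `x0 x1`, `x5 x6`, `y0 y1` are replaced
by `x1 x6`, `x5 y0`, `y1 x0` -/
def Switched {V I : Type} (σ σ' : Equiv.Perm V) (x y : I → V) : Prop :=
  (∀ i, σ' (x i) = σ (y i) ∧ σ' (y i) = (σ ^ 5) (x i) ∧ σ' ((σ ^ 5) (x i)) = (σ ^ 4) (x i) ∧
    σ' ((σ ^ 4) (x i)) = (σ ^ 3) (x i) ∧ σ' ((σ ^ 3) (x i)) = (σ ^ 2) (x i) ∧
    σ' ((σ ^ 2) (x i)) = σ (x i) ∧ σ' (σ (x i)) = (σ ^ 6) (x i)) ∧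
  ∀ z, (∀ i k, z ≠ hsup σ x y i k) → σ' z = σ z

/-- **Switching disjoint hexagons.**  Let `Π` be the map with `Π z = z` outside the supports and, for
every `i`, `x0 ↦ y0 ↦ x4 ↦ x2 ↦ x0` and `x5 ↦ x3 ↦ x1 ↦ x5` (`xk = σ^k (x i)`, `y0 = y i`).  As the
supports are disjoint and each has seven different elements, `Π` is a well-defined permutation, and
`σ' = σ ∘ Π` is as required.  (Alternatively: induction on the finite set of indices which are
switched, multiplying from the right by the product of the 4-cycle and the 3-cycle, each of which is a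
product of `Equiv.swap`s.) -/
def S_glue : Prop := ∀ (V I : Type) (σ : Equiv.Perm V) (x y : I → V), Finite I →
  (∀ i k i' k', hsup σ x y i k = hsup σ x y i' k' → i = i' ∧ k = k') →
  ∃ σ' : Equiv.Perm V, Switched σ σ' x y

/-- **Connectivity after switching.**  `q z` is the name of the `σ`-cycle of `z`, the cycles `lab i` are
the ones which are glued to the cycle of `y i`; `rt` is the root map.  Write `z ≈ w` for
`σ'.SameCycle z w`.

(→) `rt (q (σ' z)) = rt (q z)` for all `z`: clear if `z` is in no support (`σ' z = σ z` is in the same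
`σ`-cycle); `σ' (x i) = σ (y i)`: `rt (lab i) = rt (q (y i))`; `σ' (y i) = σ^5 (x i)`: the same; the other
`σ' (σ^k (x i))` are in the same `σ`-cycle.  `V` is finite, so `SameCycle` is given by powers.

(←) Claim 1: if `q z = q w` then `z ≈ w`.  Strong induction on `R - rk (q z)` where `R` is an upper bound
of `rk ∘ q` (`V` finite), i.e. we may use the claim for all cycles of larger rank.  Let `o = q z`.
First, `z ≈ σ z` for all `z` with `q z = o` which are not of the form `σ^k (x i)`, `k ≤ 5`: if `z` is in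
no support this is `σ' z = σ z`; if `z = y i`, then the cycle `lab i` has larger rank than `q (y i) = o`,
so by induction `x i ≈ σ^5 (x i)`, and `y i ≈ σ^5 (x i) ≈ x i ≈ σ (y i)`.  If `o` is not of the form
`lab i`, then no element of the cycle is of the form `σ^k (x i)` (`q (x i) = lab i`), so the claim holds.
If `o = lab i` (then `i` is unique), the elements `σ^k (x i)`, `k = 1, ..., 5`, are all `≈ σ^6 (x i)` by
the definition of `σ'`; and `σ^6 (x i) ≈ σ^7 (x i) ≈ ... ≈ x i`: along the cycle, as long as we do not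
come back to `x i` (let `L` be the length of the cycle, the smallest `L ≥ 1` with `σ^L (x i) = x i`;
`L ≥ 6` as `x i, ..., σ^5 (x i)` are different; for `6 ≤ k < L` the element `σ^k (x i)` is not one of
`x i, ..., σ^5 (x i)`, so `σ^k (x i) ≈ σ^(k+1) (x i)`); if `L = 6` then `σ^6 (x i) = x i` and nothing is to be
shown.  So all elements of the cycle are `≈ x i`.

Claim 2: every `z` is `≈` to some (hence, by Claim 1, every) `w` with `q w = rt (q z)`.  Strong induction
on `rk (q z)`.  If `q z` is not of the form `lab i`, `rt (q z) = q z`.  If `q z = lab i`, then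
`z ≈ x i ≈ σ (y i)` and `q (σ (y i)) = q (y i)` has smaller rank and the same root.

So `rt (q z) = rt (q w)` implies `z ≈ z' ≈ w' ≈ w` with `q z' = rt (q z) = rt (q w) = q w'`. -/
def S_conn : Prop := ∀ (V O I : Type) (σ σ' : Equiv.Perm V) (q : V → O) (lab : I → O) (x y : I → V)
  (rt : O → O) (rk : O → ℕ), Finite V →
  (∀ z w, q z = q w ↔ σ.SameCycle z w) → Function.Injective lab → (∀ i, q (x i) = lab i) →
  (∀ i, rk (q (y i)) < rk (lab i)) → (∀ i, rt (lab i) = rt (q (y i))) →
  (∀ o, (∀ i, o ≠ lab i) → rt o = o) →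
  (∀ i k i' k', hsup σ x y i k = hsup σ x y i' k' → i = i' ∧ k = k') → Switched σ σ' x y →
  ∀ z w, σ'.SameCycle z w ↔ rt (q z) = rt (q w)

/-- **Roots and colours of a forest of pointers** (`nr o`: `o` is not a root).  Both functions are
defined by well-founded recursion on the rank: `rt o = rt (par o)` if `nr o` and `rt o = o` otherwise;
`col o = ! col (par o)` if `nr o` and `col o = true` otherwise. -/
def S_tree : Prop := ∀ (O : Type) (par : O → O) (rk : O → ℕ) (nr : O → Prop),
  (∀ o, nr o → rk (par o) < rk o) →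
  (∃ rt : O → O, (∀ o, nr o → rt o = rt (par o)) ∧ (∀ o, ¬ nr o → rt o = o) ∧ ∀ o, ¬ nr (rt o)) ∧
  ∃ col : O → Bool, ∀ o, nr o → col (par o) ≠ col o

/-- **The cycles of `sig ρ`.**  `sig ρ` maps a vertex with state `s` to one with state `s` or `ρ s`; this
gives `→` (the set is finite, `SameCycle` is given by powers).  Conversely, with `σ = sig ρ`,
`σ^2 P(e; s) = P(e + 1; ρ s)`, so `σ^(2t) P(e; s) = P(e + t; ρ^t s)`.  By `S_rotF` with `b = []`
`ρ^(2n) = 1`; with `t = 2n` we get that `P(e; s)` and `P(e + 2n; s) = P(e - 1; s)` are in the same cycle,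
hence `P(e; s)` and `P(e'; s)` for all `e, e'`; also `σ Q(e; s) = P(e; s)`, and `P(e; s)`,
`P(e + 1; ρ s)`.  (Hypothesis: `S_rotF`.) -/
def S_sigcyc : Prop := ∀ (n m : ℕ) (ρ : Equiv.Perm (St n m)), RhoSpec ρ → ∀ z w : AV n m,
  (sig ρ).SameCycle z w ↔ ρ.SameCycle z.2.2 w.2.2

/-- **The supports are disjoint.**  `N = 2n + 1 ≥ 7`, `σ = sig ρ`, `x i = P(sh i; X i)`,
`y i = P(sh i; Y i)`, `sh i = 1` or `4`.  The elements `σ^k (x i)`, `k = 0, ..., 5`, are `P(sh; X)`,
`Q(sh + 1; ρ X)`, `P(sh + 1; ρ X)`, `Q(sh + 2; ρ^2 X)`, `P(sh + 2; ρ^2 X)`, `Q(sh + 3; ρ^3 X)` (`sh = sh i`,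
`X = X i`): different from each other because of the type and the shift (`sh, sh + 1, sh + 2, sh + 3` are
different modulo `N ≥ 7`), with states in the `ρ`-cycle of `X i`.  For different `i` they are different.
If `y i = y i'` then `sh i = sh i'` and `Y i = Y i'`, and as `HexB (X i) (Y i)`, `HexB (X i') (Y i')`, we get
`X i = X i'` (the word of `X` is that of `Y` with the second and the third letter exchanged), so
`i = i'`.  If `y i = σ^k (x i')` with `k ≤ 5`, then `Y i` is in the `ρ`-cycle of `X i'`, so by hypothesis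
`sh i ≠ sh i'`; as `y i` is of the form `P(sh i; _)`, `k ∈ {0, 2, 4}` and
`sh i ∈ {sh i', sh i' + 1, sh i' + 2}`, that is `4 ∈ {1, 2, 3}` or `1 ∈ {4, 5, 6}` modulo `N ≥ 7`, a
contradiction. -/
def S_sup : Prop := ∀ (n m : ℕ) (ρ : Equiv.Perm (St n m)), 3 ≤ n → RhoSpec ρ →
  ∀ (I : Type) (X Y : I → St n m) (sh : I → ZMod (2 * n + 1)),
    (∀ i, sh i = 1 ∨ sh i = 4) → (∀ i, HexB (X i) (Y i)) →
    (∀ i i', ρ.SameCycle (X i) (X i') → i = i') →
    (∀ i i', ρ.SameCycle (Y i) (X i') → sh i ≠ sh i') →
    ∀ i k i' k', hsup (sig ρ) (fun i => ((false, sh i, X i) : AV n m)) (fun i => (false, sh i, Y i)) i k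
      = hsup (sig ρ) (fun i => ((false, sh i, X i) : AV n m)) (fun i => (false, sh i, Y i)) i' k' →
      i = i' ∧ k = k'

/-- **Gluing all untouched cycles.**  `σ = sig ρ`.
Take `O` := the quotient of `St n m` by `ρ.SameCycle`, `q z` := the class of the state of `z`.  By
`S_sigcyc`, `q z = q w ↔ σ.SameCycle z w`.  By `S_ptr` we have `ψ, X, Y`, constant on the classes, so
functions on `O`; `nr o` := `o` is not touched (`¬ Tch s` for the states `s` of `o`).  The star orbit is
touched, so for untouched `o` the class `par o` of `Y o` has smaller `ψ`, and `X o` is in `o`.  Let `I` be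
the type of the untouched `o`, `lab` the inclusion.  By `S_tree` (rank `ψ`) there are `rt` and `col`.
Put `sh o = 1` if `col o`, `sh o = 4` otherwise, `x o = P(sh o; X o)`, `y o = P(sh o; Y o)`.
The hypotheses of `S_sup` hold: if `X o`, `X o'` are in the same cycle then `o = o'`; if `Y o` is in the
cycle of `X o'` then `o' = par o`, so `col o' ≠ col o` and `sh o' ≠ sh o` (`1 ≠ 4` modulo `2n + 1 ≥ 7`).
So `S_glue` gives `σ'` with `Switched σ σ' x y`.

(1) `dec z`, `dec (σ' z)` are adjacent: outside the supports by `S_sig`; `σ' (x o) = σ (y o)`,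
`σ' (y o) = σ^5 (x o)`, `σ' (σ (x o)) = σ^6 (x o)` by `S_hexadj` (and `sadj_symm`);
`σ' (σ^k (x o)) = σ^(k-1) (x o)` for `k = 2, ..., 5` by `S_sig` and `sadj_symm`.
(2) If the state of `z` is touched and `z = Q(..)` or `z = P(e; ..)` with `e ≠ 1, 4`, then `z` is in no
support: `σ^k (x o)` has its state in the untouched class `o`, and `y o = P(sh o; ..)` with
`sh o ∈ {1, 4}`.
(3), (4): by `S_conn` `σ'.SameCycle z w ↔ rt (q z) = rt (q w)`; `rt (q z)` is touched (the last property
of `rt` in `S_tree`), take any vertex `w` with state in this class for (3); for touched `z, w` we have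
`rt (q z) = q z`, `rt (q w) = q w`.
(Hypotheses: `S_ptr`, `S_sig`, `S_hexadj`, `S_glue`, `S_conn`, `S_tree`, `S_sigcyc`, `S_sup`.) -/
def S_T0 : Prop := ∀ (n m : ℕ), 3 ≤ n → m ≤ 1 → ∀ (ρ : Equiv.Perm (St n m)), RhoSpec ρ →
  ∀ Tch : St n m → Prop, (∀ s, Tch (ρ s) ↔ Tch s) → (∀ s, StarOrb ρ s → Tch s) →
  ∃ σ' : Equiv.Perm (AV n m),
    (∀ z, sadj (dec z) (dec (σ' z))) ∧
    (∀ z, Tch z.2.2 → (z.1 = true ∨ (z.2.1 ≠ 1 ∧ z.2.1 ≠ 4)) → σ' z = sig ρ z) ∧
    (∀ z, ∃ w, Tch w.2.2 ∧ σ'.SameCycle z w) ∧
    ∀ z w, Tch z.2.2 → Tch w.2.2 → (σ'.SameCycle z w ↔ ρ.SameCycle z.2.2 w.2.2)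

/-- **Cutting the touched cycles.**  Apply `S_T0` with
`Tch s := ∃ z ∈ zs, ρ.SameCycle z.2.2 s` (the star orbit is touched by the second hypothesis).  For
`z ∈ zs` let `L` be the length of the `σ'`-cycle of `z` (`L = Function.minimalPeriod σ' z`, the set of
abstract vertices is finite) and `l_z = [σ' z, σ'^2 z, ..., σ'^L z = z]`.  It has no repetitions, its
members are exactly the `w` with `σ'.SameCycle z w`, consecutive members are adjacent, its head is
`σ' z = sig ρ z` by the third hypothesis, its last member is `z`.  For different members of `zs` the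
cycles are different (`S_T0` and the first hypothesis), and together they contain all vertices.  So the
lists `l_z` show `HPs (fun a b => sadj (dec a) (dec b)) Set.univ (zs.map (fun z => (sig ρ z, z)))`; apply
`HPs.map` with `dec`, `S_decI` and `S_decS` (the image of `dec` is `Cls n m`).
(Hypotheses: `S_T0`, `S_decI`, `S_decS`.) -/
def S_T1 : Prop := ∀ (n m : ℕ), 3 ≤ n → m ≤ 1 → ∀ (ρ : Equiv.Perm (St n m)), RhoSpec ρ →
  ∀ zs : List (AV n m), zs.Pairwise (fun z w => ¬ ρ.SameCycle z.2.2 w.2.2) →
    (∃ z ∈ zs, StarOrb ρ z.2.2) →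
    (∀ z ∈ zs, z.1 = true ∨ (z.2.1 ≠ 1 ∧ z.2.1 ≠ 4)) →
    HPs sadj (Cls n m) (zs.map (fun z => (dec (sig ρ z), dec z)))

/-- **The same with one vertex removed.**  As `S_T1`; for the first member `z0` of the list take
`[σ'^2 z0, ..., σ'^L z0 = z0]`, which is the list of `z0` without its first member `σ' z0 = sig ρ z0`
(`L ≥ 2` because `z0` and `σ' z0` are adjacent, hence different).  By the last hypothesis
`σ'^2 z0 = σ' (sig ρ z0) = sig ρ (sig ρ z0)`.  (Hypotheses: `S_T0`, `S_decI`, `S_decS`.) -/
def S_T1m : Prop := ∀ (n m : ℕ), 3 ≤ n → m ≤ 1 → ∀ (ρ : Equiv.Perm (St n m)), RhoSpec ρ →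
  ∀ (z0 : AV n m) (zs : List (AV n m)),
    (z0 :: zs).Pairwise (fun z w => ¬ ρ.SameCycle z.2.2 w.2.2) →
    (∃ z ∈ z0 :: zs, StarOrb ρ z.2.2) →
    (∀ z ∈ z0 :: zs, z.1 = true ∨ (z.2.1 ≠ 1 ∧ z.2.1 ≠ 4)) →
    ((sig ρ z0).1 = true ∨ ((sig ρ z0).2.1 ≠ 1 ∧ (sig ρ z0).2.1 ≠ 4)) →
    HPs sadj (Cls n m \ {dec (sig ρ z0)})
      ((dec (sig ρ (sig ρ z0)), dec z0) :: zs.map (fun z => (dec (sig ρ z), dec z)))

end Pool.Agent.MPc603ed
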