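import Pool.Agent.Lib.MP_c603ed_co.Spec1

/-!
# MP_c603ed_co, Spec 2: path covers on the circle

All statements are about strings `(front letter, put 0 list)` with `N = 2n + 1` positions
`0, 1, ..., 2n`.  Every proof has the same pattern:

* take `ρ` from `S_rho`, and (for `m = 1`) `deg` from `S_deg`;
* write down the list `zs` of abstract vertices (given in the docstring), check that the states are
  pairwise not in the same `ρ`-cycle (for `m = 1`: the values of `deg` are different; `deg` is constant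
  on `ρ`-cycles), that the star orbit occurs and that no member is of the form `P(1; ..)`, `P(4; ..)`;
  apply `S_T1` (or `S_T1m`);
* compute the strings `dec (sig ρ z)`, `dec z` (with `RhoSpec`, `put_rotate`, `put_rotate_list`);
* reverse some pairs (`HPs.flips`, `HPs.rev`) and concatenate (`HPs.merge`, `HPs.chain`).

Notation: `P(e; s) = (false, e, s)`, `Q(e; s) = (true, e, s)`.  The pair of `z = Q(e; s)` is
`(P(e; s), Q(e; s))`, that is (for `s = (c; y)`) the strings `(U, put e (c y))` and `(c, put e (U y))`;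
the pair of `z = P(e; s)` is `(Q(e + 1; ρ s), P(e; s))`; for `s = (c; U a d b)` the strings are
`(d, put e (c U a U b))` and `(U, put e (c U a d b))`.

`S_i` is the state `(T; yl n i)`, `yl n i = U (UZ)^i Z (UZ)^(n-1-i)`, `0 ≤ i ≤ n - 1`; `S_0` is the star
state.  By `Bl.yl` and `S_deg`, `deg S_i = n - i`.
**Ladder.**  `σ P(0; S_i)` has the string `(Z, [T] U (UZ)^i U (UZ)^(n-1-i))`, and `P(0; S_(i+1))` has the
string `(U, [T] U (UZ)^i U Z Z (UZ)^(n-2-i))`; they are adjacent (`sadj_put`: the letter at position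
`2i + 3` is exchanged).
-/

set_option autoImplicit false

namespace Pool.Agent.MPc603ed

open Lt

/-- **Ladder ending in a hub.**  `zs = [P(0; S_0), ..., P(0; S_(k-1)), Q(0; S_k)]`, degrees
`n, n - 1, ..., n - k`.  Pairs: `(σ P(0; S_i), P(0; S_i))` for `i < k` (reverse them), and
`(P(0; S_k), Q(0; S_k))`, the last string being `(T, put 0 (U yl n k))`.  Concatenate:
`P(0; S_0) → σ P(0; S_0) ~ P(0; S_1) → ... ~ P(0; S_k) → Q(0; S_k)`.
(Hypotheses: `S_rho`, `S_deg`, `S_T1`.) -/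
def S_L1c : Prop := ∀ n k : ℕ, 3 ≤ n → k + 1 ≤ n →
  HPs sadj (Cls n 1) [((U, put 0 (T :: yl n 0)), (T, put 0 (U :: yl n k)))]

/-- **Ladder ending with the same mark.**  `zs = [P(0; S_0), ..., P(0; S_k)]`; all pairs are reversed
and concatenated, the last vertex is `σ P(0; S_k)`.  (Hypotheses: `S_rho`, `S_deg`, `S_T1`.) -/
def S_L1pc : Prop := ∀ n k : ℕ, 3 ≤ n → k + 1 ≤ n →
  HPs sadj (Cls n 1)
    [((U, put 0 (T :: yl n 0)), (Z, put 0 (T :: U :: (UZ k ++ U :: UZ (n - 1 - k)))))]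

/-- **Ladder ending next to a removed hub.**  Let `h = Q(0; S_k)`, `z0 = σ⁻¹ h = P(-1; s)` with
`ρ s = S_k`: for `k < n - 1`, `s = (Z; U (U (UZ)^k Z (UZ)^(n-2-k)) T)`; for `k = n - 1`,
`s = (Z; U T (UZ)^(n-1))`.  `z0` is of the form `P(-1; ..)`, and `-1 ≠ 1, 4` in `ZMod (2n + 1)`, `n ≥ 3`.
Apply `S_T1m` with `z0` and `zs = [P(0; S_0), ..., P(0; S_(k-1))]` (if `k = 0` the star orbit is that of
`z0`).  `deg s = deg S_k = n - k`.  The first pair is `(P(0; S_k), P(-1; s))`, the string of `P(-1; s)` is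
`(U, put (-1) (Z U ...))`, which is the second string of the statement (`put_rotate`).  Reverse the
pairs of `zs` and concatenate: `P(0; S_0) → ... ~ P(0; S_k) → P(-1; s)`.
(Hypotheses: `S_rho`, `S_deg`, `S_T1m`.) -/
def S_L1mc : Prop := ∀ n k : ℕ, 3 ≤ n → k + 1 ≤ n →
  HPs sadj (Cls n 1 \ {((T, put 0 (U :: yl n k)) : Str n)})
    [((U, put 0 (T :: yl n 0)),
      (U, put 0 (U :: (if k + 1 = n then T :: (UZ (n - 1) ++ [Z])
        else U :: (UZ k ++ Z :: (UZ (n - 2 - k) ++ [T, Z]))))))]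

/-- **Two hubs, distance one.**  `zs = [Q(0; S_0), P(0; s)]`, `s = (Z; U T (UZ)^(n-1))`,
`ρ s = (T; U (UZ)^(n-1) Z) = S_(n-1)`; degrees `n` and `1`.  The second pair is
`(Q(1; S_(n-1)), P(0; s))`, the string of `Q(1; S_(n-1))` is `(T, put 1 (U U (UZ)^(n-1) Z))
= (T, put 0 (Z U U (UZ)^(n-1)))`.  (Hypotheses: `S_rho`, `S_deg`, `S_T1`.) -/
def S_S2c1 : Prop := ∀ n : ℕ, 3 ≤ n →
  HPs sadj (Cls n 1)
    [((T, put 0 (U :: UZ n)), (U, put 0 (T :: UZ n))),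
     ((T, put 0 (Z :: U :: U :: UZ (n - 1))), (U, put 0 (Z :: U :: T :: UZ (n - 1))))]

/-- **Two hubs, distance `t + 2`.**  `zs = [Q(0; S_0), Q(2; (T; y))]` with
`y = U (UZ)^t U (UZ)^(n-2-t) Z Z = U [(UZ)^t (U (UZ)^(n-2-t) Z)] Z`, a prime Dyck word; degrees `n` and
`1`.  The strings of `P(2; (T; y))`, `Q(2; (T; y))` are `(U, put 2 (T y))`, `(T, put 2 (U y))`, written
from `0` on (`put_rotate_list`): the last two letters `Z Z` of `y` are at the positions `0`, `1`.  Both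
pairs are reversed.  (Hypotheses: `S_rho`, `S_deg`, `S_T1`.) -/
def S_S2c2 : Prop := ∀ n t : ℕ, 3 ≤ n → t + 2 ≤ n →
  HPs sadj (Cls n 1)
    [((T, put 0 (U :: UZ n)), (U, put 0 (T :: UZ n))),
     ((T, put 0 (Z :: Z :: U :: U :: (UZ t ++ U :: UZ (n - 2 - t)))),
      (U, put 0 (Z :: Z :: T :: U :: (UZ t ++ U :: UZ (n - 2 - t)))))]

/-- **A hub edge and a marked edge at the same star.**  `zs = [Q(0; S_0), Q(0; s)]` with
`s = (Z; U T (UZ)^(n-1))`, `ρ s = S_(n-1)`, `deg s = 1`.  (The first pair is reversed.)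
(Hypotheses: `S_rho`, `S_deg`, `S_T1`.) -/
def S_B6c : Prop := ∀ n : ℕ, 3 ≤ n →
  HPs sadj (Cls n 1)
    [((T, put 0 (U :: UZ n)), (U, put 0 (T :: UZ n))),
     ((U, put 0 (Z :: U :: T :: UZ (n - 1))), (Z, put 0 (U :: U :: T :: UZ (n - 1))))]

/-- **Three edges (same mark twice).**  Let `1 ≤ b ≤ n - 1`, `i = 2(n - b) - 1` (a position).
`zs = [Q(0; s1), Q(i; S_0), Q(i; s3)]` with `s1 = (T; (UZ)^(n-2) U U Z Z)`, `s3 = (Z; (UZ)^b U T (UZ)^(n-b-1))`.
Degrees: `n - 1`; `n`; and `1`: by `S_rotF` with the Dyck prefix `(UZ)^b` the orbit of `s3` contains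
`(Z; U T (UZ)^(n-b-1) (UZ)^b)`, and then `S_(n-1)`.
Strings: `P(0; s1) = (U, [T] (UZ)^(n-2) U U Z Z)`, `Q(0; s1) = (T, [U] (UZ)^(n-2) U U Z Z)`;
`P(i; S_0) = (U, put i (T (UZ)^n)) = (U, put 0 (Z (UZ)^(n-b-1) T (UZ)^b U))`: from position `i` on
`T (UZ)^b U | Z (UZ)^(n-b-1)`, where `|` marks the end of the circle, position `2n`;
`Q(i; S_0) = (T, put 0 (Z (UZ)^(n-b-1) U (UZ)^b U))`; `P(i; s3) = (U, put 0 (T (UZ)^(n-b-1) Z (UZ)^b U))`,
`Q(i; s3) = (Z, put 0 (T (UZ)^(n-b-1) U (UZ)^b U))`.  The third pair is reversed.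
(Hypotheses: `S_rho`, `S_deg`, `S_rotF`, `S_T1`.) -/
def S_B7c : Prop := ∀ n b : ℕ, 3 ≤ n → 1 ≤ b → b + 1 ≤ n →
  HPs sadj (Cls n 1)
    [((U, put 0 (T :: (UZ (n - 2) ++ [U, U, Z, Z]))), (T, put 0 (U :: (UZ (n - 2) ++ [U, U, Z, Z])))),
     ((U, put 0 (Z :: (UZ (n - b - 1) ++ T :: (UZ b ++ [U])))),
      (T, put 0 (Z :: (UZ (n - b - 1) ++ U :: (UZ b ++ [U]))))),
     ((Z, put 0 (T :: (UZ (n - b - 1) ++ U :: (UZ b ++ [U])))),
      (U, put 0 (T :: (UZ (n - b - 1) ++ Z :: (UZ b ++ [U])))))]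

/-- **Three edges, complementary words.**
`zs = [Q(0; s1), Q(3; S_0), P(2; s3)]` with `s1 = (T; U U Z Z (UZ)^(n-2))` and
`s3 = (Z; U U (ZU)^(n-2) T Z) = (Z; U [(UZ)^(n-2) U T] Z)`.
Degrees: `n - 1`; `n`; and `1`: `ρ s3 = (Z; (UZ)^(n-2) U T U Z)`, by `S_rotF` with the prefix `(UZ)^(n-2)`
the orbit contains `(Z; U T U Z (UZ)^(n-2)) = (Z; U T (UZ)^(n-1))` and then `S_(n-1)`.
Strings: `Q(3; S_0)`: `(T, put 3 (U (UZ)^n)) = (T, put 0 (Z U Z U U (ZU)^(n-2)))` (from position `3` on: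
`U`, then `(UZ)^n = U (ZU)^(n-2) Z U Z`, whose last three letters are at positions `0, 1, 2`);
`P(3; S_0) = (U, put 0 (Z U Z T U (ZU)^(n-2)))`; `P(2; s3)`: from position `2` on
`Z, U, U, (ZU)^(n-2)`, then `T`, `Z` at the positions `0`, `1`: `(U, put 0 (T Z Z U U (ZU)^(n-2)))`;
`σ P(2; s3)` has the string `(Z, put 0 (T U Z U U (ZU)^(n-2)))` (the closing letter `Z` of the first block
is at position `1`).  `2 ≠ 1, 4` in `ZMod (2n + 1)`.
(Hypotheses: `S_rho`, `S_deg`, `S_rotF`, `S_T1`.) -/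
def S_B8c : Prop := ∀ n : ℕ, 3 ≤ n →
  HPs sadj (Cls n 1)
    [((U, put 0 (T :: U :: U :: Z :: Z :: UZ (n - 2))), (T, put 0 (U :: U :: U :: Z :: Z :: UZ (n - 2)))),
     ((U, put 0 (Z :: U :: Z :: T :: U :: ZU (n - 2))), (T, put 0 (Z :: U :: Z :: U :: U :: ZU (n - 2)))),
     ((Z, put 0 (T :: U :: Z :: U :: U :: ZU (n - 2))), (U, put 0 (T :: Z :: Z :: U :: U :: ZU (n - 2))))]

/-- **Ladder of length one and a hub edge (1).**  `zs = [P(0; S_0), Q(0; S_1), Q(2; (T; y))]` with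
`y = U (UZ)^(n-1) Z = S_(n-1)`'s word; degrees `n, n - 1, 1` (`n ≥ 3`).  `Q(2; (T; y))` has the string
`(T, put 2 (U y))`, from `0` on: `y = U U (ZU)^(n-2) Z Z`, the last two letters are at positions `0`, `1`:
`(T, put 0 (Z Z U U U (ZU)^(n-2)))`.
(Hypotheses: `S_rho`, `S_deg`, `S_T1`.) -/
def S_B5c : Prop := ∀ n : ℕ, 3 ≤ n →
  HPs sadj (Cls n 1)
    [((U, put 0 (T :: yl n 0)), (T, put 0 (U :: yl n 1))),
     ((U, put 0 (Z :: Z :: T :: U :: U :: ZU (n - 2))), (T, put 0 (Z :: Z :: U :: U :: U :: ZU (n - 2))))]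

/-- **Long ladder and a marked edge.**
`zs = [P(0; S_0), ..., P(0; S_(n-3)), Q(0; S_(n-2)), Q(2n - 2; s)]` with `s = (Z; U T (UZ)^(n-1))`,
`deg s = 1`, the other degrees are `n, ..., 2`.  Strings: from position `2n - 2` on
`Z, U, T`, then `(UZ)^(n-1)` from position `0` to `2n - 3`: `P(2n - 2; s) = (U, put 0 ((UZ)^(n-1) Z U T))`.
(Hypotheses: `S_rho`, `S_deg`, `S_T1`.) -/
def S_B10c : Prop := ∀ n : ℕ, 3 ≤ n →
  HPs sadj (Cls n 1)
    [((U, put 0 (T :: yl n 0)), (T, put 0 (U :: yl n (n - 2)))),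
     ((U, put 0 (UZ (n - 1) ++ [Z, U, T])), (Z, put 0 (UZ (n - 1) ++ [U, U, T])))]

/-- **Ladder of length one and a hub edge (2).**  `zs = [P(0; S_0), Q(0; S_1), Q(3; (T; y))]` with
`y = U U U (ZU)^(n-3) Z Z Z = U [U [(UZ)^(n-3) U Z] Z] Z`, a prime word; degrees `n, n - 1, 1`.
Strings: `(T, put 3 (U y)) = (T, put 0 (Z Z Z U U U U (ZU)^(n-3)))`.
(Hypotheses: `S_rho`, `S_deg`, `S_T1`.) -/
def S_B11c : Prop := ∀ n : ℕ, 3 ≤ n →
  HPs sadj (Cls n 1)
    [((U, put 0 (T :: yl n 0)), (T, put 0 (U :: yl n 1))),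
     ((U, put 0 (Z :: Z :: Z :: T :: U :: U :: U :: ZU (n - 3))),
      (T, put 0 (Z :: Z :: Z :: U :: U :: U :: U :: ZU (n - 3))))]

/-! Now `m = 0` (no letter `T`); the star orbit is described by `S_star0`.  Distinct orbits: one of the
two states is in the star orbit and the word of the other one is neither `(UZ)^n` nor
`U (UZ)^(n-1) Z`. -/

/-- **One edge.**  `zs = [Q(0; (Z; (UZ)^n))]`.  (Hypotheses: `S_rho`, `S_T1`.) -/
def S_A1c : Prop := ∀ n : ℕ, 3 ≤ n →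
  HPs sadj (Cls n 0) [((U, put 0 (Z :: UZ n)), (Z, put 0 (U :: UZ n)))]

/-- **Two edges.**  Let `2 ≤ c ≤ n` and `i = 2(n - c) + 1` (a position).
`zs = [Q(i; (Z; (UZ)^n)), Q(0; (Z; (UZ)^(n-2) U U Z Z))]`; the second word is not one of the two words of
the star orbit (`n ≥ 3`).  Strings: `P(i; star) = (U, put i (Z (UZ)^n)) = (U, put 0 (Z (UZ)^(n-c) Z (UZ)^(c-1) U))`
(from position `i` on `Z (UZ)^(c-1) U | Z (UZ)^(n-c)`), `Q(i; star) = (Z, put 0 (Z (UZ)^(n-c) U (UZ)^(c-1) U))`.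
For the second one note `(UZ)^(n-2) U U Z Z = (UZ)^(n-c) U (ZU)^(c-2) U Z Z`.
(Hypotheses: `S_rho`, `S_star0`, `S_T1`.) -/
def S_A2c : Prop := ∀ n c : ℕ, 3 ≤ n → 2 ≤ c → c ≤ n →
  HPs sadj (Cls n 0)
    [((U, put 0 (Z :: (UZ (n - c) ++ Z :: (UZ (c - 1) ++ [U])))),
      (Z, put 0 (Z :: (UZ (n - c) ++ U :: (UZ (c - 1) ++ [U]))))),
     ((U, put 0 (Z :: (UZ (n - c) ++ U :: (ZU (c - 2) ++ [U, Z, Z])))),
      (Z, put 0 (U :: (UZ (n - c) ++ U :: (ZU (c - 2) ++ [U, Z, Z])))))]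

/-- **Two edges, complementary words.**  `zs = [Q(0; (Z; U (UZ)^(n-1) Z)), Q(2n - 1; (Z; U U Z Z (UZ)^(n-2)))]`.
The first state is in the star orbit (`ρ` maps it to the star), the second word is not one of the two
words of the star orbit.  Strings of the second: from position `2n - 1` on: `Z` (resp. `U`), then `U` at
position `2n`, and `U Z Z (UZ)^(n-2) = U Z (ZU)^(n-2) Z` at the positions `0, ..., 2n - 2`.
(Hypotheses: `S_rho`, `S_star0`, `S_T1`.) -/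
def S_A2cc : Prop := ∀ n : ℕ, 3 ≤ n →
  HPs sadj (Cls n 0)
    [((U, put 0 (Z :: U :: (UZ (n - 1) ++ [Z]))), (Z, put 0 (U :: U :: (UZ (n - 1) ++ [Z])))),
     ((U, put 0 (U :: Z :: (ZU (n - 2) ++ [Z, Z, U]))), (Z, put 0 (U :: Z :: (ZU (n - 2) ++ [Z, U, U]))))]

/-- **Two edges, neighbouring words.**  `zs = [Q(0; (Z; (UZ)^n)), Q(3; (Z; U (UZ)^(n-2) Z U Z))]`; the second
word is not one of the two words of the star orbit.  Strings of the second: from position `3` on `Z`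
(resp. `U`), `U (UZ)^(n-2)`, and `Z U Z` at the positions `0, 1, 2`.
(Hypotheses: `S_rho`, `S_star0`, `S_T1`.) -/
def S_A2pc : Prop := ∀ n : ℕ, 3 ≤ n →
  HPs sadj (Cls n 0)
    [((U, put 0 (Z :: UZ n)), (Z, put 0 (U :: UZ n))),
     ((U, put 0 (Z :: U :: Z :: Z :: U :: UZ (n - 2))), (Z, put 0 (Z :: U :: Z :: U :: U :: UZ (n - 2))))]

end Pool.Agent.MPc603ed
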