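import Pool.Agent.Lib.MP_c603ed_co.Basic2
import Pool.Agent.Lib.MP_c603ed_co.Spec2

/-!
# MP_c603ed_co, Spec 3: path covers of the parts, in terms of words

`ι` is the set of positions different from the front, `2n + 2` elements; `s, t : ι → Bool` are balanced
words; `(s, some p)` is the string with the symbol 3 at `p` and the symbol `s p` in front; `(s, none)` is
the string with 3 in front.  For the part `B_ℓ` (symbol `ℓ` at position `j`) write `u = !ℓ`, `z = ℓ`;
`tl ℓ u = U`, `tl ℓ z = Z`.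

**Pattern of the proofs of `S_A1, ..., S_B11`.**  The docstring gives two base words (called `s`, `t` in
`S_arr`), the list `sp` of special positions and the pattern `W`, a list of entries `Sum.inr i` (the
position `i`) and `Sum.inl (a, b)` (some other position with `s = a`, `t = b`), abbreviated by `i` and
`ab`.  Check the counts (with `cnt_bal`, `count_rp`), apply `S_arr` to get the arrangement `e`; for every
vertex `v` of the statement write down the list `L` of its letters (given by `W`) with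
`List.Forall₂ (LetterOK ...) W L` and use `S_putB` (`S_putA`) to get `strB e ℓ v = (front letter, put 0 L)`;
`L` is the list of the statement of Spec 2 (up to the identities `UZ_U_app`, `ZU_Z_app`, `UZ_add`, ...);
apply the statement of Spec 2 and `S_trB` (`S_trA`).  `rp a b k` is `(a b)^k`.
-/

set_option autoImplicit false

namespace Pool.Agent.MPc603ed

open Lt

/-- **Arrangements.**  Put `lab i := Sum.inr i` if `i ∈ sp`, and `lab i := Sum.inl (s i, t i)` otherwise.
By the two counting hypotheses, for every `w : (Bool × Bool) ⊕ ι` the number of `i ≠ j` with `lab i = w`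
is `W.count w`: for `w = Sum.inr i` it is `1` if `i ∈ sp` and `0` otherwise, and `W.count w = sp.count i`;
for `w = Sum.inl (x, y)` it is `cnt s t x y` minus the number of members of `j :: sp` (no repetitions)
with these labels.  So for every `w` the sets `{x : ZMod (2n+1) | W[x.val] = w}` and
`{i ≠ j | lab i = w}` have the same number of elements; choose bijections between them and put them
together to a bijection `ZMod (2n+1) ≃ {i // i ≠ j}` (e.g. `Equiv.ofFiberEquiv` and
`Fintype.card_eq`), extend it by `none ↦ j` (e.g. `Equiv.optionSubtype`). -/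
def S_arr : Prop := ∀ (n : ℕ) (ι : Type) [Fintype ι] [DecidableEq ι] (s t : ι → Bool) (j : ι)
  (sp : List ι) (W : List ((Bool × Bool) ⊕ ι)), Fintype.card ι = 2 * n + 2 →
  W.length = 2 * n + 1 → sp.Nodup → j ∉ sp → (∀ i, W.count (Sum.inr i) = sp.count i) →
  (∀ x y, W.count (Sum.inl (x, y)) + ((j :: sp).filter (fun i => s i = x ∧ t i = y)).length
    = cnt s t x y) →
  ∃ e : Option (ZMod (2 * n + 1)) ≃ ι, e none = j ∧ Fits e s t sp W

/-- **Letters of a vertex of the part `B_l`.**  For `x : ZMod (2n+1)`, `x.val < 2n + 1 = W.length`; by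
`Forall₂` `W[x.val]` and `L[x.val]` are related by `LetterOK`, and `Fits` says which position `e (some x)`
is (it is `≠ j = e none` by injectivity). -/
def S_putB : Prop := ∀ (n : ℕ) (ι : Type) [Fintype ι] [DecidableEq ι] (s t : ι → Bool)
  (sp : List ι) (W : List ((Bool × Bool) ⊕ ι)) (e : Option (ZMod (2 * n + 1)) ≃ ι) (l : Bool)
  (v : GV ι) (L : List Lt), W.length = 2 * n + 1 → Fits e s t sp W →
  List.Forall₂ (LetterOK s t (e none) sp l v) W L → (strB e l v).2 = put 0 L

/-- **Letters of a vertex of the part `A`.**  As `S_putB`. -/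
def S_putA : Prop := ∀ (n : ℕ) (ι : Type) [Fintype ι] [DecidableEq ι] (s t : ι → Bool)
  (sp : List ι) (W : List ((Bool × Bool) ⊕ ι)) (e : Option (ZMod (2 * n + 1)) ≃ ι) (l : Bool)
  (v : GV ι) (L : List Lt), W.length = 2 * n + 1 → Fits e s t sp W →
  List.Forall₂ (LetterOKA s t (e none) sp l v) W L → (strA e l v).2 = put 0 L

/-- **Transport for the part `B_l`.**  Let `j = e none`.
(1) `strB e l` maps `PB j l` to `Cls n 1`: for `v = (s, none)` the letters are `T` (front) and the
`tl l (s i)`, `i ≠ j`; as `s` is balanced (`n + 1` positions with `s i = !l`) and `s j = l` there are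
`n + 1` letters `U` and one `T`.  For `v = (s, some p)`, `p ≠ j`: the front letter is `tl l (s p)`, the
letter at `p` is `T`, the others are `tl l (s i)`; same count.
(2) It is injective on `PB j l` (the position of `T` gives `v.2`; `s` can be read off, using that `tl l` is
injective on `Bool`) and onto `Cls n 1`.
(3) If `v, w ∈ PB j l` and `sadj (strB e l v) (strB e l w)` then `gadj v w`: say the front letter is
exchanged with the letter at `i`.  `v = (s, none)`: the front letter is `T`, the resulting string is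
that of `(s, some i)`, so `w = (s, some i)` by (2) (`gadj.out`).  `v = (s, some p)`, `i = p`: the result
is the string of `(s, none)` (`gadj.inn`).  `v = (s, some p)`, `i ≠ p`: `tl l (s i) ≠ tl l (s p)`, so
`s i ≠ s p` and the result is the string of `(swp s p i, some p)` (`gadj.sw`).
Now let `g` be the inverse of `strB e l` from `Cls n 1` to `PB j l` and apply `HPs.map` with `f = g` to the
hypothesis: the image of `Cls n 1 \ strB e l '' D` is `PB j l \ D`, and `g (strB e l v) = v` for the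
members `v` of the pairs. -/
def S_trB : Prop := ∀ (n : ℕ) (ι : Type) [Fintype ι] [DecidableEq ι]
  (e : Option (ZMod (2 * n + 1)) ≃ ι) (l : Bool) (D : Set (GV ι)) (ps : List (GV ι × GV ι)),
  D ⊆ PB (e none) l → (∀ p ∈ ps, p.1 ∈ PB (e none) l ∧ p.2 ∈ PB (e none) l) →
  HPs sadj (Cls n 1 \ strB e l '' D) (ps.map (Prod.map (strB e l) (strB e l))) →
  HPs gadj (PB (e none) l \ D) ps

/-- **Transport for the part `A`.**  As `S_trB`: `strA e l` is a bijection from `PA (e none)` (the
vertices `(s, some j)` with `s` balanced) onto `Cls n 0`, and if the front letter of the string of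
`(s, some j)` is exchanged with a different letter at `i`, the result is the string of
`(swp s j i, some j)`. -/
def S_trA : Prop := ∀ (n : ℕ) (ι : Type) [Fintype ι] [DecidableEq ι]
  (e : Option (ZMod (2 * n + 1)) ≃ ι) (l : Bool) (ps : List (GV ι × GV ι)),
  (∀ p ∈ ps, p.1 ∈ PA (e none) ∧ p.2 ∈ PA (e none)) →
  HPs sadj (Cls n 0) (ps.map (Prod.map (strA e l) (strA e l))) →
  HPs gadj (PA (e none)) ps

/-! ## The part A.  Put `l = !(s j)`, so that `u = s j` is the up symbol. -/

/-- Base words `s, s`; `sp = [i]`; `W = i :: rp uu zz n`.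
Letters (positions as in `W`): of `(s, some j)`: front `U`, list `Z :: UZ n`; of `(swp s j i, some j)`:
front `Z`, list `U :: UZ n`.  Use `S_A1c`. -/
def S_A1 : Prop := ∀ (n : ℕ) (ι : Type) [Fintype ι] [DecidableEq ι], 3 ≤ n →
  Fintype.card ι = 2 * n + 2 → ∀ (s : ι → Bool) (j i : ι), Bal s → s j ≠ s i →
    HPs gadj (PA j) [((s, some j), (swp s j i, some j))]

/-- Let `c = cnt s t z u` (`u = s j = f`, `z = !f`); `i, q` count, so `2 ≤ c ≤ n + 1`; `j` has labels `uz`.
Base words `s, t`; `sp = [q, i]`.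

If `c ≤ n`: `W = q :: (rp uu zz (n - c) ++ i :: (rp uz zu (c - 2) ++ [uu, zz, uz]))`.
Letters: `(s, some j)`: front `U`, `Z :: (UZ (n-c) ++ Z :: (UZ (c-2) ++ [U, Z, U]))
= Z :: (UZ (n-c) ++ Z :: (UZ (c-1) ++ [U]))`; `(swp s j i, some j)`: front `Z`, the same with the letter
`U` at `i`; `(t, some j)`: front `Z`, `U :: (UZ (n-c) ++ U :: (ZU (c-2) ++ [U, Z, Z]))`;
`(swp t j q, some j)`: front `U`, the same with the letter `Z` at `q`.  Use `S_A2c`.

If `c = n + 1`: `W = i :: uz :: (rp uz zu (n - 2) ++ [uz, q, zu])`.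
Letters: `(s, some j)`: front `U`, `Z :: U :: (UZ (n-2) ++ [U, Z, Z]) = Z :: U :: (UZ (n-1) ++ [Z])`;
`(swp s j i, some j)`: front `Z`, first letter `U`; `(t, some j)`: front `Z`,
`U :: Z :: (ZU (n-2) ++ [Z, U, U])`; `(swp t j q, some j)`: front `U`,
`U :: Z :: (ZU (n-2) ++ [Z, Z, U])`.  Use `S_A2cc`. -/
def S_A2 : Prop := ∀ (n : ℕ) (ι : Type) [Fintype ι] [DecidableEq ι], 3 ≤ n →
  Fintype.card ι = 2 * n + 2 → ∀ (s t : ι → Bool) (j i q : ι) (f : Bool), Bal s → Bal t →
    s j = f → t j = !f → s i = !f → t i = f → s q = !f → t q = f → i ≠ q →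
    HPs gadj (PA j) [((s, some j), (swp s j i, some j)), ((swp t j q, some j), (t, some j))]

/-- Base words `s, s`; `sp = [i, i1, q]`; `W = i :: uu :: zz :: i1 :: q :: rp uu zz (n - 2)`.
Letters: `(s, some j)`: front `U`, `Z :: UZ n`; `(swp s j i, some j)`: front `Z`, `U :: UZ n`;
`(swp s j q, some j)`: front `Z`, `[Z, U, Z, U, U] ++ UZ (n-2)`; `(swp (swp s j q) j i1, some j)`:
front `U`, `[Z, U, Z, Z, U] ++ UZ (n-2)`.  Use `S_A2pc`. -/
def S_A2p : Prop := ∀ (n : ℕ) (ι : Type) [Fintype ι] [DecidableEq ι], 3 ≤ n →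
  Fintype.card ι = 2 * n + 2 → ∀ (s : ι → Bool) (j i q i1 : ι) (f : Bool), Bal s →
    s j = f → s i = !f → s q = !f → i ≠ q → s i1 = f → i1 ≠ j →
    HPs gadj (PA j) [((s, some j), (swp s j i, some j)),
      ((swp (swp s j q) j i1, some j), (swp s j q, some j))]

/-! ## The parts B.  `u = !l`, `z = l`. -/

/-- Base words `s, a`; `k = cnt s a z u`; `sp = [r]`;
`W = r :: uu :: (rp zu uz k ++ zz :: rp uu zz (n - 1 - k))`.
Letters: `(s, some r)`: front `U`, `T :: U :: (ZU k ++ Z :: UZ (n-1-k)) = T :: yl n 0`; `(a, none)`: front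
`T`, `U :: U :: (UZ k ++ Z :: UZ (n-1-k)) = U :: yl n k`.  Use `S_L1c` and `S_trB` with `D = ∅`. -/
def S_L1 : Prop := ∀ (n : ℕ) (ι : Type) [Fintype ι] [DecidableEq ι], 3 ≤ n →
  Fintype.card ι = 2 * n + 2 → ∀ (s a : ι → Bool) (j r : ι) (l : Bool), Bal s → Bal a →
    s j = l → a j = l → s r = !l → a r = !l → cnt s a l (!l) + 1 ≤ n →
    HPs gadj (PB j l) [((s, some r), (a, none))]

/-- Base words `s, a`; `cnt s a z u = cnt s a u z = k + 1 ≥ 1` because `r` has labels `uz`, and
`k + 1 ≤ n` because `j` has labels `zz`; `sp = [r]`;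
`W = r :: uu :: (rp zu uz k ++ zu :: rp uu zz (n - 1 - k))`.
Letters: `(s, some r)`: front `U`, `T :: U :: (ZU k ++ Z :: UZ (n-1-k)) = T :: yl n 0`; `(a, some r)`:
front `Z`, `T :: U :: (UZ k ++ U :: UZ (n-1-k))`.  Use `S_L1pc`. -/
def S_L1p : Prop := ∀ (n : ℕ) (ι : Type) [Fintype ι] [DecidableEq ι], 3 ≤ n →
  Fintype.card ι = 2 * n + 2 → ∀ (s a : ι → Bool) (j r : ι) (l : Bool), Bal s → Bal a →
    s j = l → a j = l → s r = !l → a r = l →
    HPs gadj (PB j l) [((s, some r), (a, some r))]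

/-- Base words `s, a`; `k = cnt s a z u`; `sp = [r, g]`.  If `k = n - 1`:
`W = r :: g :: (rp zu uz (n - 1) ++ [zz])`; if `k < n - 1`:
`W = r :: uu :: (rp zu uz k ++ zz :: (rp uu zz (n - 2 - k) ++ [g, zz]))`.
Letters: `(s, some r)`: front `U`, `T :: yl n 0`; `(a, none)`: front `T`, `U :: yl n k`; `(a, some g)`:
front `U`, `U :: T :: (UZ (n-1) ++ [Z])` resp. `U :: U :: (UZ k ++ Z :: (UZ (n-2-k) ++ [T, Z]))`.
Use `S_L1mc` and `S_trB` with `D = {(a, none)}`. -/
def S_L1m : Prop := ∀ (n : ℕ) (ι : Type) [Fintype ι] [DecidableEq ι], 3 ≤ n →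
  Fintype.card ι = 2 * n + 2 → ∀ (s a : ι → Bool) (j r g : ι) (l : Bool), Bal s → Bal a →
    s j = l → a j = l → s r = !l → a r = !l → s g = !l → a g = !l → g ≠ r →
    cnt s a l (!l) + 1 ≤ n →
    HPs gadj (PB j l \ {(a, none)}) [((s, some r), (a, some g))]

/-- Base words `s, t`; `c = cnt s t z u = cnt s t u z`, `1 ≤ c` (`q` has labels `zu`) and `c ≤ n` (`j` has
labels `zz`); `sp = [r, q]`.
If `c = 1`: `W = r :: uu :: q :: rp uu zz (n - 1)`; letters: `(s, none)`: front `T`, `U :: UZ n`;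
`(s, some r)`: front `U`, `T :: UZ n`; `(t, none)`: front `T`, `Z :: U :: U :: UZ (n-1)`; `(t, some q)`:
front `U`, `Z :: U :: T :: UZ (n-1)`.  Use `S_S2c1`.
If `c = t' + 2`: `W = r :: uz :: q :: uu :: (rp zu uz t' ++ zu :: rp uu zz (n - 2 - t'))`; letters:
`(s, none)`: `U :: U :: Z :: U :: (ZU t' ++ Z :: UZ (n-2-t')) = U :: UZ n`; `(s, some r)`: `T :: UZ n`;
`(t, none)`: `Z :: Z :: U :: U :: (UZ t' ++ U :: UZ (n-2-t'))`; `(t, some q)`: the same with `T` at the
third place.  Use `S_S2c2`. -/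
def S_S2 : Prop := ∀ (n : ℕ) (ι : Type) [Fintype ι] [DecidableEq ι], 3 ≤ n →
  Fintype.card ι = 2 * n + 2 → ∀ (s t : ι → Bool) (j r q : ι) (l : Bool), Bal s → Bal t →
    s j = l → t j = l → s r = !l → t r = l → s q = l → t q = !l →
    HPs gadj (PB j l) [((s, none), (s, some r)), ((t, none), (t, some q))]

/-- Base words `s, s`; `sp = [q, p]`; `W = q :: uu :: p :: rp uu zz (n - 1)`.
Letters: `(s, none)`: front `T`, `U :: UZ n`; `(s, some q)`: front `U`, `T :: UZ n`;
`(swp s p q, some p)`: front `U`, `Z :: U :: T :: UZ (n-1)`; `(s, some p)`: front `Z`,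
`U :: U :: T :: UZ (n-1)`.  Use `S_B6c`. -/
def S_B6 : Prop := ∀ (n : ℕ) (ι : Type) [Fintype ι] [DecidableEq ι], 3 ≤ n →
  Fintype.card ι = 2 * n + 2 → ∀ (s : ι → Bool) (j q p : ι) (l : Bool), Bal s →
    s j = l → s q = !l → s p = l → p ≠ j →
    HPs gadj (PB j l) [((s, none), (s, some q)), ((swp s p q, some p), (s, some p))]

/-- Base words `s, t`; `b = cnt s t z u`; `sp = [p, i]`;
`W = p :: (rp uu zz (n - b - 1) ++ i :: (rp zu uz (b - 1) ++ [uu, zz, zu]))`.
Letters (`aa = swp t p i`): `(s, some p)`: front `U`,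
`T :: (UZ (n-b-1) ++ U :: (ZU (b-1) ++ [U, Z, Z])) = T :: (UZ (n-2) ++ [U, U, Z, Z])`; `(s, none)`: front
`T`, the same with first letter `U`; `(t, some p)`: front `U`,
`T :: (UZ (n-b-1) ++ Z :: (UZ (b-1) ++ [U, Z, U])) = T :: (UZ (n-b-1) ++ Z :: (UZ b ++ [U]))`;
`(aa, some p)`: front `Z`, the same with `U` at `i`; `(aa, none)`: front `T`, `Z` at `p`, `U` at `i`;
`(aa, some i)`: front `U`, `Z` at `p`, `T` at `i`.  Use `S_B7c`. -/
def S_B7 : Prop := ∀ (n : ℕ) (ι : Type) [Fintype ι] [DecidableEq ι], 3 ≤ n →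
  Fintype.card ι = 2 * n + 2 → ∀ (s t : ι → Bool) (j p i : ι) (l : Bool), Bal s → Bal t →
    s j = l → t j = l → s p = !l → t p = !l → s i = !l → t i = l → cnt s t l (!l) + 1 ≤ n →
    HPs gadj (PB j l) [((s, some p), (s, none)),
      ((swp t p i, some i), (swp t p i, none)), ((swp t p i, some p), (t, some p))]

/-- Base words `s, t`; `cnt s t z u = n`, so `p` is the only position with labels `uu` and `j` the only one
with labels `zz`; `sp = [p, i, r]`; `W = p :: i :: uz :: r :: zu :: rp uz zu (n - 2)`.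
Letters (`aa = swp t p i`): `(s, some p)`: front `U`, `T :: U :: U :: Z :: Z :: UZ (n-2)`; `(s, none)`:
front `T`, first letter `U`; `(t, some p)`: front `U`, `T :: Z :: Z :: U :: U :: ZU (n-2)`;
`(aa, some p)`: front `Z`, `T :: U :: Z :: U :: U :: ZU (n-2)`; `(aa, none)`: front `T`,
`Z :: U :: Z :: U :: U :: ZU (n-2)`; `(aa, some r)`: front `U`, `Z :: U :: Z :: T :: U :: ZU (n-2)`.
Use `S_B8c`. -/
def S_B8 : Prop := ∀ (n : ℕ) (ι : Type) [Fintype ι] [DecidableEq ι], 3 ≤ n →
  Fintype.card ι = 2 * n + 2 → ∀ (s t : ι → Bool) (j p i r : ι) (l : Bool), Bal s → Bal t →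
    s j = l → t j = l → s p = !l → t p = !l → s i = !l → t i = l → s r = l → t r = !l →
    cnt s t l (!l) = n →
    HPs gadj (PB j l) [((s, some p), (s, none)),
      ((swp t p i, some r), (swp t p i, none)), ((swp t p i, some p), (t, some p))]

/-- Base words `s, t`; `cnt s t z u = n`, so `x` is the only position with labels `uu` and `j` the only one
with labels `zz`; `sp = [r, x, y]`; `W = r :: uz :: x :: y :: zu :: rp uz zu (n - 2)`.
Letters: `(s, none)`: front `T`, `U :: U :: U :: Z :: Z :: UZ (n-2) = U :: yl n 1`;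
`(swp s x y, some r)`: front `U`, `T :: U :: Z :: U :: Z :: UZ (n-2) = T :: yl n 0`; `(t, none)`: front
`T`, `Z :: Z :: U :: U :: U :: ZU (n-2)`; `(t, some x)`: front `U`, `Z :: Z :: T :: U :: U :: ZU (n-2)`.
Use `S_B5c` and reverse nothing. -/
def S_B5 : Prop := ∀ (n : ℕ) (ι : Type) [Fintype ι] [DecidableEq ι], 3 ≤ n →
  Fintype.card ι = 2 * n + 2 → ∀ (s t : ι → Bool) (j r x y : ι) (l : Bool), Bal s → Bal t →
    s j = l → t j = l → s r = !l → t r = l → s x = !l → t x = !l → s y = l → t y = !l →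
    cnt s t l (!l) = n →
    HPs gadj (PB j l) [((swp s x y, some r), (s, none)), ((t, some x), (t, none))]

/-- Base words `w, a`; `cnt w a z u = n - 2`, so `r, i, x` are the only positions with labels `uu` and
`j, i1, q` the only ones with labels `zz`; `sp = [r, i, i1, x, q]`;
`W = r :: i :: (rp zu uz (n - 2) ++ [i1, x, q])`.
Letters: `(w, some r)`: front `U`, `T :: U :: (ZU (n-2) ++ [Z, U, Z]) = T :: yl n 0`; `(a, none)`: front
`T`, `U :: U :: (UZ (n-2) ++ [Z, U, Z]) = U :: yl n (n-2)`; `(swp a i i1, some q)`: front `Z`,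
`U :: Z :: (UZ (n-2) ++ [U, U, T]) = UZ (n-1) ++ [U, U, T]`; `(swp (swp a i i1) q i1, some q)`: front `U`,
`UZ (n-1) ++ [Z, U, T]`.  Use `S_B10c`. -/
def S_B10 : Prop := ∀ (n : ℕ) (ι : Type) [Fintype ι] [DecidableEq ι], 3 ≤ n →
  Fintype.card ι = 2 * n + 2 → ∀ (w a : ι → Bool) (j r i x i1 q : ι) (l : Bool), Bal w → Bal a →
    w j = l → a j = l → w r = !l → a r = !l → w i = !l → a i = !l → w x = !l → a x = !l →
    w i1 = l → a i1 = l → w q = l → a q = l → r ≠ i → r ≠ x → i ≠ x → i1 ≠ q → i1 ≠ j → q ≠ j →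
    cnt w a l (!l) + 2 = n →
    HPs gadj (PB j l) [((w, some r), (a, none)),
      ((swp (swp a i i1) q i1, some q), (swp a i i1, some q))]

/-- Base words `s, b`; `cnt s b z u = n`, so `i1` is the only position with labels `uu` and `j` the only
one with labels `zz`; `sp = [r, x, q, i1]`;
`W = r :: uz :: x :: q :: zu :: i1 :: zu :: rp uz zu (n - 3)`.
Letters: `(s, none)`: front `T`, `U :: U :: U :: Z :: Z :: U :: Z :: UZ (n-3) = U :: yl n 1`;
`(swp s x q, some r)`: front `U`, `T :: U :: Z :: U :: Z :: U :: Z :: UZ (n-3) = T :: yl n 0`;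
`(b, none)`: front `T`, `Z :: Z :: Z :: U :: U :: U :: U :: ZU (n-3)`; `(b, some q)`: front `U`,
`Z :: Z :: Z :: T :: U :: U :: U :: ZU (n-3)`.  Use `S_B11c`; both pairs are reversed (`HPs.flips`). -/
def S_B11 : Prop := ∀ (n : ℕ) (ι : Type) [Fintype ι] [DecidableEq ι], 3 ≤ n →
  Fintype.card ι = 2 * n + 2 → ∀ (s b : ι → Bool) (j r x q i1 : ι) (l : Bool), Bal s → Bal b →
    s j = l → b j = l → s r = !l → b r = l → s x = !l → b x = l → s q = l → b q = !l →
    s i1 = !l → b i1 = !l → r ≠ x → cnt s b l (!l) = n →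
    HPs gadj (PB j l) [((s, none), (swp s x q, some r)), ((b, none), (b, some q))]

end Pool.Agent.MPc603ed
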